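import Pool.Agent.Lib_helper27.T.Ops
import Pool.Agent.Lib_helper27.T.Meas

section

/-!
# Part A: cardinal arithmetic, chain conditions, ultrafilters, operations on data
-/

set_option linter.unusedSectionVars false

namespace Pool.Agent.T27

open Pool.Agent.Lib_helper27 Cardinal Cod

section

variable {Ω : Type} [LinearOrder Ω]

/-! ### ULT -/

section ult

variable [Inac Ω] {U : Ultrafilter Ω} (hU : NUlt U)

include hU

end ult

/-! ### SIZ -/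

/-! ### CCC -/

/-! ### CCK, CCA -/

/-! ### COD -/

/-! ### EXH, SEQ -/

variable [Cod Ω]

/-! ### BSD -/

theorem Bd.wx {β : Ω} {e : Dt Ω} {x : Nm Ω} (h : Bd β e) (hx : BdN β x) : Bd β (e.wx x) :=
  ⟨h.H0, h.Hb, h.z0, h.zb, h.zw, hx⟩

/-! ### CAP -/

/-! ### EXT -/

/-! ### GLR -/

/-! ### DLM: limits of chains, and DMX: mixtures -/

/-- the condition `p` with another Mitchell part -/
def Pc.rs (p : Pc Ω) (m : Mt Ω) (h : m ≤ p.m) : Pc Ω :=
  ⟨m, p.e, p.tv.mono h, p.cl.imp fun _ h' => h'.mono h, p.bd⟩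

end

end Pool.Agent.T27

end

section

/-!
# ULT: normal ultrafilters
-/

set_option linter.unusedSectionVars false

namespace Pool.Agent.T27

open Pool.Agent.Lib_helper27 Cardinal Cod

section

variable {Ω : Type} [LinearOrder Ω]

section ult

variable [Inac Ω] {U : Ultrafilter Ω} (hU : NUlt U)

include hU

theorem ULT.reg0 (g : Ω → Ω) (h : {α | g α < α} ∈ U) : ∃ β, {α | g α = β} ∈ U := by
  by_contra hcon
  push Not at hcon
  have h1 := hU.norm (fun β => {α | g α = β}ᶜ) fun β => Ultrafilter.compl_mem_iff_notMem.2 (hcon β)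
  obtain ⟨α, h2, h3⟩ := U.nonempty_of_mem (Filter.inter_mem h1 h)
  exact h2 (g α) h3 rfl

theorem ULT.omega_lt : ℵ₀ < #Ω := by
  refine lt_trans ?_ (Inac.unc (Ω := Ω))
  rw [← aleph_zero]
  exact aleph_lt_aleph.2 zero_lt_one

/-- pressing down -/
theorem NUlt.press {X : Type} (S : Ω → Set X) (hS : ∀ β, #(S β) < #Ω) (f : Ω → X)
    (h : {α | ∃ β < α, f α ∈ S β} ∈ U) : ∃ x, {α | f α = x} ∈ U := by
  classical
  let g : Ω → Ω := fun α => if h : ∃ β < α, f α ∈ S β then h.choose else α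
  have hg : ∀ α, (∃ β < α, f α ∈ S β) → g α < α ∧ f α ∈ S (g α) := by
    intro α hα
    have : g α = hα.choose := dif_pos hα
    rw [this]
    exact hα.choose_spec
  obtain ⟨β, hβ⟩ := ULT.reg0 hU g (Filter.mem_of_superset h fun α hα => (hg α hα).1)
  have h1 : {α | f α ∈ S β} ∈ U := by
    refine Filter.mem_of_superset (Filter.inter_mem hβ h) ?_
    rintro α ⟨h2, h3⟩
    have h4 := (hg α h3).2
    have h5 : g α = β := h2
    rw [h5] at h4
    exact h4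
  by_contra hcon
  push Not at hcon
  have h2 := hU.comp (S β) (fun x => {α | f α = x.1}ᶜ) (hS β)
    fun x => Ultrafilter.compl_mem_iff_notMem.2 (hcon x.1)
  obtain ⟨α, h3, h4⟩ := U.nonempty_of_mem (Filter.inter_mem h2 h1)
  exact Set.mem_iInter.1 h3 ⟨f α, h4⟩ rfl

/-- closure points -/
theorem NUlt.clo {X : Type} (S : Ω → Set X) (hS : ∀ β, #(S β) < #Ω) (g : X → Ω) :
    {α | ∀ β < α, ∀ x ∈ S β, g x < α} ∈ U := by
  refine hU.norm (fun β => {α | ∀ x ∈ S β, g x < α}) fun β => ?_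
  obtain ⟨b, hb⟩ := Inac.reg (S β) (fun x => g x.1) (hS β)
  refine Filter.mem_of_superset (hU.tail b) fun α hα x hx => ?_
  exact (hb ⟨x, hx⟩).trans hα

theorem NUlt.act : {α : Ω | Act α} ∈ U := by
  classical
  by_contra hcon
  rw [← Ultrafilter.compl_mem_iff_notMem] at hcon
  have h1 : ∀ α : Ω, ∃ f : ℕ → Ω, ¬ Act α → (∀ n, f n < α) ∧ ∀ γ < α, ∃ n, γ ≤ f n := by
    intro α
    by_cases h : Act α
    · exact ⟨fun _ => α, fun h' => absurd h h'⟩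
    · unfold Act at h
      push Not at h
      obtain ⟨f, h2, h3⟩ := h
      exact ⟨f, fun _ => ⟨h2, h3⟩⟩
  choose f hf using h1
  have h2 : ∀ n, ∃ c, {α | f α n = c} ∈ U := fun n =>
    ULT.reg0 hU (fun α => f α n) (Filter.mem_of_superset hcon fun α hα => (hf α hα).1 n)
  choose c hc using h2
  have h3 : (⋂ n, {α | f α n = c n}) ∈ U :=
    hU.comp ℕ _ (by rw [mk_nat]; exact ULT.omega_lt hU) hc
  obtain ⟨b, hb⟩ := Inac.reg ℕ c (by rw [mk_nat]; exact ULT.omega_lt hU)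
  obtain ⟨α, ⟨h4, h5⟩, h6⟩ := U.nonempty_of_mem
    (Filter.inter_mem (Filter.inter_mem h3 hcon) (hU.tail b))
  obtain ⟨n, hn⟩ := (hf α h5).2 b h6
  have h7 : f α n = c n := Set.mem_iInter.1 h4 n
  rw [h7] at hn
  exact absurd (hb n) (not_lt.2 hn)

theorem NUlt.regP : {α : Ω | RegP α} ∈ U := by
  classical
  by_contra hcon
  rw [← Ultrafilter.compl_mem_iff_notMem] at hcon
  have h1 : ∀ α : Ω, ∃ (γ : Ω) (f : Ω → Ω), ¬ RegP α → γ < α ∧ (∀ x < γ, f x < α) ∧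
      ∀ δ < α, ∃ x < γ, δ ≤ f x := by
    intro α
    by_cases h : RegP α
    · exact ⟨α, fun _ => α, fun h' => absurd h h'⟩
    · unfold RegP at h
      push Not at h
      obtain ⟨γ, h2, f, h3, h4⟩ := h
      let F : Ω → Ω := fun x => if hx : x ∈ Set.Iio γ then f ⟨x, hx⟩ else x
      have hF : ∀ (x : Ω) (hx : x ∈ Set.Iio γ), F x = f ⟨x, hx⟩ := fun x hx => dif_pos hx
      refine ⟨γ, F, fun _ => ⟨h2, ?_, ?_⟩⟩
      · intro x hx
        rw [hF x hx]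
        exact h3 _
      · intro δ hδ
        obtain ⟨⟨x, hx⟩, h5⟩ := h4 δ hδ
        refine ⟨x, hx, ?_⟩
        rw [hF x hx]
        exact h5
  choose γ f hf using h1
  obtain ⟨g, hg⟩ := ULT.reg0 hU γ (Filter.mem_of_superset hcon fun α hα => (hf α hα).1)
  have h2 : ∀ x : Set.Iio g, ∃ c, {α | f α x.1 = c} ∈ U := by
    intro x
    refine ULT.reg0 hU (fun α => f α x.1) (Filter.mem_of_superset (Filter.inter_mem hcon hg) ?_)
    rintro α ⟨hα, hα'⟩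
    refine (hf α hα).2.1 x.1 ?_
    have : γ α = g := hα'
    rw [this]
    exact x.2
  choose c hc using h2
  have h3 : (⋂ x, {α | f α x.1 = c x}) ∈ U := hU.comp (Set.Iio g) _ (Inac.init g) hc
  obtain ⟨b, hb⟩ := Inac.reg (Set.Iio g) c (Inac.init g)
  obtain ⟨α, ⟨⟨h4, h5⟩, h6⟩, h7⟩ := U.nonempty_of_mem
    (Filter.inter_mem (Filter.inter_mem (Filter.inter_mem h3 hcon) (hU.tail b)) hg)
  obtain ⟨x, hx, hle⟩ := (hf α h5).2.2 b h6
  have h8 : γ α = g := h7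
  rw [h8] at hx
  have h9 : f α x = c ⟨x, hx⟩ := Set.mem_iInter.1 h4 ⟨x, hx⟩
  rw [h9] at hle
  exact absurd (hb ⟨x, hx⟩) (not_lt.2 hle)

theorem NUlt.lmt : {α : Ω | Lmt α ∧ ∃ γ, γ < α} ∈ U := by
  have hne : Nonempty Ω := by
    rw [← mk_ne_zero_iff]
    exact (lt_trans aleph0_pos (ULT.omega_lt hU)).ne'
  obtain ⟨a⟩ := hne
  refine Filter.mem_of_superset (Filter.inter_mem (NUlt.act hU) (hU.tail a)) ?_
  rintro α ⟨h1, h2⟩
  refine ⟨?_, a, h2⟩
  intro β hβ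
  obtain ⟨γ, h3, h4⟩ := h1 (fun _ => β) fun _ => hβ
  first
    | exact ⟨γ, h3, h4 0⟩
    | exact ⟨γ, h4 0, h3⟩

end ult

end

end Pool.Agent.T27

end

section

/-!
# MEAS: measurable cardinals are inaccessible and carry normal ultrafilters
-/

set_option linter.unusedSectionVars false

namespace Pool.Agent.T27

open Pool.Agent.Lib_helper27 Cardinal Cod

namespace MEAS

variable {κ : Cardinal.{0}}

/-- complete nonprincipal ultrafilters -/
def Good (κ : Cardinal.{0}) (U : Ultrafilter κ.ord.ToType) : Prop :=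
  (∀ (I : Type) (B : I → Set κ.ord.ToType), #I < κ → (∀ i, B i ∈ U) → (⋂ i, B i) ∈ U) ∧
    ∀ x, {x} ∉ U

variable {U : Ultrafilter κ.ord.ToType}

/-- small sets are null -/
theorem Good.small (hU : Good κ U) (S : Set κ.ord.ToType) (hS : #S < κ) : Sᶜ ∈ U := by
  have h1 := hU.1 S (fun x => {x.1}ᶜ) hS fun x => Ultrafilter.compl_mem_iff_notMem.2 (hU.2 x.1)
  refine Filter.mem_of_superset h1 fun y hy hyS => ?_
  exact Set.mem_iInter.1 hy ⟨y, hyS⟩ rfl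

theorem Iic_small (hκ : ℵ₀ < κ) (a : κ.ord.ToType) : #(Set.Iic a) < κ := by
  have h1 : #(Set.Iio a) < κ := mk_Iio_toType_ord_lt a
  have h2 : Set.Iic a = insert a (Set.Iio a) := by
    rw [Set.Iio_insert]
  rw [h2]
  refine lt_of_le_of_lt (mk_insert_le) ?_
  exact add_lt_of_lt hκ.le h1 (one_lt_aleph0.trans hκ)

theorem Good.tail (hκ : ℵ₀ < κ) (hU : Good κ U) (a : κ.ord.ToType) : Set.Ioi a ∈ U := by
  have h := hU.small (Set.Iic a) (Iic_small hκ a)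
  rwa [Set.compl_Iic] at h

theorem Good.reg (hκ : ℵ₀ < κ) (hU : Good κ U) (ι : Type) (f : ι → κ.ord.ToType) (hι : #ι < κ) :
    ∃ b, ∀ i, f i < b := by
  have h1 := hU.1 ι (fun i => Set.Ioi (f i)) hι fun i => hU.tail hκ (f i)
  obtain ⟨b, hb⟩ := U.nonempty_of_mem h1
  exact ⟨b, fun i => Set.mem_iInter.1 hb i⟩

theorem Good.pow (hU : Good κ U) (c : Cardinal.{0}) (hc : c < κ) : 2 ^ c < κ := by
  by_contra hcon
  push Not at hcon
  have h1 : #κ.ord.ToType ≤ #(c.out → Bool) := by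
    rw [mk_ord_toType]
    simpa using hcon
  obtain ⟨F⟩ := h1
  have h2 : ∀ i : c.out, ∃ b : Bool, {x | F x i = b} ∈ U := by
    intro i
    by_cases h : {x | F x i = true} ∈ U
    · exact ⟨true, h⟩
    · refine ⟨false, ?_⟩
      have h3 := Ultrafilter.compl_mem_iff_notMem.2 h
      refine Filter.mem_of_superset h3 fun x hx => ?_
      simpa using hx
  choose b hb using h2
  have h3 := hU.1 c.out (fun i => {x | F x i = b i}) (by rwa [mk_out]) hb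
  obtain ⟨x, hx⟩ := U.nonempty_of_mem h3
  apply hU.2 x
  refine Filter.mem_of_superset h3 fun y hy => ?_
  apply F.injective
  funext i
  have e1 : F x i = b i := Set.mem_iInter.1 hx i
  have e2 : F y i = b i := Set.mem_iInter.1 hy i
  rw [e1, e2]

end MEAS

theorem meas_inac {κ : Cardinal.{0}} (h : MeasC κ) : Inac κ.ord.ToType := by
  obtain ⟨hκ, U, hU⟩ := h
  have hU' : MEAS.Good κ U := hU
  have hmk : #κ.ord.ToType = κ := mk_ord_toType κ
  constructor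
  · rw [hmk]
    refine lt_of_le_of_lt aleph_one_le_continuum ?_
    rw [← two_power_aleph0]
    exact hU'.pow _ hκ
  · intro α
    rw [hmk]
    exact mk_Iio_toType_ord_lt α
  · intro c hc
    rw [hmk] at hc ⊢
    exact hU'.pow c hc
  · intro ι f hι
    rw [hmk] at hι
    exact hU'.reg hκ ι f hι

theorem meas_nult {κ : Cardinal.{0}} (h : MeasC κ) :
    ∃ U : Ultrafilter κ.ord.ToType, NUlt U := by
  classical
  obtain ⟨hκ, U, hU⟩ := h
  have hU' : MEAS.Good κ U := hU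
  have hmk : #κ.ord.ToType = κ := mk_ord_toType κ
  -- a minimal unbounded function
  let Unb : (κ.ord.ToType → κ.ord.ToType) → Prop := fun f => ∀ γ, {x | γ < f x} ∈ U
  have hmin : ∃ f, Unb f ∧ ∀ g, Unb g → {x | g x < f x} ∉ U := by
    by_contra hcon
    push Not at hcon
    have hid : Unb id := fun γ => hU'.tail hκ γ
    choose! G hG1 hG2 using hcon
    let s : ℕ → (κ.ord.ToType → κ.ord.ToType) := fun n => Nat.rec id (fun _ f => G f) n
    have hs : ∀ n, Unb (s n) := by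
      intro n
      induction n with
      | zero => exact hid
      | succ n ih => exact hG1 _ ih
    have hs2 : ∀ n, {x | s (n + 1) x < s n x} ∈ U := fun n => hG2 _ (hs n)
    have h1 := hU'.1 ℕ _ (by rw [mk_nat]; exact hκ) hs2
    obtain ⟨x, hx⟩ := U.nonempty_of_mem h1
    obtain ⟨n, hn⟩ := WellFounded.not_rel_apply_succ (r := (· < ·)) fun n => s n x
    exact hn (Set.mem_iInter.1 hx n)
  obtain ⟨f, hf1, hf2⟩ := hmin
  have hmem : ∀ s : Set κ.ord.ToType, s ∈ U.map f ↔ {x | f x ∈ s} ∈ U := fun s =>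
    Ultrafilter.mem_map
  refine ⟨U.map f, ?_, ?_, ?_⟩
  · intro ι A hι hA
    rw [hmk] at hι
    rw [hmem]
    have h1 := hU'.1 ι (fun i => {x | f x ∈ A i}) hι fun i => (hmem _).1 (hA i)
    refine Filter.mem_of_superset h1 fun x hx => ?_
    exact Set.mem_iInter.2 fun i => Set.mem_iInter.1 hx i
  · intro α
    rw [hmem]
    exact hf1 α
  · intro A hA
    by_contra hcon
    rw [hmem, ← Ultrafilter.compl_mem_iff_notMem] at hcon
    let g : κ.ord.ToType → κ.ord.ToType := fun x =>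
      if h : ∃ α < f x, f x ∉ A α then h.choose else f x
    have hg : ∀ x, (∃ α < f x, f x ∉ A α) → g x < f x ∧ f x ∉ A (g x) := by
      intro x hx
      have : g x = hx.choose := dif_pos hx
      rw [this]
      exact hx.choose_spec
    have hex : ∀ x ∈ {x | f x ∈ {β | ∀ α < β, β ∈ A α}}ᶜ, ∃ α < f x, f x ∉ A α := by
      intro x hx
      by_contra h
      push Not at h
      exact hx h
    have h1 : {x | g x < f x} ∈ U :=
      Filter.mem_of_superset hcon fun x hx => (hg x (hex x hx)).1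
    have h2 : ¬ Unb g := fun h => hf2 g h h1
    simp only [Unb] at h2
    push Not at h2
    obtain ⟨γ, h3⟩ := h2
    rw [← Ultrafilter.compl_mem_iff_notMem] at h3
    have h4 := hU'.1 (Set.Iic γ) (fun α => {x | f x ∈ A α.1}) (MEAS.Iic_small hκ γ)
      fun α => (hmem _).1 (hA α.1)
    obtain ⟨x, ⟨h5, h6⟩, h7⟩ := U.nonempty_of_mem (Filter.inter_mem (Filter.inter_mem h4 h3) hcon)
    have h8 : g x ≤ γ := not_lt.1 h6
    exact (hg x (hex x h7)).2 (Set.mem_iInter.1 h5 ⟨g x, h8⟩)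

end Pool.Agent.T27

end

section

/-!
# Block SIZ: supports and sizes
-/

set_option linter.unusedSectionVars false

namespace Pool.Agent.T27

open Pool.Agent.Lib_helper27 Cardinal Cod

section

variable {Ω : Type} [LinearOrder Ω]

namespace SIZ

theorem len_bot {q : Tm Ω} {γ : Ω} (h : ¬ ∃ i, i < q.len γ) : q.len γ = bot1 := by
  refine le_antisymm ?_ (bot1_le _)
  by_contra hcon
  exact h ⟨bot1, not_le.1 hcon⟩

/-- terms with the support below `β` -/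
theorem res_eq {q : Tm Ω} {α β : Ω} (hβ : β ≤ α)
    (h : ∀ γ < α, (∃ i, i < q.len γ) → γ < β) : q.res α = q.res β := by
  have hv : ∀ {δ γ : Ω} {i : Om1} {ξ : Ω} {a : Co Ω}, (q.res δ).v γ i ξ a →
      γ < δ ∧ q.v γ i ξ a := by
    intro δ γ i ξ a h1
    have h2 : γ < δ := by
      by_contra hcon
      have h3 := (q.res δ).out h1
      rw [Tm.res_len, if_neg hcon] at h3
      exact absurd h3 (not_lt.2 (bot1_le i))
    rw [Tm.res_v_lt h2] at h1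
    exact ⟨h2, h1⟩
  refine Tm.ext' (fun γ => ?_) fun γ i ξ a => ?_
  · rw [Tm.res_len, Tm.res_len]
    by_cases h1 : γ < β
    · rw [if_pos h1, if_pos (h1.trans_le hβ)]
    · rw [if_neg h1]
      by_cases h2 : γ < α
      · rw [if_pos h2]
        exact len_bot fun h3 => h1 (h γ h2 h3)
      · rw [if_neg h2]
  · constructor
    · intro h1
      obtain ⟨h2, h3⟩ := hv h1
      rw [Tm.res_v_lt (h γ h2 ⟨i, q.out h3⟩)]
      exact h3
    · intro h1
      obtain ⟨h2, h3⟩ := hv h1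
      rw [Tm.res_v_lt (h2.trans_le hβ)]
      exact h3

theorem res_self {q : Tm Ω} {β : Ω} (h : ∀ γ, (∃ i, i < q.len γ) → γ < β) : q.res β = q := by
  refine Tm.ext' (fun γ => ?_) fun γ i ξ a => ?_
  · rw [Tm.res_len]
    split_ifs with h1
    · rfl
    · exact (len_bot fun h3 => h1 (h γ h3)).symm
  · constructor
    · intro h1
      have h2 : γ < β := by
        by_contra hcon
        have h3 := (q.res β).out h1
        rw [Tm.res_len, if_neg hcon] at h3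
        exact absurd h3 (not_lt.2 (bot1_le i))
      rwa [Tm.res_v_lt h2] at h1
    · intro h1
      rw [Tm.res_v_lt (h γ ⟨i, q.out h1⟩)]
      exact h1

theorem inf [Inac Ω] : ℵ₀ ≤ #Ω :=
  (Cardinal.aleph0_le_aleph 1).trans (Inac.unc (Ω := Ω)).le

theorem cnt_lt [Inac Ω] {X : Type} [Countable X] : #X < #Ω := by
  have h1 : #X ≤ ℵ₀ := Cardinal.mk_le_aleph0
  have h2 : ℵ₀ < aleph 1 := Cardinal.aleph0_lt_aleph_one
  exact h1.trans_lt (h2.trans (Inac.unc (Ω := Ω)))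

theorem prod_lt [Inac Ω] {X Y : Type} (hX : #X < #Ω) (hY : #Y < #Ω) : #(X × Y) < #Ω := by
  rw [mk_prod, Cardinal.lift_id, Cardinal.lift_id]
  exact Cardinal.mul_lt_of_lt inf hX hY

theorem set_lt [Inac Ω] {X : Type} (hX : #X < #Ω) : #(Set X) < #Ω := by
  rw [mk_set]
  exact Inac.pow _ hX

theorem fun_lt [Inac Ω] {X Y : Type} (hX : #X < #Ω) (hY : #Y < #Ω) : #(X → Y) < #Ω := by
  refine lt_of_le_of_lt (mk_le_of_injective (f := fun (f : X → Y) => {p : X × Y | p.2 = f p.1}) ?_)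
    (set_lt (prod_lt hX hY))
  intro f g h
  funext x
  have h1 : (x, f x) ∈ {p : X × Y | p.2 = g p.1} := by
    have h2 : (x, f x) ∈ {p : X × Y | p.2 = f p.1} := rfl
    have h3 : {p : X × Y | p.2 = f p.1} = {p : X × Y | p.2 = g p.1} := h
    rwa [h3] at h2
  exact h1

theorem om1_lt [Inac Ω] : #Om1 < #Ω := by
  have h1 : #Om1 = aleph 1 := Q.mk_om1
  rw [h1]
  exact Inac.unc

instance : Countable Cn := by
  have : Countable Q.Fn := by
    unfold Q.Fn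
    infer_instance
  exact this

/-- countable sets below an active coordinate -/
theorem act_bdd {α : Ω} (hα : Act α) (hne : ∃ γ, γ < α) {S : Set Ω} (hS : S.Countable)
    (h : ∀ x ∈ S, x < α) : ∃ β < α, ∀ x ∈ S, x < β := by
  rcases S.eq_empty_or_nonempty with h0 | h0
  · obtain ⟨γ, hγ⟩ := hne
    exact ⟨γ, hγ, fun x hx => by rw [h0] at hx; exact hx.elim⟩
  · obtain ⟨f, hf⟩ := hS.exists_eq_range h0
    obtain ⟨γ, hγ, h1⟩ := hα f fun n => h _ (by rw [hf]; exact ⟨n, rfl⟩)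
    refine ⟨γ, hγ, fun x hx => ?_⟩
    rw [hf] at hx
    obtain ⟨n, rfl⟩ := hx
    exact h1 n

end SIZ

open SIZ

theorem Mt.exists_res [Inac Ω] (m : Mt Ω) : ∃ β, m.res β = m := by
  have hc : ({x | m.a.f x ≠ none} ∪ {γ | ∃ i, i < m.q.len γ} : Set Ω).Countable :=
    m.a.fin.countable.union m.q.cnt
  have : Countable ({x | m.a.f x ≠ none} ∪ {γ | ∃ i, i < m.q.len γ} : Set Ω) := hc.to_subtype
  obtain ⟨β, hβ⟩ := Inac.reg (({x | m.a.f x ≠ none} ∪ {γ | ∃ i, i < m.q.len γ} : Set Ω))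
    (fun x => (x : Ω)) cnt_lt
  refine ⟨β, ?_⟩
  have h1 : m.a.res β = m.a := by
    refine Co.ext' fun x => ?_
    rw [Co.res_f]
    split_ifs with h
    · rfl
    · by_contra hcon
      exact h (hβ ⟨x, Or.inl fun h2 => hcon h2.symm⟩)
  have h2 : m.q.res β = m.q := res_self fun γ hγ => hβ ⟨γ, Or.inr hγ⟩
  show (⟨m.a.res β, m.q.res β⟩ : Mt Ω) = m
  rw [h1, h2]

theorem Mt.res_below {α : Ω} (hα : Act α) (hne : ∃ γ, γ < α) (m : Mt Ω) :
    ∃ β < α, m.res α = m.res β := by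
  obtain ⟨β1, hβ1, h1⟩ := act_bdd hα hne (S := {γ | γ < α ∧ ∃ i, i < m.q.len γ})
    (m.q.cnt.mono fun γ hγ => hγ.2) fun x hx => hx.1
  obtain ⟨β2, hβ2, h2⟩ := Co.exists_res_eq hα hne m.a
  refine ⟨max β1 β2, max_lt hβ1 hβ2, ?_⟩
  have h3 : m.a.res α = m.a.res (max β1 β2) := by
    have h4 : (m.a.res α).res (max β1 β2) = m.a.res (max β1 β2) :=
      Co.res_res_of_le (max_lt hβ1 hβ2).le
    rw [← h4, h2, Co.res_res_of_le' (le_max_right _ _)]
  have h4 : m.q.res α = m.q.res (max β1 β2) :=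
    res_eq (max_lt hβ1 hβ2).le fun γ hγ hi => (h1 γ ⟨hγ, hi⟩).trans_le (le_max_left _ _)
  show (⟨m.a.res α, m.q.res α⟩ : Mt Ω) = ⟨m.a.res (max β1 β2), m.q.res (max β1 β2)⟩
  rw [h3, h4]

theorem mk_res [Inac Ω] (β : Ω) : #{m : Mt Ω // m.res β = m} < #Ω := by
  have hI : #(Set.Iio β) < #Ω := Inac.init β
  have hX : #(Set.Iio β → Option Bool) < #Ω := fun_lt hI cnt_lt
  have hL : #(Set.Iio β → Om1) < #Ω := fun_lt hI om1_lt
  have hS : #(Set (Set.Iio β × Om1 × Set.Iio β × (Set.Iio β → Option Bool))) < #Ω :=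
    set_lt (prod_lt hI (prod_lt om1_lt (prod_lt hI hX)))
  refine lt_of_le_of_lt (mk_le_of_injective (f := fun (m : {m : Mt Ω // m.res β = m}) =>
    ((fun x : Set.Iio β => m.1.a.f x, fun x : Set.Iio β => m.1.q.len x,
      {t : Set.Iio β × Om1 × Set.Iio β × (Set.Iio β → Option Bool) |
        ∃ a : Co Ω, (∀ x : Set.Iio β, a.f x = t.2.2.2 x) ∧ a.res β = a ∧
          m.1.q.v t.1 t.2.1 t.2.2.1 a}) :
      (Set.Iio β → Option Bool) × (Set.Iio β → Om1) ×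
        Set (Set.Iio β × Om1 × Set.Iio β × (Set.Iio β → Option Bool)))) ?_)
    (prod_lt hX (prod_lt hL hS))
  rintro ⟨m, hm⟩ ⟨m', hm'⟩ h
  simp only [Prod.mk.injEq] at h
  obtain ⟨h1, h2, h3⟩ := h
  have ma : m.a.res β = m.a := congrArg Mt.a hm
  have ma' : m'.a.res β = m'.a := congrArg Mt.a hm'
  have mq : m.q.res β = m.q := congrArg Mt.q hm
  have mq' : m'.q.res β = m'.q := congrArg Mt.q hm'
  have ea : m.a = m'.a := by
    refine Co.ext' fun x => ?_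
    rw [← ma, ← ma', Co.res_f, Co.res_f]
    split_ifs with hx
    · exact congrFun h1 ⟨x, hx⟩
    · rfl
  have key : ∀ {p p' : Tm Ω}, p.res β = p →
      {t : Set.Iio β × Om1 × Set.Iio β × (Set.Iio β → Option Bool) |
        ∃ a : Co Ω, (∀ x : Set.Iio β, a.f x = t.2.2.2 x) ∧ a.res β = a ∧
          p.v t.1 t.2.1 t.2.2.1 a} =
      {t : Set.Iio β × Om1 × Set.Iio β × (Set.Iio β → Option Bool) |
        ∃ a : Co Ω, (∀ x : Set.Iio β, a.f x = t.2.2.2 x) ∧ a.res β = a ∧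
          p'.v t.1 t.2.1 t.2.2.1 a} → ∀ γ i ξ a, p.v γ i ξ a → p'.v γ i ξ a := by
    intro p p' hp he γ i ξ a hv
    have hγ : γ < β := by
      by_contra hcon
      have h5 := p.out hv
      rw [← hp, Tm.res_len, if_neg hcon] at h5
      exact absurd h5 (not_lt.2 (bot1_le i))
    obtain ⟨_, β', hβ', h5⟩ := p.bd ⟨i, p.out hv⟩
    have hξ : ξ < β := (h5 i ξ a hv).1.trans (hβ'.trans hγ)
    have hv' : p.v γ i ξ (a.res β) := by
      rw [← p.based, Co.res_res_of_le hγ.le, p.based]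
      exact hv
    have hmem : ((⟨γ, hγ⟩, i, ⟨ξ, hξ⟩, fun x => (a.res β).f x) :
        Set.Iio β × Om1 × Set.Iio β × (Set.Iio β → Option Bool)) ∈
        {t : Set.Iio β × Om1 × Set.Iio β × (Set.Iio β → Option Bool) |
        ∃ a : Co Ω, (∀ x : Set.Iio β, a.f x = t.2.2.2 x) ∧ a.res β = a ∧
          p.v t.1 t.2.1 t.2.2.1 a} :=
      ⟨a.res β, fun x => rfl, Co.res_res_of_le le_rfl, hv'⟩
    rw [he] at hmem
    obtain ⟨a', h6, h7, h8⟩ := hmem
    have h9 : a' = a.res β := by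
      refine Co.ext' fun x => ?_
      by_cases hx : x < β
      · exact h6 ⟨x, hx⟩
      · rw [← h7, Co.res_f, Co.res_f, if_neg hx, if_neg hx]
    rw [h9] at h8
    exact (p'.v γ i ξ).mono (Co.le_res β a) h8
  have eq : m.q = m'.q := by
    refine Tm.ext' (fun γ => ?_) fun γ i ξ a => ⟨key mq h3 γ i ξ a, key mq' h3.symm γ i ξ a⟩
    rw [← mq, ← mq', Tm.res_len, Tm.res_len]
    split_ifs with hγ
    · exact congrFun h2 ⟨γ, hγ⟩
    · rfl
  have : m = m' := by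
    cases m
    cases m'
    simp only at ea eq
    rw [ea, eq]
  exact Subtype.ext this

theorem mk_bd [Inac Ω] [Cod Ω] (β : Ω) : #{e : Dt Ω // Bd β e} < #Ω := by
  have hI : #(Set.Iio β) < #Ω := Inac.init β
  have hO : #(Set.Iio (om β)) < #Ω := Inac.init (om β)
  have hM : #{m : Mt Ω // m.res β = m} < #Ω := mk_res β
  have hC : #Cn < #Ω := cnt_lt
  have hrr : ∀ m : Mt Ω, (m.res β).res β = m.res β := fun m => Mt.res_res_of_le' le_rfl
  refine lt_of_le_of_lt (mk_le_of_injective (f := fun (e : {e : Dt Ω // Bd β e}) =>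
    (({t | e.1.H t.1 t.2.1}, {t | e.1.z t.1 t.2.1 t.2.2.1 (t.2.2.2.1.1, t.2.2.2.2)},
      {t | e.1.x t.1 (t.2.1.1, t.2.2)}) :
      Set (Set.Iio β × {m : Mt Ω // m.res β = m}) ×
        Set (Set.Iio β × Set.Iio (om β) × Set.Iio β × {m : Mt Ω // m.res β = m} × Cn) ×
        Set (Set.Iio β × {m : Mt Ω // m.res β = m} × Cn))) ?_)
    (prod_lt (set_lt (prod_lt hI hM)) (prod_lt
      (set_lt (prod_lt hI (prod_lt hO (prod_lt hI (prod_lt hM hC)))))
      (set_lt (prod_lt hI (prod_lt hM hC)))))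
  rintro ⟨e, he⟩ ⟨e', he'⟩ h
  simp only [Prod.mk.injEq, Set.ext_iff, Set.mem_ofPred_eq] at h
  obtain ⟨h1, h2, h3⟩ := h
  have k1 : ∀ {e e' : Dt Ω}, Bd β e → Bd β e' →
      (∀ t : Set.Iio β × {m : Mt Ω // m.res β = m}, e.H t.1 t.2.1 ↔ e'.H t.1 t.2.1) →
      ∀ γ m, e.H γ m → e'.H γ m := by
    intro e e' he he' h γ m hH
    have h4 := (h (⟨γ, he.H0 hH⟩, ⟨m.res β, hrr m⟩)).1 (he.Hb hH)
    exact (e'.H γ).mono (Mt.le_res β m) h4
  have k3 : ∀ {e e' : Dt Ω}, Bd β e → Bd β e' →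
      (∀ t : Set.Iio β × {m : Mt Ω // m.res β = m} × Cn,
        e.x t.1 (t.2.1.1, t.2.2) ↔ e'.x t.1 (t.2.1.1, t.2.2)) →
      ∀ ξ k, e.x ξ k → e'.x ξ k := by
    intro e e' he he' h ξ k hx
    have h4 := (h (⟨ξ, he.x.x0 hx⟩, ⟨k.1.res β, hrr k.1⟩, k.2)).1 (he.x.xb hx)
    exact (e'.x ξ).mono (le_kres (α := β)) h4
  have k2 : ∀ {e e' : Dt Ω}, Bd β e → Bd β e' →
      (∀ t : Set.Iio β × Set.Iio (om β) × Set.Iio β × {m : Mt Ω // m.res β = m} × Cn,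
        e.z t.1 t.2.1 t.2.2.1 (t.2.2.2.1.1, t.2.2.2.2) ↔
          e'.z t.1 t.2.1 t.2.2.1 (t.2.2.2.1.1, t.2.2.2.2)) →
      ∀ γ i ξ k, e.z γ i ξ k → e'.z γ i ξ k := by
    intro e e' he he' h γ i ξ k hz
    obtain ⟨hγ, hξ⟩ := he.z0 hz
    have k4 : ∀ i, i < om γ → e.z γ i ξ k → e'.z γ i ξ k := by
      intro i hi hz
      have h4 := (h (⟨γ, hγ⟩, ⟨i, hi.trans_le (om_mono hγ.le)⟩, ⟨ξ, hξ.trans hγ⟩,
        ⟨k.1.res β, hrr k.1⟩, k.2)).1 (he.zb hz)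
      exact (e'.z γ i ξ).mono (le_kres (α := β)) h4
    by_cases hi : i < om γ
    · exact k4 i hi hz
    · rw [he.zw (not_lt.1 hi)] at hz
      rw [he'.zw (not_lt.1 hi)]
      exact k4 b0 ((b0_le γ).trans_lt (lt_om γ)) hz
  have : e = e' := by
    refine Dt.ext' (fun γ m => ⟨k1 he he' h1 γ m, k1 he' he (fun t => (h1 t).symm) γ m⟩)
      (fun γ i ξ k => ⟨k2 he he' h2 γ i ξ k, k2 he' he (fun t => (h2 t).symm) γ i ξ k⟩)
      fun ξ k => ⟨k3 he he' h3 ξ k, k3 he' he (fun t => (h3 t).symm) ξ k⟩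
  exact Subtype.ext this

end

end Pool.Agent.T27

end

section

/-! block CCC: finite partial functions have the countable chain condition -/

set_option linter.unusedSectionVars false

namespace Pool.Agent.T27

open Pool.Agent.Lib_helper27 Cardinal Cod

section

variable {Ω : Type} [LinearOrder Ω]

theorem CCC_aux {X ι : Type} (n : ℕ) : ∀ (S : Set ι), ¬ S.Countable → ∀ D : ι → Finset X,
    (∀ i ∈ S, (D i).card = n) → ∀ F : ι → X → Bool,
      ∃ i ∈ S, ∃ j ∈ S, i ≠ j ∧ ∀ x, x ∈ D i → x ∈ D j → F i x = F j x := by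
  classical
  induction n with
  | zero =>
    intro S hS D hD F
    have hnt : S.Nontrivial := by
      by_contra h
      rw [Set.not_nontrivial_iff] at h
      exact hS h.countable
    obtain ⟨i, hi, j, hj, hij⟩ := hnt
    refine ⟨i, hi, j, hj, hij, fun x hx => ?_⟩
    rw [Finset.card_eq_zero.1 (hD i hi)] at hx
    exact absurd hx (Finset.notMem_empty x)
  | succ n ih =>
    intro S hS D hD F
    by_cases hx : ∃ x, ¬ {i ∈ S | x ∈ D i}.Countable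
    · obtain ⟨x, hx⟩ := hx
      obtain ⟨b, hb⟩ : ∃ b : Bool, ¬ {i ∈ S | x ∈ D i ∧ F i x = b}.Countable := by
        by_contra h
        push Not at h
        refine hx (((h true).union (h false)).mono ?_)
        rintro i ⟨hi, hi2⟩
        cases hF : F i x with
        | true => exact Or.inl ⟨hi, hi2, hF⟩
        | false => exact Or.inr ⟨hi, hi2, hF⟩
      obtain ⟨i, hi, j, hj, hij, h⟩ := ih {i ∈ S | x ∈ D i ∧ F i x = b} hb
        (fun i => (D i).erase x) (by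
          rintro i ⟨hi, hi2, -⟩
          rw [Finset.card_erase_of_mem hi2, hD i hi]; rfl) F
      refine ⟨i, hi.1, j, hj.1, hij, fun y hy hy' => ?_⟩
      by_cases hyx : y = x
      · subst hyx
        rw [hi.2.2, hj.2.2]
      · exact h y (Finset.mem_erase.2 ⟨hyx, hy⟩) (Finset.mem_erase.2 ⟨hyx, hy'⟩)
    · push Not at hx
      have hne : S.Nonempty := by
        by_contra h
        rw [Set.not_nonempty_iff_eq_empty] at h
        rw [h] at hS
        exact hS Set.countable_empty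
      obtain ⟨i, hi⟩ := hne
      have hc : (⋃ x ∈ D i, {j ∈ S | x ∈ D j}).Countable :=
        Set.Countable.biUnion (Finset.countable_toSet _) fun x _ => hx x
      have hne2 : ∃ j ∈ S, j ∉ (⋃ x ∈ D i, {j ∈ S | x ∈ D j}) ∪ {i} := by
        by_contra h
        push Not at h
        exact hS ((hc.union (Set.countable_singleton i)).mono h)
      obtain ⟨j, hj, hj2⟩ := hne2
      rw [Set.mem_union, not_or] at hj2
      refine ⟨i, hi, j, hj, fun h => hj2.2 h.symm, fun x hx1 hx2 => ?_⟩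
      exfalso
      refine hj2.1 ?_
      simp only [Set.mem_iUnion]
      exact ⟨x, hx1, hj, hx2⟩

theorem ccc2 {ι : Type} [Uncountable ι] (f g : ι → Co Ω) :
    ∃ i j, i ≠ j ∧ Co.Cp (f i) (f j) ∧ Co.Cp (g i) (g j) := by
  classical
  set D : ι → Finset (Ω ⊕ Ω) := fun i => (f i).fin.toFinset.disjSum (g i).fin.toFinset with hD
  set F : ι → Ω ⊕ Ω → Bool := fun i => Sum.elim (fun x => ((f i).f x).getD false)
    (fun x => ((g i).f x).getD false) with hF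
  obtain ⟨n, hn⟩ : ∃ n, ¬ {i | (D i).card = n}.Countable := by
    by_contra h
    push Not at h
    have h2 : (⋃ n, {i | (D i).card = n}).Countable := Set.countable_iUnion h
    have h3 : (⋃ n, {i | (D i).card = n}) = Set.univ := by
      ext i; simp
    rw [h3] at h2
    exact Set.not_countable_univ h2
  obtain ⟨i, -, j, -, hij, h⟩ := CCC_aux n {i | (D i).card = n} hn D (fun i hi => hi) F
  refine ⟨i, j, hij, ?_, ?_⟩
  · intro x c d hc hd
    have h1 := h (Sum.inl x) (by simp [hD, hc]) (by simp [hD, hd])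
    simpa [hF, hc, hd] using h1
  · intro x c d hc hd
    have h1 := h (Sum.inr x) (by simp [hD, hc]) (by simp [hD, hd])
    simpa [hF, hc, hd] using h1

end

end Pool.Agent.T27

end

section

/-!
# Block EXH: exhaustion along `ω₁`, and descending sequences along a well-order
-/

namespace Pool.Agent.T27

open Pool.Agent.Lib_helper27 Cardinal Cod

/-- recursion along a well-order with a property of the values -/
theorem exh_rec {S I : Type} [LinearOrder I] [WellFoundedLT I]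
    (R : (i : I) → (Set.Iio i → S) → S → Prop)
    (C : (i : I) → (Set.Iio i → S) → Prop)
    (hR : ∀ i f, C i f → ∃ s, R i f s)
    (hC : ∀ (i : I) (g : I → S), (∀ j < i, R j (fun k => g k.1) (g j)) → C i fun k => g k.1)
    (s0 : I → S) : ∃ g : I → S, ∀ i, R i (fun k => g k.1) (g i) := by
  classical
  let F : (i : I) → ((j : I) → j < i → S) → S := fun i f =>
    if h : ∃ s, R i (fun k => f k.1 k.2) s then h.choose else s0 i
  let wf : WellFounded (fun a b : I => a < b) := wellFounded_lt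
  let g : I → S := wf.fix F
  have hg : ∀ i, g i = F i fun j _ => g j := fun i => wf.fix_eq F i
  refine ⟨g, fun i => ?_⟩
  induction i using wf.induction with
  | _ i ih =>
    have h1 : C i fun k => g k.1 := hC i g ih
    have h2 : ∃ s, R i (fun k => g k.1) s := hR i _ h1
    have h3 : g i = h2.choose := by
      rw [hg i]
      exact dif_pos h2
    rw [h3]
    exact h2.choose_spec

theorem exhaust {A Q : Type} [Preorder A] [Preorder Q]
    (ccc : ∀ f : Om1 → A, ∃ i j, i ≠ j ∧ ∃ c, c ≤ f i ∧ c ≤ f j)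
    (sig : ∀ (ι : Type) [Countable ι] [LinearOrder ι] [Nonempty ι] (q : ι → Q),
      (∀ i j, i ≤ j → q j ≤ q i) → ∃ r, ∀ i, r ≤ q i)
    (D : A → Q → Prop) (mono : ∀ a a' q q', a' ≤ a → q' ≤ q → D a q → D a' q')
    (dns : ∀ a q, ∃ a' ≤ a, ∃ q' ≤ q, D a' q') (q : Q) :
    ∃ q' ≤ q, ∃ W : Set A, W.Countable ∧ (∀ w ∈ W, D w q') ∧
      ∀ a, ∃ w ∈ W, ∃ c, c ≤ a ∧ c ≤ w := by
  classical
  -- the relation of one step
  let R : (i : Om1) → (Set.Iio i → Option A × Q) → Option A × Q → Prop := fun i f s =>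
    s.2 ≤ q ∧ (∀ j, s.2 ≤ (f j).2) ∧
      ((∃ w, s.1 = some w ∧ D w s.2 ∧ ∀ j w', (f j).1 = some w' → ¬ ∃ c, c ≤ w ∧ c ≤ w') ∨
        (s.1 = none ∧ ∀ a, ∃ j w', (f j).1 = some w' ∧ ∃ c, c ≤ a ∧ c ≤ w'))
  let C : (i : Om1) → (Set.Iio i → Option A × Q) → Prop := fun i f =>
    ∃ r ≤ q, ∀ j, r ≤ (f j).2
  have hR : ∀ i f, C i f → ∃ s, R i f s := by
    rintro i f ⟨r, hr, hrf⟩
    by_cases h : ∀ a, ∃ j w', (f j).1 = some w' ∧ ∃ c, c ≤ a ∧ c ≤ w'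
    · exact ⟨(none, r), hr, hrf, Or.inr ⟨rfl, h⟩⟩
    · push Not at h
      obtain ⟨a, ha⟩ := h
      obtain ⟨a', ha', q', hq', hD⟩ := dns a r
      refine ⟨(some a', q'), hq'.trans hr, fun j => hq'.trans (hrf j), Or.inl
        ⟨a', rfl, hD, ?_⟩⟩
      rintro j w' hw ⟨c, hc1, hc2⟩
      exact ha j w' hw c (hc1.trans ha') hc2
  have hC : ∀ (i : Om1) (g : Om1 → Option A × Q), (∀ j < i, R j (fun k => g k.1) (g j)) →
      C i fun k => g k.1 := by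
    intro i g hg
    by_cases hne : Nonempty (Set.Iio i)
    · haveI : Countable (Set.Iio i) := (countable_iio1 i).to_subtype
      obtain ⟨r, hr⟩ := sig (Set.Iio i) (fun k => (g k.1).2) (by
        intro k l hkl
        rcases eq_or_lt_of_le hkl with h | h
        · rw [h]
        · exact (hg l.1 l.2).2.1 ⟨k.1, h⟩)
      obtain ⟨k⟩ := hne
      exact ⟨r, (hr k).trans (hg k.1 k.2).1, hr⟩
    · exact ⟨q, le_rfl, fun j => (hne ⟨j⟩).elim⟩
  obtain ⟨g, hg⟩ := exh_rec R C hR hC fun _ => (none, q)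
  -- the construction stops
  have hstop : ∃ i, (g i).1 = none := by
    by_contra hcon
    push Not at hcon
    have h1 : ∀ i, ∃ w, (g i).1 = some w := fun i => Option.ne_none_iff_exists'.1 (hcon i)
    choose w hw using h1
    obtain ⟨i, j, hij, c, hci, hcj⟩ := ccc w
    have key : ∀ i j, i < j → ¬ ∃ c, c ≤ w j ∧ c ≤ w i := by
      intro i j hlt
      rcases (hg j).2.2 with ⟨v, hv, _, h3⟩ | ⟨h3, _⟩
      · have h4 : v = w j := by
          have := (hv.symm.trans (hw j))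
          exact Option.some_injective _ this
        rw [← h4]
        exact h3 ⟨i, hlt⟩ (w i) (hw i)
      · exact absurd h3 (hcon j)
    rcases lt_or_gt_of_ne hij with h | h
    · exact key i j h ⟨c, hcj, hci⟩
    · exact key j i h ⟨c, hci, hcj⟩
  obtain ⟨i, hi⟩ := hstop
  refine ⟨(g i).2, (hg i).1, {w | ∃ j : Set.Iio i, (g j.1).1 = some w}, ?_, ?_, ?_⟩
  · haveI : Countable (Set.Iio i) := (countable_iio1 i).to_subtype
    have h1 : {w | ∃ j : Set.Iio i, (g j.1).1 = some w} ⊆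
        ⋃ j : Set.Iio i, {w | (g j.1).1 = some w} := by
      rintro w ⟨j, hj⟩
      exact Set.mem_iUnion.2 ⟨j, hj⟩
    refine Set.Countable.mono h1 (Set.countable_iUnion fun j => ?_)
    refine Set.Subsingleton.countable ?_
    intro x hx y hy
    have h2 : (g j.1).1 = some x := hx
    have h3 : (g j.1).1 = some y := hy
    exact Option.some_injective _ (h2.symm.trans h3)
  · rintro w ⟨j, hj⟩
    rcases (hg j.1).2.2 with ⟨v, hv, hD, _⟩ | ⟨h3, _⟩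
    · have h4 : v = w := Option.some_injective _ (hv.symm.trans hj)
      rw [← h4]
      exact mono _ _ _ _ le_rfl ((hg i).2.1 j) hD
    · rw [hj] at h3
      exact absurd h3 (by simp)
  · intro a
    rcases (hg i).2.2 with ⟨v, hv, _⟩ | ⟨_, h3⟩
    · rw [hi] at hv
      exact absurd hv (by simp)
    · obtain ⟨j, w', hj, hc⟩ := h3 a
      exact ⟨w', ⟨j, hj⟩, hc⟩

theorem seqD {S I : Type} [Preorder S] [LinearOrder I] [WellFoundedLT I]
    (hcl : ∀ x : I, Nonempty (Set.Iio x) → ∀ f : Set.Iio x → S, Antitone f → ∃ q, ∀ i, q ≤ f i)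
    (D : I → Set S) (p : S) (hD : ∀ i, ∀ q ≤ p, ∃ r ≤ q, r ∈ D i) :
    ∃ g : I → S, Antitone g ∧ ∀ i, g i ≤ p ∧ g i ∈ D i := by
  classical
  obtain ⟨g, hg⟩ := exh_rec (S := S) (I := I)
    (fun i f s => s ≤ p ∧ s ∈ D i ∧ ∀ j, s ≤ f j)
    (fun i f => ∃ r ≤ p, ∀ j, r ≤ f j)
    (by
      rintro i f ⟨r, hr, hrf⟩
      obtain ⟨s, hs, hsD⟩ := hD i r hr
      exact ⟨s, hs.trans hr, hsD, fun j => hs.trans (hrf j)⟩)
    (by
      intro i g hg
      by_cases hne : Nonempty (Set.Iio i)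
      · obtain ⟨r, hr⟩ := hcl i hne (fun k => g k.1) (by
          intro k l hkl
          rcases eq_or_lt_of_le hkl with h | h
          · rw [h]
          · exact (hg l.1 l.2).2.2 ⟨k.1, h⟩)
        obtain ⟨k⟩ := hne
        exact ⟨r, (hr k).trans (hg k.1 k.2).1, hr⟩
      · exact ⟨p, le_rfl, fun j => (hne ⟨j⟩).elim⟩)
    (fun _ => p)
  refine ⟨g, ?_, fun i => ⟨(hg i).1, (hg i).2.1⟩⟩
  intro i j hij
  rcases eq_or_lt_of_le hij with h | h
  · rw [h]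
  · exact (hg j).2.2 ⟨i, h⟩

end Pool.Agent.T27

end

section

/-!
# Block BSD: bounded data
-/

set_option linter.unusedSectionVars false

namespace Pool.Agent.T27

open Pool.Agent.Lib_helper27 Cardinal Cod

section

variable {Ω : Type} [LinearOrder Ω]

namespace BSD

theorem Loc_res {β : Ω} {P : Mt Ω → Prop} (hP : ∀ m m', m' ≤ m → P m → P m')
    (hb : ∀ m, P m → P (m.res β)) {m : Mt Ω} (h : Loc m P) : Loc (m.res β) P := by
  intro q hq
  obtain ⟨r, hr, h1⟩ := h _ (Mt.gl_le hq)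
  have h2 : r.res β ≤ q.res β := by
    have := Mt.res_mono (α := β) hr
    rwa [Mt.gl_res] at this
  refine ⟨Mt.gl β r q, Mt.gl_le' h2, ?_⟩
  have h3 := hb r h1
  have h4 : (Mt.gl β r q).res β = r.res β := Mt.gl_res
  rw [← h4] at h3
  exact hP _ _ (Mt.le_res _ _) h3

theorem kLoc_res {β : Ω} {P : K Ω → Prop} (hP : ∀ k k', k' ≤ k → P k → P k')
    (hb : ∀ k, P k → P (kres β k)) {k : K Ω} (h : Loc k P) : Loc (kres β k) P := by
  intro q hq
  obtain ⟨r, hr, h1⟩ := h (Mt.gl β q.1 k.1, q.2) ⟨Mt.gl_le hq.1, hq.2⟩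
  have h2 : r.1.res β ≤ q.1.res β := by
    have := Mt.res_mono (α := β) hr.1
    rwa [Mt.gl_res] at this
  refine ⟨(Mt.gl β r.1 q.1, r.2), ⟨Mt.gl_le' h2, hr.2⟩, ?_⟩
  have h3 := hb r h1
  have h4 : kres β r = kres β (Mt.gl β r.1 q.1, r.2) := by
    show (r.1.res β, r.2) = ((Mt.gl β r.1 q.1).res β, r.2)
    rw [Mt.gl_res]
  rw [h4] at h3
  exact hP _ _ le_kres h3

/-- based below `α` -/
def Bs (α : Ω) (x : Nm Ω) : Prop := ∀ ξ k, x ξ k → x ξ (kres α k)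

theorem Bs.iff {α : Ω} {x : Nm Ω} (h : Bs α x) {ξ : Ω} {k k' : K Ω} (hk : kres α k = kres α k') :
    x ξ k ↔ x ξ k' := by
  constructor
  · intro h1
    have h2 := h ξ k h1
    rw [hk] at h2
    exact (x ξ).mono le_kres h2
  · intro h1
    have h2 := h ξ k' h1
    rw [← hk] at h2
    exact (x ξ).mono le_kres h2

theorem gl_key {α : Ω} {k k' : K Ω} (h : k' ≤ kres α k) :
    ∃ k'' ≤ k, kres α k'' = kres α k' := by
  refine ⟨(Mt.gl α k'.1 k.1, k'.2), ⟨Mt.gl_le h.1, h.2⟩, ?_⟩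
  show ((Mt.gl α k'.1 k.1).res α, k'.2) = (k'.1.res α, k'.2)
  rw [Mt.gl_res]

theorem gl_key' {α : Ω} {k k' : K Ω} (h : kres α k' ≤ kres α k) :
    ∃ k'' ≤ k, kres α k'' = kres α k' := by
  refine ⟨(Mt.gl α k'.1 k.1, k'.2), ⟨Mt.gl_le' h.1, h.2⟩, ?_⟩
  show ((Mt.gl α k'.1 k.1).res α, k'.2) = (k'.1.res α, k'.2)
  rw [Mt.gl_res]

theorem Bs.glue {α γ : Ω} {x y : Nm Ω} (hx : Bs α x) (hy : Bs α y) : Bs α (glue γ y x) := by
  intro ξ k h
  rcases lt_or_ge ξ γ with h1 | h1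
  · rw [glue_lt h1] at h ⊢
    exact hy ξ k h
  · rw [glue_ge h1] at h ⊢
    exact hx ξ k h

theorem Bs.flip {α η : Ω} {x : Nm Ω} (hx : Bs α x) : Bs α (flipAt η x) := by
  intro ξ k h
  by_cases h1 : ξ = η
  · subst h1
    rw [flipAt_self] at h ⊢
    intro k' hk' h2
    obtain ⟨k'', h3, h4⟩ := gl_key hk'
    exact h k'' h3 ((hx.iff h4).2 h2)
  · rw [flipAt_ne h1] at h ⊢
    exact hx ξ k h

theorem EqB_res {α γ : Ω} {x y : Nm Ω} (hx : Bs α x) (hy : Bs α y) {k k' : K Ω}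
    (hk : kres α k = kres α k') (h : EqB k γ x y) : EqB k' γ x y := by
  intro q hq ξ hξ
  have h1 : kres α q ≤ kres α k := by
    rw [hk]
    exact kres_mono hq
  obtain ⟨q', h2, h3⟩ := gl_key' h1
  rw [← hx.iff h3, ← hy.iff h3]
  exact h q' h2 ξ hξ

theorem mgl_key {α : Ω} {m m' : Mt Ω} (h : m' ≤ m.res α) : ∃ n ≤ m, n.res α = m'.res α :=
  ⟨Mt.gl α m' m, Mt.gl_le h, Mt.gl_res⟩

theorem mgl_key' {α : Ω} {m m' : Mt Ω} (h : m'.res α ≤ m.res α) : ∃ n ≤ m, n.res α = m'.res α :=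
  ⟨Mt.gl α m' m, Mt.gl_le' h, Mt.gl_res⟩

theorem EqM_res {α γ : Ω} {x y : Nm Ω} (hx : Bs α x) (hy : Bs α y) {m m' : Mt Ω}
    (hm : m.res α = m'.res α) (h : EqM m γ x y) : EqM m' γ x y := by
  intro k hk ξ hξ
  have h1 : kres α k ≤ kres α (m, k.2) := by
    refine ⟨?_, le_rfl⟩
    show k.1.res α ≤ m.res α
    rw [hm]
    exact Mt.res_mono hk
  obtain ⟨q, h2, h3⟩ := gl_key' h1
  rw [← hx.iff h3, ← hy.iff h3]
  exact h q h2.1 ξ hξ

theorem In_res {α γ : Ω} {z : Ω → Nm Ω} {x : Nm Ω} (hx : Bs α x) (hz : ∀ i, Bs α (z i))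
    {m m' : Mt Ω} (hm : m.res α = m'.res α) (h : In m γ z x) : In m' γ z x := by
  intro k hk
  have h1 : kres α k ≤ kres α (m, k.2) := by
    refine ⟨?_, le_rfl⟩
    show k.1.res α ≤ m.res α
    rw [hm]
    exact Mt.res_mono hk
  obtain ⟨q, h2, h3⟩ := gl_key' h1
  obtain ⟨r, h4, i, h5⟩ := h q h2.1
  have h6 : kres α r ≤ kres α k := by
    rw [← h3]
    exact kres_mono h4
  obtain ⟨s, h7, h8⟩ := gl_key' h6
  exact ⟨s, h7, i, EqB_res hx (hz i) h8.symm h5⟩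

variable [Cod Ω]

theorem bsz {β : Ω} {e : Dt Ω} (h : Bd β e) (γ i : Ω) : Bs β (e.z γ i) := fun _ _ h1 => h.zb h1

theorem bsx {β : Ω} {x : Nm Ω} (h : BdN β x) : Bs β x := fun _ _ h1 => h.xb h1

theorem H_res {β : Ω} {e : Dt Ω} (h : Bd β e) {m m' : Mt Ω} (hm : m.res β = m'.res β) {γ : Ω}
    (h1 : e.H γ m) : e.H γ m' := by
  have h2 := h.Hb h1
  rw [hm] at h2
  exact (e.H γ).mono (Mt.le_res _ _) h2

/-- two conditions with the same restriction: every extension of the first has a counterpart -/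
theorem cpt {α : Ω} {m m' n : Mt Ω} (hm : m.res α = m'.res α) (hn : n ≤ m') :
    ∃ l ≤ m, l.res α = n.res α := by
  refine mgl_key' ?_
  rw [hm]
  exact Mt.res_mono hn

theorem TV_res0 {α : Ω} {e : Dt Ω} (he : Bd α e) {m m' : Mt Ω} (hm : m.res α = m'.res α)
    (h : TV m e) : TV m' e := by
  refine ⟨?_, ?_, ?_, ?_⟩
  · intro n γ γ' hn hH hle
    obtain ⟨l, h1, h2⟩ := cpt hm hn
    exact H_res he h2 (h.dn h1 (H_res he h2.symm hH) hle)
  · intro n γ γ' hn hH hle i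
    obtain ⟨l, h1, h2⟩ := cpt hm hn
    exact In_res (bsz he _ _) (bsz he _) h2 (h.res h1 (H_res he h2.symm hH) hle i)
  · intro n γ γ' hn hH hle i j
    obtain ⟨l, h1, h2⟩ := cpt hm hn
    exact In_res ((bsz he _ _).glue (bsz he _ _)) (bsz he _) h2
      (h.rep h1 (H_res he h2.symm hH) hle i j)
  · intro n γ hn hH ξ hξ i
    obtain ⟨l, h1, h2⟩ := cpt hm hn
    exact In_res (bsz he _ _).flip (bsz he _) h2 (h.flp h1 (H_res he h2.symm hH) ξ hξ i)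

theorem Brn_res0 {α : Ω} {e : Dt Ω} (he : Bd α e) {x : Nm Ω} (hx : BdN α x) {m m' : Mt Ω}
    (hm : m.res α = m'.res α) (h : Brn m e x) : Brn m' e x := by
  intro n γ hn hH
  obtain ⟨l, h1, h2⟩ := cpt hm hn
  exact In_res (bsx hx) (bsz he _) h2 (h l γ h1 (H_res he h2.symm hH))

theorem LeT_res0 {α : Ω} {e e' : Dt Ω} (he : Bd α e) (he' : Bd α e') {m m' : Mt Ω}
    (hm : m.res α = m'.res α) (h : LeT m e' e) : LeT m' e' e := by
  intro n hn γ hH
  obtain ⟨l, h1, h2⟩ := cpt hm hn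
  obtain ⟨h3, h4⟩ := h l h1 γ (H_res he h2.symm hH)
  exact ⟨H_res he' h2 h3, fun i => EqM_res (bsz he' _ _) (bsz he _ _) h2 (h4 i)⟩

theorem LeX_res0 {α : Ω} {e : Dt Ω} (he : Bd α e) {x y : Nm Ω} (hx : BdN α x) (hy : BdN α y)
    {m m' : Mt Ω} (hm : m.res α = m'.res α) (h : LeX m e y x) : LeX m' e y x := by
  intro n hn γ hH
  obtain ⟨l, h1, h2⟩ := cpt hm hn
  exact EqM_res (bsx hy) (bsx hx) h2 (h l h1 γ (H_res he h2.symm hH))

theorem Hts_res0 {α : Ω} {e : Dt Ω} (he : Bd α e) {m m' : Mt Ω} {δ : Ω}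
    (hm : m.res α = m'.res α) (h : Hts m e δ) : Hts m' e δ := by
  intro γ
  refine ⟨fun hγ => H_res he hm ((h γ).1 hγ), fun hγ n hn hH => ?_⟩
  obtain ⟨l, h1, h2⟩ := cpt hm hn
  exact (h γ).2 hγ l h1 (H_res he h2.symm hH)

theorem RCl_res0 {α : Ω} {e : Dt Ω} (he : Bd α e) {m m' : Mt Ω}
    (hm : m.res α = m'.res α) (h : RCl m e) : RCl m' e := by
  intro n hn
  obtain ⟨l, h1, h2⟩ := cpt hm hn
  obtain ⟨r, h3, δ, h4⟩ := h l h1
  obtain ⟨s, h5, h6⟩ := cpt h2.symm h3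
  exact ⟨s, h5, δ, Hts_res0 he h6.symm h4⟩

theorem rr {α : Ω} {m : Mt Ω} : (m.res α).res α = m.res α := Mt.res_res_of_le le_rfl

theorem kle {β β' : Ω} (h : β ≤ β') {k : K Ω} : kres β' k ≤ kres β k := by
  refine ⟨?_, le_rfl⟩
  show k.1.res β' ≤ k.1.res β
  rw [← Mt.res_res_of_le h]
  exact Mt.le_res _ _

end BSD

variable [Cod Ω]

/-! ### BSD -/

theorem BdN.mono {β β' : Ω} {x : Nm Ω} (h : BdN β x) (hβ : β ≤ β') : BdN β' x :=
  ⟨fun h1 => (h.x0 h1).trans_le hβ, fun h1 => (x _).mono (BSD.kle hβ) (h.xb h1)⟩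

theorem Bd.mono {β β' : Ω} {e : Dt Ω} (h : Bd β e) (hβ : β ≤ β') : Bd β' e := by
  refine ⟨fun h1 => (h.H0 h1).trans_le hβ, fun {γ m} h1 => ?_, fun h1 =>
    ⟨(h.z0 h1).1.trans_le hβ, (h.z0 h1).2⟩, fun {γ i ξ k} h1 => ?_, h.zw, h.x.mono hβ⟩
  · have h2 := h.Hb h1
    rw [← Mt.res_res_of_le hβ] at h2
    exact (e.H γ).mono (Mt.le_res _ _) h2
  · exact (e.z γ i ξ).mono (BSD.kle hβ) (h.zb h1)

theorem TV_res {α : Ω} {e : Dt Ω} (he : Bd α e) {m : Mt Ω} : TV (m.res α) e ↔ TV m e :=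
  ⟨BSD.TV_res0 he BSD.rr, BSD.TV_res0 he BSD.rr.symm⟩

theorem Brn_res {α : Ω} {e : Dt Ω} (he : Bd α e) {x : Nm Ω} (hx : BdN α x) {m : Mt Ω} :
    Brn (m.res α) e x ↔ Brn m e x :=
  ⟨BSD.Brn_res0 he hx BSD.rr, BSD.Brn_res0 he hx BSD.rr.symm⟩

theorem DV_res {α : Ω} {e : Dt Ω} (he : Bd α e) {m : Mt Ω} : DV (m.res α) e ↔ DV m e :=
  ⟨fun h => ⟨(TV_res he).1 h.toTV, (Brn_res he he.x).1 h.br⟩,
    fun h => ⟨(TV_res he).2 h.toTV, (Brn_res he he.x).2 h.br⟩⟩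

theorem LeT_res {α : Ω} {e e' : Dt Ω} (he : Bd α e) (he' : Bd α e') {m : Mt Ω} :
    LeT (m.res α) e' e ↔ LeT m e' e :=
  ⟨BSD.LeT_res0 he he' BSD.rr, BSD.LeT_res0 he he' BSD.rr.symm⟩

theorem LeX_res {α : Ω} {e : Dt Ω} (he : Bd α e) {x y : Nm Ω} (hx : BdN α x) (hy : BdN α y)
    {m : Mt Ω} : LeX (m.res α) e y x ↔ LeX m e y x :=
  ⟨BSD.LeX_res0 he hx hy BSD.rr, BSD.LeX_res0 he hx hy BSD.rr.symm⟩

theorem LeD_res {α : Ω} {e e' : Dt Ω} (he : Bd α e) (he' : Bd α e') {m : Mt Ω} :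
    LeD (m.res α) e' e ↔ LeD m e' e :=
  ⟨fun h => ⟨(LeT_res he he').1 h.t, (LeX_res he he.x he'.x).1 h.x⟩,
    fun h => ⟨(LeT_res he he').2 h.t, (LeX_res he he.x he'.x).2 h.x⟩⟩

theorem Hts_res {α : Ω} {e : Dt Ω} (he : Bd α e) {m : Mt Ω} {δ : Ω} :
    Hts (m.res α) e δ ↔ Hts m e δ :=
  ⟨BSD.Hts_res0 he BSD.rr, BSD.Hts_res0 he BSD.rr.symm⟩

theorem RCl_res {α : Ω} {e : Dt Ω} (he : Bd α e) {m : Mt Ω} : RCl (m.res α) e ↔ RCl m e :=
  ⟨BSD.RCl_res0 he BSD.rr, BSD.RCl_res0 he BSD.rr.symm⟩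

theorem UN_bd {L : Type} {φ : L → Mt Ω → Prop} {e : L → Dt Ω}
    (hφ : ∀ l m m', m' ≤ m → φ l m → φ l m') {β : Ω} (hb : ∀ l m, φ l m → φ l (m.res β))
    (he : ∀ l m, φ l m → Bd β (e l)) : Bd β (UN φ e) := by
  refine ⟨?_, ?_, ?_, ?_, ?_, ?_, ?_⟩
  · intro γ m h
    obtain ⟨n, _, l, h1, h2⟩ := h.exists
    exact (he l n h1).H0 h2
  · intro γ m h
    refine BSD.Loc_res ?_ ?_ h
    · rintro n n' hn ⟨l, h1, h2⟩
      exact ⟨l, hφ l n n' hn h1, ((e l).H γ).mono hn h2⟩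
    · rintro n ⟨l, h1, h2⟩
      exact ⟨l, hb l n h1, (he l n h1).Hb h2⟩
  · intro γ i ξ k h
    obtain ⟨n, _, l, h1, _, h2⟩ := h.exists
    exact (he l n.1 h1).z0 h2
  · intro γ i ξ k h
    refine BSD.kLoc_res ?_ ?_ h
    · rintro n n' hn ⟨l, h1, h2, h3⟩
      exact ⟨l, hφ l n.1 n'.1 hn.1 h1, ((e l).H γ).mono hn.1 h2, ((e l).z γ i ξ).mono hn h3⟩
    · rintro n ⟨l, h1, h2, h3⟩
      exact ⟨l, hb l n.1 h1, (he l n.1 h1).Hb h2, (he l n.1 h1).zb h3⟩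
  · intro γ i hi
    funext ξ
    refine RP.ext fun k => ?_
    constructor
    · intro h
      refine Loc.imp h ?_
      rintro k' _ ⟨l, h1, h2, h3⟩
      refine ⟨l, h1, h2, ?_⟩
      rw [← (he l k'.1 h1).zw hi]
      exact h3
    · intro h
      refine Loc.imp h ?_
      rintro k' _ ⟨l, h1, h2, h3⟩
      refine ⟨l, h1, h2, ?_⟩
      rw [(he l k'.1 h1).zw hi]
      exact h3
  · intro ξ k h
    obtain ⟨n, _, l, h1, ⟨γ, h2, h3⟩, _⟩ := h.exists
    exact h2.trans ((he l n.1 h1).H0 h3)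
  · intro ξ k h
    refine BSD.kLoc_res ?_ ?_ h
    · rintro n n' hn ⟨l, h1, ⟨γ, h2, h3⟩, h4⟩
      exact ⟨l, hφ l n.1 n'.1 hn.1 h1, ⟨γ, h2, ((e l).H γ).mono hn.1 h3⟩, ((e l).x ξ).mono hn h4⟩
    · rintro n ⟨l, h1, ⟨γ, h2, h3⟩, h4⟩
      exact ⟨l, hb l n.1 h1, ⟨γ, h2, (he l n.1 h1).Hb h3⟩, (he l n.1 h1).x.xb h4⟩

/-- the height may be decided -/
theorem exists_hop [WellFoundedLT Ω] {β : Ω} {e : Dt Ω} (he : Bd β e) {m : Mt Ω}
    (hv : TV m e) :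
    ∃ m' ≤ m, ∃ δ ≤ β, Hop m' e δ ∧ ((∃ δ', Hts m' e δ') ∨ Lmt δ) := by
  classical
  let S : Set Ω := {δ | ∃ m' ≤ m, ∀ γ, δ ≤ γ → ∀ m'' ≤ m', ¬ e.H γ m''}
  have hβ : β ∈ S := ⟨m, le_rfl, fun γ hγ m'' _ h => absurd (he.H0 h) (not_lt.2 hγ)⟩
  let δ : Ω := (wellFounded_lt (α := Ω)).min S ⟨β, hβ⟩
  have hδ : δ ∈ S := (wellFounded_lt (α := Ω)).min_mem S ⟨β, hβ⟩
  have hmin : ∀ γ ∈ S, δ ≤ γ := fun γ hγ =>
    not_lt.1 ((wellFounded_lt (α := Ω)).not_lt_min S hγ)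
  obtain ⟨m', hm', h1⟩ := hδ
  have hop : Hop m' e δ := by
    intro γ
    refine ⟨fun hγ => (e.H γ).reg fun q hq => ?_, fun hγ n hn => h1 γ hγ n hn⟩
    by_contra hcon
    push Not at hcon
    have h2 : γ ∈ S := by
      refine ⟨q, hq.trans hm', fun γ1 hγ1 n hn h3 => ?_⟩
      exact hcon n hn (hv.dn (hn.trans (hq.trans hm')) h3 hγ1)
    exact absurd (hmin γ h2) (not_le.2 hγ)
  refine ⟨m', hm', δ, hmin β hβ, hop, ?_⟩
  by_cases hl : Lmt δ
  · exact Or.inr hl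
  · left
    unfold Lmt at hl
    push Not at hl
    obtain ⟨γ', h2, h3⟩ := hl
    refine ⟨γ', fun γ => ⟨fun hγ => (hop γ).1 (hγ.trans_lt h2), fun hγ => (hop γ).2 (h3 γ hγ)⟩⟩

end

end Pool.Agent.T27

end

section

set_option linter.unusedSectionVars false

namespace Pool.Agent.T27

open Pool.Agent.Lib_helper27 Cardinal Cod

section

variable {Ω : Type} [LinearOrder Ω]

/-- the sets used for pressing down -/
def CCK_S (β : Ω) : Set (Mt Ω × Om1) := {p | p.1.res β = p.1}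

theorem CCK_aleph [Inac Ω] : ℵ₀ < #Ω :=
  lt_of_le_of_lt (Cardinal.aleph0_le_aleph 1) (Inac.unc (Ω := Ω))

theorem CCK_mk_S [Inac Ω] (β : Ω) : #(CCK_S (Ω := Ω) β) < #Ω := by
  have h1 : #(CCK_S (Ω := Ω) β) ≤ #{m : Mt Ω // m.res β = m} * #Om1 := by
    rw [Cardinal.mul_def]
    refine Cardinal.mk_le_of_injective (f := fun p : CCK_S (Ω := Ω) β =>
      ((⟨p.1.1, p.2⟩ : {m : Mt Ω // m.res β = m}), p.1.2)) ?_
    rintro ⟨⟨m, i⟩, h⟩ ⟨⟨m', i'⟩, h'⟩ heq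
    have e1 : m = m' := congrArg (fun z => (z.1.1 : Mt Ω)) heq
    have e2 : i = i' := congrArg (fun z => z.2) heq
    subst e1
    subst e2
    rfl
  refine h1.trans_lt (Cardinal.mul_lt_of_lt CCK_aleph.le (mk_res β) ?_)
  rw [show #Om1 = aleph 1 from Q.mk_om1]
  exact Inac.unc

theorem CCK_eq_of_le {β ξ : Ω} {m : Mt Ω} (h : m.res β = m) (hβ : β ≤ ξ) : m.res ξ = m := by
  conv_lhs => rw [← h]
  rw [Mt.res_res_of_le' hβ, h]

theorem cck [Inac Ω] {U : Ultrafilter Ω} (hU : NUlt U) (f : Ω → Mt Ω) (g : Ω → Om1) :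
    ∃ ξ η, ξ < η ∧ g ξ = g η ∧ ∃ l, l ≤ f ξ ∧ l ≤ f η := by
  have h1 : ∀ η, ∃ β, (f η).res β = f η := fun η => Mt.exists_res (f η)
  choose b hb using h1
  have hcl : {α : Ω | ∀ β < α, ∀ x ∈ ({β} : Set Ω), b x < α} ∈ U := by
    refine NUlt.clo hU (fun β => ({β} : Set Ω)) (fun β => ?_) b
    rw [Cardinal.mk_singleton]
    exact (Cardinal.one_lt_aleph0).trans CCK_aleph
  have hA := NUlt.act hU
  have hL := NUlt.lmt hU
  obtain ⟨x, hx⟩ := NUlt.press hU (X := Mt Ω × Om1) CCK_S CCK_mk_S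
    (fun ξ => ((f ξ).res ξ, g ξ)) (by
      filter_upwards [hA, hL] with ξ h2 h3
      obtain ⟨β, hβ, h4⟩ := Mt.res_below h2 h3.2 (f ξ)
      refine ⟨β, hβ, ?_⟩
      show ((f ξ).res ξ).res β = (f ξ).res ξ
      rw [Mt.res_res_of_le hβ.le, h4])
  have hall : {ξ : Ω | (∀ β < ξ, ∀ y ∈ ({β} : Set Ω), b y < ξ) ∧ ((f ξ).res ξ, g ξ) = x} ∈ U := by
    filter_upwards [hcl, hx] with ξ h2 h3
    exact ⟨h2, h3⟩
  obtain ⟨ξ, hξ⟩ := U.nonempty_of_mem hall
  obtain ⟨η, hη, hlt⟩ := U.nonempty_of_mem (Filter.inter_mem hall (hU.tail ξ))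
  have hlt' : ξ < η := hlt
  have e1 : (f ξ).res η = f ξ := CCK_eq_of_le (hb ξ) (hη.1 ξ hlt' ξ rfl).le
  have e2 : (f ξ).res ξ = (f η).res η := by
    have := hξ.2.trans hη.2.symm
    exact (Prod.mk.inj this).1
  have e3 : g ξ = g η := by
    have := hξ.2.trans hη.2.symm
    exact (Prod.mk.inj this).2
  refine ⟨ξ, η, hlt', e3, Mt.gl η (f ξ) (f η), ?_, Mt.gl_le' ?_⟩
  · have := Mt.gl_le_left (α := η) (n := f ξ) (m := f η)
    rwa [e1] at this
  · rw [e1, ← e2]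
    exact Mt.le_res ξ (f ξ)

/-- antichains are small -/
theorem cc_card [Inac Ω] {U : Ultrafilter Ω} (hU : NUlt U) (W : Set (Mt Ω))
    (hW : ∀ w ∈ W, ∀ w' ∈ W, (∃ l, l ≤ w ∧ l ≤ w') → w = w') : #W < #Ω := by
  by_contra hcon
  push Not at hcon
  obtain ⟨e⟩ : Nonempty (Ω ↪ W) := by
    rwa [← Cardinal.le_def]
  obtain ⟨ξ, η, h1, _, l, h2, h3⟩ := cck hU (fun ξ => (e ξ : Mt Ω)) (fun _ => bot1)
  have h4 := hW _ (e ξ).2 _ (e η).2 ⟨l, h2, h3⟩
  exact h1.ne (e.injective (Subtype.ext h4))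

theorem cca [Inac Ω] {U : Ultrafilter Ω} (hU : NUlt U) :
    {α : Ω | ∀ (f : Ω → Mt Ω) (g : Ω → Om1), (∀ ξ < α, (f ξ).res α = f ξ) →
      ∃ ξ η, ξ < η ∧ η < α ∧ g ξ = g η ∧ ∃ l, l ≤ f ξ ∧ l ≤ f η} ∈ U := by
  classical
  by_contra hcon
  have hc := Ultrafilter.compl_mem_iff_notMem.mpr hcon
  have h1 : ∀ α : Ω, ∃ (f : Ω → Mt Ω) (g : Ω → Om1), α ∈ {α : Ω | ∀ (f : Ω → Mt Ω) (g : Ω → Om1),
      (∀ ξ < α, (f ξ).res α = f ξ) →
      ∃ ξ η, ξ < η ∧ η < α ∧ g ξ = g η ∧ ∃ l, l ≤ f ξ ∧ l ≤ f η}ᶜ →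
      (∀ ξ < α, (f ξ).res α = f ξ) ∧
        ¬ ∃ ξ η, ξ < η ∧ η < α ∧ g ξ = g η ∧ ∃ l, l ≤ f ξ ∧ l ≤ f η := by
    intro α
    by_cases h : α ∈ {α : Ω | ∀ (f : Ω → Mt Ω) (g : Ω → Om1),
      (∀ ξ < α, (f ξ).res α = f ξ) →
      ∃ ξ η, ξ < η ∧ η < α ∧ g ξ = g η ∧ ∃ l, l ≤ f ξ ∧ l ≤ f η}
    · exact ⟨fun _ => ⟨Co.emp, Tm.one⟩, fun _ => bot1, fun h' => (h' h).elim⟩
    · have h2 : ¬ ∀ (f : Ω → Mt Ω) (g : Ω → Om1), (∀ ξ < α, (f ξ).res α = f ξ) →
        ∃ ξ η, ξ < η ∧ η < α ∧ g ξ = g η ∧ ∃ l, l ≤ f ξ ∧ l ≤ f η := h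
      push Not at h2
      obtain ⟨f, g, h3, h4⟩ := h2
      refine ⟨f, g, fun _ => ⟨h3, ?_⟩⟩
      rintro ⟨ξ, η, h5, h6, h7, l, h8, h9⟩
      exact h4 ξ η h5 h6 h7 l h8 h9
  choose f g hfg using h1
  have hA := NUlt.act hU
  have h2 : ∀ ξ : Ω, ∃ x : Mt Ω × Om1, {α : Ω | (f α ξ, g α ξ) = x} ∈ U := by
    intro ξ
    refine NUlt.press hU (X := Mt Ω × Om1) CCK_S CCK_mk_S (fun α => (f α ξ, g α ξ)) ?_
    filter_upwards [hA, hc, hU.tail ξ] with α h3 h4 h5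
    have h6 := (hfg α h4).1 ξ h5
    obtain ⟨β, hβ, h7⟩ := Mt.res_below h3 ⟨ξ, h5⟩ (f α ξ)
    refine ⟨β, hβ, ?_⟩
    show (f α ξ).res β = f α ξ
    rw [← h7, h6]
  choose x hx using h2
  obtain ⟨ξ, η, h3, h4, l, h5, h6⟩ := cck hU (fun ξ => (x ξ).1) (fun ξ => (x ξ).2)
  obtain ⟨α, ⟨⟨h7, h8⟩, h9⟩, h10⟩ := U.nonempty_of_mem
    (Filter.inter_mem (Filter.inter_mem (Filter.inter_mem (hx ξ) (hx η)) hc) (hU.tail η))
  have h7' : (f α ξ, g α ξ) = x ξ := h7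
  have h8' : (f α η, g α η) = x η := h8
  refine (hfg α h9).2 ⟨ξ, η, h3, h10, ?_, l, ?_, ?_⟩
  · rw [← h7', ← h8'] at h4
    exact h4
  · rw [← h7'] at h5
    exact h5
  · rw [← h8'] at h6
    exact h6

end

end Pool.Agent.T27

end

section

/-! block COD: codings of triples and finite sets -/

set_option linter.unusedSectionVars false

namespace Pool.Agent.T27

open Pool.Agent.Lib_helper27 Cardinal Cod

section

variable {Ω : Type} [LinearOrder Ω]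

theorem COD_inf [Inac Ω] : ℵ₀ < #Ω := lt_of_le_of_lt (aleph0_le_aleph 1) Inac.unc

theorem COD_iic [Inac Ω] (β : Ω) : #(Set.Iic β) < #Ω := by
  have h0 : ℵ₀ < #Ω := COD_inf
  have h1 : #(Set.Iic β) ≤ #(Set.Iio β) + 1 := by
    have h2 : (Set.Iic β : Set Ω) = Set.Iio β ∪ {β} := by
      ext x
      simp [le_iff_lt_or_eq]
    rw [h2]
    refine (mk_union_le _ _).trans ?_
    rw [mk_singleton]
  exact h1.trans_lt (add_lt_of_lt h0.le (Inac.init β) (one_lt_aleph0.trans h0))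

theorem COD_s1 [Inac Ω] (β : Ω) :
    #({p : Ω × Ω × Ω | p.1 ≤ β ∧ p.2.1 ≤ β ∧ p.2.2 ≤ β} : Set (Ω × Ω × Ω)) < #Ω := by
  have h0 : ℵ₀ ≤ #Ω := COD_inf.le
  have h1 : #(Set.Iic β × Set.Iic β × Set.Iic β) < #Ω := by
    simp only [mk_prod, lift_id]
    exact mul_lt_of_lt h0 (COD_iic β) (mul_lt_of_lt h0 (COD_iic β) (COD_iic β))
  refine lt_of_le_of_lt ?_ h1
  refine mk_le_of_injective (f := fun p : ({p : Ω × Ω × Ω | p.1 ≤ β ∧ p.2.1 ≤ β ∧ p.2.2 ≤ β} :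
    Set (Ω × Ω × Ω)) => ((⟨p.1.1, p.2.1⟩ : Set.Iic β), (⟨p.1.2.1, p.2.2.1⟩ : Set.Iic β),
      (⟨p.1.2.2, p.2.2.2⟩ : Set.Iic β))) ?_
  rintro ⟨⟨a, b, c⟩, h⟩ ⟨⟨a', b', c'⟩, h'⟩ he
  simp only [Prod.mk.injEq] at he
  have e1 : a = a' := congrArg Subtype.val he.1
  have e2 : b = b' := congrArg Subtype.val he.2.1
  have e3 : c = c' := congrArg Subtype.val he.2.2
  subst e1 e2 e3
  rfl

theorem COD_s2 [Inac Ω] (β : Ω) :
    #({p : Ω × Finset Ω | p.1 ≤ β ∧ ∀ x ∈ p.2, x ≤ β} : Set (Ω × Finset Ω)) < #Ω := by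
  have h0 : ℵ₀ ≤ #Ω := COD_inf.le
  have h1 : #(Set.Iic β × Set (Set.Iic β)) < #Ω := by
    simp only [mk_prod, lift_id, mk_set]
    exact mul_lt_of_lt h0 (COD_iic β) (Inac.pow _ (COD_iic β))
  refine lt_of_le_of_lt ?_ h1
  refine mk_le_of_injective (f := fun p : ({p : Ω × Finset Ω | p.1 ≤ β ∧ ∀ x ∈ p.2, x ≤ β} :
    Set (Ω × Finset Ω)) => ((⟨p.1.1, p.2.1⟩ : Set.Iic β), {x : Set.Iic β | x.1 ∈ p.1.2})) ?_
  rintro ⟨⟨a, F⟩, h⟩ ⟨⟨a', F'⟩, h'⟩ he
  simp only [Prod.mk.injEq] at he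
  obtain ⟨he1, he⟩ := he
  have e1 : a = a' := congrArg Subtype.val he1
  subst e1
  have : F = F' := by
    ext x
    constructor
    · intro hx
      have h3 : (⟨x, h.2 x hx⟩ : Set.Iic β) ∈ {x : Set.Iic β | x.1 ∈ F} := hx
      rw [he] at h3
      exact h3
    · intro hx
      have h3 : (⟨x, h'.2 x hx⟩ : Set.Iic β) ∈ {x : Set.Iic β | x.1 ∈ F'} := hx
      rw [← he] at h3
      exact h3
  subst this
  rfl

/-- closure points are unbounded -/
theorem COD_unb [Inac Ω] {U : Ultrafilter Ω} (hU : NUlt U) (T : Ω × Ω × Ω → Ω)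
    (FS : Ω × Finset Ω → Ω) (NT : ℕ → Ω) (γ : Ω) :
    ∃ δ, γ < δ ∧ (∀ a b c, a < δ → b < δ → c < δ → T (a, b, c) < δ) ∧
      (∀ i F, i < δ → (∀ x ∈ F, x < δ) → FS (i, F) < δ) ∧ ∀ n, NT n < δ := by
  obtain ⟨b, hb⟩ := Inac.reg ℕ NT (by rw [mk_nat]; exact COD_inf)
  have h1 := hU.clo (fun β => {p : Ω × Ω × Ω | p.1 ≤ β ∧ p.2.1 ≤ β ∧ p.2.2 ≤ β}) COD_s1 T
  have h2 := hU.clo (fun β => {p : Ω × Finset Ω | p.1 ≤ β ∧ ∀ x ∈ p.2, x ≤ β}) COD_s2 FS
  have h3 := Filter.inter_mem (Filter.inter_mem h1 h2)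
    (Filter.inter_mem (hU.tail γ) (hU.tail b))
  obtain ⟨δ, ⟨h4, h5⟩, h6, h7⟩ := U.nonempty_of_mem h3
  refine ⟨δ, h6, ?_, ?_, fun n => (hb n).trans h7⟩
  · intro a b c ha hb hc
    refine h4 (max a (max b c)) (max_lt ha (max_lt hb hc)) (a, b, c) ?_
    exact ⟨le_max_left _ _, (le_max_left _ _).trans (le_max_right _ _),
      (le_max_right _ _).trans (le_max_right _ _)⟩
  · intro i F hi hF
    refine h5 ((insert i F).max' (Finset.insert_nonempty _ _)) ?_ (i, F) ?_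
    · rw [Finset.max'_lt_iff]
      intro y hy
      rcases Finset.mem_insert.1 hy with rfl | hy
      · exact hi
      · exact hF y hy
    · exact ⟨Finset.le_max' _ _ (Finset.mem_insert_self _ _),
        fun x hx => Finset.le_max' _ _ (Finset.mem_insert_of_mem hx)⟩

theorem exists_cod [Inac Ω] {U : Ultrafilter Ω} (hU : NUlt U) : Nonempty (Cod Ω) := by
  classical
  have h0 : ℵ₀ < #Ω := COD_inf
  have : Infinite Ω := by rw [infinite_iff]; exact h0.le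
  have : Nonempty Ω := inferInstance
  have wf : WellFounded ((· < ·) : Ω → Ω → Prop) := wellFounded_lt
  obtain ⟨T⟩ : Nonempty ((Ω × Ω × Ω) ↪ Ω) := by
    rw [← Cardinal.le_def]
    simp only [mk_prod, lift_id]
    rw [mul_eq_self h0.le, mul_eq_self h0.le]
  obtain ⟨FS⟩ : Nonempty ((Ω × Finset Ω) ↪ Ω) := by
    rw [← Cardinal.le_def]
    simp only [mk_prod, lift_id]
    rw [mk_finset_of_infinite, mul_eq_self h0.le]
  obtain ⟨NT⟩ : Nonempty (ℕ ↪ Ω) := ⟨Infinite.natEmbedding Ω⟩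
  set C : Set Ω := {δ | (∀ a b c, a < δ → b < δ → c < δ → T (a, b, c) < δ) ∧
      (∀ i F, i < δ → (∀ x ∈ F, x < δ) → FS (i, F) < δ) ∧ ∀ n, NT n < δ} with hC
  have hne : ∀ γ : Ω, ({δ | γ < δ ∧ δ ∈ C} : Set Ω).Nonempty := fun γ => by
    obtain ⟨δ, h1, h2, h3, h4⟩ := COD_unb hU T FS NT γ
    exact ⟨δ, h1, h2, h3, h4⟩
  have hmem : ∀ γ : Ω, γ < wf.min _ (hne γ) ∧ wf.min _ (hne γ) ∈ C := fun γ =>
    wf.min_mem _ (hne γ)
  refine ⟨{
    b0 := wf.min Set.univ Set.univ_nonempty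
    om := fun γ => wf.min _ (hne γ)
    tr := fun a b c => T (a, b, c)
    t1 := fun x => (Function.invFun T x).1
    t2 := fun x => (Function.invFun T x).2.1
    t3 := fun x => (Function.invFun T x).2.2
    fs := fun i F => FS (i, F)
    f1 := fun x => (Function.invFun FS x).1
    f2 := fun x => (Function.invFun FS x).2
    nt := NT
    tn := Function.invFun NT
    b0_le := fun x => not_lt.1 (wf.not_lt_min Set.univ (Set.mem_univ x))
    lt_om := fun γ => (hmem γ).1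
    om_mono := ?_
    t1_tr := fun a b c => by rw [Function.leftInverse_invFun T.injective]
    t2_tr := fun a b c => by rw [Function.leftInverse_invFun T.injective]
    t3_tr := fun a b c => by rw [Function.leftInverse_invFun T.injective]
    tr_lt := fun {γ a b c} ha hb hc => (hmem γ).2.1 a b c ha hb hc
    f1_fs := fun i F => by rw [Function.leftInverse_invFun FS.injective]
    f2_fs := fun i F => by rw [Function.leftInverse_invFun FS.injective]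
    fs_lt := fun {γ i F} hi hF => (hmem γ).2.2.1 i F hi hF
    tn_nt := fun n => Function.leftInverse_invFun NT.injective n
    nt_lt := fun n γ => (hmem γ).2.2.2 n }⟩
  intro γ γ' h
  refine not_lt.1 (wf.not_lt_min _ ?_)
  exact ⟨h.trans_lt (hmem γ').1, (hmem γ').2⟩

end

end Pool.Agent.T27

end

section

/-!
# Block CAP: a last level generated by countably many branches
-/

set_option linter.unusedSectionVars false

namespace Pool.Agent.T27

open Pool.Agent.Lib_helper27 Cardinal Cod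

section

variable {Ω : Type} [LinearOrder Ω] [Cod Ω]

namespace CAP

theorem glue_self_of {γ : Ω} {w x : Nm Ω} (h : ∀ ξ, γ ≤ ξ → w ξ = x ξ) : glue γ w x = w := by
  funext ξ
  rcases lt_or_ge ξ γ with h1 | h1
  · rw [glue_lt h1]
  · rw [glue_ge h1, h ξ h1]

theorem glue_b0 (y x : Nm Ω) : glue b0 y x = x := by
  funext ξ
  rw [glue_ge (b0_le ξ)]

theorem In_b0 (m : Mt Ω) (z : Ω → Nm Ω) (x : Nm Ω) : In m b0 z x := fun k _ =>
  ⟨k, le_rfl, b0, fun _ _ ξ hξ => absurd hξ (not_lt.2 (b0_le ξ))⟩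

/-- the new level `γ` is at `m` the cap -/
def C2 (m : Mt Ω) (e : Dt Ω) (γ : Ω) : Prop :=
  (e.H γ).neg m ∧ Lmt γ ∧ ∀ γ' < γ, e.H γ' m

theorem C2.mono {m m' : Mt Ω} {e : Dt Ω} {γ : Ω} (h : C2 m e γ) (hm : m' ≤ m) : C2 m' e γ :=
  ⟨(e.H γ).neg.mono hm h.1, h.2.1, fun γ' hγ => (e.H γ').mono hm (h.2.2 γ' hγ)⟩

theorem cases {m : Mt Ω} {e : Dt Ω} {b : ℕ → Nm Ω} {γ : Ω} (h : (cap e b).H γ m) :
    Loc m fun m' => e.H γ m' ∨ C2 m' e γ := by
  refine Loc.bind h ?_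
  rintro m' _ (h1 | ⟨h1, h2⟩)
  · exact Loc.pure fun q hq => Or.inl ((e.H γ).mono hq h1)
  · intro q hq
    obtain ⟨r, hr, h3 | h3⟩ := (e.H γ).em q
    · exact ⟨r, hr, Or.inl h3⟩
    · exact ⟨r, hr, Or.inr ⟨h3, h1, fun γ' hγ => (e.H γ').mono (hr.trans hq) (h2 γ' hγ)⟩⟩

theorem H_of {m : Mt Ω} {e : Dt Ω} (b : ℕ → Nm Ω) {γ : Ω} (h : e.H γ m) : (cap e b).H γ m :=
  Loc.pure fun q hq => Or.inl ((e.H γ).mono hq h)

theorem H_of2 {m : Mt Ω} {e : Dt Ω} (b : ℕ → Nm Ω) {γ : Ω} (hl : Lmt γ)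
    (h : ∀ γ' < γ, e.H γ' m) : (cap e b).H γ m :=
  Loc.pure fun q hq => Or.inr ⟨hl, fun γ' hγ => (e.H γ').mono hq (h γ' hγ)⟩

theorem zA {m : Mt Ω} {e : Dt Ω} (b : ℕ → Nm Ω) {γ : Ω} (h : e.H γ m) (δ i : Ω) :
    EqM m δ ((cap e b).z γ i) (e.z γ i) := by
  intro k hk ξ _
  constructor
  · intro h1
    refine (e.z γ i ξ).reg (Loc.imp h1 ?_)
    rintro k' hk' (⟨_, h2⟩ | ⟨h2, _⟩)
    · exact h2
    · exact absurd ((e.H γ).mono (hk'.1.trans hk) h) (h2 k'.1 le_rfl)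
  · intro h1
    exact Loc.pure fun k' hk' => Or.inl ⟨(e.H γ).mono (hk'.1.trans hk) h, (e.z γ i ξ).mono hk' h1⟩

theorem zB {m : Mt Ω} {e : Dt Ω} (b : ℕ → Nm Ω) {γ : Ω} (h : C2 m e γ) (i : Ω) :
    EqM m γ ((cap e b).z γ i) (capF e b γ i) := by
  intro k hk ξ hξ
  constructor
  · intro h1
    refine (capF e b γ i ξ).reg (Loc.imp h1 ?_)
    rintro k' hk' (⟨h2, _⟩ | ⟨_, _, _, _, h2⟩)
    · exact absurd h2 (h.1 k'.1 (hk'.1.trans hk))
    · exact h2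
  · intro h1
    refine Loc.pure fun k' hk' => Or.inr ?_
    have h2 := h.mono (hk'.1.trans hk)
    exact ⟨h2.1, h2.2.1, h2.2.2, hξ, (capF e b γ i ξ).mono hk' h1⟩

/-- the shape of the new elements -/
theorem capF_eq (e : Dt Ω) (b : ℕ → Nm Ω) {γ : Ω} (hγ : b0 < γ) (i : Ω) :
    ∃ γ1 < γ, ∃ i1 n, capF e b γ i = glue γ1 (e.z γ1 i1) (b n) := by
  unfold capF
  split_ifs with h
  · exact ⟨_, h, _, _, rfl⟩
  · exact ⟨b0, hγ, b0, 0, (glue_b0 _ _).symm⟩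

theorem capF_tr {β : Ω} {e : Dt Ω} (he : Bd β e) (b : ℕ → Nm Ω) {γ γ1 : Ω} (hγ : γ1 < γ)
    (i1 : Ω) (n : ℕ) :
    capF e b γ (tr γ1 (ix γ1 i1) (nt n)) = glue γ1 (e.z γ1 i1) (b n) := by
  have h1 : tr γ1 (ix γ1 i1) (nt n) < om γ :=
    tr_lt (hγ.trans (lt_om γ)) ((ix_lt γ1 i1).trans_le (om_mono hγ.le)) (nt_lt n γ)
  have h2 : e.z γ1 (ix γ1 i1) = e.z γ1 i1 := by
    rcases lt_or_ge i1 (om γ1) with h | h
    · rw [ix_eq h]
    · rw [ix_ge h, he.zw h]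
  unfold capF
  rw [ix_eq h1, t1_tr, t2_tr, t3_tr, tn_nt, if_pos hγ, h2]

/-- membership in the new level -/
theorem new {β : Ω} {m : Mt Ω} {e : Dt Ω} (he : Bd β e) (b : ℕ → Nm Ω) {γ γ1 : Ω}
    (h : C2 m e γ) (hγ : γ1 < γ) {y : Nm Ω} (hy : In m γ1 (e.z γ1) y) (n : ℕ) :
    In m γ ((cap e b).z γ) (glue γ1 y (b n)) := by
  intro k hk
  obtain ⟨k', hk', i, hi⟩ := hy k hk
  refine ⟨k', hk', tr γ1 (ix γ1 i) (nt n), ?_⟩
  refine EqB.trans ?_ ((zB b h _).eqB (hk'.1.trans hk)).symm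
  rw [capF_tr he b hγ]
  exact EqB.glue (hi.mono le_rfl (min_le_left _ _)) (EqB.refl _ _ _)

theorem new_b {β : Ω} {m : Mt Ω} {e : Dt Ω} (he : Bd β e) (b : ℕ → Nm Ω) {γ : Ω}
    (h : C2 m e γ) (n : ℕ) : In m γ ((cap e b).z γ) (b n) := by
  rcases lt_or_eq_of_le (b0_le γ) with h1 | h1
  · have h2 := new he b h h1 (In_b0 m (e.z b0) (b n)) n
    rwa [glue_b0] at h2
  · rw [← h1]
    exact In_b0 _ _ _

/-- the elements of the new level belong to the lower levels -/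
theorem low {m : Mt Ω} {e : Dt Ω} (hv : TV m e) {b : ℕ → Nm Ω} (hb : ∀ n, Brn m e (b n))
    {γ γ1 γ2 : Ω} (h : C2 m e γ) (hγ : γ1 < γ) (hγ2 : γ2 < γ) (i n) :
    In m γ2 (e.z γ2) (glue γ1 (e.z γ1 i) (b n)) := by
  have h1 := h.2.2 γ1 hγ
  have h2 := h.2.2 γ2 hγ2
  rcases le_or_gt γ1 γ2 with h3 | h3
  · exact hv.rep' le_rfl h2 h3 (in_self _ _ _ _) (hb n m γ2 le_rfl h2)
  · refine (hv.res le_rfl h1 h3.le i).congr ?_
    intro k _ ξ hξ
    rw [glue_lt (hξ.trans h3)]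

/-- a member of a lower level which is `b n` from there on is in the new level -/
theorem new' {β : Ω} {m : Mt Ω} {e : Dt Ω} (he : Bd β e) (b : ℕ → Nm Ω) {γ γ2 : Ω}
    (h : C2 m e γ) (hγ : γ2 < γ) {w : Nm Ω} (hw : In m γ2 (e.z γ2) w) (n : ℕ)
    (h1 : ∀ ξ, γ2 ≤ ξ → w ξ = b n ξ) : In m γ ((cap e b).z γ) w := by
  have h2 := new he b h hγ hw n
  rwa [glue_self_of h1] at h2

theorem EqM_congr_z {m : Mt Ω} {γ : Ω} {x y : Nm Ω} (h : ∀ ξ < γ, x ξ = y ξ) : EqM m γ x y := by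
  intro k _ ξ hξ
  rw [h ξ hξ]

theorem EqM.flip {m : Mt Ω} {γ ξ : Ω} {x y : Nm Ω} (h : EqM m γ x y) :
    EqM m γ (flipAt ξ x) (flipAt ξ y) :=
  EqM.of_eqB fun k hk => ⟨k, le_rfl, (h.eqB hk).flipAt⟩

end CAP

/-! ### CAP -/

theorem cap_TV {β : Ω} {m : Mt Ω} {e : Dt Ω} (he : Bd β e) (h : TV m e) {b : ℕ → Nm Ω}
    (hb : ∀ n, Brn m e (b n)) : TV m (cap e b) := by
  refine ⟨?_, ?_, ?_, ?_⟩
  · intro m' γ γ' hm hH hle
    refine ((cap e b).H γ').reg (Loc.imp (CAP.cases hH) ?_)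
    rintro q hq (h1 | h1)
    · exact CAP.H_of b (h.dn (hq.trans hm) h1 hle)
    · rcases lt_or_eq_of_le hle with h2 | h2
      · exact CAP.H_of b (h1.2.2 γ' h2)
      · rw [h2]
        exact CAP.H_of2 b h1.2.1 h1.2.2
  · intro m' γ γ' hm hH hle i
    refine In.dense (Loc.imp (CAP.cases hH) ?_)
    rintro q hq (h1 | h1)
    · have h2 := h.dn (hq.trans hm) h1 hle
      exact ((h.res (hq.trans hm) h1 hle i).congr_z fun j => CAP.zA b h2 γ' j).congr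
        (CAP.zA b h1 γ' i)
    · rcases lt_or_eq_of_le hle with h2 | h2
      · have h3 := h1.2.2 γ' h2
        obtain ⟨γ1, hγ1, i1, n, h4⟩ := CAP.capF_eq e b ((b0_le γ').trans_lt h2) i
        have h5 := CAP.low (h.mono (hq.trans hm)) (fun n => (hb n).mono (hq.trans hm)) h1 hγ1 h2
          i1 n
        rw [← h4] at h5
        exact (h5.congr_z fun j => CAP.zA b h3 γ' j).congr ((CAP.zB b h1 i).mono le_rfl hle)
      · rw [h2]
        exact in_self _ _ _ _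
  · intro m' γ γ' hm hH hle i j
    refine In.dense (Loc.imp (CAP.cases hH) ?_)
    rintro q hq (h1 | h1)
    · have h2 := h.dn (hq.trans hm) h1 hle
      exact ((h.rep (hq.trans hm) h1 hle i j).congr_z fun j => CAP.zA b h1 γ j).congr
        (EqM.glue (CAP.zA b h2 _ j) (CAP.zA b h1 γ i))
    · rcases lt_or_eq_of_le hle with h2 | h2
      · have h3 := h1.2.2 γ' h2
        have hv := h.mono (hq.trans hm)
        have hb' : ∀ n, Brn q e (b n) := fun n => (hb n).mono (hq.trans hm)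
        obtain ⟨γ1, hγ1, i1, n, h4⟩ := CAP.capF_eq e b ((b0_le γ').trans_lt h2) i
        have hE : EqM q γ (glue γ' ((cap e b).z γ' j) ((cap e b).z γ i))
            (glue γ' (e.z γ' j) (glue γ1 (e.z γ1 i1) (b n))) := by
          refine EqM.glue (CAP.zA b h3 _ j) ?_
          rw [← h4]
          exact CAP.zB b h1 i
        refine In.congr ?_ hE
        have hmx : max γ' γ1 < γ := max_lt h2 hγ1
        refine CAP.new' he b h1 hmx ?_ n ?_
        · have h5 := CAP.low hv hb' h1 hγ1 hmx i1 n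
          exact hv.rep' le_rfl (h1.2.2 _ hmx) (le_max_left _ _) (in_self _ _ _ _) h5
        · intro ξ hξ
          rw [glue_ge ((le_max_left _ _).trans hξ), glue_ge ((le_max_right _ _).trans hξ)]
      · refine (in_self q γ ((cap e b).z γ) j).congr (CAP.EqM_congr_z fun ξ hξ => ?_)
        rw [h2, glue_lt hξ]
  · intro m' γ hm hH ξ hξ i
    refine In.dense (Loc.imp (CAP.cases hH) ?_)
    rintro q hq (h1 | h1)
    · exact ((h.flp (hq.trans hm) h1 ξ hξ i).congr_z fun j => CAP.zA b h1 γ j).congr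
        (CAP.EqM.flip (CAP.zA b h1 γ i))
    · have hv := h.mono (hq.trans hm)
      have hb' : ∀ n, Brn q e (b n) := fun n => (hb n).mono (hq.trans hm)
      obtain ⟨γ1, hγ1, i1, n, h4⟩ := CAP.capF_eq e b ((b0_le ξ).trans_lt hξ) i
      obtain ⟨γ2, h5, h6⟩ := h1.2.1 (max ξ γ1) (max_lt hξ hγ1)
      refine In.congr (y := flipAt ξ ((cap e b).z γ i)) ?_ (CAP.EqM.flip (CAP.zB b h1 i))
      rw [h4]
      refine CAP.new' he b h1 h6 ?_ n ?_
      · exact hv.flp' le_rfl (h1.2.2 _ h6) ((le_max_left _ _).trans_lt h5)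
          (CAP.low hv hb' h1 hγ1 h6 i1 n)
      · intro η hη
        rw [flipAt_ne (((le_max_left _ _).trans_lt h5).trans_le hη).ne',
          glue_ge (((le_max_right _ _).trans_lt h5).le.trans hη)]

theorem cap_le {m : Mt Ω} {e : Dt Ω} (b : ℕ → Nm Ω) : LeD m (cap e b) e :=
  ⟨fun _ _ γ hH => ⟨CAP.H_of b hH, fun i => CAP.zA b hH γ i⟩, LeX.refl _ _ _⟩

theorem cap_brn {β : Ω} {m : Mt Ω} {e : Dt Ω} (he : Bd β e) (h : TV m e) {b : ℕ → Nm Ω}
    (hb : ∀ n, Brn m e (b n)) {x : Nm Ω} (hx : Brn m e x) (hl : ∀ k : K Ω, k.1 ≤ m → ∃ k' ≤ k, ∃ n, ∀ γ,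
      Lmt γ → (∀ γ' < γ, e.H γ' k'.1) → EqB k' γ x (b n)) : Brn m (cap e b) x := by
  intro m' γ hm hH
  refine In.dense (Loc.imp (CAP.cases hH) ?_)
  rintro q hq (h1 | h1)
  · exact (hx q γ (hq.trans hm) h1).congr_z fun j => CAP.zA b h1 γ j
  · refine In.of_eqB fun k hk => ?_
    obtain ⟨k', hk', n, h2⟩ := hl k (hk.trans (hq.trans hm))
    exact ⟨k', hk', b n, CAP.new_b he b h1 n,
      h2 γ h1.2.1 fun γ' hγ => (e.H γ').mono (hk'.1.trans hk) (h1.2.2 γ' hγ)⟩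

theorem cap_Hts_lim {m : Mt Ω} {e : Dt Ω} (b : ℕ → Nm Ω) {δ : Ω} (h : Hop m e δ)
    (hδ : Lmt δ) : Hts m (cap e b) δ := by
  intro γ
  constructor
  · intro hγ
    rcases lt_or_eq_of_le hγ with h1 | h1
    · exact CAP.H_of b ((h γ).1 h1)
    · rw [h1]
      exact CAP.H_of2 b hδ fun γ' hγ' => (h γ').1 hγ'
  · intro hγ m' hm hH
    obtain ⟨q, hq, h1 | ⟨_, h1⟩⟩ := Loc.exists hH
    · exact (h γ).2 hγ.le q (hq.trans hm) h1
    · exact (h δ).2 le_rfl q (hq.trans hm) (h1 δ hγ)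

theorem cap_Hts {m : Mt Ω} {e : Dt Ω} (b : ℕ → Nm Ω) {δ : Ω} (h : Hts m e δ) :
    Hts m (cap e b) δ := by
  intro γ
  constructor
  · intro hγ
    exact CAP.H_of b ((h γ).1 hγ)
  · intro hγ m' hm hH
    obtain ⟨q, hq, h1 | ⟨h0, h1⟩⟩ := Loc.exists hH
    · exact (h γ).2 hγ q (hq.trans hm) h1
    · obtain ⟨γ'', h2, h3⟩ := h0 δ hγ
      exact (h γ'').2 h2 q (hq.trans hm) (h1 γ'' h3)

theorem cap_RCl [WellFoundedLT Ω] {m : Mt Ω} {e : Dt Ω} (b : ℕ → Nm Ω) {β : Ω} (hb : Bd β e)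
    (h : TV m e) : RCl m (cap e b) := by
  intro q hq
  obtain ⟨m', hm', δ, _, h1, h2 | h2⟩ := exists_hop hb (h.mono hq)
  · obtain ⟨δ', h2⟩ := h2
    exact ⟨m', hm', δ', cap_Hts b h2⟩
  · exact ⟨m', hm', δ, cap_Hts_lim b h1 h2⟩

/-- what is on the new level -/
theorem cap_top {m : Mt Ω} {e : Dt Ω} {b : ℕ → Nm Ω} {δ : Ω} (h : Hop m e δ) (hδ : Lmt δ)
    (hne : b0 < δ) {y : Nm Ω} (hy : In m δ ((cap e b).z δ) y) {k : K Ω} (hk : k.1 ≤ m) :
    ∃ k' ≤ k, ∃ n, ∃ γ < δ, ∀ k'' ≤ k', ∀ ξ, γ ≤ ξ → ξ < δ → (y ξ k'' ↔ b n ξ k'') := by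
  obtain ⟨k', hk', i, hi⟩ := hy k hk
  have hC : CAP.C2 m e δ := ⟨fun q hq h1 => (h δ).2 le_rfl q hq h1, hδ, fun γ' hγ => (h γ').1 hγ⟩
  obtain ⟨γ1, hγ1, i1, n, h4⟩ := CAP.capF_eq e b hne i
  refine ⟨k', hk', n, γ1, hγ1, fun k'' hk'' ξ h1 h2 => ?_⟩
  rw [hi k'' hk'' ξ h2, CAP.zB b hC i k'' (hk''.1.trans (hk'.1.trans hk)) ξ h2, h4, glue_ge h1]

theorem cap_bd {β β' : Ω} {e : Dt Ω} (he : Bd β e) {b : ℕ → Nm Ω} (hb : ∀ n, BdN β (b n))
    (hβ : β < β') : Bd β' (cap e b) := by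
  have he' : Bd β' e := he.mono hβ.le
  have hb' : ∀ n, BdN β' (b n) := fun n => (hb n).mono hβ.le
  have key : ∀ {γ : Ω} {m : Mt Ω}, (∀ γ' < γ, e.H γ' m) → γ < β' := by
    intro γ m h
    by_contra hcon
    exact absurd (he.H0 (h β (hβ.trans_le (not_lt.1 hcon)))) (lt_irrefl _)
  have hcapF : ∀ γ i, BSD.Bs β' (capF e b γ i) := by
    intro γ i
    unfold capF
    split_ifs
    · exact BSD.Bs.glue (BSD.bsx (hb' _)) (BSD.bsz he' _ _)
    · exact BSD.bsx (hb' _)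
  refine ⟨?_, ?_, ?_, ?_, ?_, ?_⟩
  · intro γ m h
    obtain ⟨q, _, h1 | ⟨_, h1⟩⟩ := Loc.exists h
    · exact he'.H0 h1
    · exact key h1
  · intro γ m h
    refine BSD.Loc_res ?_ ?_ h
    · rintro n n' hn (h1 | ⟨h1, h2⟩)
      · exact Or.inl ((e.H γ).mono hn h1)
      · exact Or.inr ⟨h1, fun γ' hγ => (e.H γ').mono hn (h2 γ' hγ)⟩
    · rintro n (h1 | ⟨h1, h2⟩)
      · exact Or.inl (he'.Hb h1)
      · exact Or.inr ⟨h1, fun γ' hγ => he'.Hb (h2 γ' hγ)⟩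
  · intro γ i ξ k h
    obtain ⟨q, _, ⟨_, h1⟩ | ⟨_, _, h1, h2, _⟩⟩ := Loc.exists h
    · exact he'.z0 h1
    · exact ⟨key h1, h2⟩
  · intro γ i ξ k h
    refine BSD.kLoc_res ?_ ?_ h
    · rintro n n' hn (⟨h1, h2⟩ | ⟨h1, h2, h3, h4, h5⟩)
      · exact Or.inl ⟨(e.H γ).mono hn.1 h1, (e.z γ i ξ).mono hn h2⟩
      · exact Or.inr ⟨(e.H γ).neg.mono hn.1 h1, h2, fun γ' hγ => (e.H γ').mono hn.1 (h3 γ' hγ), h4,
          (capF e b γ i ξ).mono hn h5⟩
    · rintro n (⟨h1, h2⟩ | ⟨h1, h2, h3, h4, h5⟩)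
      · exact Or.inl ⟨he'.Hb h1, he'.zb h2⟩
      · refine Or.inr ⟨?_, h2, fun γ' hγ => he'.Hb (h3 γ' hγ), h4, hcapF γ i ξ n h5⟩
        intro q hq h6
        obtain ⟨l, h7, h8⟩ := BSD.mgl_key hq
        exact h1 l h7 (BSD.H_res he' h8.symm h6)
  · intro γ i hi
    have h1 : capF e b γ i = capF e b γ b0 := by
      unfold capF
      rw [ix_ge hi, ix_b0]
    have h2 : e.z γ i = e.z γ b0 := he.zw hi
    funext ξ
    show Rg _ = Rg _
    rw [h1, h2]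
  · exact he'.x

/-- data which are equal and have the same branches have the same caps -/
theorem cap_congr {m : Mt Ω} {e e' : Dt Ω} (h : LeT m e' e) (h' : LeT m e e')
    (b : ℕ → Nm Ω) : LeT m (cap e' b) (cap e b) := by
  have h2 : ∀ {q : Mt Ω}, q ≤ m → ∀ {γ}, CAP.C2 q e γ → CAP.C2 q e' γ := by
    intro q hq γ hC
    exact ⟨fun r hr h3 => hC.1 r hr (h' r (hr.trans hq) γ h3).1, hC.2.1,
      fun γ' hγ => (h q hq γ' (hC.2.2 γ' hγ)).1⟩
  intro m' hm γ hH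
  refine ⟨((cap e' b).H γ).reg (Loc.imp (CAP.cases hH) ?_), fun i =>
    EqM.dense (Loc.imp (CAP.cases hH) ?_)⟩
  · rintro q hq (h1 | h1)
    · exact CAP.H_of b (h q (hq.trans hm) γ h1).1
    · have h3 := h2 (hq.trans hm) h1
      exact CAP.H_of2 b h3.2.1 h3.2.2
  · rintro q hq (h1 | h1)
    · obtain ⟨h3, h4⟩ := h q (hq.trans hm) γ h1
      exact ((CAP.zA b h3 γ i).trans (h4 i)).trans (CAP.zA b h1 γ i).symm
    · have h3 := h2 (hq.trans hm) h1
      refine ((CAP.zB b h3 i).trans ?_).trans (CAP.zB b h1 i).symm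
      unfold capF
      split_ifs with h5
      · exact EqM.glue (((h q (hq.trans hm) _ (h1.2.2 _ h5)).2 _).mono le_rfl (min_le_left _ _))
          (EqM.refl _ _ _)
      · exact EqM.refl _ _ _

end

end Pool.Agent.T27

end

section

/-!
# Block EXT: extending the height of tree data
-/

set_option linter.unusedSectionVars false

namespace Pool.Agent.T27

open Pool.Agent.Lib_helper27 Cardinal Cod

variable {Ω : Type} [LinearOrder Ω] [Cod Ω]

namespace EXT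

theorem res_le_res {β β' : Ω} (h : β ≤ β') (m : Mt Ω) : m.res β' ≤ m.res β := by
  rw [← Mt.res_res_of_le h]
  exact Mt.le_res _ _

theorem kres_le_kres {β β' : Ω} (h : β ≤ β') (k : K Ω) : kres β' k ≤ kres β k :=
  ⟨res_le_res h k.1, le_rfl⟩

theorem H_low {e : Dt Ω} {δ ε γ : Ω} (h : γ ≤ δ) : (ext e δ ε).H γ = e.H γ := if_pos h

theorem H_mid {e : Dt Ω} {δ ε γ : Ω} (h : δ < γ) (h' : γ ≤ ε) : (ext e δ ε).H γ = RP.top := by
  show (if γ ≤ δ then e.H γ else if γ ≤ ε then RP.top else RP.bot) = RP.top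
  rw [if_neg (not_le.2 h), if_pos h']

theorem H_hi {e : Dt Ω} {δ ε γ : Ω} (h : δ < γ) (h' : ε < γ) : (ext e δ ε).H γ = RP.bot := by
  show (if γ ≤ δ then e.H γ else if γ ≤ ε then RP.top else RP.bot) = RP.bot
  rw [if_neg (not_le.2 h), if_neg (not_le.2 h')]

theorem le_of_H {e : Dt Ω} {δ ε γ : Ω} {m : Mt Ω} (hε : δ ≤ ε) (h : (ext e δ ε).H γ m) :
    γ ≤ ε := by
  by_contra hcon
  rw [not_le] at hcon
  rw [H_hi (hε.trans_lt hcon) hcon] at h
  exact h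

theorem H_of_le {e : Dt Ω} {δ ε γ : Ω} {m : Mt Ω} (hδ : Hts m e δ) (h : γ ≤ ε) :
    (ext e δ ε).H γ m := by
  rcases le_or_gt γ δ with h1 | h1
  · rw [H_low h1]
    exact (hδ γ).1 h1
  · rw [H_mid h1 h]
    trivial

theorem z_low {e : Dt Ω} {δ ε γ : Ω} (h : γ ≤ δ) : (ext e δ ε).z γ = e.z γ := by
  funext i ξ
  exact if_pos h

/-- the members of the new levels -/
noncomputable def mb (e : Dt Ω) (δ j : Ω) (F : Finset Ω) : Nm Ω := glue δ (e.z δ j) (ind F)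

theorem z_new {e : Dt Ω} {δ ε γ : Ω} (h : δ < γ) (h' : γ ≤ ε) (i : Ω) {ξ : Ω} (hξ : ξ < γ) :
    (ext e δ ε).z γ i ξ = mb e δ (f1 (ix γ i)) (f2 (ix γ i)) ξ := by
  show (if γ ≤ δ then e.z γ i ξ else if ξ < γ ∧ γ ≤ ε then
    glue δ (e.z δ (f1 (ix γ i))) (ind (f2 (ix γ i))) ξ else RP.bot) = _
  rw [if_neg (not_le.2 h), if_pos ⟨hξ, h'⟩]
  rfl

theorem mb_ix {β : Ω} {e : Dt Ω} (he : Bd β e) {δ j : Ω} : e.z δ j = e.z δ (ix δ j) := by
  rcases lt_or_ge j (om δ) with h | h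
  · rw [ix_eq h]
  · rw [ix_ge h]
    exact he.zw h

theorem exists_ix {β : Ω} {e : Dt Ω} (he : Bd β e) {δ ε γ : Ω} (h : δ < γ) (h' : γ ≤ ε) (j : Ω)
    (F : Finset Ω) : ∃ i, ∀ ξ < γ, (ext e δ ε).z γ i ξ = mb e δ j F ξ := by
  classical
  have h1 : ix δ j < om γ := (ix_lt δ j).trans_le (om_mono h.le)
  have h2 : fs (ix δ j) (F.filter (· < γ)) < om γ := fs_lt h1 fun x hx =>
    (Finset.mem_filter.1 hx).2.trans (lt_om γ)
  refine ⟨fs (ix δ j) (F.filter (· < γ)), fun ξ hξ => ?_⟩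
  rw [z_new h h' _ hξ, ix_eq h2, f1_fs, f2_fs]
  show glue δ (e.z δ (ix δ j)) (ind (F.filter (· < γ))) ξ = glue δ (e.z δ j) (ind F) ξ
  rw [← mb_ix he]
  rcases lt_or_ge ξ δ with h3 | h3
  · rw [glue_lt h3, glue_lt h3]
  · rw [glue_ge h3, glue_ge h3]
    unfold ind
    simp [hξ]

/-- being a member of a new level -/
theorem in_new {β : Ω} {e : Dt Ω} (he : Bd β e) {δ ε γ : Ω} (h : δ < γ) (h' : γ ≤ ε) {m : Mt Ω}
    {x : Nm Ω} (hx : ∀ k : K Ω, k.1 ≤ m → ∃ k' ≤ k, ∃ j F, EqB k' γ x (mb e δ j F)) :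
    In m γ ((ext e δ ε).z γ) x := by
  intro k hk
  obtain ⟨k', hk', j, F, h1⟩ := hx k hk
  obtain ⟨i, hi⟩ := exists_ix he h h' j F
  refine ⟨k', hk', i, fun k'' hk'' ξ hξ => ?_⟩
  rw [hi ξ hξ]
  exact h1 k'' hk'' ξ hξ

theorem eqB_new {e : Dt Ω} {δ ε γ : Ω} (h : δ < γ) (h' : γ ≤ ε) (i : Ω) (k : K Ω) :
    EqB k γ ((ext e δ ε).z γ i) (mb e δ (f1 (ix γ i)) (f2 (ix γ i))) := by
  intro k' _ ξ hξ
  rw [z_new h h' i hξ]

/-- names which agree below `δ` with a member of the level `δ`, and with a finite set above -/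
theorem eqB_mb {e : Dt Ω} {δ γ j : Ω} {F : Finset Ω} {x y : Nm Ω} {k : K Ω}
    (h1 : EqB k δ y (e.z δ j)) (h2 : ∀ k' ≤ k, ∀ ξ < γ, ξ < δ → (x ξ k' ↔ y ξ k'))
    (h3 : ∀ k' ≤ k, ∀ ξ < γ, δ ≤ ξ → (x ξ k' ↔ ind F ξ k')) : EqB k γ x (mb e δ j F) := by
  intro k' hk ξ hξ
  show x ξ k' ↔ glue δ (e.z δ j) (ind F) ξ k'
  rcases lt_or_ge ξ δ with h | h
  · rw [glue_lt h]
    exact (h2 k' hk ξ hξ h).trans (h1 k' hk ξ h)
  · rw [glue_ge h]
    exact h3 k' hk ξ hξ h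

theorem mb_lt {e : Dt Ω} {δ j : Ω} {F : Finset Ω} {ξ : Ω} (h : ξ < δ) :
    mb e δ j F ξ = e.z δ j ξ := glue_lt h

theorem mb_ge {e : Dt Ω} {δ j : Ω} {F : Finset Ω} {ξ : Ω} (h : δ ≤ ξ) :
    mb e δ j F ξ = ind F ξ := glue_ge h

theorem ind_iff {F : Finset Ω} {ξ : Ω} {k : K Ω} : ind F ξ k ↔ ξ ∈ F := by
  unfold ind
  split_ifs with h
  · exact ⟨fun _ => h, fun _ => trivial⟩
  · exact ⟨fun h' => h'.elim, fun h' => (h h').elim⟩

theorem ind_neg_iff {F : Finset Ω} {ξ : Ω} {k : K Ω} : (ind F ξ).neg k ↔ ξ ∉ F := by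
  rw [RP.neg_iff]
  constructor
  · intro h hξ
    exact h k le_rfl (ind_iff.2 hξ)
  · intro h q _ hq
    exact h (ind_iff.1 hq)

end EXT

open EXT

theorem ext_TV {β : Ω} {m : Mt Ω} {e : Dt Ω} (he : Bd β e) (h : TV m e) {δ ε : Ω}
    (hδ : Hts m e δ) (hε : δ ≤ ε) : TV m (ext e δ ε) := by
  classical
  refine ⟨?_, ?_, ?_, ?_⟩
  · intro m' γ γ' hm hH hle
    exact H_of_le (hδ.mono hm) (hle.trans (le_of_H hε hH))
  · intro m' γ γ' hm hH hle i
    have hγε := le_of_H hε hH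
    have hδ' := (hδ.mono hm δ).1 le_rfl
    rcases le_or_gt γ δ with h1 | h1
    · rw [z_low h1, z_low (hle.trans h1)]
      rw [H_low h1] at hH
      exact h.res hm hH hle i
    · rcases le_or_gt γ' δ with h2 | h2
      · rw [z_low h2]
        refine (h.res hm hδ' h2 (f1 (ix γ i))).congr ?_
        intro k _ ξ hξ
        rw [z_new h1 hγε i (hξ.trans_le hle), mb_lt (hξ.trans_le h2)]
      · refine in_new he h2 (hle.trans hγε) fun k _ => ⟨k, le_rfl, f1 (ix γ i), f2 (ix γ i), ?_⟩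
        exact (eqB_new h1 hγε i k).mono le_rfl hle
  · intro m' γ γ' hm hH hle i j
    have hγε := le_of_H hε hH
    have hδ' := (hδ.mono hm δ).1 le_rfl
    rcases le_or_gt γ δ with h1 | h1
    · rw [z_low h1, z_low (hle.trans h1)]
      rw [H_low h1] at hH
      exact h.rep hm hH hle i j
    · rcases le_or_gt γ' δ with h2 | h2
      · rw [z_low h2]
        refine in_new he h1 hγε fun k hk => ?_
        obtain ⟨k', hk', l, hl⟩ := h.rep hm hδ' h2 (f1 (ix γ i)) j k hk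
        refine ⟨k', hk', l, f2 (ix γ i), eqB_mb hl ?_ ?_⟩
        · intro k'' _ ξ hξ hξδ
          rcases lt_or_ge ξ γ' with h3 | h3
          · rw [glue_lt h3, glue_lt h3]
          · rw [glue_ge h3, glue_ge h3, z_new h1 hγε i hξ, mb_lt hξδ]
        · intro k'' _ ξ hξ hξδ
          rw [glue_ge (h2.trans hξδ), z_new h1 hγε i hξ, mb_ge hξδ]
      · refine in_new he h1 hγε fun k _ => ⟨k, le_rfl, f1 (ix γ' j),
          ((f2 (ix γ' j)).filter (· < γ')) ∪ ((f2 (ix γ i)).filter (γ' ≤ ·)),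
          eqB_mb (EqB.refl _ _ _) ?_ ?_⟩
        · intro k'' _ ξ _ hξδ
          rw [glue_lt (hξδ.trans h2), z_new h2 (hle.trans hγε) j (hξδ.trans h2), mb_lt hξδ]
        · intro k'' _ ξ hξ hξδ
          rw [ind_iff, Finset.mem_union, Finset.mem_filter, Finset.mem_filter]
          rcases lt_or_ge ξ γ' with h3 | h3
          · rw [glue_lt h3, z_new h2 (hle.trans hγε) j h3, mb_ge hξδ, ind_iff]
            simp [h3, not_le.2 h3]
          · rw [glue_ge h3, z_new h1 hγε i hξ, mb_ge hξδ, ind_iff]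
            simp [h3, not_lt.2 h3]
  · intro m' γ hm hH ξ hξ i
    have hγε := le_of_H hε hH
    have hδ' := (hδ.mono hm δ).1 le_rfl
    rcases le_or_gt γ δ with h1 | h1
    · rw [z_low h1]
      rw [H_low h1] at hH
      exact h.flp hm hH ξ hξ i
    · rcases lt_or_ge ξ δ with h2 | h2
      · refine in_new he h1 hγε fun k hk => ?_
        obtain ⟨k', hk', l, hl⟩ := h.flp hm hδ' ξ h2 (f1 (ix γ i)) k hk
        refine ⟨k', hk', l, f2 (ix γ i), eqB_mb hl ?_ ?_⟩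
        · intro k'' _ η hη hηδ
          by_cases h3 : η = ξ
          · subst h3
            rw [flipAt_self, flipAt_self, z_new h1 hγε i hη, mb_lt hηδ]
          · rw [flipAt_ne h3, flipAt_ne h3, z_new h1 hγε i hη, mb_lt hηδ]
        · intro k'' _ η hη hηδ
          have h3 : η ≠ ξ := fun h3 => absurd h2 (not_lt.2 (h3 ▸ hηδ))
          rw [flipAt_ne h3, z_new h1 hγε i hη, mb_ge hηδ]
      · refine in_new he h1 hγε fun k _ => ⟨k, le_rfl, f1 (ix γ i),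
          if ξ ∈ f2 (ix γ i) then (f2 (ix γ i)).erase ξ else insert ξ (f2 (ix γ i)),
          eqB_mb (EqB.refl _ _ _) ?_ ?_⟩
        · intro k'' _ η hη hηδ
          have h3 : η ≠ ξ := fun h3 => absurd hηδ (not_lt.2 (h3 ▸ h2))
          rw [flipAt_ne h3, z_new h1 hγε i hη, mb_lt hηδ]
        · intro k'' _ η hη hηδ
          rw [ind_iff]
          by_cases h3 : η = ξ
          · subst h3
            rw [flipAt_self, z_new h1 hγε i hη, mb_ge hηδ, ind_neg_iff]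
            split_ifs with h4 <;> simp [h4]
          · rw [flipAt_ne h3, z_new h1 hγε i hη, mb_ge hηδ, ind_iff]
            split_ifs with h4 <;> simp [h3]

theorem ext_DV {β : Ω} {m : Mt Ω} {e : Dt Ω} (he : Bd β e) (h : DV m e) {δ ε : Ω}
    (hδ : Hts m e δ) (hε : δ ≤ ε) : DV m (ext e δ ε) := by
  refine ⟨ext_TV he h.toTV hδ hε, ?_⟩
  intro m' γ hm hH
  have hγε := le_of_H hε hH
  have hδ' := (hδ.mono hm δ).1 le_rfl
  have hx : ∀ ξ, (ext e δ ε).x ξ = if ξ < δ then e.x ξ else RP.bot := fun _ => rfl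
  rcases le_or_gt γ δ with h1 | h1
  · rw [z_low h1]
    rw [H_low h1] at hH
    refine (h.br m' γ hm hH).congr ?_
    intro k _ ξ hξ
    rw [hx, if_pos (hξ.trans_le h1)]
  · refine in_new he h1 hγε fun k hk => ?_
    obtain ⟨k', hk', l, hl⟩ := h.br m' δ hm hδ' k hk
    refine ⟨k', hk', l, ∅, eqB_mb hl ?_ ?_⟩
    · intro k'' _ ξ _ hξδ
      rw [hx, if_pos hξδ]
    · intro k'' _ ξ _ hξδ
      rw [hx, if_neg (not_lt.2 hξδ), ind_iff]
      exact ⟨fun h' => h'.elim, fun h' => by simp at h'⟩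

theorem ext_Hts {m : Mt Ω} {e : Dt Ω} {δ ε : Ω} (hδ : Hts m e δ) (hε : δ ≤ ε) :
    Hts m (ext e δ ε) ε := by
  intro γ
  refine ⟨fun h => H_of_le hδ h, fun h m' _ hH => ?_⟩
  exact absurd (le_of_H hε hH) (not_le.2 h)

theorem ext_le {m : Mt Ω} {e : Dt Ω} {δ ε : Ω} (hδ : Hts m e δ) : LeD m (ext e δ ε) e := by
  refine ⟨fun m' hm γ hH => ?_, fun m' hm γ hH => ?_⟩
  · have h1 := hδ.le_of_H hm hH
    rw [H_low h1, z_low h1]
    exact ⟨hH, fun i => EqM.refl _ _ _⟩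
  · have h1 := hδ.le_of_H hm hH
    intro k _ ξ hξ
    show (if ξ < δ then e.x ξ else RP.bot) k ↔ _
    rw [if_pos (hξ.trans_le h1)]

theorem ext_bd {β β' : Ω} {e : Dt Ω} {δ ε : Ω} (he : Bd β e) (hβ : β ≤ β') (hδ : δ < β')
    (hε : ε < β') : Bd β' (ext e δ ε) := by
  refine ⟨?_, ?_, ?_, ?_, ?_, ?_, ?_⟩
  · intro γ m h
    change (if γ ≤ δ then e.H γ else if γ ≤ ε then RP.top else RP.bot) m at h
    split_ifs at h with h1 h2
    · exact h1.trans_lt hδ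
    · exact h2.trans_lt hε
    · exact h.elim
  · intro γ m h
    change (if γ ≤ δ then e.H γ else if γ ≤ ε then RP.top else RP.bot) m at h
    show (if γ ≤ δ then e.H γ else if γ ≤ ε then RP.top else RP.bot) (m.res β')
    split_ifs at h ⊢ with h1 h2
    · exact (e.H γ).mono (res_le_res hβ m) (he.Hb h)
    · trivial
    · exact h.elim
  · intro γ i ξ k h
    change (if γ ≤ δ then e.z γ i ξ else if ξ < γ ∧ γ ≤ ε then
      glue δ (e.z δ (f1 (ix γ i))) (ind (f2 (ix γ i))) ξ else RP.bot) k at h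
    split_ifs at h with h1 h2
    · exact ⟨h1.trans_lt hδ, (he.z0 h).2⟩
    · exact ⟨h2.2.trans_lt hε, h2.1⟩
    · exact h.elim
  · intro γ i ξ k h
    change (if γ ≤ δ then e.z γ i ξ else if ξ < γ ∧ γ ≤ ε then
      glue δ (e.z δ (f1 (ix γ i))) (ind (f2 (ix γ i))) ξ else RP.bot) k at h
    show (if γ ≤ δ then e.z γ i ξ else if ξ < γ ∧ γ ≤ ε then
      glue δ (e.z δ (f1 (ix γ i))) (ind (f2 (ix γ i))) ξ else RP.bot) (kres β' k)
    split_ifs at h ⊢ with h1 h2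
    · exact (e.z γ i ξ).mono (kres_le_kres hβ k) (he.zb h)
    · rcases lt_or_ge ξ δ with h3 | h3
      · rw [glue_lt h3] at h ⊢
        exact (e.z δ _ ξ).mono (kres_le_kres hβ k) (he.zb h)
      · rw [glue_ge h3] at h ⊢
        exact ind_iff.2 (ind_iff.1 h)
    · exact h.elim
  · intro γ i hi
    rcases le_or_gt γ δ with h1 | h1
    · rw [z_low h1]
      exact he.zw hi
    · funext ξ
      show (if γ ≤ δ then e.z γ i ξ else if ξ < γ ∧ γ ≤ ε then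
        glue δ (e.z δ (f1 (ix γ i))) (ind (f2 (ix γ i))) ξ else RP.bot) =
        (if γ ≤ δ then e.z γ b0 ξ else if ξ < γ ∧ γ ≤ ε then
        glue δ (e.z δ (f1 (ix γ b0))) (ind (f2 (ix γ b0))) ξ else RP.bot)
      rw [if_neg (not_le.2 h1), if_neg (not_le.2 h1), ix_ge hi, ix_b0]
  · intro ξ k h
    change (if ξ < δ then e.x ξ else RP.bot) k at h
    split_ifs at h with h1
    · exact (he.x.x0 h).trans_le hβ
    · exact h.elim
  · intro ξ k h
    change (if ξ < δ then e.x ξ else RP.bot) k at h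
    show (if ξ < δ then e.x ξ else RP.bot) (kres β' k)
    split_ifs at h ⊢ with h1
    · exact (e.x ξ).mono (kres_le_kres hβ k) (he.x.xb h)
    · exact h.elim

end Pool.Agent.T27

end

section

set_option linter.unusedSectionVars false

namespace Pool.Agent.T27

open Pool.Agent.Lib_helper27 Cardinal Cod

section

variable {Ω : Type} [LinearOrder Ω]

theorem GLR_kres_res {β : Ω} {k : K Ω} {m : Mt Ω} {c : Cn} (h : m.res β = k.1.res β) :
    kres β (m, c) = (k.1.res β, c) := by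
  unfold kres
  rw [h]

/-- a predicate based below `β` has a regularization based below `β` -/
theorem GLR_based {β : Ω} {Φ : K Ω → Prop} (hΦ : ∀ k, Φ k ↔ Φ (kres β k)) {k : K Ω}
    (h : Rg Φ k) : Rg Φ (kres β k) := by
  intro k1 hk1
  have h0 : k1.1.res β ≤ k.1.res β := by
    have := Mt.res_mono (α := β) hk1.1
    change k1.1.res β ≤ (k.1.res β).res β at this
    rwa [Mt.res_res_of_le le_rfl] at this
  obtain ⟨d, hd, hd'⟩ := h (Mt.gl β k1.1 k.1, k1.2) ⟨Mt.gl_le' h0, hk1.2⟩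
  have h1 : d.1.res β ≤ k1.1.res β := by
    have := Mt.res_mono (α := β) hd.1
    change d.1.res β ≤ (Mt.gl β k1.1 k.1).res β at this
    rwa [Mt.gl_res] at this
  refine ⟨(Mt.gl β d.1 k1.1, d.2), ⟨Mt.gl_le' h1, hd.2⟩, ?_⟩
  rw [hΦ]
  have e : kres β (Mt.gl β d.1 k1.1, d.2) = kres β d := by
    unfold kres
    rw [Mt.gl_res]
  rw [e, ← hΦ]
  exact hd'

variable [Cod Ω]

theorem GLR_H {β : Ω} {e : Dt Ω} (he : Bd β e) {γ : Ω} {m : Mt Ω} :
    e.H γ m ↔ e.H γ (m.res β) :=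
  ⟨fun h => he.Hb h, fun h => (e.H γ).mono (Mt.le_res β m) h⟩

theorem GLR_x {β : Ω} {x : Nm Ω} (hx : BdN β x) {ξ : Ω} {k : K Ω} :
    x ξ k ↔ x ξ (kres β k) :=
  ⟨fun h => hx.xb h, fun h => (x ξ).mono le_kres h⟩

theorem glR_le {m : Mt Ω} {e : Dt Ω} (x y : Nm Ω) : LeX m e (glR e y x) y := by
  intro m' _ γ hH k hk ξ hξ
  constructor
  · intro h
    refine (y ξ).reg (Loc.imp h ?_)
    rintro k' hk' (⟨_, h1⟩ | ⟨h1, _⟩)
    · exact h1
    · exact (h1 k'.1 le_rfl γ hξ ((e.H γ).mono (hk'.1.trans hk) hH)).elim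
  · intro h
    exact Loc.pure fun k' hk' => Or.inl ⟨⟨γ, hξ, (e.H γ).mono (hk'.1.trans hk) hH⟩,
      (y ξ).mono hk' h⟩

theorem glR_at {m : Mt Ω} {e : Dt Ω} {δ : Ω} (h : Hts m e δ) (x y : Nm Ω) (γ : Ω) :
    EqM m γ (glR e y x) (glue δ y x) := by
  intro k hk ξ _
  rcases lt_or_ge ξ δ with hlt | hge
  · rw [glue_lt hlt]
    exact glR_le x y m le_rfl δ ((h δ).1 le_rfl) k hk ξ hlt
  · rw [glue_ge hge]
    constructor
    · intro h1
      refine (x ξ).reg (Loc.imp h1 ?_)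
      rintro k' hk' (⟨⟨γ', h2, h3⟩, _⟩ | ⟨_, h2⟩)
      · exact ((h γ').2 (hge.trans_lt h2) k'.1 (hk'.1.trans hk) h3).elim
      · exact h2
    · intro h1
      exact Loc.pure fun k' hk' => Or.inr ⟨fun m' hm' γ' hγ' =>
        (h γ').2 (hge.trans_lt hγ') m' (hm'.trans (hk'.1.trans hk)), (x ξ).mono hk' h1⟩

theorem glR_brn {m : Mt Ω} {e e' : Dt Ω} (hv : TV m e') (hle : LeT m e' e) (hc : RCl m e)
    {x y : Nm Ω} (hy : Brn m e y) (hx : Brn m e' x) : Brn m e' (glR e y x) := by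
  refine Brn.dense fun m1 hm1 => ?_
  obtain ⟨m2, hm2, δ, hδ⟩ := hc m1 hm1
  refine ⟨m2, hm2, ?_⟩
  have hm2' : m2 ≤ m := hm2.trans hm1
  intro m' γ hm' hH
  have hmm : m' ≤ m := hm'.trans hm2'
  have hδ' : Hts m' e δ := hδ.mono hm'
  refine In.congr ?_ (glR_at hδ' x y γ)
  have hlow : ∀ γ' ≤ δ, In m' γ' (e'.z γ') y := by
    intro γ' hγ'
    have h1 : e.H γ' m' := (hδ' γ').1 hγ'
    exact (hle.in_iff hmm h1).2 (hy m' γ' hmm h1)
  rcases le_or_gt γ δ with hγ | hγ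
  · refine In.congr (hlow γ hγ) ?_
    intro k _ ξ hξ
    rw [glue_lt (hξ.trans_le hγ)]
  · have h2 : In m' δ (e'.z δ) y := hlow δ le_rfl
    have h3 : In m' γ (e'.z γ) x := hx m' γ hmm hH
    exact hv.rep' hmm hH hγ.le h2 h3

theorem glR_bd {β : Ω} {e : Dt Ω} (he : Bd β e) {x y : Nm Ω} (hx : BdN β x) (hy : BdN β y) :
    BdN β (glR e y x) := by
  refine ⟨?_, ?_⟩
  · intro ξ k h
    obtain ⟨k', _, h1⟩ := Loc.exists h
    rcases h1 with ⟨_, h1⟩ | ⟨_, h1⟩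
    · exact hy.x0 h1
    · exact hx.x0 h1
  · intro ξ k h
    refine GLR_based ?_ h
    intro k
    have e1 : (∃ γ, ξ < γ ∧ e.H γ k.1) ↔ (∃ γ, ξ < γ ∧ e.H γ (kres β k).1) :=
      exists_congr fun γ => and_congr_right fun _ => GLR_H he
    have e2 : (∀ m' ≤ k.1, ∀ γ, ξ < γ → ¬ e.H γ m') ↔
        (∀ m' ≤ (kres β k).1, ∀ γ, ξ < γ → ¬ e.H γ m') := by
      constructor
      · intro h1 m' hm' γ hγ hH
        have h2 : m'.res β ≤ k.1.res β := by
          have := Mt.res_mono (α := β) hm'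
          change m'.res β ≤ (k.1.res β).res β at this
          rwa [Mt.res_res_of_le le_rfl] at this
        refine h1 (Mt.gl β m' k.1) (Mt.gl_le' h2) γ hγ ?_
        exact (e.H γ).mono Mt.gl_le_left (he.Hb hH)
      · intro h1 m' hm' γ hγ hH
        exact h1 m' (hm'.trans (Mt.le_res β k.1)) γ hγ hH
    rw [e1, e2, ← GLR_x hy, ← GLR_x hx]

theorem mixE_on {E : RP (K Ω)} {x y : Nm Ω} {k : K Ω} (hk : E k) (γ : Ω) :
    EqB k γ (mixE E x y) x := by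
  intro k' hk' ξ _
  constructor
  · intro h
    refine (x ξ).reg (Loc.imp h ?_)
    rintro k'' hk'' (⟨_, h1⟩ | ⟨h1, _⟩)
    · exact h1
    · exact (h1 k'' le_rfl (E.mono (hk''.trans hk') hk)).elim
  · intro h
    exact Loc.pure fun k'' hk'' => Or.inl ⟨E.mono (hk''.trans hk') hk, (x ξ).mono hk'' h⟩

theorem mixE_off {E : RP (K Ω)} {x y : Nm Ω} {k : K Ω} (hk : E.neg k) (γ : Ω) :
    EqB k γ (mixE E x y) y := by
  intro k' hk' ξ _
  constructor
  · intro h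
    refine (y ξ).reg (Loc.imp h ?_)
    rintro k'' hk'' (⟨h1, _⟩ | ⟨_, h1⟩)
    · exact (hk k'' (hk''.trans hk') h1).elim
    · exact h1
  · intro h
    exact Loc.pure fun k'' hk'' => Or.inr ⟨E.neg.mono (hk''.trans hk') hk, (y ξ).mono hk'' h⟩

theorem mixE_brn {m : Mt Ω} {e : Dt Ω} {E : RP (K Ω)} {x y : Nm Ω} (hx : Brn m e x)
    (hy : Brn m e y) : Brn m e (mixE E x y) := by
  intro m' γ hm' hH
  refine In.of_eqB fun k _ => ?_
  obtain ⟨k', hk', h | h⟩ := E.em k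
  · exact ⟨k', hk', x, hx m' γ hm' hH, mixE_on h γ⟩
  · exact ⟨k', hk', y, hy m' γ hm' hH, mixE_off h γ⟩

theorem mixE_bd {β : Ω} {E : RP (K Ω)} (hE : ∀ k, E k → E (kres β k)) {x y : Nm Ω}
    (hx : BdN β x) (hy : BdN β y) : BdN β (mixE E x y) := by
  refine ⟨?_, ?_⟩
  · intro ξ k h
    obtain ⟨k', _, h1⟩ := Loc.exists h
    rcases h1 with ⟨_, h1⟩ | ⟨_, h1⟩
    · exact hx.x0 h1
    · exact hy.x0 h1
  · intro ξ k h
    refine GLR_based ?_ h
    intro k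
    have e0 : ∀ k, E k ↔ E (kres β k) := fun k => ⟨hE k, fun h => E.mono le_kres h⟩
    have e1 : E.neg k ↔ E.neg (kres β k) := by
      constructor
      · intro h1 k' hk' hEk
        have h2 : k'.1.res β ≤ k.1.res β := by
          have := Mt.res_mono (α := β) hk'.1
          change k'.1.res β ≤ (k.1.res β).res β at this
          rwa [Mt.res_res_of_le le_rfl] at this
        refine h1 (Mt.gl β k'.1 k.1, k'.2) ⟨Mt.gl_le' h2, hk'.2⟩ ?_
        rw [e0]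
        have e : kres β (Mt.gl β k'.1 k.1, k'.2) = kres β k' := by
          unfold kres
          rw [Mt.gl_res]
        rw [e]
        exact hE k' hEk
      · intro h1
        exact E.neg.mono le_kres h1
    rw [← e0, ← e1, ← GLR_x hy, ← GLR_x hx]

end

end Pool.Agent.T27

end

section

/-!
# DLM: limits of chains of closed valid data
-/

set_option linter.unusedSectionVars false

namespace Pool.Agent.T27

open Pool.Agent.Lib_helper27 Cardinal Cod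

variable {Ω : Type} [LinearOrder Ω] [Cod Ω]

/-- limits of chains of closed valid data -/
theorem dlim [WellFoundedLT Ω] {m : Mt Ω} {I : Type} [LinearOrder I] [Nonempty I] {e : I → Dt Ω}
    (hv : ∀ i, DV m (e i)) (hc : ∀ i, ∃ δ, Hts m (e i) δ) {β : Ω} (hb : ∀ i, Bd β (e i))
    (hle : ∀ i j, i ≤ j → LeD m (e j) (e i)) : ∃ e', DV m e' ∧ (∃ δ, Hts m e' δ) ∧
      (∀ β', β < β' → Bd β' e') ∧ ∀ i, LeD m e' (e i) := by
  classical
  have hv' : ∀ i, DV (m.res β) (e i) := fun i => (DV_res (hb i)).2 (hv i)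
  have hle' : ∀ i j, i ≤ j → LeD (m.res β) (e j) (e i) := fun i j hij =>
    (LeD_res (hb i) (hb j)).2 (hle i j hij)
  let φ : I → Mt Ω → Prop := fun _ m' => m' ≤ m.res β
  have hφ : ∀ l m1 m', m' ≤ m1 → φ l m1 → φ l m' := fun l m1 m' h1 h2 => h1.trans h2
  have hcoh : Coh φ e := by
    intro l l' m' h1 _
    refine Loc.pure fun m'' hm'' => ?_
    rcases le_total l l' with h | h
    · exact Or.inr ((hle' l l' h).mono (hm''.trans h1))
    · exact Or.inl ((hle' l' l h).mono (hm''.trans h1))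
  have hdn : ∀ l' m', φ l' m' → ∀ γ' γ'', γ' ≤ γ'' → (e l').H γ'' m' → (e l').H γ' m' :=
    fun l' m' h1 γ' γ'' h2 h3 => (hv' l').dn h1 h3 h2
  have hφm : ∀ i, φ i m := fun _ => Mt.le_res _ _
  have huv : DV m (UN φ e) := UN_DV hφ hcoh (fun l m' h => (hv' l).mono h) m
  have hub : Bd β (UN φ e) := by
    refine UN_bd hφ (fun l m' h => ?_) fun l m' _ => hb l
    have h1 := Mt.res_mono (α := β) h
    rwa [Mt.res_res_of_le le_rfl] at h1
  have hule : ∀ i, LeD m (UN φ e) (e i) := fun i => UN_le hφ hcoh (hφm i) hdn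
  choose δ hδ using hc
  have hδβ : ∀ i, δ i < β := fun i => (hb i).H0 ((hδ i (δ i)).1 le_rfl)
  have hup : ∀ (γ : Ω) (m' : Mt Ω), m' ≤ m → (UN φ e).H γ m' → ∃ i, γ ≤ δ i := by
    intro γ m' hm' hH
    obtain ⟨m'', hm'', l, _, h2⟩ := hH m' le_rfl
    exact ⟨l, (hδ l).le_of_H (hm''.trans hm') h2⟩
  have hlow : ∀ (γ : Ω) (i : I), γ ≤ δ i → (UN φ e).H γ m := fun γ i h =>
    ((hule i).t m le_rfl γ ((hδ i γ).1 h)).1
  have hht : ∃ δ', Hts m (cap (UN φ e) fun _ => (UN φ e).x) δ' := by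
    by_cases hmax : ∃ i0, ∀ i, δ i ≤ δ i0
    · obtain ⟨i0, hi0⟩ := hmax
      refine ⟨δ i0, cap_Hts _ fun γ => ⟨fun h => hlow γ i0 h, fun h m' hm' hH => ?_⟩⟩
      obtain ⟨i, hi⟩ := hup γ m' hm' hH
      exact absurd (hi.trans (hi0 i)) (not_le.2 h)
    · push Not at hmax
      have hne : {x : Ω | ∀ i, δ i < x}.Nonempty := ⟨β, hδβ⟩
      have hmem := (wellFounded_lt (α := Ω)).min_mem {x : Ω | ∀ i, δ i < x} hne
      have hmin : ∀ x, x < (wellFounded_lt (α := Ω)).min {x : Ω | ∀ i, δ i < x} hne →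
          ∃ i, x ≤ δ i := by
        intro x hx
        by_contra hcon
        push Not at hcon
        exact (wellFounded_lt (α := Ω)).not_lt_min {x : Ω | ∀ i, δ i < x} (x := x) hcon hx
      refine ⟨(wellFounded_lt (α := Ω)).min {x : Ω | ∀ i, δ i < x} hne,
        cap_Hts_lim _ (fun γ => ⟨fun h => ?_, fun h m' hm' hH => ?_⟩) ?_⟩
      · obtain ⟨i, hi⟩ := hmin γ h
        exact hlow γ i hi
      · obtain ⟨i, hi⟩ := hup γ m' hm' hH
        exact absurd (h.trans hi) (not_le.2 (hmem i))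
      · intro γ' hγ'
        obtain ⟨i, hi⟩ := hmin γ' hγ'
        obtain ⟨j, hj⟩ := hmax i
        exact ⟨δ j, hi.trans_lt hj, hmem j⟩
  have hbr : ∀ _ : ℕ, Brn m (UN φ e) (UN φ e).x := fun _ => huv.br
  refine ⟨cap (UN φ e) fun _ => (UN φ e).x, ⟨cap_TV hub huv.toTV hbr, ?_⟩, hht, ?_, ?_⟩
  · exact cap_brn hub huv.toTV hbr huv.br fun k _ => ⟨k, le_rfl, 0, fun γ _ _ => EqB.refl _ _ _⟩
  · intro β' hβ'
    exact cap_bd hub (fun _ => hub.x) hβ'
  · intro i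
    exact (cap_le _).trans (hule i)

end Pool.Agent.T27

end

section

/-!
# Block DMX: mixtures
-/

set_option linter.unusedSectionVars false

namespace Pool.Agent.T27

open Pool.Agent.Lib_helper27 Cardinal Cod

variable {Ω : Type} [LinearOrder Ω]

/-- an element above a given one -/
theorem DMX.exists_gt [Inac Ω] (b : Ω) : ∃ c, b < c := by
  have h1 : #Unit < #Ω := by
    rw [mk_unit]
    refine lt_trans ?_ (Inac.unc (Ω := Ω))
    exact one_lt_aleph0.trans_le (aleph0_le_aleph 1)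
  obtain ⟨c, hc⟩ := Inac.reg Unit (fun _ => b) h1
  exact ⟨c, hc ()⟩

/-- a maximal antichain in a set which is dense below `m` -/
theorem DMX.antichain (D : Mt Ω → Prop) (m : Mt Ω) (hD : ∀ m' ≤ m, ∃ m'' ≤ m', D m'') :
    ∃ W : Set (Mt Ω), (∀ w ∈ W, D w) ∧
      (∀ w ∈ W, ∀ w' ∈ W, (∃ l, l ≤ w ∧ l ≤ w') → w = w') ∧
      ∀ q ≤ m, ∃ r ≤ q, ∃ w ∈ W, r ≤ w := by
  obtain ⟨W, hW⟩ := zorn_subset
    {W : Set (Mt Ω) | (∀ w ∈ W, D w) ∧ ∀ w ∈ W, ∀ w' ∈ W, (∃ l, l ≤ w ∧ l ≤ w') → w = w'} (by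
      intro c hc hch
      refine ⟨⋃₀ c, ⟨?_, ?_⟩, fun s hs => Set.subset_sUnion_of_mem hs⟩
      · rintro w ⟨s, hs, hw⟩
        exact (hc hs).1 w hw
      · rintro w ⟨s, hs, hw⟩ w' ⟨s', hs', hw'⟩ hl
        rcases hch.total hs hs' with h | h
        · exact (hc hs').2 w (h hw) w' hw' hl
        · exact (hc hs).2 w hw w' (h hw') hl)
  refine ⟨W, hW.prop.1, hW.prop.2, fun q hq => ?_⟩
  by_contra hcon
  push Not at hcon
  obtain ⟨d, hd, hDd⟩ := hD q hq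
  have hinc : ∀ w ∈ W, ¬ ∃ l, l ≤ d ∧ l ≤ w := by
    rintro w hw ⟨l, h1, h2⟩
    exact hcon l (h1.trans hd) w hw h2
  have hins : insert d W ∈
      {W : Set (Mt Ω) | (∀ w ∈ W, D w) ∧ ∀ w ∈ W, ∀ w' ∈ W, (∃ l, l ≤ w ∧ l ≤ w') → w = w'} := by
    refine ⟨?_, ?_⟩
    · rintro w (rfl | hw)
      · exact hDd
      · exact hW.prop.1 w hw
    · rintro w (rfl | hw) w' (rfl | hw') ⟨l, h1, h2⟩
      · rfl
      · exact (hinc w' hw' ⟨l, h1, h2⟩).elim
      · exact (hinc w hw ⟨l, h2, h1⟩).elim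
      · exact hW.prop.2 w hw w' hw' ⟨l, h1, h2⟩
  have hmem : d ∈ W := hW.le_of_ge hins (Set.subset_insert d W) (Set.mem_insert d W)
  exact hinc d hmem ⟨d, le_rfl, le_rfl⟩

variable [Cod Ω]

theorem dmix [Inac Ω] {U : Ultrafilter Ω} (hU : NUlt U) {m : Mt Ω} {e : Dt Ω} (he : DV m e)
    (hc : ∃ δ, Hts m e δ) (hb : ∃ β, Bd β e) (Φ : Mt Ω → Dt Ω → Prop)
    (hΦ : ∀ m' ≤ m, ∃ m'' ≤ m', ∃ e'', DV m'' e'' ∧ (∃ δ, Hts m'' e'' δ) ∧ (∃ β, Bd β e'') ∧
      LeD m'' e'' e ∧ Φ m'' e'')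
    (mono : ∀ m' e' m'' e'', Φ m' e' → m'' ≤ m' → LeT m'' e'' e' → Φ m'' e'') :
    ∃ e', DV m e' ∧ (∃ δ, Hts m e' δ) ∧ (∃ β, Bd β e') ∧ LeD m e' e ∧
      Loc m fun m' => Φ m' e' := by
  classical
  obtain ⟨W, hW1, hW2, hW3⟩ := DMX.antichain (fun m'' => ∃ e'', DV m'' e'' ∧
    (∃ δ, Hts m'' e'' δ) ∧ (∃ β, Bd β e'') ∧ LeD m'' e'' e ∧ Φ m'' e'') m hΦ
  have hcard : #W < #Ω := cc_card hU W hW2
  have hch : ∀ w : W, ∃ (e'' : Dt Ω) (δ β ρ : Ω), DV w.1 e'' ∧ Hts w.1 e'' δ ∧ Bd β e'' ∧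
      LeD w.1 e'' e ∧ Φ w.1 e'' ∧ w.1.res ρ = w.1 := by
    intro w
    obtain ⟨e'', h1, ⟨δ, h2⟩, ⟨β, h3⟩, h4, h5⟩ := hW1 w.1 w.2
    obtain ⟨ρ, hρ⟩ := Mt.exists_res w.1
    exact ⟨e'', δ, β, ρ, h1, h2, h3, h4, h5, hρ⟩
  choose E δ β ρ h1 h2 h3 h4 h5 h6 using hch
  obtain ⟨ε, hε⟩ := Inac.reg W (fun w => max (β w) (max (δ w) (ρ w))) hcard
  have hεβ : ∀ w, β w < ε := fun w => (le_max_left _ _).trans_lt (hε w)
  have hεδ : ∀ w, δ w < ε := fun w =>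
    ((le_max_left _ _).trans (le_max_right _ _)).trans_lt (hε w)
  have hερ : ∀ w, ρ w < ε := fun w =>
    ((le_max_right _ _).trans (le_max_right _ _)).trans_lt (hε w)
  obtain ⟨β', hβ'⟩ := DMX.exists_gt ε
  -- the extended data
  set E' : W → Dt Ω := fun w => ext (E w) (δ w) ε with hE'
  have g1 : ∀ w, DV w.1 (E' w) := fun w => ext_DV (h3 w) (h1 w) (h2 w) (hεδ w).le
  have g2 : ∀ w, Hts w.1 (E' w) ε := fun w => ext_Hts (h2 w) (hεδ w).le
  have g3 : ∀ w, LeD w.1 (E' w) (E w) := fun w => ext_le (h2 w)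
  have g4 : ∀ w, Bd β' (E' w) := fun w =>
    ext_bd (h3 w) ((hεβ w).trans hβ').le ((hεδ w).trans hβ') hβ'
  have g5 : ∀ w : W, w.1.res β' = w.1 := by
    intro w
    conv_lhs => rw [← h6 w]
    rw [Mt.res_res_of_le' ((hερ w).trans hβ').le, h6 w]
  set φ : W → Mt Ω → Prop := fun w m' => m' ≤ w.1 with hφdef
  have hφ : ∀ l m m', m' ≤ m → φ l m → φ l m' := fun l m m' h h' => h.trans h'
  have hcoh : Coh φ E' := by
    intro l l' m' hl hl'
    have : l = l' := Subtype.ext (hW2 l.1 l.2 l'.1 l'.2 ⟨m', hl, hl'⟩)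
    subst this
    exact Loc.pure fun q _ => Or.inl (LeD.refl _ _)
  have hdv : ∀ l m', φ l m' → DV m' (E' l) := fun l m' h => (g1 l).mono h
  have hdn : ∀ l' m', φ l' m' → ∀ γ' γ'', γ' ≤ γ'' → (E' l').H γ'' m' → (E' l').H γ' m' :=
    fun l' m' h γ' γ'' hle hH => (hdv l' m' h).dn le_rfl hH hle
  refine ⟨UN φ E', UN_DV hφ hcoh hdv m, ⟨ε, fun γ => ⟨fun hγ => ?_, fun hγ m' hm' hH => ?_⟩⟩,
    ⟨β', ?_⟩, ?_, ?_⟩
  · intro q hq
    obtain ⟨r, hr, w, hw, hrw⟩ := hW3 q hq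
    exact ⟨r, hr, ⟨w, hw⟩, hrw, ((E' ⟨w, hw⟩).H γ).mono hrw ((g2 ⟨w, hw⟩ γ).1 hγ)⟩
  · obtain ⟨r, -, l, hl, hH'⟩ := Loc.exists hH
    exact (g2 l γ).2 hγ r hl hH'
  · refine UN_bd hφ ?_ fun l _ _ => g4 l
    intro l m' hl
    have := Mt.res_mono (α := β') hl
    rw [g5 l] at this
    exact this
  · refine LeD.dense fun q hq => ?_
    obtain ⟨r, hr, w, hw, hrw⟩ := hW3 q hq
    refine ⟨r, hr, ?_⟩
    exact (UN_le (l := ⟨w, hw⟩) hφ hcoh hrw hdn).trans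
      (((g3 ⟨w, hw⟩).trans (h4 ⟨w, hw⟩)).mono hrw)
  · intro q hq
    obtain ⟨r, hr, w, hw, hrw⟩ := hW3 q hq
    refine ⟨r, hr, mono _ _ _ _ (h5 ⟨w, hw⟩) hrw ?_⟩
    exact ((UN_le (l := ⟨w, hw⟩) hφ hcoh hrw hdn).trans ((g3 ⟨w, hw⟩).mono hrw)).t

end Pool.Agent.T27

end

section

/-!
# DMY: mixtures of two pieces, with bounds
-/

set_option linter.unusedSectionVars false

namespace Pool.Agent.T27

open Pool.Agent.Lib_helper27 Cardinal Cod

variable {Ω : Type} [LinearOrder Ω] [Cod Ω]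

/-- mixtures of two pieces, with bounds -/
theorem dmx {n m : Mt Ω} (hm : m ≤ n) {e e1 : Dt Ω} {β : Ω} (hn : n.res β = n)
    (hm' : m.res β = m) (he : DV n e) (hc : ∃ δ, Hts n e δ) (hb : Bd β e) (he1 : DV m e1)
    (hc1 : ∃ δ, Hts m e1 δ) (hb1 : Bd β e1) (hle : LeD m e1 e) :
    ∃ e', DV n e' ∧ (∃ δ, Hts n e' δ) ∧ Bd β e' ∧ LeD n e' e ∧ LeD m e' e1 := by
  classical
  obtain ⟨δ, hδ⟩ := hc
  obtain ⟨δ1, hδ1⟩ := hc1
  have hδle : δ ≤ δ1 := hδ1.le_of_H le_rfl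
    (hle.t m le_rfl δ ((hδ.mono hm δ).1 le_rfl)).1
  have hδβ : δ < β := hb.H0 ((hδ δ).1 le_rfl)
  have hδ1β : δ1 < β := hb1.H0 ((hδ1 δ1).1 le_rfl)
  let φ : Bool → Mt Ω → Prop := fun l m' =>
    match l with
    | true => m' ≤ m
    | false => m' ≤ n ∧ ∀ m'' ≤ m', ¬ m'' ≤ m
  let f : Bool → Dt Ω := fun l =>
    match l with
    | true => e1
    | false => ext e δ δ1
  have hφ : ∀ l m1 m', m' ≤ m1 → φ l m1 → φ l m' := by
    intro l m1 m' h1 h2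
    cases l with
    | true => exact h1.trans h2
    | false => exact ⟨h1.trans h2.1, fun m'' h3 => h2.2 m'' (h3.trans h1)⟩
  have hcoh : Coh φ f := by
    intro l l' m' h1 h2
    refine Loc.pure fun m'' _ => ?_
    cases l with
    | true =>
      cases l' with
      | true => exact Or.inl (LeD.refl _ _)
      | false => exact absurd h1 (h2.2 m' le_rfl)
    | false =>
      cases l' with
      | true => exact absurd h2 (h1.2 m' le_rfl)
      | false => exact Or.inl (LeD.refl _ _)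
  have hfv : ∀ l m', φ l m' → DV m' (f l) := by
    intro l m' h
    cases l with
    | true => exact he1.mono h
    | false => exact (ext_DV hb he hδ hδle).mono h.1
  have hfh : ∀ l m', φ l m' → Hts m' (f l) δ1 := by
    intro l m' h
    cases l with
    | true => exact hδ1.mono h
    | false => exact (ext_Hts hδ hδle).mono h.1
  have hdn : ∀ l' m', φ l' m' → ∀ γ' γ'', γ' ≤ γ'' → (f l').H γ'' m' → (f l').H γ' m' :=
    fun l' m' h1 γ' γ'' h2 h3 => (hfv l' m' h1).dn le_rfl h3 h2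
  have hdense : ∀ n' ≤ n, ∃ n'' ≤ n', ∃ l, φ l n'' := by
    intro n' hn'
    by_cases h : ∃ m'' ≤ n', m'' ≤ m
    · obtain ⟨m'', h1, h2⟩ := h
      exact ⟨m'', h1, true, h2⟩
    · push Not at h
      exact ⟨n', le_rfl, false, hn', h⟩
  refine ⟨UN φ f, UN_DV hφ hcoh hfv n, ⟨δ1, fun γ => ⟨fun h => ?_, fun h m' hm1 hH => ?_⟩⟩, ?_,
    ?_, UN_le (l := true) hφ hcoh (show m ≤ m from le_rfl) hdn⟩
  · intro n' hn'
    obtain ⟨n'', h1, l, h2⟩ := hdense n' hn'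
    exact ⟨n'', h1, l, h2, (hfh l n'' h2 γ).1 h⟩
  · obtain ⟨m'', hm2, l, h1, h2⟩ := hH m' le_rfl
    exact absurd ((hfh l m'' h1).le_of_H le_rfl h2) (not_le.2 h)
  · refine UN_bd hφ (fun l m' h => ?_) fun l m' _ => ?_
    · cases l with
      | true =>
        have h1 := Mt.res_mono (α := β) h
        rwa [hm'] at h1
      | false =>
        refine ⟨?_, fun m'' h1 h2 => ?_⟩
        · have h1 := Mt.res_mono (α := β) h.1
          rwa [hn] at h1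
        · have h3 : m''.res β ≤ m'.res β := by
            have h4 := Mt.res_mono (α := β) h1
            rwa [Mt.res_res_of_le le_rfl] at h4
          refine h.2 (Mt.gl β m'' m') (Mt.gl_le' h3) (Mt.gl_le_left.trans ?_)
          have h4 := Mt.res_mono (α := β) h2
          rwa [hm'] at h4
    · cases l with
      | true => exact hb1
      | false => exact ext_bd hb le_rfl hδβ hδ1β
  · refine LeD.dense fun n' hn' => ?_
    obtain ⟨n'', h1, l, h2⟩ := hdense n' hn'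
    refine ⟨n'', h1, (UN_le hφ hcoh h2 hdn).trans ?_⟩
    cases l with
    | true => exact hle.mono h2
    | false => exact (ext_le hδ).mono h2.1

end Pool.Agent.T27

end

section

/-!
# Block EXP: small families of open dense sets
-/

set_option linter.unusedSectionVars false

namespace Pool.Agent.T27

open Pool.Agent.Lib_helper27 Cardinal Cod

variable {Ω : Type} [LinearOrder Ω] [Cod Ω]

/-- valid bounded data with a last level -/
def EXP.S (m : Mt Ω) : Type := {e : Dt Ω // DV m e ∧ (∃ δ, Hts m e δ) ∧ ∃ β, Bd β e}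

instance EXP.instPre (m : Mt Ω) : Preorder (EXP.S m) where
  le e' e := LeD m e'.1 e.1
  le_refl _ := LeD.refl _ _
  le_trans _ _ _ h1 h2 := LeD.trans h1 h2

/-- the condition given by a datum -/
def EXP.pc {m : Mt Ω} (e : EXP.S m) {m' : Mt Ω} (h : m' ≤ m) : Pc Ω :=
  ⟨m', e.1, e.2.1.toTV.mono h, e.2.2.1.imp fun _ h' => h'.mono h, e.2.2.2⟩

theorem EXP.exists_gt [Inac Ω] (b : Ω) : ∃ c, b < c := by
  have h1 : #Unit < #Ω := by
    rw [mk_unit]
    refine lt_trans ?_ (Inac.unc (Ω := Ω))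
    exact one_lt_aleph0.trans_le (aleph0_le_aleph 1)
  obtain ⟨c, hc⟩ := Inac.reg Unit (fun _ => b) h1
  exact ⟨c, hc ()⟩

/-- the top level consists of branches -/
theorem EXP.brn {m : Mt Ω} {e : Dt Ω} (hv : TV m e) {δ : Ω} (hδ : Hts m e δ) (i : Ω) :
    Brn m e (e.z δ i) := by
  intro m' γ hm hH
  exact hv.res hm ((e.H δ).mono hm ((hδ δ).1 le_rfl)) (hδ.le_of_H hm hH) i

theorem EXP.bdn {β : Ω} {e : Dt Ω} (he : Bd β e) (δ i : Ω) : BdN β (e.z δ i) :=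
  ⟨fun h => (he.z0 h).2.trans (he.z0 h).1, fun h => he.zb h⟩

theorem EXP.wx_TV {m : Mt Ω} {e : Dt Ω} (hv : TV m e) (x : Nm Ω) : TV m (e.wx x) :=
  ⟨hv.dn, hv.res, hv.rep, hv.flp⟩

/-- lower bounds of chains of data -/
theorem EXP.lim [Inac Ω] {m : Mt Ω} {I : Type} [LinearOrder I] [Nonempty I] (hI : #I < #Ω)
    (f : I → EXP.S m) (hf : Antitone f) : ∃ q : EXP.S m, ∀ i, q ≤ f i := by
  have h1 : ∀ i, ∃ β, Bd β (f i).1 := fun i => (f i).2.2.2
  choose b hb using h1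
  obtain ⟨β, hβ⟩ := Inac.reg I b hI
  obtain ⟨β', hβ'⟩ := EXP.exists_gt β
  obtain ⟨e', h1, h2, h3, h4⟩ := dlim (m := m) (e := fun i => (f i).1) (fun i => (f i).2.1)
    (fun i => (f i).2.2.1) (β := β) (fun i => (hb i).mono (hβ i).le) fun i j hij => hf hij
  exact ⟨⟨e', h1, h2, β', h3 β' hβ'⟩, h4⟩

theorem exP [Inac Ω] {U : Ultrafilter Ω} (hU : NUlt U) (p : Pc Ω) {I : Type} (hI : #I < #Ω)
    (D : I → Pc Ω → Prop) (mono : ∀ i r r', r' ≤ r → D i r → D i r')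
    (dns : ∀ i, ∀ r ≤ p, ∃ r' ≤ r, D i r') :
    ∃ p' ≤ p, p'.m = p.m ∧ ∀ i, ∀ m ≤ p'.m, ∃ m' ≤ m, ∃ h : m' ≤ p'.m, D i (p'.rs m' h) := by
  classical
  rcases isEmpty_or_nonempty I with hE | hne
  · exact ⟨p, le_rfl, rfl, fun i => hE.elim i⟩
  obtain ⟨hlo, hwf⟩ := exists_wellFoundedLT I
  obtain ⟨δ0, hδ0⟩ := p.cl
  obtain ⟨β0, hβ0⟩ := p.bd
  -- the first datum
  let p0 : EXP.S p.m := ⟨p.e.wx (p.e.z δ0 b0),
    ⟨⟨EXP.wx_TV p.tv _, EXP.brn p.tv hδ0 b0⟩, ⟨δ0, hδ0⟩, β0, hβ0.wx (EXP.bdn hβ0 δ0 b0)⟩⟩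
  obtain ⟨g, hg, hgD⟩ := seqD (S := EXP.S p.m) (I := I)
    (fun x hx f hf => by
      refine EXP.lim (I := Set.Iio x) ?_ f hf
      exact (mk_set_le _).trans_lt hI)
    (fun i => {e | ∀ m ≤ p.m, ∃ m' ≤ m, ∃ h : m' ≤ p.m, D i (EXP.pc e h)}) p0 (by
      intro i q hq
      obtain ⟨e', a1, a2, a3, a4, a5⟩ := dmix hU q.2.1 q.2.2.1 q.2.2.2
        (fun m' e' => ∃ r : Pc Ω, m' ≤ r.m ∧ LeT m' e' r.e ∧ D i r) (by
          intro m' hm'
          obtain ⟨r', hr', hD⟩ := dns i (EXP.pc q hm') ⟨hm', (hq.t.mono hm')⟩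
          obtain ⟨δ1, hδ1⟩ := r'.cl
          obtain ⟨β1, hβ1⟩ := r'.bd
          obtain ⟨β2, hβ2⟩ := q.2.2.2
          have hm1 : r'.m ≤ m' := hr'.1
          have hle : LeT r'.m r'.e q.1 := hr'.2
          have hrc : RCl r'.m q.1 := by
            obtain ⟨δ, hδ⟩ := q.2.2.1
            exact Loc.pure fun m3 h3 => ⟨δ, hδ.mono (h3.trans (hm1.trans hm'))⟩
          have hbr : Brn r'.m q.1 q.1.x := q.2.1.br.mono (hm1.trans hm')
          refine ⟨r'.m, hm1, r'.e.wx (glR q.1 q.1.x (r'.e.z δ1 b0)),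
            ⟨EXP.wx_TV r'.tv _, glR_brn r'.tv hle hrc hbr (EXP.brn r'.tv hδ1 b0)⟩,
            ⟨δ1, hδ1⟩, ⟨max β1 β2, ?_⟩, ⟨hle, glR_le _ _⟩, r', le_rfl, LeT.refl _ _, hD⟩
          refine (hβ1.mono (le_max_left _ _)).wx (glR_bd (hβ2.mono (le_max_right _ _)) ?_ ?_)
          · exact (EXP.bdn hβ1 δ1 b0).mono (le_max_left _ _)
          · exact hβ2.x.mono (le_max_right _ _))
        (by
          rintro m' e' m'' e'' ⟨r, h1, h2, h3⟩ h4 h5
          exact ⟨r, h4.trans h1, h5.trans (h2.mono h4), h3⟩)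
      refine ⟨⟨e', a1, a2, a3⟩, a4, fun m hm => ?_⟩
      obtain ⟨m', hm', r, h1, h2, h3⟩ := a5 m hm
      exact ⟨m', hm', hm'.trans hm, mono i r _ ⟨h1, h2⟩ h3⟩)
  obtain ⟨q, hq⟩ := EXP.lim hI g hg
  have hqp : q ≤ p0 := (hq (Classical.arbitrary I)).trans (hgD _).1
  refine ⟨EXP.pc q le_rfl, ⟨le_rfl, ?_⟩, rfl, fun i m hm => ?_⟩
  · exact hqp.t
  · obtain ⟨m', hm', h, hD⟩ := (hgD i).2 m hm
    exact ⟨m', hm', h, mono i (EXP.pc (g i) h) _ ⟨le_rfl, (hq i).t.mono h⟩ hD⟩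

end Pool.Agent.T27

end
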