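import Pool.Agent.Lib_helper27.TM.A

section

/-!
# Part B: decoding
-/

set_option linter.unusedSectionVars false

namespace Pool.Agent.T27

open Pool.Agent.Lib_helper27 Cardinal Cod

variable {Ω : Type} [LinearOrder Ω] [Cod Ω]

/-- monotone and single-valued codes -/
structure WW (w : Om1 → Ω → Mt Ω → Prop) : Prop where
  mono : ∀ {j ξ m m'}, m' ≤ m → w j ξ m → w j ξ m'
  uni : ∀ {j ξ ξ' m}, w j ξ m → w j ξ' m → ξ = ξ'

/-! ### ACC -/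

section acc

variable {d : Ω → Dt Ω} {w w' : Om1 → Ω → Mt Ω → Prop}

end acc

/-! ### EEB -/

section ee

variable {d : Ω → Dt Ω} {α : Ω}

end ee

/-! ### LFT -/

section lft

variable {d : Ω → Dt Ω} {α : Ω} (hg : Good d α)

/-- the elements of the poset which are bounded below `α` -/
def Cl (α : Ω) (n : Mt Ω) (e : Dt Ω) : Prop :=
  n.res α = n ∧ TV n e ∧ (∃ δ, Hts n e δ) ∧ ∃ β < α, Bd β e

include hg

end lft

/-! ### EAB -/

section ea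

variable {d : Ω → Dt Ω} {α : Ω}

/-- the master condition -/
noncomputable def star (d : Ω → Dt Ω) (α : Ω) : Dt Ω := cap (EA d α) fun _ => (EA d α).x

end ea

/-! ### GDX -/

end Pool.Agent.T27

end

section

/-!
# Accepted codes and the decoded data (block ACC)
-/

set_option linter.unusedSectionVars false

namespace Pool.Agent.T27

open Pool.Agent.Lib_helper27 Cardinal Cod

variable {Ω : Type} [LinearOrder Ω] [Cod Ω]

section acc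

variable {d : Ω → Dt Ω} {w w' : Om1 → Ω → Mt Ω → Prop}

theorem acc_iff {j : Om1} {ξ : Ω} {m : Mt Ω} :
    acc d w j ξ m ↔ w j ξ m ∧ DV m (d ξ) ∧ LeD m (d ξ) (dec d w j) := by
  unfold dec acc
  rw [WellFounded.fix_eq]

theorem acc_mono (hw : WW w) {j : Om1} {ξ : Ω} {m m' : Mt Ω} (h : m' ≤ m)
    (ha : acc d w j ξ m) : acc d w j ξ m' := by
  rw [acc_iff] at ha ⊢
  exact ⟨hw.mono h ha.1, ha.2.1.mono h, ha.2.2.mono h⟩

namespace ACC

/-- accepted codes carry valid data -/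
theorem dv {j : Om1} {ξ : Ω} {m : Mt Ω} (ha : acc d w j ξ m) : DV m (d ξ) :=
  (acc_iff.1 ha).2.1

theorem ww {j : Om1} {ξ : Ω} {m : Mt Ω} (ha : acc d w j ξ m) : w j ξ m :=
  (acc_iff.1 ha).1

theorem ld {j : Om1} {ξ : Ω} {m : Mt Ω} (ha : acc d w j ξ m) : LeD m (d ξ) (dec d w j) :=
  (acc_iff.1 ha).2.2

theorem hdn {j : Om1} {ξ : Ω} {m : Mt Ω} (ha : acc d w j ξ m) (γ' γ'' : Ω) (hle : γ' ≤ γ'')
    (hH : (d ξ).H γ'' m) : (d ξ).H γ' m :=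
  (dv ha).dn le_rfl hH hle

/-- the family below `i` is coherent -/
theorem coh (hw : WW w) (i : Om1) :
    Coh (L := {j // j < i} × Ω) (fun l m => acc d w l.1.1 l.2 m) fun l => d l.2 := by
  induction i using WellFoundedLT.induction with
  | ind i ih =>
    have key : ∀ (j1 j2 : Om1) (ξ1 ξ2 : Ω) (m : Mt Ω), j1 < j2 → j2 < i → acc d w j1 ξ1 m →
        acc d w j2 ξ2 m → LeD m (d ξ2) (d ξ1) := by
      intro j1 j2 ξ1 ξ2 m h12 h2i h1 h2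
      refine (ld h2).trans ?_
      exact UN_le (L := {j // j < j2} × Ω) (φ := fun l m => acc d w l.1.1 l.2 m)
        (e := fun l => d l.2) (fun l m m' h ha => acc_mono hw h ha) (ih j2 h2i)
        (l := (⟨j1, h12⟩, ξ1)) h1 fun l' m' ha γ' γ'' hle hH => hdn ha γ' γ'' hle hH
    rintro ⟨⟨j1, h1⟩, ξ1⟩ ⟨⟨j2, h2⟩, ξ2⟩ m ha1 ha2
    refine Loc.pure fun m' hm' => ?_
    have hb1 : acc d w j1 ξ1 m' := acc_mono hw hm' ha1
    have hb2 : acc d w j2 ξ2 m' := acc_mono hw hm' ha2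
    rcases lt_trichotomy j1 j2 with h | h | h
    · exact Or.inr (key j1 j2 ξ1 ξ2 m' h h2 hb1 hb2)
    · subst h
      have : ξ1 = ξ2 := hw.uni (ww hb1) (ww hb2)
      subst this
      exact Or.inl (LeD.refl _ _)
    · exact Or.inl (key j2 j1 ξ2 ξ1 m' h h1 hb2 hb1)

theorem le_of_lt (hw : WW w) {j1 j2 : Om1} {ξ1 ξ2 : Ω} {m : Mt Ω} (h12 : j1 < j2)
    (h1 : acc d w j1 ξ1 m) (h2 : acc d w j2 ξ2 m) : LeD m (d ξ2) (d ξ1) := by
  refine (ld h2).trans ?_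
  exact UN_le (L := {j // j < j2} × Ω) (φ := fun l m => acc d w l.1.1 l.2 m)
    (e := fun l => d l.2) (fun l m m' h ha => acc_mono hw h ha) (coh hw j2)
    (l := (⟨j1, h12⟩, ξ1)) h1 fun l' m' ha γ' γ'' hle hH => hdn ha γ' γ'' hle hH

/-- the whole family is coherent -/
theorem cohA (hw : WW w) :
    Coh (L := Om1 × Ω) (fun l m => acc d w l.1 l.2 m) fun l => d l.2 := by
  rintro ⟨j1, ξ1⟩ ⟨j2, ξ2⟩ m ha1 ha2
  refine Loc.pure fun m' hm' => ?_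
  have hb1 : acc d w j1 ξ1 m' := acc_mono hw hm' ha1
  have hb2 : acc d w j2 ξ2 m' := acc_mono hw hm' ha2
  rcases lt_trichotomy j1 j2 with h | h | h
  · exact Or.inr (le_of_lt hw h hb1 hb2)
  · subst h
    have : ξ1 = ξ2 := hw.uni (ww hb1) (ww hb2)
    subst this
    exact Or.inl (LeD.refl _ _)
  · exact Or.inl (le_of_lt hw h hb2 hb1)

end ACC

open ACC

theorem dec_DV (hw : WW w) (i : Om1) (m : Mt Ω) : DV m (dec d w i) :=
  UN_DV (L := {j // j < i} × Ω) (φ := fun l m => acc d w l.1.1 l.2 m)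
    (e := fun l => d l.2) (fun l m m' h ha => acc_mono hw h ha) (coh hw i)
    (fun l m ha => dv ha) m

theorem Dc_DV (hw : WW w) (m : Mt Ω) : DV m (Dc d w) :=
  UN_DV (L := Om1 × Ω) (φ := fun l m => acc d w l.1 l.2 m)
    (e := fun l => d l.2) (fun l m m' h ha => acc_mono hw h ha) (cohA hw)
    (fun l m ha => dv ha) m

theorem dec_le (hw : WW w) {j i : Om1} {ξ : Ω} {m : Mt Ω} (h : j < i) (ha : acc d w j ξ m) :
    LeD m (dec d w i) (d ξ) :=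
  UN_le (L := {j // j < i} × Ω) (φ := fun l m => acc d w l.1.1 l.2 m)
    (e := fun l => d l.2) (fun l m m' h ha => acc_mono hw h ha) (coh hw i)
    (l := (⟨j, h⟩, ξ)) ha fun l' m' ha γ' γ'' hle hH => hdn ha γ' γ'' hle hH

theorem Dc_le (hw : WW w) {j : Om1} {ξ : Ω} {m : Mt Ω} (ha : acc d w j ξ m) :
    LeD m (Dc d w) (d ξ) :=
  UN_le (L := Om1 × Ω) (φ := fun l m => acc d w l.1 l.2 m)
    (e := fun l => d l.2) (fun l m m' h ha => acc_mono hw h ha) (cohA hw)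
    (l := (j, ξ)) ha fun l' m' ha γ' γ'' hle hH => hdn ha γ' γ'' hle hH

theorem dec_glb (hw : WW w) {i : Om1} {m : Mt Ω} {e' : Dt Ω}
    (h : ∀ j < i, ∀ ξ, ∀ m' ≤ m, acc d w j ξ m' → LeD m' e' (d ξ)) : LeD m e' (dec d w i) :=
  UN_glb (L := {j // j < i} × Ω) (φ := fun l m => acc d w l.1.1 l.2 m)
    (e := fun l => d l.2) (fun l m m' h ha => acc_mono hw h ha) (coh hw i)
    (fun l' m' ha γ' γ'' hle hH => hdn ha γ' γ'' hle hH)
    fun l m' hm' ha => h l.1.1 l.1.2 l.2 m' hm' ha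

theorem Dc_glb (hw : WW w) {m : Mt Ω} {e' : Dt Ω}
    (h : ∀ j ξ, ∀ m' ≤ m, acc d w j ξ m' → LeD m' e' (d ξ)) : LeD m e' (Dc d w) :=
  UN_glb (L := Om1 × Ω) (φ := fun l m => acc d w l.1 l.2 m)
    (e := fun l => d l.2) (fun l m m' h ha => acc_mono hw h ha) (cohA hw)
    (fun l' m' ha γ' γ'' hle hH => hdn ha γ' γ'' hle hH)
    fun l m' hm' ha => h l.1 l.2 m' hm' ha

theorem Dc_dec (hw : WW w) (i : Om1) (m : Mt Ω) : LeD m (Dc d w) (dec d w i) :=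
  dec_glb hw fun _ _ _ _ _ ha => Dc_le hw ha

theorem dec_acc (hw : WW w) {j : Om1} {ξ : Ω} {m : Mt Ω} (ha : acc d w j ξ m) :
    LeD m (d ξ) (dec d w (sc j)) := by
  refine dec_glb hw fun j' hj' ξ' m' hm' ha' => ?_
  have hb : acc d w j ξ m' := acc_mono hw hm' ha
  rcases (lt_sc.1 hj').lt_or_eq with h | h
  · exact le_of_lt hw h ha' hb
  · subst h
    have : ξ' = ξ := hw.uni (ww ha') (ww hb)
    subst this
    exact LeD.refl _ _

theorem acc_congr (hw : WW w) (hw' : WW w') {i : Om1} {m : Mt Ω}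
    (h : ∀ j < i, ∀ ξ, ∀ m' ≤ m, (w j ξ m' ↔ w' j ξ m')) :
    ∀ j < i, ∀ ξ, ∀ m' ≤ m, (acc d w j ξ m' ↔ acc d w' j ξ m') := by
  intro j
  induction j using WellFoundedLT.induction with
  | ind j ih =>
    intro hj ξ m' hm'
    have hd1 : LeD m' (dec d w j) (dec d w' j) := by
      refine dec_glb hw' fun j' hj' ξ' m'' hm'' ha => ?_
      exact dec_le hw hj' ((ih j' hj' (hj'.trans hj) ξ' m'' (hm''.trans hm')).2 ha)
    have hd2 : LeD m' (dec d w' j) (dec d w j) := by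
      refine dec_glb hw fun j' hj' ξ' m'' hm'' ha => ?_
      exact dec_le hw' hj' ((ih j' hj' (hj'.trans hj) ξ' m'' (hm''.trans hm')).1 ha)
    rw [acc_iff, acc_iff, h j hj ξ m' hm']
    constructor
    · rintro ⟨h1, h2, h3⟩
      exact ⟨h1, h2, h3.trans hd1⟩
    · rintro ⟨h1, h2, h3⟩
      exact ⟨h1, h2, h3.trans hd2⟩

theorem Dc_trunc (hw : WW w) {i : Om1} {m : Mt Ω}
    (h : ∀ j, i ≤ j → ∀ ξ, ∀ m' ≤ m, ¬ w j ξ m') : LeD m (dec d w i) (Dc d w) := by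
  refine Dc_glb hw fun j ξ m' hm' ha => ?_
  rcases lt_or_ge j i with h1 | h1
  · exact dec_le hw h1 ha
  · exact absurd (ww ha) (h j h1 ξ m' hm')

theorem Dc_H {γ : Ω} {m : Mt Ω} (h : (Dc d w).H γ m) :
    Loc m fun m' => ∃ j ξ, acc d w j ξ m' ∧ (d ξ).H γ m' := by
  have h' : Loc m fun m' => ∃ l : Om1 × Ω, acc d w l.1 l.2 m' ∧ (d l.2).H γ m' := h
  refine h'.imp ?_
  rintro m' _ ⟨l, h1, h2⟩
  exact ⟨l.1, l.2, h1, h2⟩

theorem Dc_bd (hw : WW w) {β : Ω} (hwb : ∀ j ξ m, w j ξ m → w j ξ (m.res β))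
    (hd : ∀ j ξ m, w j ξ m → Bd β (d ξ)) : Bd β (Dc d w) := by
  have key : ∀ (j : Om1) (ξ : Ω) (m : Mt Ω), acc d w j ξ m → acc d w j ξ (m.res β) := by
    intro j
    induction j using WellFoundedLT.induction with
    | ind j ih =>
      intro ξ m ha
      have hb : Bd β (dec d w j) :=
        UN_bd (L := {j' // j' < j} × Ω) (φ := fun l m => acc d w l.1.1 l.2 m)
          (e := fun l => d l.2) (fun l m m' h ha => acc_mono hw h ha)
          (fun l m ha => ih l.1.1 l.1.2 l.2 m ha) fun l m ha => hd _ _ _ (ww ha)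
      rw [acc_iff] at ha ⊢
      obtain ⟨h1, h2, h3⟩ := ha
      have hbd := hd _ _ _ h1
      exact ⟨hwb _ _ _ h1, (DV_res hbd).2 h2, (LeD_res hb hbd).2 h3⟩
  exact UN_bd (L := Om1 × Ω) (φ := fun l m => acc d w l.1 l.2 m)
    (e := fun l => d l.2) (fun l m m' h ha => acc_mono hw h ha)
    (fun l m ha => key l.1 l.2 m ha) fun l m ha => hd _ _ _ (ww ha)

end acc

end Pool.Agent.T27

end

section

/-! Block EEB of part B (MP_5ef322_lc): the data coded by a term. -/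

set_option linter.unusedSectionVars false

namespace Pool.Agent.T27

open Pool.Agent.Lib_helper27 Cardinal Cod

variable {Ω : Type} [LinearOrder Ω] [Cod Ω]

theorem WW_tm (q : Tm Ω) (α : Ω) : WW (fun j ξ (m : Mt Ω) => q.v α j ξ m.a) :=
  ⟨fun h hw => (q.v α _ _).mono h.1 hw, fun h h' => q.uni h h'⟩

section ee

variable {d : Ω → Dt Ω} {α : Ω}

theorem EE_DV (q : Tm Ω) (m : Mt Ω) : DV m (EE d α q) := Dc_DV (WW_tm q α) m

theorem EE_le1 {a : Co Ω} {q' q : Tm Ω}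
    (h : ∀ j < q.len α, ∀ η, ∀ a' ≤ a, (q'.v α j η a' ↔ q.v α j η a')) {m : Mt Ω} (hm : m.a ≤ a) :
    LeD m (EE d α q') (EE d α q) := by
  have h1 : LeD m (dec d (fun j ξ (m : Mt Ω) => q.v α j ξ m.a) (q.len α)) (EE d α q) :=
    Dc_trunc (WW_tm q α) fun j hj ξ m' _ hw => absurd (q.out hw) (not_lt.2 hj)
  have h2 := acc_congr (d := d) (WW_tm q α) (WW_tm q' α) (i := q.len α) (m := m)
    fun j hj ξ m' hm' => (h j hj ξ m'.a (hm'.1.trans hm)).symm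
  have h3 : LeD m (EE d α q') (dec d (fun j ξ (m : Mt Ω) => q.v α j ξ m.a) (q.len α)) :=
    dec_glb (WW_tm q α) fun j hj ξ m' hm' ha => Dc_le (WW_tm q' α) ((h2 j hj ξ m' hm').1 ha)
  exact h3.trans h1

theorem EE_le {a : Co Ω} {q' q : Tm Ω} (h : Tm.Le a q' q) {m : Mt Ω} (hm : m.a ≤ a) :
    LeD m (EE d α q') (EE d α q) := EE_le1 (h α).2 hm

theorem EE_congr {a : Co Ω} {q q' : Tm Ω}
    (h : ∀ j ξ, ∀ a' ≤ a, (q.v α j ξ a' ↔ q'.v α j ξ a')) {m : Mt Ω} (hm : m.a ≤ a) :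
    LeD m (EE d α q) (EE d α q') := EE_le1 (fun j _ η a' ha' => h j η a' ha') hm

theorem EE_glb {L : Type} {qh : Tm Ω} (q : L → Tm Ω) {m : Mt Ω} {e' : Dt Ω}
    (h : ∀ i ξ, ∀ m' ≤ m, qh.v α i ξ m'.a → ∃ m'' ≤ m', ∃ l, i < (q l).len α ∧
      (∀ j < (q l).len α, ∀ η, ∀ a' ≤ m''.a, (qh.v α j η a' ↔ (q l).v α j η a')) ∧
        LeD m'' e' (EE d α (q l))) : LeD m e' (EE d α qh) := by
  refine Dc_glb (WW_tm qh α) fun j ξ m' hm' ha => LeD.dense fun n hn => ?_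
  have ha' := acc_mono (WW_tm qh α) hn ha
  obtain ⟨m'', hm'', l, h1, h2, h3⟩ := h j ξ n (hn.trans hm') (acc_iff.1 ha').1
  refine ⟨m'', hm'', ?_⟩
  have h4 := acc_congr (d := d) (WW_tm qh α) (WW_tm (q l) α) (i := (q l).len α) (m := m'')
    fun j hj ξ m' hm' => h2 j hj ξ m'.a hm'.1
  exact h3.trans (Dc_le (WW_tm (q l) α) ((h4 j h1 ξ m'' le_rfl).1 (acc_mono (WW_tm qh α) hm'' ha')))

theorem EE_glbT {L : Type} {qh : Tm Ω} (q : L → Tm Ω) {m : Mt Ω} {e' : Dt Ω}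
    (h : ∀ i ξ, ∀ m' ≤ m, qh.v α i ξ m'.a → ∃ m'' ≤ m', ∃ l, i < (q l).len α ∧
      (∀ j < (q l).len α, ∀ η, ∀ a' ≤ m''.a, (qh.v α j η a' ↔ (q l).v α j η a')) ∧
        LeT m'' e' (EE d α (q l))) : LeT m e' (EE d α qh) := by
  refine (EE_glb (e' := e'.wx (EE d α qh).x) q fun i ξ m' hm' hw => ?_).t
  obtain ⟨m'', hm'', l, h1, h2, h3⟩ := h i ξ m' hm' hw
  exact ⟨m'', hm'', l, h1, h2, h3, (EE_le1 h2 le_rfl).x⟩

theorem EE_snoc (hα : Act α) {q : Tm Ω} {ξ : Ω} (hξ : ξ < α) {m : Mt Ω} (h1 : DV m (d ξ))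
    (h2 : LeD m (d ξ) (EE d α q)) : LeD m (EE d α (Tm.snoc hα q hξ)) (d ξ) ∧
      LeD m (d ξ) (EE d α (Tm.snoc hα q hξ)) := by
  set q' := Tm.snoc hα q hξ with hq'
  have hag : ∀ j < q.len α, ∀ η, q'.v α j η = q.v α j η := fun j hj η =>
    Tm.snoc_v_lt hα q hξ hj.ne
  have h3 := acc_congr (d := d) (WW_tm q α) (WW_tm q' α) (i := q.len α) (m := m)
    fun j hj ξ m' _ => by rw [hag j hj ξ]
  have h4 : LeD m (EE d α q) (dec d (fun j ξ (m : Mt Ω) => q'.v α j ξ m.a) (q.len α)) :=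
    dec_glb (WW_tm q' α) fun j hj ξ m' hm' ha => Dc_le (WW_tm q α) ((h3 j hj ξ m' hm').2 ha)
  have h5 := h2.trans h4
  have h6 : acc d (fun j ξ (m : Mt Ω) => q'.v α j ξ m.a) (q.len α) ξ m :=
    acc_iff.2 ⟨(Tm.snoc_v_last hα q hξ).2 rfl, h1, h5⟩
  refine ⟨Dc_le (WW_tm q' α) h6, Dc_glb (WW_tm q' α) fun j η m' hm' ha => ?_⟩
  rcases lt_trichotomy j (q.len α) with hj | hj | hj
  · exact (h5.mono hm').trans (dec_le (WW_tm q' α) hj ha)
  · subst hj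
    have h7 := (Tm.snoc_v_last hα q hξ).1 (acc_iff.1 ha).1
    rw [h7]
    exact LeD.refl _ _
  · have h7 := q'.out (acc_iff.1 ha).1
    rw [hq', Tm.snoc_len, lt_sc] at h7
    exact absurd hj (not_lt.2 h7)

theorem EE_bd (hg : Good d α) (q : Tm Ω) : ∃ β < α, Bd β (EE d α q) := by
  by_cases hp : ∃ i, i < q.len α
  · obtain ⟨_, β', hβ', h1⟩ := q.bd hp
    choose! f hf hf' using hg.dbd
    obtain ⟨δ, hδ, h2⟩ := hg.reg β' hβ' (fun x => f x.1) fun x => hf x.1 ((Set.mem_Iio.1 x.2).trans hβ')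
    refine ⟨max β' δ, max_lt hβ' hδ, Dc_bd (WW_tm q α) (fun j ξ m hw => ?_) fun j ξ m hw => ?_⟩
    · refine (q.v α j ξ).mono ?_ (h1 j ξ m.a hw).2
      show m.a.res (max β' δ) ≤ m.a.res β'
      rw [← Co.res_res_of_le (le_max_left β' δ)]
      exact Co.le_res _ _
    · have h3 := (h1 j ξ m.a hw).1
      exact Bd.mono (hf' ξ (h3.trans hβ')) ((h2 ⟨ξ, h3⟩).le.trans (le_max_right _ _))
  · exact ⟨b0, hg.ne, Dc_bd (WW_tm q α) (fun j ξ m hw => (hp ⟨j, q.out hw⟩).elim)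
      fun j ξ m hw => (hp ⟨j, q.out hw⟩).elim⟩

/-- appending a code -/
theorem lift (hg : Good d α) {a : Co Ω} {q u : Tm Ω} (hu : u.res α = u)
    (hle : Tm.Le a u (q.res α)) {e' : Dt Ω} {β : Ω} (hβ : β < α) (hb : Bd β e')
    (hv : DV ⟨a, u⟩ e') (hl : LeD ⟨a, u⟩ e' (EE d α q)) :
    ∃ q', q'.res α = u ∧ (∀ a', Tm.Le a' u (q.res α) → Tm.Le a' q' q) ∧
      LeD ⟨a, u⟩ (EE d α q') e' ∧ LeD ⟨a, u⟩ e' (EE d α q') := by
  obtain ⟨ξ, hξ, rfl⟩ := hg.dsur β hβ e' hb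
  have h0 : EE d α (Tm.glu α u q) = EE d α q := by
    unfold EE
    rw [Tm.glu_v, if_neg (lt_irrefl α)]
  have h1 := EE_snoc hg.act (q := Tm.glu α u q) hξ hv (by rw [h0]; exact hl)
  refine ⟨Tm.snoc hg.act (Tm.glu α u q) hξ, ?_, fun a' ha' => ?_, h1.1, h1.2⟩
  · rw [Tm.snoc_res, Tm.glu_res, hu]
  · exact (Tm.snoc_le hg.act (Tm.glu α u q) hξ).of_emp.trans (Tm.glu_le ha')

end ee

end Pool.Agent.T27

end

section

/-!
# Block LFT: lifting data to terms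
-/

set_option linter.unusedSectionVars false

namespace Pool.Agent.T27

open Pool.Agent.Lib_helper27 Cardinal Cod

variable {Ω : Type} [LinearOrder Ω] [Cod Ω]

namespace LFT

theorem hts_congr {m : Mt Ω} {e e' : Dt Ω} {δ : Ω} (h : LeT m e' e) (h' : LeT m e e')
    (hs : Hts m e δ) : Hts m e' δ := by
  intro γ
  refine ⟨fun hγ => (h m le_rfl γ ((hs γ).1 hγ)).1, fun hγ m' hm' hH => ?_⟩
  exact (hs γ).2 hγ m' hm' (h' m' hm' γ hH).1

theorem rcl_congr {m : Mt Ω} {e e' : Dt Ω} (h : LeT m e' e) (h' : LeT m e e')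
    (hs : RCl m e) : RCl m e' := by
  intro m1 hm1
  obtain ⟨m2, hm2, δ, h2⟩ := hs m1 hm1
  exact ⟨m2, hm2, δ, hts_congr (h.mono (hm2.trans hm1)) (h'.mono (hm2.trans hm1)) h2⟩

theorem tv_wx {m : Mt Ω} {e : Dt Ω} {x : Nm Ω} (h : TV m e) : TV m (e.wx x) :=
  ⟨h.dn, h.res, h.rep, h.flp⟩

theorem rcl_of {m : Mt Ω} {e : Dt Ω} {δ : Ω} (h : Hts m e δ) : RCl m e :=
  fun m' hm' => ⟨m', le_rfl, δ, h.mono hm'⟩

end LFT

open LFT

section lft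

variable {d : Ω → Dt Ω} {α : Ω} (hg : Good d α)

include hg

/-- extending the tree and the branch separately -/
theorem liftB {a : Co Ω} {q u : Tm Ω} (hu : u.res α = u) (hle : Tm.Le a u (q.res α))
    (hc : RCl ⟨a, u⟩ (EE d α q)) {e : Dt Ω} {y : Nm Ω} {β : Ω} (hβ : β < α) (hb : Bd β e)
    (hy : BdN β y) (hv : TV ⟨a, u⟩ e) (hbr : Brn ⟨a, u⟩ e y) (hl : LeT ⟨a, u⟩ e (EE d α q)) :
    ∃ q', q'.res α = u ∧ (∀ a', Tm.Le a' u (q.res α) → Tm.Le a' q' q) ∧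
      LeD ⟨a, u⟩ (EE d α q') (e.wx (glR (EE d α q) (EE d α q).x y)) ∧
      LeD ⟨a, u⟩ (e.wx (glR (EE d α q) (EE d α q).x y)) (EE d α q') := by
  obtain ⟨β2, hβ2, hE⟩ := EE_bd hg q
  have h1 : BdN (max β β2) (glR (EE d α q) (EE d α q).x y) :=
    glR_bd (hE.mono (le_max_right _ _)) (hy.mono (le_max_left _ _))
      ((hE.mono (le_max_right _ _)).x)
  have h2 : Bd (max β β2) (e.wx (glR (EE d α q) (EE d α q).x y)) :=
    (hb.mono (le_max_left _ _)).wx h1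
  have h3 : DV ⟨a, u⟩ (e.wx (glR (EE d α q) (EE d α q).x y)) :=
    ⟨tv_wx hv, glR_brn hv hl hc (EE_DV q _).br hbr⟩
  have h4 : LeD ⟨a, u⟩ (e.wx (glR (EE d α q) (EE d α q).x y)) (EE d α q) :=
    ⟨hl, glR_le _ _⟩
  exact lift hg hu hle (max_lt hβ hβ2) h2 h3 h4

/-- adding a last level generated by given branches -/
theorem close [WellFoundedLT Ω] {a : Co Ω} {q : Tm Ω} {b : ℕ → Nm Ω} {β : Ω} (hβ : β < α)
    (hbb : ∀ n, BdN β (b n)) (hb : ∀ n, Brn ⟨a, q.res α⟩ (EE d α q) (b n))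
    (hl : ∀ k : K Ω, k.1 ≤ ⟨a, q.res α⟩ → ∃ k' ≤ k, ∃ n, ∀ γ, Lmt γ →
      (∀ γ' < γ, (EE d α q).H γ' k'.1) → EqB k' γ (EE d α q).x (b n)) :
    ∃ q', q'.res α = q.res α ∧ Tm.Le Co.emp q' q ∧ RCl ⟨a, q.res α⟩ (EE d α q') ∧
      LeD ⟨a, q.res α⟩ (EE d α q') (cap (EE d α q) b) ∧
      LeD ⟨a, q.res α⟩ (cap (EE d α q) b) (EE d α q') := by
  obtain ⟨β2, hβ2, hE⟩ := EE_bd hg q
  obtain ⟨β1, h1, hβ1⟩ := hg.lm (max β β2) (max_lt hβ hβ2)
  have hD := EE_DV (d := d) (α := α) q (⟨a, q.res α⟩ : Mt Ω)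
  have h2 : Bd β1 (cap (EE d α q) b) :=
    cap_bd (hE.mono (le_max_right _ _)) (fun n => (hbb n).mono (le_max_left _ _)) h1
  have h3 : DV ⟨a, q.res α⟩ (cap (EE d α q) b) :=
    ⟨cap_TV hE hD.toTV hb, cap_brn hE hD.toTV hb hD.br hl⟩
  obtain ⟨q', e1, e2, e3, e4⟩ := lift hg (a := a) (q := q) (u := q.res α)
    (Tm.res_res_of_le le_rfl) (Tm.Le.refl _ _) hβ1 h2 h3 (cap_le b)
  exact ⟨q', e1, e2 _ (Tm.Le.refl _ _), rcl_congr e3.t e4.t (cap_RCl b hE hD.toTV), e3, e4⟩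

/-- the height may be made large and decided, without extending the Cohen part from `α` on -/
theorem tall [WellFoundedLT Ω] (a : Co Ω) (q : Tm Ω) {γ : Ω} (hγ : γ < α) :
    ∃ a' ≤ a, a'.hi α = a.hi α ∧ ∃ q', Tm.Le a' q' q ∧
      ∃ δ, γ ≤ δ ∧ Hts ((⟨a', q'⟩ : Mt Ω).res α) (EE d α q') δ := by
  obtain ⟨β2, hβ2, hE⟩ := EE_bd hg q
  obtain ⟨β3, h23, hβ3⟩ := hg.lm β2 hβ2
  obtain ⟨m', hm', δ, hδ, hop, hor⟩ := exists_hop hE
    (EE_DV q ((⟨a, q⟩ : Mt Ω).res α)).toTV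
  have hC : Bd β3 (cap (EE d α q) fun _ => (EE d α q).x) := cap_bd hE (fun _ => hE.x) h23
  have h1 : ∃ δ', Hts (m'.res α) (cap (EE d α q) fun _ => (EE d α q).x) δ' := by
    rcases hor with ⟨δ', h2⟩ | h2
    · exact ⟨δ', (Hts_res (hC.mono hβ3.le)).2 (cap_Hts _ h2)⟩
    · exact ⟨δ, (Hts_res (hC.mono hβ3.le)).2 (cap_Hts_lim _ hop h2)⟩
  obtain ⟨δ', h2⟩ := h1
  obtain ⟨n, hn⟩ : ∃ n, n = m'.res α := ⟨_, rfl⟩
  rw [← hn] at h2
  have hnr : n.res α = n := by rw [hn]; exact Mt.res_res_of_le' le_rfl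
  have hnm : n ≤ (⟨a, q⟩ : Mt Ω).res α := by
    have := Mt.res_mono (α := α) hm'
    rw [Mt.res_res_of_le' le_rfl] at this
    rw [hn]
    exact this
  have hna : n.a.res α = n.a := congrArg Mt.a hnr
  have hnq : n.q.res α = n.q := congrArg Mt.q hnr
  have hD := EE_DV (d := d) (α := α) q n
  have h3 : DV n (cap (EE d α q) fun _ => (EE d α q).x) :=
    ⟨cap_TV hE hD.toTV fun _ => hD.br, cap_brn hE hD.toTV (fun _ => hD.br) hD.br
      fun k hk => ⟨k, le_rfl, 0, fun γ _ _ => EqB.refl _ _ _⟩⟩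
  have hδ3 : δ' < β3 := hC.H0 ((h2 δ').1 le_rfl)
  have hle : δ' ≤ max γ δ' := le_max_right _ _
  obtain ⟨β4, h4, hβ4⟩ := hg.lm (max β3 (max γ δ')) (max_lt hβ3 (max_lt hγ (hδ3.trans hβ3)))
  have h34 : β3 ≤ β4 := (le_max_left _ _).trans h4.le
  have hε4 : max γ δ' < β4 := (le_max_right _ _).trans_lt h4
  have hX : Bd β4 (ext (cap (EE d α q) fun _ => (EE d α q).x) δ' (max γ δ')) :=
    ext_bd hC h34 (hδ3.trans_le h34) hε4
  have hXD : DV n (ext (cap (EE d α q) fun _ => (EE d α q).x) δ' (max γ δ')) :=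
    ext_DV hC h3 h2 hle
  have hXH : Hts n (ext (cap (EE d α q) fun _ => (EE d α q).x) δ' (max γ δ')) (max γ δ') :=
    ext_Hts h2 hle
  have hXL : LeD n (ext (cap (EE d α q) fun _ => (EE d α q).x) δ' (max γ δ')) (EE d α q) :=
    (ext_le h2).trans (cap_le _)
  have ha' : Co.gl α n.a a ≤ n.a := by
    have := Co.gl_le_res (α := α) (b := n.a) (a := a)
    rwa [hna] at this
  have hmn : (⟨Co.gl α n.a a, n.q⟩ : Mt Ω) ≤ n := Mt.mk_le' ha'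
  have hTm : Tm.Le (Co.gl α n.a a) n.q (q.res α) := hnm.2.mono ha'
  obtain ⟨q', e1, e2, e3, e4⟩ := lift hg hnq hTm hβ4 hX (hXD.mono hmn) (hXL.mono hmn)
  have haa : Co.gl α n.a a ≤ a := by
    refine Co.gl_le ?_
    have := Co.res_mono (α := α) hnm.1
    rwa [show ((⟨a, q⟩ : Mt Ω).res α).a.res α = a.res α from Co.res_res_of_le le_rfl] at this
  refine ⟨Co.gl α n.a a, haa, Co.gl_hi, q', e2 _ hTm, max γ δ', le_max_left _ _, ?_⟩
  have e5 : (⟨Co.gl α n.a a, q'⟩ : Mt Ω).res α = (⟨Co.gl α n.a a, n.q⟩ : Mt Ω).res α := by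
    show (⟨(Co.gl α n.a a).res α, q'.res α⟩ : Mt Ω) = ⟨(Co.gl α n.a a).res α, n.q.res α⟩
    rw [e1, hnq]
  obtain ⟨β5, hβ5, hE'⟩ := EE_bd hg q'
  rw [e5, Hts_res (hE'.mono hβ5.le)]
  exact hts_congr e3.t e4.t (hXH.mono hmn)

/-- a closed tree has a branch -/
theorem cl_brn {n : Mt Ω} {e : Dt Ω} (h : Cl α n e) :
    ∃ y, Brn n e y ∧ ∃ β < α, BdN β y := by
  obtain ⟨_, hv, ⟨δ, hδ⟩, β, hβ, hb⟩ := h
  refine ⟨e.z δ b0, ?_, β, hβ, ?_⟩
  · intro m' γ hm hH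
    have h1 : γ ≤ δ := hδ.le_of_H hm hH
    exact hv.res hm (((hδ.mono hm) δ).1 le_rfl) h1 b0
  · exact ⟨fun hz => (hb.z0 hz).2.trans (hb.z0 hz).1, fun hz => hb.zb hz⟩

/-- an element of the poset bounded below `α` is lifted -/
theorem liftP {a : Co Ω} {q : Tm Ω} (hc : RCl ((⟨a, q⟩ : Mt Ω).res α) (EE d α q)) {n : Mt Ω}
    {e : Dt Ω} (hn : Cl α n e) (hle : n ≤ (⟨a, q⟩ : Mt Ω).res α) (hT : LeT n e (EE d α q)) :
    Co.gl α n.a a ≤ a ∧ ∃ q', Tm.Le (Co.gl α n.a a) q' q ∧ (⟨Co.gl α n.a a, q'⟩ : Mt Ω).res α = n ∧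
      LeT n (EE d α q') e ∧ LeT n e (EE d α q') := by
  obtain ⟨y, hy, β1, hβ1, hyb⟩ := cl_brn hg hn
  obtain ⟨hnr, hv, _, β, hβ, hb⟩ := hn
  have hna : n.a.res α = n.a := congrArg Mt.a hnr
  have hnq : n.q.res α = n.q := congrArg Mt.q hnr
  have ha' : Co.gl α n.a a ≤ n.a := by
    have := Co.gl_le_res (α := α) (b := n.a) (a := a)
    rwa [hna] at this
  have hmn : (⟨Co.gl α n.a a, n.q⟩ : Mt Ω) ≤ n := Mt.mk_le' ha'
  have hTm : Tm.Le (Co.gl α n.a a) n.q (q.res α) := hle.2.mono ha'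
  have haa : Co.gl α n.a a ≤ a := by
    refine Co.gl_le ?_
    have := Co.res_mono (α := α) hle.1
    rwa [show ((⟨a, q⟩ : Mt Ω).res α).a.res α = a.res α from Co.res_res_of_le le_rfl] at this
  have hrc : RCl ⟨Co.gl α n.a a, n.q⟩ (EE d α q) := hc.mono (hmn.trans hle)
  obtain ⟨q', e1, e2, e3, e4⟩ := liftB hg hnq hTm hrc (max_lt hβ hβ1)
    (hb.mono (le_max_left _ _)) (hyb.mono (le_max_right _ _)) (hv.mono hmn) (hy.mono hmn)
    (hT.mono hmn)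
  have e5 : (⟨Co.gl α n.a a, n.q⟩ : Mt Ω).res α = n := by
    show (⟨(Co.gl α n.a a).res α, n.q.res α⟩ : Mt Ω) = n
    rw [Co.gl_res, hna, hnq]
  have e6 : (⟨Co.gl α n.a a, q'⟩ : Mt Ω).res α = n := by
    show (⟨(Co.gl α n.a a).res α, q'.res α⟩ : Mt Ω) = n
    rw [Co.gl_res, hna, e1]
  obtain ⟨β5, hβ5, hE'⟩ := EE_bd hg q'
  refine ⟨haa, q', e2 _ hTm, e6, ?_, ?_⟩
  · have e7 : LeT ⟨Co.gl α n.a a, n.q⟩ (EE d α q') e := e3.t
    rw [← LeT_res (hb.mono hβ.le) (hE'.mono hβ5.le), e5] at e7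
    exact e7
  · have e7 : LeT ⟨Co.gl α n.a a, n.q⟩ e (EE d α q') := e4.t
    rw [← LeT_res (hE'.mono hβ5.le) (hb.mono hβ.le), e5] at e7
    exact e7

/-- genericity -/
theorem gen [WellFoundedLT Ω] (a : Co Ω) (q : Tm Ω) (D : Mt Ω → Dt Ω → Prop)
    (mono : ∀ n e n' e', D n e → Cl α n' e' → n' ≤ n → LeT n' e' e → D n' e')
    (dns : ∀ n e, Cl α n e → n ≤ (⟨a, q⟩ : Mt Ω).res α → LeT n e (EE d α q) →
      ∃ n' ≤ n, ∃ e', Cl α n' e' ∧ LeT n' e' e ∧ D n' e') :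
    ∃ a' ≤ a, a'.hi α = a.hi α ∧ ∃ q', Tm.Le a' q' q ∧
      Cl α ((⟨a', q'⟩ : Mt Ω).res α) (EE d α q') ∧
      D ((⟨a', q'⟩ : Mt Ω).res α) (EE d α q') := by
  obtain ⟨a1, ha1, hh1, q1, hq1, δ, _, hδ⟩ := tall hg a q hg.ne
  have hcl : Cl α ((⟨a1, q1⟩ : Mt Ω).res α) (EE d α q1) :=
    ⟨Mt.res_res_of_le' le_rfl, (EE_DV q1 _).toTV, ⟨δ, hδ⟩, EE_bd hg q1⟩
  have hle : (⟨a1, q1⟩ : Mt Ω).res α ≤ (⟨a, q⟩ : Mt Ω).res α := Mt.res_mono ⟨ha1, hq1⟩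
  have hT : LeT ((⟨a1, q1⟩ : Mt Ω).res α) (EE d α q1) (EE d α q) :=
    (EE_le1 (a := a1.res α) (fun j hj η a' ha' => hq1.at hj ha') le_rfl).t
  obtain ⟨n', hn', e', hc', hT', hD'⟩ := dns _ _ hcl hle hT
  obtain ⟨h1, q2, h2, h3, h4, h5⟩ := liftP hg (rcl_of hδ) hc' hn' hT'
  refine ⟨Co.gl α n'.a a1, h1.trans ha1, Co.gl_hi.trans hh1, q2, h2.trans (hq1.mono h1), ?_⟩
  rw [h3]
  obtain ⟨hr, _, ⟨δ', hδ'⟩, _⟩ := hc'
  have hcl2 : Cl α n' (EE d α q2) :=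
    ⟨hr, (EE_DV q2 _).toTV, ⟨δ', hts_congr h4 h5 hδ'⟩, EE_bd hg q2⟩
  exact ⟨hcl2, mono _ _ _ _ hD' hcl2 le_rfl h4⟩

end lft

end Pool.Agent.T27

end

section

/-!
# Block EAB: the data coded by the generic object, and the master condition
-/

set_option linter.unusedSectionVars false

namespace Pool.Agent.T27

open Pool.Agent.Lib_helper27 Cardinal Cod

variable {Ω : Type} [LinearOrder Ω] [Cod Ω]

section ea

variable {d : Ω → Dt Ω} {α : Ω}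

namespace EAB

/-- the code given by the generic object -/
def G (α : Ω) (j : Om1) (ξ : Ω) (m : Mt Ω) : Prop := Loc m fun m' => m'.q.v α j ξ m'.a

theorem v_iff {m m' : Mt Ω} (h : m' ≤ m) {j : Om1} (hj : j < m.q.len α) {ξ : Ω} :
    m'.q.v α j ξ m'.a ↔ m.q.v α j ξ m'.a := (h.2 α).2 j hj ξ m'.a le_rfl

theorem len_mono {m m' : Mt Ω} (h : m' ≤ m) : m.q.len α ≤ m'.q.len α := (h.2 α).1

theorem G_iff {m : Mt Ω} {j : Om1} (hj : j < m.q.len α) {ξ : Ω} :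
    G α j ξ m ↔ m.q.v α j ξ m.a := by
  constructor
  · intro h
    refine (m.q.v α j ξ).reg fun a' ha' => ?_
    obtain ⟨m'', hm'', h1⟩ := h ⟨a', m.q⟩ ⟨ha', Tm.Le.refl _ _⟩
    have h2 : m'' ≤ m := hm''.trans ⟨ha', Tm.Le.refl _ _⟩
    exact ⟨m''.a, hm''.1, (v_iff h2 hj).1 h1⟩
  · intro h
    exact Loc.pure fun m' hm' => (v_iff hm' hj).2 ((m.q.v α j ξ).mono hm'.1 h)

theorem ww_G : WW (G (Ω := Ω) α) where
  mono h h1 := h1.mono h
  uni := by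
    intro j ξ ξ' m h1 h2
    obtain ⟨m', hm', h3⟩ := h1.exists
    obtain ⟨m'', hm'', h4⟩ := h2 m' hm'
    have h5 : m''.q.v α j ξ m''.a :=
      (v_iff hm'' (m'.q.out h3)).2 ((m'.q.v α j ξ).mono hm''.1 h3)
    exact m''.q.uni h5 h4

theorem ww_q (q : Tm Ω) : WW (fun j ξ (m : Mt Ω) => q.v α j ξ m.a) where
  mono := by
    intro j ξ m m' h h1
    exact (q.v α j ξ).mono h.1 h1
  uni := by
    intro j ξ ξ' m h1 h2
    exact q.uni h1 h2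

theorem EA_eq : EA d α = Dc d (G α) := rfl

theorem lt_of_G {j : Om1} {ξ : Ω} {m : Mt Ω} (h : G α j ξ m) : ξ < α := by
  obtain ⟨m', _, h1⟩ := h.exists
  obtain ⟨_, β, hβ, h2⟩ := m'.q.bd ⟨j, m'.q.out h1⟩
  exact (h2 j ξ _ h1).1.trans hβ

theorem G_res {β : Ω} (hβ : α < β) {j : Om1} {ξ : Ω} {m : Mt Ω} (h : G α j ξ m) :
    G α j ξ (m.res β) := by
  intro m' hm'
  have h1 : m'.res β ≤ m.res β := by
    have := Mt.res_mono (α := β) hm'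
    rwa [Mt.res_res_of_le le_rfl] at this
  obtain ⟨m'', hm'', h2⟩ := h (Mt.gl β m' m) (Mt.gl_le' h1)
  have h3 : m''.res β ≤ m'.res β := by
    have := Mt.res_mono (α := β) hm''
    rwa [Mt.gl_res] at this
  refine ⟨Mt.gl β m'' m', Mt.gl_le' h3, ?_⟩
  show (Tm.glu β m''.q m'.q).v α j ξ (Co.gl β m''.a m'.a)
  rw [Tm.glu_v, if_pos hβ, ← m''.q.based, ← Co.res_res_of_le hβ.le, Co.gl_res,
    Co.res_res_of_le hβ.le, m''.q.based]
  exact h2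

theorem exists_gt [Inac Ω] (α : Ω) : ∃ β, α < β := by
  obtain ⟨b, hb⟩ := Inac.reg (Ω := Ω) Unit (fun _ => α) (by
    have h1 : (1 : Cardinal.{0}) < aleph 1 := by
      refine lt_of_lt_of_le Cardinal.one_lt_aleph0 ?_
      exact Cardinal.aleph0_le_aleph 1
    rw [Cardinal.mk_unit]
    exact h1.trans Inac.unc)
  exact ⟨b, hb ()⟩

end EAB

open EAB

theorem EA_DV (m : Mt Ω) : DV m (EA d α) := Dc_DV ww_G m

theorem EA_le (m : Mt Ω) : LeD m (EA d α) (EE d α m.q) := by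
  refine Dc_glb (ww_q m.q) fun j ξ m' hm' hacc => ?_
  have hj : j < m.q.len α := m.q.out (acc_iff.1 hacc).1
  have h1 := (acc_congr (d := d) (ww_q (α := α) m.q) ww_G (i := m.q.len α) (m := m)
    (fun j hj ξ m' hm' => by
      have h2 := G_iff (α := α) (m := m') (hj.trans_le (len_mono hm')) (ξ := ξ)
      exact (h2.trans (v_iff hm' hj)).symm) j hj ξ m' hm').1 hacc
  exact Dc_le ww_G h1

theorem EA_bd (hg : Good d α) {β : Ω} (hβ : α < β) : Bd β (EA d α) := by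
  refine Dc_bd ww_G (fun j ξ m h => G_res hβ h) fun j ξ m h => ?_
  obtain ⟨β', hβ', h1⟩ := hg.dbd ξ (lt_of_G h)
  exact h1.mono (hβ'.trans hβ).le

theorem EA_hop [WellFoundedLT Ω] (hg : Good d α) (m : Mt Ω) : Hop m (EA d α) α := by
  intro γ
  constructor
  · intro hγ
    refine ((EA d α).H γ).reg fun m' _ => ?_
    obtain ⟨a', ha', _, q', hq', δ, hδ, hH⟩ := tall hg m'.a m'.q hγ
    refine ⟨⟨a', q'⟩, ⟨ha', hq'⟩, ?_⟩
    have h1 := (hH.mono (Mt.le_res α ⟨a', q'⟩) γ).1 hδ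
    exact ((EA_le (d := d) (α := α) (⟨a', q'⟩ : Mt Ω)).t _ le_rfl γ h1).1
  · intro hγ m' _ hH
    obtain ⟨m'', _, j, ξ, h1, h2⟩ := (Dc_H hH).exists
    obtain ⟨β', hβ', h3⟩ := hg.dbd ξ (lt_of_G (acc_iff.1 h1).1)
    exact absurd (h3.H0 h2) (not_lt.2 (hβ'.le.trans hγ))

theorem star_TV [Inac Ω] (hg : Good d α) (m : Mt Ω) : TV m (star d α) := by
  obtain ⟨β, hβ⟩ := exists_gt α
  exact cap_TV (EA_bd hg hβ) (EA_DV m).toTV fun _ => (EA_DV m).br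

theorem star_hts [Inac Ω] (hg : Good d α) (m : Mt Ω) : Hts m (star d α) α :=
  cap_Hts_lim _ (EA_hop hg m) hg.lm

theorem star_bd [Inac Ω] (hg : Good d α) : ∃ β, Bd β (star d α) := by
  obtain ⟨β, hβ⟩ := exists_gt α
  obtain ⟨β', hβ'⟩ := exists_gt β
  exact ⟨β', cap_bd (EA_bd hg hβ) (fun _ => (EA_bd hg hβ).x) hβ'⟩

theorem star_le (m : Mt Ω) : LeT m (star d α) (EE d α m.q) :=
  (cap_le _).t.trans (EA_le m).t

end ea

end Pool.Agent.T27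

end

section

/-!
# Block GDX: good coordinates
-/

set_option linter.unusedSectionVars false

namespace Pool.Agent.T27

open Pool.Agent.Lib_helper27 Cardinal Cod

variable {Ω : Type} [LinearOrder Ω] [Cod Ω]

namespace GDX

/-- bounded data -/
def BX (Ω : Type) [LinearOrder Ω] [Cod Ω] : Type := {e : Dt Ω // ∃ β, Bd β e}

theorem inf [Inac Ω] : ℵ₀ ≤ #Ω :=
  (Cardinal.aleph0_le_aleph 1).trans (Inac.unc (Ω := Ω)).le

theorem mk_BX [Inac Ω] : #(BX Ω) ≤ #Ω := by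
  have h1 : #(BX Ω) ≤ #(Σ β : Ω, {e : Dt Ω // Bd β e}) := by
    refine mk_le_of_injective (f := fun (e : BX Ω) =>
      (⟨e.2.choose, e.1, e.2.choose_spec⟩ : Σ β : Ω, {e : Dt Ω // Bd β e})) ?_
    intro e e' h
    have h2 : (⟨e.2.choose, e.1, e.2.choose_spec⟩ : Σ β : Ω, {e : Dt Ω // Bd β e}).2.1 =
        (⟨e'.2.choose, e'.1, e'.2.choose_spec⟩ : Σ β : Ω, {e : Dt Ω // Bd β e}).2.1 := by
      exact congrArg (fun x : (Σ β : Ω, {e : Dt Ω // Bd β e}) => x.2.1) h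
    exact Subtype.ext h2
  refine h1.trans ?_
  rw [Cardinal.mk_sigma]
  refine (Cardinal.sum_le_sum _ (fun _ : Ω => #Ω) fun β => (mk_bd β).le).trans ?_
  rw [Cardinal.sum_const, Cardinal.lift_id, Cardinal.mul_eq_self inf]

instance : Nonempty (BX Ω) := by
  refine ⟨⟨⟨fun _ => RP.bot, fun _ _ _ => RP.bot, fun _ => RP.bot⟩, b0, ?_⟩⟩
  exact ⟨fun h => h.elim, fun h => h.elim, fun h => h.elim, fun h => h.elim, fun _ => rfl,
    ⟨fun h => h.elim, fun h => h.elim⟩⟩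

theorem exists_surj [Inac Ω] : ∃ d : Ω → BX Ω, Function.Surjective d := by
  obtain ⟨f⟩ := Cardinal.le_def _ _ |>.1 (mk_BX (Ω := Ω))
  exact ⟨Function.invFun f, Function.invFun_surjective f.injective⟩

theorem single_lt [Inac Ω] {X : Type} (x : X) : #({x} : Set X) < #Ω := by
  rw [Cardinal.mk_singleton]
  exact Cardinal.one_lt_aleph0.trans_le inf

end GDX

open GDX

theorem exists_good [Inac Ω] {U : Ultrafilter Ω} (hU : NUlt U) :
    ∃ d : Ω → Dt Ω, (∀ ξ, ∃ β, Bd β (d ξ)) ∧ {α | Good d α} ∈ U := by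
  obtain ⟨d, hd⟩ := exists_surj (Ω := Ω)
  refine ⟨fun ξ => (d ξ).1, fun ξ => (d ξ).2, ?_⟩
  have h1 := hU.act
  have h2 : Set.Ioi (b0 : Ω) ∈ U := hU.tail b0
  have h3 := hU.lmt
  have h4 := hU.clo (X := Ω) (fun β => {β}) (fun β => single_lt β) om
  have h5 := hU.regP
  have h6 := hU.clo (X := Ω) (fun β => {β}) (fun β => single_lt β) fun ξ => (d ξ).2.choose
  have h7 := hU.clo (X := BX Ω) (fun β => {e | Bd β e.1}) (fun β => by
    refine lt_of_le_of_lt (mk_le_of_injective (f := fun e : {e : BX Ω | Bd β e.1} =>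
      (⟨e.1.1, e.2⟩ : {e : Dt Ω // Bd β e})) ?_) (mk_bd β)
    intro e e' h
    have h8 : e.1.1 = e'.1.1 := congrArg (fun x : {e : Dt Ω // Bd β e} => x.1) h
    exact Subtype.ext (Subtype.ext h8)) fun e => (hd e).choose
  filter_upwards [h1, h2, h3, h4, h5, h6, h7] with α k1 k2 k3 k4 k5 k6 k7
  refine ⟨k1, k2, k3.1, fun γ hγ => k4 γ hγ γ rfl, k5, fun ξ hξ => ?_, fun β hβ e he => ?_⟩
  · exact ⟨_, k6 ξ hξ ξ rfl, (d ξ).2.choose_spec⟩
  · have k8 := k7 β hβ ⟨e, β, he⟩ he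
    exact ⟨_, k8, congrArg Subtype.val (hd ⟨e, β, he⟩).choose_spec⟩

end Pool.Agent.T27

end
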