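import Pool.Agent.Lib_helper27.TM.B

section

/-!
# Part C: names of branches
-/

set_option linter.unusedSectionVars false

namespace Pool.Agent.T27

open Pool.Agent.Lib_helper27 Cardinal Cod

variable {Ω : Type} [LinearOrder Ω] [Cod Ω]

/-- the part below `α` of `(a, q)` -/
noncomputable def ro (α : Ω) (a : Co Ω) (q : Tm Ω) : Mt Ω := (⟨a, q⟩ : Mt Ω).res α

/-- `Q` is a name, over the poset of the conditions bounded below `α`, of a branch through the tree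
relation `Rl` -/
structure BN (α : Ω) (Rl : Ω → Om1 → Ω → Om1 → Mt Ω → Dt Ω → Prop) (n0 : Mt Ω) (e0 : Dt Ω)
    (Q : Ω → Om1 → Mt Ω → Dt Ω → Prop) : Prop where
  mono : ∀ {γ i n e n' e'}, Cl α n' e' → n' ≤ n → LeT n' e' e → Q γ i n e → Q γ i n' e'
  tot : ∀ γ < α, ∀ n e, Cl α n e → n ≤ n0 → LeT n e e0 →
    ∃ n' ≤ n, ∃ e', Cl α n' e' ∧ LeT n' e' e ∧ ∃ i, Q γ i n' e'
  uni : ∀ {γ i j n e}, Cl α n e → n ≤ n0 → LeT n e e0 → Q γ i n e → Q γ j n e → i = j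
  coh : ∀ {γ i δ j n e}, γ < δ → δ < α → Cl α n e → n ≤ n0 → LeT n e e0 → Q γ i n e →
    Q δ j n e → ∃ n' ≤ n, ∃ e', Cl α n' e' ∧ LeT n' e' e ∧ Rl γ i δ j n' e'

/-- a name `B` of a branch of `Rl`, over the Mitchell poset, which has no name over the poset of the
conditions bounded below `α` -/
structure RS (d : Ω → Dt Ω) (α : Ω) (m2 : Mt Ω) (B : Ω → Om1 → Mt Ω → Prop)
    (Rl : Ω → Om1 → Ω → Om1 → Mt Ω → Dt Ω → Prop) : Prop where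
  good : Good d α
  mono : ∀ {γ i m m'}, m' ≤ m → B γ i m → B γ i m'
  reg : ∀ {γ i m}, m ≤ m2 → Loc m (B γ i) → B γ i m
  tot : ∀ γ < α, ∀ m ≤ m2, ∃ m' ≤ m, ∃ i, B γ i m'
  uni : ∀ {γ i j m}, B γ i m → B γ j m → i = j
  coh : ∀ {γ δ i j a q}, (⟨a, q⟩ : Mt Ω) ≤ m2 → γ < δ → δ < α → B γ i ⟨a, q⟩ → B δ j ⟨a, q⟩ →
    ∃ a' ≤ a, a'.hi α = a.hi α ∧ ∃ q', Tm.Le a' q' q ∧ Cl α (ro α a' q') (EE d α q') ∧
      Rl γ i δ j (ro α a' q') (EE d α q')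
  rl_mono : ∀ {γ i δ j n e n' e'}, Rl γ i δ j n e → Cl α n' e' → n' ≤ n → LeT n' e' e →
    Rl γ i δ j n' e'
  rl_uni : ∀ {γ i j δ k n e}, Rl γ i δ k n e → Rl γ j δ k n e → i = j
  nb : ∀ n0 e0 Q, Cl α n0 e0 → n0 ≤ m2.res α → LeT n0 e0 (EE d α m2.q) → ¬ BN α Rl n0 e0 Q

/-- `r` and `r'` have the same part below `α` and code the same closed tree -/
def SB (d : Ω → Dt Ω) (α : Ω) (a : Co Ω) (r r' : Tm Ω) : Prop :=
  r.res α = r'.res α ∧ LeT (ro α a r) (EE d α r) (EE d α r') ∧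
    LeT (ro α a r) (EE d α r') (EE d α r) ∧ RCl (ro α a r) (EE d α r)

/-- a name of a branch which is split everywhere -/
structure BS (d : Ω → Dt Ω) (α : Ω) (a0 : Co Ω) (q0 : Tm Ω)
    (B : Ω → Om1 → Co Ω → Tm Ω → Prop) : Prop where
  good : Good d α
  mono : ∀ {γ i a q a' q'}, a' ≤ a → Tm.Le a' q' q → B γ i a q → B γ i a' q'
  uni : ∀ {γ i j a q}, B γ i a q → B γ j a q → i = j
  tot : ∀ a ≤ a0, a.hi α = a0.hi α → ∀ q, Tm.Le a q q0 → ∀ γ < α,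
    ∃ a' ≤ a, a'.hi α = a0.hi α ∧ ∃ q', Tm.Le a' q' q ∧ ∃ i, B γ i a' q'
  bc : ∀ {a r r' γ δ i i' j}, a ≤ a0 → a.hi α = a0.hi α → Tm.Le a r q0 → Tm.Le a r' q0 →
    SB d α a r r' → γ ≤ δ → δ < α → B γ i a r → B γ i' a r' → B δ j a r → B δ j a r' → i = i'
  split : ∀ a ≤ a0, a.hi α = a0.hi α → ∀ q, Tm.Le a q q0 → ∃ a' ≤ a, a'.hi α = a0.hi α ∧
    ∃ r r', Tm.Le a' r q ∧ Tm.Le a' r' q ∧ SB d α a' r r' ∧
      ∃ γ < α, ∃ i j, i ≠ j ∧ B γ i a' r ∧ B γ j a' r'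

section

variable [WellFoundedLT Ω] {d : Ω → Dt Ω} {α : Ω} {m2 : Mt Ω} {B : Ω → Om1 → Mt Ω → Prop}
  {Rl : Ω → Om1 → Ω → Om1 → Mt Ω → Dt Ω → Prop}

/-! ### BCX -/

/-! ### ELI -/

/-! ### SPL -/


end

end Pool.Agent.T27

end

section

/-! Block BCX of part C (MP_5ef322_lc): `SB.symm`, `bc0`, `bc`. -/

set_option linter.unusedSectionVars false

namespace Pool.Agent.T27

open Pool.Agent.Lib_helper27 Cardinal Cod

variable {Ω : Type} [LinearOrder Ω] [Cod Ω]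

section

variable {d : Ω → Dt Ω} {α : Ω}

theorem EE_le_res {a : Co Ω} {q' q : Tm Ω} (h : Tm.Le a q' q) {m : Mt Ω} (hm : m.a ≤ a.res α) :
    LeD m (EE d α q') (EE d α q) :=
  EE_le1 (fun _ hj _ _ ha' => h.at hj ha') hm

theorem Hts.tr {m : Mt Ω} {e e' : Dt Ω} {δ : Ω} (h : Hts m e δ) (h1 : LeT m e' e)
    (h2 : LeT m e e') : Hts m e' δ := by
  intro γ
  refine ⟨fun hγ => (h1 m le_rfl γ ((h γ).1 hγ)).1, fun hγ m' hm' hH => ?_⟩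
  exact (h γ).2 hγ m' hm' (h2 m' hm' γ hH).1

theorem RCl.tr {m : Mt Ω} {e e' : Dt Ω} (h : RCl m e) (h1 : LeT m e' e) (h2 : LeT m e e') :
    RCl m e' := by
  refine Loc.imp h ?_
  rintro m' hm' ⟨δ, hδ⟩
  exact ⟨δ, hδ.tr (h1.mono hm') (h2.mono hm')⟩

theorem cl_ro (hg : Good d α) {a : Co Ω} {q : Tm Ω} {δ : Ω} (h : Hts (ro α a q) (EE d α q) δ) :
    Cl α (ro α a q) (EE d α q) :=
  ⟨Mt.res_res_of_le le_rfl, (EE_DV _ _).toTV, ⟨δ, h⟩, EE_bd hg q⟩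

theorem ro_mono {a a' : Co Ω} {q q' : Tm Ω} (ha : a' ≤ a) (hq : Tm.Le a' q' q) :
    ro α a' q' ≤ ro α a q := Mt.res_mono (⟨ha, hq⟩ : (⟨a', q'⟩ : Mt Ω) ≤ ⟨a, q⟩)

end

section

variable [WellFoundedLT Ω] {d : Ω → Dt Ω} {α : Ω} {m2 : Mt Ω} {B : Ω → Om1 → Mt Ω → Prop}
  {Rl : Ω → Om1 → Ω → Om1 → Mt Ω → Dt Ω → Prop}

theorem SB.symm {a : Co Ω} {r r' : Tm Ω} (h : SB d α a r r') : SB d α a r' r := by
  obtain ⟨h1, h2, h3, h4⟩ := h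
  have h5 : ro α a r' = ro α a r := by
    show (⟨a.res α, r'.res α⟩ : Mt Ω) = ⟨a.res α, r.res α⟩
    rw [h1]
  refine ⟨h1.symm, ?_, ?_, ?_⟩
  · rw [h5]; exact h3
  · rw [h5]; exact h2
  · rw [h5]; exact h4.tr h3 h2

/-- the two conditions differ only in the Cohen part from `α` on -/
theorem bc0 (h : RS d α m2 B Rl) {a a' : Co Ω} {r : Tm Ω} (hm : (⟨a, r⟩ : Mt Ω) ≤ m2)
    (hm' : (⟨a', r⟩ : Mt Ω) ≤ m2) (ha : a.res α = a'.res α) {γ δ : Ω} {i i' j : Om1}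
    (hγ : γ ≤ δ) (hδ : δ < α) (h1 : B γ i ⟨a, r⟩) (h2 : B γ i' ⟨a', r⟩) (h3 : B δ j ⟨a, r⟩)
    (h4 : B δ j ⟨a', r⟩) : i = i' := by
  rcases hγ.eq_or_lt with rfl | hγ
  · rw [h.uni h1 h3, h.uni h2 h4]
  obtain ⟨a1, ha1, _, q1, hq1, hc1, hR1⟩ := h.coh hm hγ hδ h1 h3
  -- the second condition
  set a1' := Co.gl α a1 a' with ha1'
  set q1' := Tm.mix a1 q1 r with hq1'
  have e1 : a1'.res α = a1.res α := Co.gl_res
  have e2 : a1' ≤ a' := Co.gl_le (by rw [← ha]; exact Co.res_mono ha1)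
  have e3 : Tm.Le Co.emp q1' r := Tm.mix_le hq1
  have e4 : (⟨a1', q1'⟩ : Mt Ω) ≤ ⟨a', r⟩ := ⟨e2, e3.of_emp⟩
  have e5 : ro α a1' q1' ≤ ro α a1 q1 := by
    refine ⟨e1.le, ?_⟩
    show Tm.Le (a1'.res α) (q1'.res α) (q1.res α)
    rw [e1]
    exact (Tm.res_mono (Tm.mix_eq1 hq1)).res_a
  have e6 : (ro α a1' q1').a ≤ a1.res α := e1.le
  have e7 : LeT (ro α a1' q1') (EE d α q1') (EE d α q1) :=
    (EE_congr (fun j ξ a'' ha'' => Tm.mix_on ha'') e6).t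
  have e8 : LeT (ro α a1' q1') (EE d α q1) (EE d α q1') :=
    (EE_congr (fun j ξ a'' ha'' => (Tm.mix_on ha'').symm) e6).t
  have e9 : Cl α (ro α a1' q1') (EE d α q1') := by
    obtain ⟨ε, hε⟩ := hc1.2.2.1
    exact cl_ro h.good ((hε.mono e5).tr e7 e8)
  have hR2 := h.rl_mono hR1 e9 e5 e7
  obtain ⟨a2, ha2, _, q2, hq2, hc2, hR3⟩ := h.coh (e4.trans hm') hγ hδ (h.mono e4 h2) (h.mono e4 h4)
  have hR4 := h.rl_mono hR2 hc2 (ro_mono ha2 hq2) (EE_le_res hq2 le_rfl).t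
  exact h.rl_uni hR4 hR3

theorem bc (h : RS d α m2 B Rl) {a : Co Ω} {r r' : Tm Ω} (hm : (⟨a, r⟩ : Mt Ω) ≤ m2)
    (hm' : (⟨a, r'⟩ : Mt Ω) ≤ m2) (hs : SB d α a r r') {γ δ : Ω} {i i' j : Om1}
    (hγ : γ ≤ δ) (hδ : δ < α) (h1 : B γ i ⟨a, r⟩) (h2 : B γ i' ⟨a, r'⟩) (h3 : B δ j ⟨a, r⟩)
    (h4 : B δ j ⟨a, r'⟩) : i = i' := by
  rcases hγ.eq_or_lt with rfl | hγ
  · rw [h.uni h1 h3, h.uni h2 h4]
  obtain ⟨a1, ha1, _, q1, hq1, hc1, hR1⟩ := h.coh hm hγ hδ h1 h3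
  obtain ⟨s1, s2, s3, s4⟩ := hs
  have e0 : (⟨a, r'⟩ : Mt Ω).res α = ro α a r := by
    show (⟨a.res α, r'.res α⟩ : Mt Ω) = ⟨a.res α, r.res α⟩
    rw [s1]
  have e1 : ro α a1 q1 ≤ ro α a r := ro_mono ha1 hq1
  have e2 : LeT (ro α a1 q1) (EE d α q1) (EE d α r') :=
    (EE_le_res hq1 le_rfl).t.trans (s2.mono e1)
  obtain ⟨f1, q2, f2, f3, f4, _⟩ := liftP h.good (a := a) (q := r') (n := ro α a1 q1)
    (e := EE d α q1) (by rw [e0]; exact s4.tr s3 s2) hc1 (by rw [e0]; exact e1) e2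
  set a2 := Co.gl α (ro α a1 q1).a a with ha2
  have e3 : (⟨a2, q2⟩ : Mt Ω) ≤ ⟨a, r'⟩ := ⟨f1, f2⟩
  obtain ⟨a3, ha3, _, q3, hq3, hc3, hR3⟩ := h.coh (e3.trans hm') hγ hδ (h.mono e3 h2) (h.mono e3 h4)
  have e4 : ro α a3 q3 ≤ ro α a1 q1 := by
    have := ro_mono (α := α) ha3 hq3
    exact this.trans_eq f3
  have hR4 := h.rl_mono hR1 hc3 e4 ((EE_le_res hq3 le_rfl).t.trans (f4.mono e4))
  exact h.rl_uni hR4 hR3

end

end Pool.Agent.T27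

end

section

/-! Block ELI of part C (MP_5ef322_lc): elimination of the Cohen part from `α` on. -/

set_option linter.unusedSectionVars false

namespace Pool.Agent.T27

open Pool.Agent.Lib_helper27 Cardinal Cod

/-! ### Recursion along a well-order -/

open Classical in
/-- the recursion -/
noncomputable def eliG {I : Type} [LinearOrder I] [WellFoundedLT I] {S : Type} [Nonempty S]
    (P : (x : I) → (Set.Iio x → S) → S → Prop) : I → S :=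
  WellFounded.fix (C := fun _ => S) (wellFounded_lt (α := I)) fun x ih =>
    if h : ∃ s, P x (fun y => ih y.1 y.2) s then h.choose else Classical.arbitrary S

theorem eliG_eq {I : Type} [LinearOrder I] [WellFoundedLT I] {S : Type} [Nonempty S]
    (P : (x : I) → (Set.Iio x → S) → S → Prop) (x : I)
    (h : ∃ s, P x (fun y => eliG P y.1) s) : P x (fun y => eliG P y.1) (eliG P x) := by
  classical
  have e : eliG P x = if h : ∃ s, P x (fun y => eliG P y.1) s then h.choose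
      else Classical.arbitrary S := by
    unfold eliG
    rw [WellFounded.fix_eq]
  rw [e, dif_pos h]
  exact h.choose_spec

theorem eli_rec {I : Type} [LinearOrder I] [WellFoundedLT I] {S : Type} [Nonempty S]
    (P : (x : I) → (Set.Iio x → S) → S → Prop)
    (step : ∀ x (f : I → S), (∀ y < x, P y (fun z => f z.1) (f y)) →
      ∃ s, P x (fun z => f z.1) s) :
    ∃ g : I → S, ∀ x, P x (fun z => g z.1) (g x) := by
  refine ⟨eliG P, fun x => ?_⟩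
  induction x using WellFoundedLT.induction with
  | ind x ih => exact eliG_eq P x (step x (eliG P) ih)

instance : Uncountable Om1 := by
  rw [← Cardinal.aleph0_lt_mk_iff]
  have h4 : #Om1 = aleph 1 := Q.mk_om1
  rw [h4]
  exact Cardinal.aleph0_lt_aleph_one

variable {Ω : Type} [LinearOrder Ω] [Cod Ω]

section

variable [WellFoundedLT Ω] {d : Ω → Dt Ω} {α : Ω} {m2 : Mt Ω} {B : Ω → Om1 → Mt Ω → Prop}
  {Rl : Ω → Om1 → Ω → Om1 → Mt Ω → Dt Ω → Prop}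

/-- the state of the construction -/
structure EliS (Ω : Type) [LinearOrder Ω] : Type where
  /-- the term -/
  q : Tm Ω
  /-- the first Cohen part -/
  a0 : Co Ω
  /-- the second Cohen part -/
  a1 : Co Ω
  /-- the level -/
  g : Ω

/-- the two Cohen parts disagree about `B γ` and agree about `B δ` -/
def EliP (α : Ω) (m2 : Mt Ω) (B : Ω → Om1 → Mt Ω → Prop) (q : Tm Ω) (δ : Ω) (s : EliS Ω) : Prop :=
  Tm.Le Co.emp s.q q ∧ s.a0 ≤ m2.a ∧ s.a1 ≤ m2.a ∧ s.a0.res α = s.a1.res α ∧ s.g < α ∧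
    (∃ i0 i1, i0 ≠ i1 ∧ B s.g i0 ⟨s.a0, s.q⟩ ∧ B s.g i1 ⟨s.a1, s.q⟩) ∧
    ∃ j, B δ j ⟨s.a0, s.q⟩ ∧ B δ j ⟨s.a1, s.q⟩

/-- the condition of the recursion -/
def EliR (α : Ω) (m2 : Mt Ω) (B : Ω → Om1 → Mt Ω → Prop) (x : Om1) (f : Set.Iio x → EliS Ω)
    (s : EliS Ω) : Prop :=
  ∃ q, Tm.Le Co.emp q m2.q ∧ (∀ y, Tm.Le Co.emp q (f y).q) ∧ ∃ δ < α, (∀ y, (f y).g < δ) ∧
    EliP α m2 B q δ s

theorem eli_step (h : RS d α m2 B Rl)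
    (hcon : ∀ a0 q0, (⟨a0, q0⟩ : Mt Ω) ≤ m2 → ∃ a ≤ a0, a.hi α = a0.hi α ∧ ∃ q, Tm.Le a q q0 ∧
      ∃ γ < α, ∀ a' ≤ a, a'.hi α = a0.hi α → ∀ q', Tm.Le a' q' q → ∀ i, ¬ B γ i ⟨a', q'⟩)
    {q : Tm Ω} (hq : Tm.Le Co.emp q m2.q) {δ : Ω} (hδ : δ < α) : ∃ s, EliP α m2 B q δ s := by
  -- decide `B δ`
  have h0 : (⟨m2.a, q⟩ : Mt Ω) ≤ m2 := ⟨le_rfl, hq.of_emp⟩
  obtain ⟨⟨ax, q'⟩, hx, j, hj⟩ := h.tot δ hδ _ h0
  obtain ⟨hx1, hx2⟩ := hx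
  have hx1 : ax ≤ m2.a := hx1
  have hx2 : Tm.Le ax q' q := hx2
  have hxm : (⟨ax, q'⟩ : Mt Ω) ≤ m2 := ⟨hx1, hx2.trans hq.of_emp⟩
  obtain ⟨a, ha, hah, q'', hq'', γ, hγ, hno⟩ := hcon ax q' hxm
  have ham : (⟨a, q''⟩ : Mt Ω) ≤ ⟨ax, q'⟩ := ⟨ha, hq''⟩
  obtain ⟨⟨b0, r0⟩, hb0, i0, hi0⟩ := h.tot γ hγ _ (ham.trans hxm)
  obtain ⟨hb1, hb2⟩ := hb0
  have hb1 : b0 ≤ a := hb1
  have hb2 : Tm.Le b0 r0 q'' := hb2
  set b := Co.gl α b0 a with hb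
  have hba : b ≤ a := Co.gl_le (Co.res_mono hb1)
  have hbh : b.hi α = ax.hi α := by rw [hb, Co.gl_hi, hah]
  set r := Tm.mix b0 r0 q'' with hr
  have hrq : Tm.Le Co.emp r q'' := Tm.mix_le hb2
  have hbm : (⟨b, r⟩ : Mt Ω) ≤ m2 := by
    refine le_trans ⟨hba, hrq.of_emp⟩ (ham.trans hxm)
  have hn0 : ¬ B γ i0 ⟨b, r⟩ := hno b hba hbh r hrq.of_emp i0
  have hn1 : ¬ Loc (⟨b, r⟩ : Mt Ω) (B γ i0) := fun hl => hn0 (h.reg hbm hl)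
  unfold Loc at hn1
  push Not at hn1
  obtain ⟨n, hn, hn2⟩ := hn1
  obtain ⟨⟨b1, r1⟩, hb3, i1, hi1⟩ := h.tot γ hγ n (hn.trans hbm)
  have hne : i0 ≠ i1 := by
    rintro rfl
    exact hn2 _ hb3 hi1
  obtain ⟨hb4, hb5⟩ := hb3.trans hn
  have hb4 : b1 ≤ b := hb4
  have hb5 : Tm.Le b1 r1 r := hb5
  set a0 := Co.gl α b1 b0 with ha0
  have hbres : b.res α = b0.res α := by rw [hb, Co.gl_res]
  have ha0b : a0 ≤ b0 := Co.gl_le (by rw [← hbres]; exact Co.res_mono hb4)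
  have hb1a : b1 ≤ a := hb4.trans hba
  have ha0a : a0 ≤ a := ha0b.trans hb1
  set rs := Tm.mix b1 r1 r with hrs
  have hrs1 : Tm.Le Co.emp rs r := Tm.mix_le hb5
  have hrs2 : Tm.Le a rs q := by
    refine (hrs1.trans hrq).of_emp.trans (hq''.trans (hx2.mono ha))
  set qs := Tm.mix a rs q with hqs
  have hqs1 : Tm.Le Co.emp qs q := Tm.mix_le hrs2
  have hqs2 : Tm.Le a qs rs := Tm.mix_eq1 hrs2
  have hA : ∀ c ≤ a, B δ j ⟨c, qs⟩ := by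
    intro c hc
    refine h.mono ⟨hc.trans ha, ?_⟩ hj
    exact (hqs2.mono hc).trans ((hrs1.trans hrq).of_emp.trans (hq''.mono hc))
  refine ⟨⟨qs, a0, b1, γ⟩, hqs1, ha0a.trans (ha.trans hx1), hb1a.trans (ha.trans hx1), Co.gl_res,
    hγ, ⟨i0, i1, hne, ?_, ?_⟩, j, hA _ ha0a, hA _ hb1a⟩
  · show B γ i0 ⟨a0, qs⟩
    refine h.mono ⟨ha0b, ?_⟩ hi0
    exact (hqs2.mono ha0a).trans (hrs1.of_emp.trans ((Tm.mix_eq1 hb2).mono ha0b))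
  · show B γ i1 ⟨b1, qs⟩
    have hle : (⟨b1, qs⟩ : Mt Ω) ≤ ⟨b1, r1⟩ :=
      ⟨le_rfl, (hqs2.mono hb1a).trans (Tm.mix_eq1 hb5)⟩
    exact h.mono hle hi1

/-- elimination of the Cohen part from `α` on -/
theorem elim (h : RS d α m2 B Rl) : ∃ a0 q0, (⟨a0, q0⟩ : Mt Ω) ≤ m2 ∧ ∀ a ≤ a0,
    a.hi α = a0.hi α → ∀ q, Tm.Le a q q0 → ∀ γ < α,
      ∃ a' ≤ a, a'.hi α = a0.hi α ∧ ∃ q', Tm.Le a' q' q ∧ ∃ i, B γ i ⟨a', q'⟩ := by
  classical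
  by_contra hcon
  push Not at hcon
  have : Nonempty (EliS Ω) := ⟨⟨m2.q, m2.a, m2.a, b0⟩⟩
  have hst : ∀ x (f : Om1 → EliS Ω), (∀ y < x, EliR α m2 B y (fun z => f z.1) (f y)) →
      ∃ s, EliR α m2 B x (fun z => f z.1) s := by
    intro x f hf
    have : Countable (Set.Iio x) := (countable_iio1 x).to_subtype
    have hch : ∀ i j : Set.Iio x, i ≤ j → Tm.Le Co.emp (f j.1).q (f i.1).q := by
      intro i j hij
      rcases hij.eq_or_lt with rfl | hlt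
      · exact Tm.Le.refl _ _
      · obtain ⟨q, _, h2, _, _, _, h3⟩ := hf j.1 j.2
        exact h3.1.trans (h2 ⟨i.1, hlt⟩)
    have hgl : ∀ i : Set.Iio x, (f i.1).g < α := by
      intro i
      obtain ⟨q, _, _, _, _, _, h3⟩ := hf i.1 i.2
      exact h3.2.2.2.2.1
    have hqm : ∀ i : Set.Iio x, Tm.Le Co.emp (f i.1).q m2.q := by
      intro i
      obtain ⟨q, h1, _, _, _, _, h3⟩ := hf i.1 i.2
      exact h3.1.trans h1
    -- the term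
    obtain ⟨q, hq1, hq2⟩ : ∃ q, Tm.Le Co.emp q m2.q ∧
        ∀ y : Set.Iio x, Tm.Le Co.emp q (f y.1).q := by
      by_cases hne : Nonempty (Set.Iio x)
      · refine ⟨Tm.lim (fun y : Set.Iio x => (f y.1).q) hch, ?_, fun y =>
          Tm.lim_le (fun y : Set.Iio x => (f y.1).q) hch y⟩
        obtain ⟨y⟩ := id hne
        exact (Tm.lim_le (fun y : Set.Iio x => (f y.1).q) hch y).trans (hqm y)
      · exact ⟨m2.q, Tm.Le.refl _ _, fun y => (hne ⟨y⟩).elim⟩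
    -- the level
    obtain ⟨δ, hδ1, hδ2⟩ : ∃ δ < α, ∀ y : Set.Iio x, (f y.1).g < δ := by
      by_cases hne : Nonempty (Set.Iio x)
      · have hne' : Nonempty (Set.Iio x) := hne
        obtain ⟨e, he⟩ : ∃ e : ℕ → Set.Iio x, Function.Surjective e :=
          exists_surjective_nat (Set.Iio x)
        obtain ⟨δ, hδ1, hδ2⟩ := h.good.act (fun n => (f (e n).1).g) fun n => hgl (e n)
        refine ⟨δ, hδ1, fun y => ?_⟩
        obtain ⟨n, rfl⟩ := he y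
        exact hδ2 n
      · exact ⟨b0, h.good.ne, fun y => (hne ⟨y⟩).elim⟩
    obtain ⟨s, hs⟩ := eli_step h hcon hq1 hδ1
    exact ⟨s, q, hq1, hq2, δ, hδ1, hδ2, hs⟩
  obtain ⟨g, hg⟩ := eli_rec (EliR α m2 B) hst
  have hg : ∀ x, ∃ q, Tm.Le Co.emp q m2.q ∧ (∀ y : Set.Iio x, Tm.Le Co.emp q (g y.1).q) ∧
      ∃ δ < α, (∀ y : Set.Iio x, (g y.1).g < δ) ∧ EliP α m2 B q δ (g x) := hg
  -- the main argument
  have key : ∀ x y : Om1, x < y → Co.Cp (g x).a0 (g y).a0 → Co.Cp (g x).a1 (g y).a1 → False := by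
    intro x y hxy hc0 hc1
    obtain ⟨_, _, _, _, _, _, hx⟩ := hg x
    obtain ⟨q, hq1, hq2, δ, hδ1, hδ2, hy⟩ := hg y
    obtain ⟨_, _, _, hxr, hxg, ⟨i0, i1, hne, hx0, hx1⟩, _⟩ := hx
    obtain ⟨hyq, hy0, hy1, hyr, _, _, j, hyj0, hyj1⟩ := hy
    have hle : Tm.Le Co.emp (g y).q (g x).q := hyq.trans (hq2 ⟨x, hxy⟩)
    set c0 := Co.un (g x).a0 (g y).a0 with hc0'
    set c1 := Co.un (g x).a1 (g y).a1 with hc1'
    have l0 : c0 ≤ (g x).a0 := Co.un_le_left _ _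
    have l0' : c0 ≤ (g y).a0 := Co.un_le_right hc0
    have l1 : c1 ≤ (g x).a1 := Co.un_le_left _ _
    have l1' : c1 ≤ (g y).a1 := Co.un_le_right hc1
    have hres : c0.res α = c1.res α := by
      refine Co.ext' fun z => ?_
      have e1 := congrArg (fun a : Co Ω => a.f z) hxr
      have e2 := congrArg (fun a : Co Ω => a.f z) hyr
      simp only [Co.res_f] at e1 e2 ⊢
      split_ifs at e1 e2 ⊢ with hz
      · show ((g x).a0.f z).orElse (fun _ => (g y).a0.f z) =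
          ((g x).a1.f z).orElse (fun _ => (g y).a1.f z)
        rw [e1, e2]
      · rfl
    have hqm : Tm.Le Co.emp (g y).q m2.q := hyq.trans hq1
    have hm0 : (⟨c0, (g y).q⟩ : Mt Ω) ≤ m2 := ⟨l0'.trans hy0, hqm.of_emp⟩
    have hm1 : (⟨c1, (g y).q⟩ : Mt Ω) ≤ m2 := ⟨l1'.trans hy1, hqm.of_emp⟩
    refine hne (bc0 h hm0 hm1 hres (hδ2 ⟨x, hxy⟩).le hδ1 ?_ ?_ ?_ ?_ (j := j))
    · exact h.mono ⟨l0, hle.of_emp⟩ hx0
    · exact h.mono ⟨l1, hle.of_emp⟩ hx1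
    · exact h.mono (show (⟨c0, (g y).q⟩ : Mt Ω) ≤ ⟨(g y).a0, (g y).q⟩ from
        ⟨l0', Tm.Le.refl _ _⟩) hyj0
    · exact h.mono (show (⟨c1, (g y).q⟩ : Mt Ω) ≤ ⟨(g y).a1, (g y).q⟩ from
        ⟨l1', Tm.Le.refl _ _⟩) hyj1
  obtain ⟨x, y, hxy, h1, h2⟩ := ccc2 (fun x => (g x).a0) fun x => (g x).a1
  rcases lt_or_gt_of_ne hxy with hlt | hlt
  · exact key x y hlt h1 h2
  · exact key y x hlt h1.symm h2.symm

end

end Pool.Agent.T27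

end

section

/-!
# Block SPL (helper37): a name without a bounded name is split
-/

set_option linter.unusedSectionVars false

namespace Pool.Agent.T27

open Pool.Agent.Lib_helper27 Cardinal Cod

variable {Ω : Type} [LinearOrder Ω] [Cod Ω]

theorem spl_EE_le {d : Ω → Dt Ω} {α : Ω} {a : Co Ω} {q' q : Tm Ω} (h : Tm.Le a q' q) {m : Mt Ω}
    (hm : m.a ≤ a.res α) : LeD m (EE d α q') (EE d α q) :=
  EE_le1 (a := a.res α) (fun _ hj _ _ ha' => h.at hj ha') hm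

theorem spl_Hts {m : Mt Ω} {e e' : Dt Ω} {δ : Ω} (h1 : LeT m e e') (h2 : LeT m e' e)
    (h : Hts m e δ) : Hts m e' δ := by
  intro γ
  refine ⟨fun hγ => (h2 m le_rfl γ ((h γ).1 hγ)).1, fun hγ m' hm' hH => ?_⟩
  exact (h γ).2 hγ m' hm' (h1 m' hm' γ hH).1

theorem spl_rcl {m : Mt Ω} {e : Dt Ω} {δ : Ω} (h : Hts m e δ) : RCl m e :=
  Loc.pure fun _ hq => ⟨δ, h.mono hq⟩

theorem spl_ro_le {α : Ω} {a' a : Co Ω} {q' q : Tm Ω} (ha : a' ≤ a) (hq : Tm.Le a' q' q) :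
    ro α a' q' ≤ ro α a q := Mt.res_mono (m' := ⟨a', q'⟩) (m := ⟨a, q⟩) ⟨ha, hq⟩

theorem spl_gl_congr {α : Ω} {b a a' : Co Ω} (h : a.hi α = a'.hi α) :
    Co.gl α b a = Co.gl α b a' := by
  rw [← Co.gl_hi_right (α := α) (b := b) (a := a), h, Co.gl_hi_right]

theorem spl_cl {d : Ω → Dt Ω} {α : Ω} (hg : Good d α) {a : Co Ω} {q : Tm Ω} {δ : Ω}
    (h : Hts (ro α a q) (EE d α q) δ) : Cl α (ro α a q) (EE d α q) := by
  refine ⟨?_, (EE_DV q _).toTV, ⟨δ, h⟩, EE_bd hg q⟩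
  exact Mt.res_res_of_le le_rfl

section

variable [WellFoundedLT Ω] {d : Ω → Dt Ω} {α : Ω} {m2 : Mt Ω} {B : Ω → Om1 → Mt Ω → Prop}
  {Rl : Ω → Om1 → Ω → Om1 → Mt Ω → Dt Ω → Prop}

theorem splt (h : RS d α m2 B Rl) {a0 : Co Ω} {q0 : Tm Ω} (h0 : (⟨a0, q0⟩ : Mt Ω) ≤ m2)
    (htot : ∀ a ≤ a0, a.hi α = a0.hi α → ∀ q, Tm.Le a q q0 → ∀ γ < α,
      ∃ a' ≤ a, a'.hi α = a0.hi α ∧ ∃ q', Tm.Le a' q' q ∧ ∃ i, B γ i ⟨a', q'⟩) :
    ∀ a ≤ a0, a.hi α = a0.hi α → ∀ q, Tm.Le a q q0 → ∃ a' ≤ a, a'.hi α = a0.hi α ∧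
      ∃ r r', Tm.Le a' r q ∧ Tm.Le a' r' q ∧ SB d α a' r r' ∧
        ∃ γ < α, ∃ i j, i ≠ j ∧ B γ i ⟨a', r⟩ ∧ B γ j ⟨a', r'⟩ := by
  intro a ha hi q hq
  by_contra hcon
  have NS : ∀ a' ≤ a, a'.hi α = a0.hi α → ∀ r r', Tm.Le a' r q → Tm.Le a' r' q →
      SB d α a' r r' → ∀ γ < α, ∀ i j, B γ i ⟨a', r⟩ → B γ j ⟨a', r'⟩ → i = j := by
    intro a' ha' hi' r r' h1 h2 h3 γ hγ i j h4 h5
    by_contra hij
    exact hcon ⟨a', ha', hi', r, r', h1, h2, h3, γ, hγ, i, j, hij, h4, h5⟩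
  have hg := h.good
  obtain ⟨a1, ha1, hi1, q1, hq1, δ1, _, hδ1⟩ := tall hg a q hg.ne
  have hi1' : a1.hi α = a0.hi α := hi1.trans hi
  have hc1 : RCl (ro α a1 q1) (EE d α q1) := spl_rcl hδ1
  have hq10 : Tm.Le a1 q1 q0 := hq1.trans (hq.mono ha1)
  have hm1 : (⟨a1, q1⟩ : Mt Ω) ≤ m2 := le_trans (⟨ha1.trans ha, hq10⟩ : (⟨a1, q1⟩ : Mt Ω) ≤ ⟨a0, q0⟩) h0
  set n0 : Mt Ω := ro α a1 q1 with hn0
  set e0 : Dt Ω := EE d α q1 with he0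
  -- the name
  let Q : Ω → Om1 → Mt Ω → Dt Ω → Prop := fun γ i n e => γ < α ∧ ∃ a' ≤ a1, a'.hi α = a0.hi α ∧
    ∃ q', Tm.Le a' q' q1 ∧ RCl (ro α a' q') (EE d α q') ∧ n ≤ ro α a' q' ∧
      LeT n e (EE d α q') ∧ B γ i ⟨a', q'⟩
  have hQdef : ∀ γ i n e, Q γ i n e ↔ (γ < α ∧ ∃ a' ≤ a1, a'.hi α = a0.hi α ∧
    ∃ q', Tm.Le a' q' q1 ∧ RCl (ro α a' q') (EE d α q') ∧ n ≤ ro α a' q' ∧
      LeT n e (EE d α q') ∧ B γ i ⟨a', q'⟩) := fun _ _ _ _ => Iff.rfl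
  -- lifting through a witness
  have lft : ∀ {a' : Co Ω} {q' : Tm Ω} {n : Mt Ω} {e : Dt Ω}, a' ≤ a1 → a'.hi α = a0.hi α →
      Tm.Le a' q' q1 → RCl (ro α a' q') (EE d α q') → Cl α n e → n ≤ ro α a' q' →
      LeT n e (EE d α q') → Co.gl α n.a a' ≤ a' ∧ (Co.gl α n.a a').hi α = a0.hi α ∧
        ∃ r, Tm.Le (Co.gl α n.a a') r q' ∧ ro α (Co.gl α n.a a') r = n ∧
          LeT n (EE d α r) e ∧ LeT n e (EE d α r) := by
    intro a' q' n e h1 h2 h3 h4 h5 h6 h7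
    obtain ⟨k1, r, k2, k3, k4, k5⟩ := liftP hg (a := a') (q := q') h4 h5 h6 h7
    exact ⟨k1, by rw [Co.gl_hi, h2], r, k2, k3, k4, k5⟩
  -- extending to a closed condition which decides a value
  have ext1 : ∀ {b : Co Ω} {r : Tm Ω}, b ≤ a1 → b.hi α = a0.hi α → Tm.Le b r q1 →
      ∀ γ < α, ∃ b' ≤ b, b'.hi α = a0.hi α ∧ ∃ r', Tm.Le b' r' r ∧
        (∃ δ, Hts (ro α b' r') (EE d α r') δ) ∧ ∃ i, B γ i ⟨b', r'⟩ := by
    intro b r hb hbi hr γ hγ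
    obtain ⟨b3, hb3, hi3, r3, hr3, i, hB3⟩ := htot b ((hb.trans ha1).trans ha) hbi r
      (hr.trans (hq10.mono hb)) γ hγ
    obtain ⟨b4, hb4, hi4, r4, hr4, δ4, _, hδ4⟩ := tall hg b3 r3 hγ
    refine ⟨b4, hb4.trans hb3, hi4.trans hi3, r4, hr4.trans (hr3.mono hb4), ⟨δ4, hδ4⟩, i, ?_⟩
    exact h.mono (⟨hb4, hr4⟩ : (⟨b4, r4⟩ : Mt Ω) ≤ ⟨b3, r3⟩) hB3
  have hmono : ∀ {γ i n e n' e'}, Cl α n' e' → n' ≤ n → LeT n' e' e → Q γ i n e →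
      Q γ i n' e' := by
    rintro γ i n e n' e' _ hn hle ⟨h1, a', h2, h3, q', h4, h5, h6, h7, h8⟩
    exact ⟨h1, a', h2, h3, q', h4, h5, hn.trans h6, hle.trans (h7.mono hn), h8⟩
  have huni : ∀ {γ i j n e}, Cl α n e → n ≤ n0 → LeT n e e0 → Q γ i n e → Q γ j n e →
      i = j := by
    rintro γ i j n e hC _ _ ⟨hγ, a', h2, h3, q', h4, h5, h6, h7, h8⟩
      ⟨_, a'', g2, g3, q'', g4, g5, g6, g7, g8⟩
    obtain ⟨k1, k2, r, k3, k4, k5, k6⟩ := lft h2 h3 h4 h5 hC h6 h7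
    obtain ⟨l1, l2, r', l3, l4, l5, l6⟩ := lft g2 g3 g4 g5 hC g6 g7
    have hb : Co.gl α n.a a'' = Co.gl α n.a a' := spl_gl_congr (g3.trans h3.symm)
    rw [hb] at l1 l2 l3 l4
    set b := Co.gl α n.a a' with hbdef
    have hba : b ≤ a := (k1.trans h2).trans ha1
    have hres : r.res α = r'.res α := congrArg Mt.q (k4.trans l4.symm)
    obtain ⟨δ, hδ⟩ := hC.2.2.1
    refine NS b hba k2 r r' ?_ ?_ ⟨hres, ?_, ?_, ?_⟩ γ hγ i j ?_ ?_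
    · exact k3.trans ((h4.mono k1).trans (hq1.mono (k1.trans h2)))
    · exact l3.trans ((g4.mono l1).trans (hq1.mono (k1.trans h2)))
    · rw [k4]; exact k5.trans l6
    · rw [k4]; exact l5.trans k6
    · rw [k4]; exact spl_rcl (spl_Hts k6 k5 hδ)
    · exact h.mono (⟨k1, k3⟩ : (⟨b, r⟩ : Mt Ω) ≤ ⟨a', q'⟩) h8
    · exact h.mono (⟨l1, l3⟩ : (⟨b, r'⟩ : Mt Ω) ≤ ⟨a'', q''⟩) g8
  have hBN : BN α Rl n0 e0 Q := by
    refine ⟨hmono, ?_, huni, ?_⟩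
    · intro γ hγ n e hC hn hle
      obtain ⟨k1, k2, r, k3, k4, k5, k6⟩ := lft le_rfl hi1' (Tm.Le.refl _ _) hc1 hC hn hle
      obtain ⟨b, hb, hbi, s, hs, ⟨δ, hδ⟩, i, hB⟩ := ext1 k1 k2 k3 γ hγ
      have hn' : ro α b s ≤ n := by
        rw [← k4]
        exact spl_ro_le hb hs
      refine ⟨ro α b s, hn', EE d α s, spl_cl hg hδ, ?_, i, hγ, b, hb.trans k1, hbi, s,
        hs.trans (k3.mono hb), spl_rcl hδ, le_rfl, LeT.refl _ _, hB⟩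
      have h1 : LeT (ro α b s) (EE d α s) (EE d α r) := (spl_EE_le hs (m := ro α b s) le_rfl).t
      exact h1.trans (k5.mono hn')
    · rintro γ i δ j n e hγδ hδ hC hn hle ⟨hγ, a', h2, h3, q', h4, h5, h6, h7, h8⟩ hQ
      obtain ⟨k1, k2, r, k3, k4, k5, k6⟩ := lft h2 h3 h4 h5 hC h6 h7
      obtain ⟨b, hb, hbi, s, hs, ⟨δ', hδ'⟩, j', hB⟩ := ext1 (k1.trans h2) k2
        (k3.trans (h4.mono k1)) δ hδ
      have hn' : ro α b s ≤ n := by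
        rw [← k4]
        exact spl_ro_le hb hs
      have hle' : LeT (ro α b s) (EE d α s) e := by
        have h1 : LeT (ro α b s) (EE d α s) (EE d α r) := (spl_EE_le hs (m := ro α b s) le_rfl).t
        exact h1.trans (k5.mono hn')
      have hC' : Cl α (ro α b s) (EE d α s) := spl_cl hg hδ'
      have hb1 : b ≤ a1 := (hb.trans k1).trans h2
      have hs1 : Tm.Le b s q1 := hs.trans ((k3.mono hb).trans (h4.mono (hb.trans k1)))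
      have hQ1 : Q δ j (ro α b s) (EE d α s) := hmono hC' hn' hle' hQ
      have hQ2 : Q δ j' (ro α b s) (EE d α s) := ⟨hδ, b, hb1, hbi, s, hs1, spl_rcl hδ', le_rfl,
        LeT.refl _ _, hB⟩
      have hjj : j' = j := huni hC' (hn'.trans hn) (hle'.trans (hle.mono hn')) hQ2 hQ1
      rw [hjj] at hB
      have hBγ : B γ i ⟨b, s⟩ := h.mono
        (⟨hb.trans k1, hs.trans (k3.mono hb)⟩ : (⟨b, s⟩ : Mt Ω) ≤ ⟨a', q'⟩) h8
      obtain ⟨c, hc, hci, t, ht, hCt, hRl⟩ := h.coh (a := b) (q := s)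
        (le_trans (⟨hb1, hs1⟩ : (⟨b, s⟩ : Mt Ω) ≤ ⟨a1, q1⟩) hm1) hγδ hδ hBγ hB
      refine ⟨ro α c t, (spl_ro_le hc ht).trans hn', EE d α t, hCt, ?_, hRl⟩
      have h1 : LeT (ro α c t) (EE d α t) (EE d α s) := (spl_EE_le ht (m := ro α c t) le_rfl).t
      exact h1.trans (hle'.mono (spl_ro_le hc ht))
  refine h.nb n0 e0 Q (spl_cl hg hδ1) (Mt.res_mono hm1) ?_ hBN
  exact (spl_EE_le (a := a1) (q' := q1) (q := m2.q) hm1.2 (m := n0) le_rfl).t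

end

end Pool.Agent.T27

end

section

/-!
# A name of a branch which is split everywhere
-/

set_option linter.unusedSectionVars false

namespace Pool.Agent.T27

open Pool.Agent.Lib_helper27 Cardinal Cod

variable {Ω : Type} [LinearOrder Ω] [Cod Ω] [WellFoundedLT Ω] {d : Ω → Dt Ω} {α : Ω} {m2 : Mt Ω}
  {B : Ω → Om1 → Mt Ω → Prop} {Rl : Ω → Om1 → Ω → Om1 → Mt Ω → Dt Ω → Prop}

theorem exists_BS (h : RS d α m2 B Rl) :
    ∃ a0 q0, BS d α a0 q0 fun γ i a q => B γ i ⟨a, q⟩ := by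
  obtain ⟨a0, q0, h0, htot⟩ := elim h
  have hle : ∀ {a : Co Ω} {q : Tm Ω}, a ≤ a0 → Tm.Le a q q0 → (⟨a, q⟩ : Mt Ω) ≤ m2 :=
    fun h1 h2 => le_trans (⟨h1, h2⟩ : (⟨_, _⟩ : Mt Ω) ≤ ⟨a0, q0⟩) h0
  refine ⟨a0, q0, h.good, fun h1 h2 h3 => h.mono ⟨h1, h2⟩ h3, fun h1 h2 => h.uni h1 h2, htot,
    ?_, splt h h0 htot⟩
  intro a r r' γ δ i i' j h1 _ h3 h4 h5 h6 h7 h8 h9 h10 h11
  exact bc h (hle h1 h3) (hle h1 h4) h5 h6 h7 h8 h9 h10 h11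

end Pool.Agent.T27

end
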