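import Pool.Agent.Lib_helper27.TM.C

section

/-!
# Part D: the fusion
-/

set_option linter.unusedSectionVars false

namespace Pool.Agent.T27

open Pool.Agent.Lib_helper27 Cardinal Cod

variable {Ω : Type} [LinearOrder Ω] [Cod Ω]

/-- the codes branches agree off `E` -/
def Off (d : Ω → Dt Ω) (α : Ω) (a : Co Ω) (E : RP (K Ω)) (r r' : Tm Ω) : Prop :=
  ∀ k : K Ω, k.1 ≤ ro α a r → E.neg k → ∀ γ, (EE d α r).H γ k.1 →
    EqB k γ (EE d α r).x (EE d α r').x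

/-- nothing is split by changes on `E` -/
def Bad (d : Ω → Dt Ω) (α : Ω) (a0 : Co Ω) (B : Ω → Om1 → Co Ω → Tm Ω → Prop) (E : RP (K Ω))
    (a : Co Ω) (q : Tm Ω) : Prop :=
  ∀ a' ≤ a, a'.hi α = a0.hi α → ∀ r r', Tm.Le a' r q → Tm.Le a' r' q → SB d α a' r r' →
    Off d α a' E r r' → ∀ γ < α, ∀ i j, B γ i a' r → B γ j a' r' → i = j

/-- everything is split by changes on `E` -/
def Gd (d : Ω → Dt Ω) (α : Ω) (a0 : Co Ω) (B : Ω → Om1 → Co Ω → Tm Ω → Prop) (E : RP (K Ω))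
    (a : Co Ω) (q : Tm Ω) : Prop :=
  ∀ a1 ≤ a, a1.hi α = a0.hi α → ∀ q1, Tm.Le a1 q1 q → ¬ Bad d α a0 B E a1 q1

/-- Families of terms indexed by the reals, depending on the first `n` bits, with the same part
below `α`, coding the same tree; the coded branches agree off `e m` if the reals agree below `m`. -/
structure TA (d : Ω → Dt Ω) (α : Ω) (e : ℕ → RP (K Ω)) (qr : Tm Ω) (n : ℕ) (a : Co Ω)
    (q : (ℕ → Bool) → Tm Ω) : Prop where
  dep : ∀ f g : ℕ → Bool, (∀ j < n, f j = g j) → q f = q g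
  root : ∀ f, Tm.Le a (q f) qr
  sb : ∀ f g, SB d α a (q f) (q g)
  off : ∀ (f g : ℕ → Bool) (m : ℕ), (∀ j < m, f j = g j) → Off d α a (e m) (q f) (q g)

/-- a countable predense set of conditions which agree with `a0` from `α` on -/
structure PD (α : Ω) (a0 : Co Ω) (W : Set (Co Ω)) : Prop where
  cnt : W.Countable
  le : ∀ w ∈ W, w ≤ a0 ∧ w.hi α = a0.hi α
  pre : ∀ a ≤ a0, a.hi α = a0.hi α → ∃ w ∈ W, ∃ c, c ≤ a ∧ c ≤ w ∧ c.hi α = a0.hi α

/-- the terms `q f` and `q g` force different values if `f` and `g` differ below `n` -/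
def SPT (α : Ω) (B : Ω → Om1 → Co Ω → Tm Ω → Prop) (n : ℕ) (a : Co Ω)
    (q : (ℕ → Bool) → Tm Ω) : Prop :=
  ∀ f g : ℕ → Bool, (∃ m < n, f m ≠ g m) →
    ∃ γ < α, ∃ i j, i ≠ j ∧ B γ i a (q f) ∧ B γ j a (q g)

section

variable [Inac Ω] {d : Ω → Dt Ω} {α : Ω} {a0 : Co Ω} {q0 : Tm Ω}
  {B : Ω → Om1 → Co Ω → Tm Ω → Prop}

/-! ### EXA -/

/-! ### UPX -/

/-- the branch of `t` is that of `r`, continued by that of `s` -/
def GlX (d : Ω → Dt Ω) (α : Ω) (a : Co Ω) (t r s : Tm Ω) : Prop :=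
  LeX (ro α a t) (EE d α t) (EE d α t).x (glR (EE d α r) (EE d α r).x (EE d α s).x)

/-! ### GDS -/

/-! ### ENS -/

variable {e : ℕ → RP (K Ω)} {qr : Tm Ω} {n : ℕ}

/-! ### TUP -/

/-! ### TLM -/

/-! ### ONE -/

/-! ### STG -/

/-! ### RLT -/

theorem chain_le {q : ℕ → (ℕ → Bool) → Tm Ω} (hle : ∀ n f, Tm.Le Co.emp (q (n + 1) f) (q n f))
    (f : ℕ → Bool) (i j : ℕ) (hij : i ≤ j) : Tm.Le Co.emp (q j f) (q i f) := by
  induction j, hij using Nat.le_induction with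
  | base => exact Tm.Le.refl _ _
  | succ k _ ih => exact (hle k f).trans ih

/-- the limit along `f` -/
noncomputable def limq (q : ℕ → (ℕ → Bool) → Tm Ω)
    (hle : ∀ n f, Tm.Le Co.emp (q (n + 1) f) (q n f)) (f : ℕ → Bool) : Tm Ω :=
  Tm.lim (fun n => q n f) (chain_le hle f)

/-! ### FIN -/


end

end Pool.Agent.T27

end

section

/-!
# Block EXA
-/

set_option linter.unusedSectionVars false

namespace Pool.Agent.T27

open Pool.Agent.Lib_helper27 Cardinal Cod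

variable {Ω : Type} [LinearOrder Ω] [Cod Ω]

section

variable [Inac Ω] {d : Ω → Dt Ω} {α : Ω} {a0 : Co Ω} {q0 : Tm Ω}
  {B : Ω → Om1 → Co Ω → Tm Ω → Prop}

namespace EXA

theorem unc1 : Uncountable Om1 := by
  rw [← Cardinal.aleph0_lt_mk_iff]
  have h : #Om1 = aleph 1 := Q.mk_om1
  rw [h]
  exact Cardinal.aleph0_lt_aleph_one

theorem un_hi {β : Ω} {a b c : Co Ω} (ha : a.hi β = c.hi β) (hb : b.hi β = c.hi β) :
    (Co.un a b).hi β = c.hi β := by
  refine Co.ext' fun x => ?_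
  have h1 : (a.hi β).f x = (c.hi β).f x := by rw [ha]
  have h2 : (b.hi β).f x = (c.hi β).f x := by rw [hb]
  rw [Co.hi_f, Co.hi_f] at h1 h2
  rw [Co.hi_f, Co.hi_f]
  by_cases hx : x < β
  · rw [if_pos hx, if_pos hx]
  · rw [if_neg hx, if_neg hx] at h1 h2 ⊢
    show (a.f x).orElse (fun _ => b.f x) = c.f x
    rw [h1, h2]
    cases c.f x <;> rfl

end EXA

theorem exA {Q : Type} [Preorder Q]
    (sig : ∀ (ι : Type) [Countable ι] [LinearOrder ι] [Nonempty ι] (q : ι → Q),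
      (∀ i j, i ≤ j → q j ≤ q i) → ∃ r, ∀ i, r ≤ q i)
    (D : Co Ω → Q → Prop) (mono : ∀ a a' q q', a' ≤ a → q' ≤ q → D a q → D a' q')
    (dns : ∀ a ≤ a0, a.hi α = a0.hi α → ∀ q, ∃ a' ≤ a, a'.hi α = a0.hi α ∧ ∃ q' ≤ q, D a' q')
    (q : Q) : ∃ q' ≤ q, ∃ W, PD α a0 W ∧ ∀ w ∈ W, D w q' := by
  have hunc : Uncountable Om1 := EXA.unc1
  obtain ⟨q', hq', W, hWc, hWD, hWp⟩ := exhaust (A := {a : Co Ω // a ≤ a0 ∧ a.hi α = a0.hi α})
    (Q := Q) (by
      intro f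
      obtain ⟨i, j, hij, hcp, -⟩ := ccc2 (fun i => (f i).1) fun i => (f i).1
      refine ⟨i, j, hij, ⟨Co.un (f i).1 (f j).1, (Co.un_le_left _ _).trans (f i).2.1,
        EXA.un_hi (f i).2.2 (f j).2.2⟩, ?_, ?_⟩
      · exact Co.un_le_left _ _
      · exact Co.un_le_right hcp) sig (fun a q => D a.1 q)
    (fun a a' q q' h1 h2 h3 => mono a.1 a'.1 q q' h1 h2 h3) (by
      intro a q
      obtain ⟨a', h1, h2, q', h3, h4⟩ := dns a.1 a.2.1 a.2.2 q
      exact ⟨⟨a', h1.trans a.2.1, h2⟩, h1, q', h3, h4⟩) q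
  refine ⟨q', hq', Subtype.val '' W, ⟨hWc.image _, ?_, ?_⟩, ?_⟩
  · rintro _ ⟨w, _, rfl⟩
    exact w.2
  · intro a ha hi
    obtain ⟨w, hw, c, h1, h2⟩ := hWp ⟨a, ha, hi⟩
    exact ⟨w.1, ⟨w, hw, rfl⟩, c.1, h1, h2, c.2.2⟩
  · rintro _ ⟨w, hw, rfl⟩
    exact hWD w hw

end

end Pool.Agent.T27

end

section

/-!
# Block UPX
-/

set_option linter.unusedSectionVars false

namespace Pool.Agent.T27

open Pool.Agent.Lib_helper27 Cardinal Cod

variable {Ω : Type} [LinearOrder Ω] [Cod Ω]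

theorem UPX_RCl_congr {m : Mt Ω} {e e' : Dt Ω} (h1 : LeT m e e') (h2 : LeT m e' e)
    (h : RCl m e) : RCl m e' := by
  refine Loc.imp h ?_
  rintro m' hm ⟨δ, hδ⟩
  refine ⟨δ, fun γ => ⟨fun hγ => (h2 m' hm γ ((hδ γ).1 hγ)).1, fun hγ m'' hm'' hH => ?_⟩⟩
  exact (hδ γ).2 hγ m'' hm'' (h1 m'' (hm''.trans hm) γ hH).1

theorem UPX_ro_mono {α : Ω} {a a' : Co Ω} {r r' : Tm Ω} (ha : a' ≤ a) (hr : Tm.Le a' r' r) :
    ro α a' r' ≤ ro α a r :=
  Mt.res_mono (⟨ha, hr⟩ : (⟨a', r'⟩ : Mt Ω) ≤ ⟨a, r⟩)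

theorem UPX_ro_eq {α : Ω} {a : Co Ω} {r r' : Tm Ω} (h : r.res α = r'.res α) :
    ro α a r = ro α a r' := by
  show (⟨a.res α, r.res α⟩ : Mt Ω) = ⟨a.res α, r'.res α⟩
  rw [h]

theorem UPX_glR_on {e : Dt Ω} {x y : Nm Ω} {k : K Ω} {ξ γ : Ω} (hξ : ξ < γ) (hH : e.H γ k.1) :
    glR e y x ξ k ↔ y ξ k := by
  constructor
  · intro h
    refine (y ξ).reg (Loc.imp h ?_)
    rintro k' hk' (h1 | h1)
    · exact h1.2
    · exact (h1.1 k'.1 le_rfl γ hξ ((e.H γ).mono hk'.1 hH)).elim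
  · intro h
    exact Loc.pure fun k' hk' => Or.inl ⟨⟨γ, hξ, (e.H γ).mono hk'.1 hH⟩, (y ξ).mono hk' h⟩

theorem UPX_glR_off {e : Dt Ω} {x y : Nm Ω} {k : K Ω} {ξ : Ω}
    (h : ∀ m' ≤ k.1, ∀ γ, ξ < γ → ¬ e.H γ m') : glR e y x ξ k ↔ x ξ k := by
  constructor
  · intro h'
    refine (x ξ).reg (Loc.imp h' ?_)
    rintro k' hk' (⟨⟨γ, hγ, hH⟩, _⟩ | h1)
    · exact (h k'.1 hk'.1 γ hγ hH).elim
    · exact h1.2
  · intro h'
    exact Loc.pure fun k' hk' => Or.inr ⟨fun m' hm' => h m' (hm'.trans hk'.1), (x ξ).mono hk' h'⟩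

/-- decide whether `ξ` is below the height -/
theorem UPX_dec (e : Dt Ω) (ξ : Ω) (k : K Ω) : ∃ k' ≤ k,
    (∃ γ, ξ < γ ∧ e.H γ k'.1) ∨ ∀ m' ≤ k'.1, ∀ γ, ξ < γ → ¬ e.H γ m' := by
  by_cases h : ∃ m' ≤ k.1, ∃ γ, ξ < γ ∧ e.H γ m'
  · obtain ⟨m', hm', γ, hγ, hH⟩ := h
    exact ⟨(m', k.2), ⟨hm', le_rfl⟩, Or.inl ⟨γ, hγ, hH⟩⟩
  · push Not at h
    exact ⟨k, le_rfl, Or.inr h⟩

section

variable [Inac Ω] {d : Ω → Dt Ω} {α : Ω} {a0 : Co Ω} {q0 : Tm Ω}
  {B : Ω → Om1 → Co Ω → Tm Ω → Prop}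

theorem SB.mono {a a' : Co Ω} {r r' : Tm Ω} (h : SB d α a r r') (ha : a' ≤ a) :
    SB d α a' r r' := by
  obtain ⟨h1, h2, h3, h4⟩ := h
  have hm : ro α a' r ≤ ro α a r := UPX_ro_mono ha (Tm.Le.refl _ _)
  exact ⟨h1, h2.mono hm, h3.mono hm, Loc.mono h4 hm⟩

theorem SB.trans {a : Co Ω} {r r' r'' : Tm Ω} (h : SB d α a r r') (h' : SB d α a r' r'') :
    SB d α a r r'' := by
  obtain ⟨h1, h2, h3, h4⟩ := h
  obtain ⟨h1', h2', h3', _⟩ := h'
  rw [← UPX_ro_eq h1] at h2' h3'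
  exact ⟨h1.trans h1', h2.trans h2', h3'.trans h3, h4⟩

theorem Off.mono {a a' : Co Ω} {E : RP (K Ω)} {r r' : Tm Ω} (h : Off d α a E r r')
    (ha : a' ≤ a) : Off d α a' E r r' :=
  fun k hk => h k (hk.trans (UPX_ro_mono ha (Tm.Le.refl _ _)))

theorem Off.sub {a : Co Ω} {E E' : RP (K Ω)} {r r' : Tm Ω} (h : Off d α a E r r')
    (hE : ∀ k, E k → E' k) : Off d α a E' r r' :=
  fun k hk hn => h k hk fun k' hk' hE' => hn k' hk' (hE k' hE')

theorem Off.symm {a : Co Ω} {E : RP (K Ω)} {r r' : Tm Ω} (h : Off d α a E r r')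
    (hs : SB d α a r r') : Off d α a E r' r := by
  obtain ⟨h1, h2, _, _⟩ := hs
  intro k hk hn γ hH
  rw [← UPX_ro_eq h1] at hk
  exact (h k hk hn γ (h2 k.1 hk γ hH).1).symm

/-- extend `r` to the part below `α` and the tree of `s` -/
theorem up (hg : Good d α) {a : Co Ω} {r s : Tm Ω} (hb : Tm.Le a (s.res α) (r.res α))
    (ht : LeT (ro α a s) (EE d α s) (EE d α r)) (hc : RCl (ro α a s) (EE d α r))
    (hs : RCl (ro α a s) (EE d α s)) : ∃ t, SB d α a t s ∧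
      (∀ a', Tm.Le a' (s.res α) (r.res α) → Tm.Le a' t r) ∧ GlX d α a t r s := by
  obtain ⟨β, hβ, hbs⟩ := EE_bd hg s
  obtain ⟨β', hβ', hbr⟩ := EE_bd hg r
  have hbs' : Bd α (EE d α s) := hbs.mono hβ.le
  have hbr' : Bd α (EE d α r) := hbr.mono hβ'.le
  have hro : ro α a s = (⟨a, s.res α⟩ : Mt Ω).res α := by
    show (⟨a.res α, s.res α⟩ : Mt Ω) = ⟨a.res α, (s.res α).res α⟩
    rw [Tm.res_res_of_le le_rfl]
  rw [hro] at ht hc
  have ht' := (LeT_res hbr' hbs').1 ht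
  have hc' := (RCl_res hbr').1 hc
  obtain ⟨t, h1, h2, h3, h4⟩ := liftB hg (a := a) (q := r) (u := s.res α)
    (Tm.res_res_of_le le_rfl) hb hc' hβ hbs hbs.x (EE_DV s _).toTV (EE_DV s _).br ht'
  obtain ⟨β'', hβ'', hbt⟩ := EE_bd hg t
  have hbt' : Bd α (EE d α t) := hbt.mono hβ''.le
  have hrt : ro α a t = (⟨a, s.res α⟩ : Mt Ω).res α := by
    rw [UPX_ro_eq (h1.trans (Tm.res_res_of_le le_rfl).symm)]
    show (⟨a.res α, (s.res α).res α⟩ : Mt Ω) = ⟨a.res α, (s.res α).res α⟩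
    rfl
  have e1 : LeT (⟨a, s.res α⟩ : Mt Ω) (EE d α t) (EE d α s) := h3.t
  have e2 : LeT (⟨a, s.res α⟩ : Mt Ω) (EE d α s) (EE d α t) := h4.t
  have e1' : LeT (ro α a t) (EE d α t) (EE d α s) := by
    rw [hrt]
    exact (LeT_res hbs' hbt').2 e1
  have e2' : LeT (ro α a t) (EE d α s) (EE d α t) := by
    rw [hrt]
    exact (LeT_res hbt' hbs').2 e2
  refine ⟨t, ⟨h1, e1', e2', ?_⟩, h2, ?_⟩
  · refine UPX_RCl_congr e2' e1' ?_
    rwa [hrt, ← hro]
  · show LeX (ro α a t) (EE d α t) (EE d α t).x (glR (EE d α r) (EE d α r).x (EE d α s).x)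
    rw [hrt]
    exact (LeX_res hbt' (glR_bd hbr' hbs'.x hbr'.x) hbt'.x).2 (LeX.symm h4.x)

theorem glx_self {a : Co Ω} {r s : Tm Ω} (h : Tm.Le a s r) : GlX d α a s r s := by
  have hle : LeD (ro α a s) (EE d α s) (EE d α r) :=
    EE_le1 (a := a.res α) (fun j hj η a' ha' => h.at hj ha') le_rfl
  intro m hm γ _ k hk ξ _
  refine RP.iff_of_loc fun k' hk' => ?_
  obtain ⟨k2, hk2, h2⟩ := UPX_dec (EE d α r) ξ k'
  have key : ∀ k3 ≤ k2, ((EE d α s).x ξ k3 ↔ glR (EE d α r) (EE d α r).x (EE d α s).x ξ k3) := by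
    intro k3 hk3
    rcases h2 with ⟨γ', hγ', hH⟩ | h2
    · have hH3 := ((EE d α r).H γ').mono hk3.1 hH
      rw [UPX_glR_on hγ' hH3]
      exact hle.x k3.1 (hk3.1.trans (hk2.1.trans (hk'.1.trans (hk.trans hm)))) γ' hH3 k3 le_rfl
        ξ hγ'
    · rw [UPX_glR_off fun m' hm' => h2 m' (hm'.trans hk3.1)]
  exact ⟨k2, hk2, key k2 le_rfl, key⟩

theorem off_up {a : Co Ω} {E : RP (K Ω)} {t1 t2 r1 r2 s1 s2 : Tm Ω} (h1 : GlX d α a t1 r1 s1)
    (h2 : GlX d α a t2 r2 s2) (hs1 : SB d α a t1 s1) (hs2 : SB d α a t2 s2)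
    (hs : SB d α a t1 t2) (hr : LeT (ro α a t1) (EE d α r1) (EE d α r2))
    (hr' : LeT (ro α a t1) (EE d α r2) (EE d α r1)) (hle : Tm.Le a t1 r1)
    (o1 : Off d α a E r1 r2) (o2 : Off d α a E s1 s2) : Off d α a E t1 t2 := by
  intro k hk hn γ hH
  have hk2 : k.1 ≤ ro α a t2 := by
    rw [← UPX_ro_eq hs.1]
    exact hk
  have hH2 : (EE d α t2).H γ k.1 := (hs.2.2.1 k.1 hk γ hH).1
  have g1 : EqB k γ (EE d α t1).x (glR (EE d α r1) (EE d α r1).x (EE d α s1).x) :=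
    (h1 k.1 hk γ hH).eqB le_rfl
  have g2 : EqB k γ (EE d α t2).x (glR (EE d α r2) (EE d α r2).x (EE d α s2).x) :=
    (h2 k.1 hk2 γ hH2).eqB le_rfl
  refine g1.trans (EqB.trans ?_ g2.symm)
  intro k' hk' ξ hξ
  refine RP.iff_of_loc fun l hl => ?_
  obtain ⟨l2, hl2, h3⟩ := UPX_dec (EE d α r1) ξ l
  have hlk : l2 ≤ k := hl2.trans (hl.trans hk')
  have key : ∀ l3 ≤ l2, (glR (EE d α r1) (EE d α r1).x (EE d α s1).x ξ l3 ↔
      glR (EE d α r2) (EE d α r2).x (EE d α s2).x ξ l3) := by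
    intro l3 hl3
    have hl3k : l3 ≤ k := hl3.trans hlk
    have hl3m : l3.1 ≤ ro α a t1 := hl3k.1.trans hk
    have hn3 : E.neg l3 := E.neg.mono hl3k hn
    rcases h3 with ⟨γ', hγ', hH'⟩ | h3
    · have hr1 := ((EE d α r1).H γ').mono hl3.1 hH'
      have hr2 := (hr' l3.1 hl3m γ' hr1).1
      rw [UPX_glR_on hγ' hr1, UPX_glR_on hγ' hr2]
      exact o1 l3 (hl3m.trans (UPX_ro_mono le_rfl hle)) hn3 γ' hr1 l3 le_rfl ξ hγ'
    · rw [UPX_glR_off fun m' hm' => h3 m' (hm'.trans hl3.1), UPX_glR_off fun m' hm' γ' hγ' hc =>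
        h3 m' (hm'.trans hl3.1) γ' hγ' (hr m' (hm'.trans hl3m) γ' hc).1]
      have hs1' : l3.1 ≤ ro α a s1 := by
        rw [← UPX_ro_eq hs1.1]
        exact hl3m
      have hHs : (EE d α s1).H γ l3.1 :=
        (hs1.2.2.1 l3.1 hl3m γ (((EE d α t1).H γ).mono hl3k.1 hH)).1
      exact o2 l3 hs1' hn3 γ hHs l3 le_rfl ξ hξ
  exact ⟨l2, hl2, key l2 le_rfl, key⟩

/-- decide a value and the height -/
theorem BS.tot' (h : BS d α a0 q0 B) {a : Co Ω} (ha : a ≤ a0) (hi : a.hi α = a0.hi α) {q : Tm Ω}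
    (hq : Tm.Le a q q0) {γ : Ω} (hγ : γ < α) : ∃ a' ≤ a, a'.hi α = a0.hi α ∧ ∃ q',
      Tm.Le a' q' q ∧ (∃ δ, Hts (ro α a' q') (EE d α q') δ) ∧ ∃ i, B γ i a' q' := by
  obtain ⟨a1, ha1, hi1, q1, hq1, i, hB⟩ := h.tot a ha hi q hq γ hγ
  obtain ⟨a2, ha2, hi2, q2, hq2, δ, _, hδ⟩ := tall h.good a1 q1 hγ
  exact ⟨a2, ha2.trans ha1, hi2.trans hi1, q2, hq2.trans (hq1.mono ha2), ⟨δ, hδ⟩, i,
    h.mono ha2 hq2 hB⟩

end


end Pool.Agent.T27

end

section

/-!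
# Block GDS
-/

set_option linter.unusedSectionVars false

namespace Pool.Agent.T27

open Pool.Agent.Lib_helper27 Cardinal Cod

variable {Ω : Type} [LinearOrder Ω] [Cod Ω]

section

variable [Inac Ω] {d : Ω → Dt Ω} {α : Ω} {a0 : Co Ω} {q0 : Tm Ω}
  {B : Ω → Om1 → Co Ω → Tm Ω → Prop}

theorem Gd.mono {E : RP (K Ω)} {a a' : Co Ω} {q q' : Tm Ω} (h : Gd d α a0 B E a q)
    (ha : a' ≤ a) (hq : Tm.Le a' q' q) : Gd d α a0 B E a' q' := fun a1 h1 h2 q1 h3 =>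
  h a1 (h1.trans ha) h2 q1 (h3.trans (hq.mono h1))

theorem gd_top (h : BS d α a0 q0 B) : Gd d α a0 B RP.top a0 q0 := by
  intro a1 h1 h2 q1 h3 hbad
  obtain ⟨a', h4, h5, r, r', h6, h7, h8, γ, h9, i, j, hij, h10, h11⟩ := h.split a1 h1 h2 q1 h3
  refine hij (hbad a' h4 h5 r r' h6 h7 h8 ?_ γ h9 i j h10 h11)
  intro k _ hk
  exact (hk k le_rfl trivial).elim

namespace GDS

theorem bad_mono {E : RP (K Ω)} {a a' : Co Ω} {q q' : Tm Ω} (h : Bad d α a0 B E a q)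
    (ha : a' ≤ a) (hq : Tm.Le a' q' q) : Bad d α a0 B E a' q' :=
  fun a1 h1 h2 r r' h3 h4 => h a1 (h1.trans ha) h2 r r' (h3.trans (hq.mono h1))
    (h4.trans (hq.mono h1))

theorem of_not_gd {E : RP (K Ω)} {a : Co Ω} {q : Tm Ω} (h : ¬ Gd d α a0 B E a q) :
    ∃ a1 ≤ a, a1.hi α = a0.hi α ∧ ∃ q1, Tm.Le a1 q1 q ∧ Bad d α a0 B E a1 q1 := by
  by_contra hcon
  refine h fun a1 h1 h2 q1 h3 h4 => hcon ⟨a1, h1, h2, q1, h3, h4⟩

theorem kres_le {β β' : Ω} (h : β ≤ β') (k : K Ω) : kres β' k ≤ kres β k := by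
  have h1 : kres β (kres β' k) = kres β k := by
    show ((k.1.res β').res β, k.2) = (k.1.res β, k.2)
    rw [Mt.res_res_of_le h]
  rw [← h1]
  exact le_kres

theorem ro_eq {a : Co Ω} {r r' : Tm Ω} (h : r.res α = r'.res α) : ro α a r = ro α a r' := by
  show (⟨a.res α, r.res α⟩ : Mt Ω) = ⟨a.res α, r'.res α⟩
  rw [h]

theorem ro_le {a a' : Co Ω} {r r' : Tm Ω} (ha : a' ≤ a) (h : Tm.Le a' (r'.res α) (r.res α)) :
    ro α a' r' ≤ ro α a r := ⟨Co.res_mono ha, h.res_a⟩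

theorem bdE (hg : Good d α) (q : Tm Ω) : Bd α (EE d α q) := by
  obtain ⟨β, hβ, h⟩ := EE_bd hg q
  exact h.mono hβ.le

end GDS

theorem gd_split (h : BS d α a0 q0 B) {E E0 E1 : RP (K Ω)} {β : Ω} (hβ : β < α)
    (hb : ∀ k, E0 k → E0 (kres β k)) (hE : ∀ k, E0.neg k → E1.neg k → E.neg k) {a : Co Ω}
    {q : Tm Ω} (ha : a ≤ a0) (hi : a.hi α = a0.hi α) (hq : Tm.Le a q q0)
    (hG : Gd d α a0 B E a q) : ∃ a' ≤ a, a'.hi α = a0.hi α ∧ ∃ q', Tm.Le a' q' q ∧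
      (Gd d α a0 B E0 a' q' ∨ Gd d α a0 B E1 a' q') := by
  by_contra hcon
  have hg := h.good
  -- both are bad
  obtain ⟨a1, ha1, hi1, q1, hq1, hB1⟩ : ∃ a1 ≤ a, a1.hi α = a0.hi α ∧ ∃ q1, Tm.Le a1 q1 q ∧
      Bad d α a0 B E0 a1 q1 :=
    GDS.of_not_gd fun h1 => hcon ⟨a, le_rfl, hi, q, Tm.Le.refl _ _, Or.inl h1⟩
  obtain ⟨a2, ha2, hi2, q2, hq2, hB2⟩ : ∃ a2 ≤ a1, a2.hi α = a0.hi α ∧ ∃ q2, Tm.Le a2 q2 q1 ∧
      Bad d α a0 B E1 a2 q2 :=
    GDS.of_not_gd fun h1 => hcon ⟨a1, ha1, hi1, q1, hq1, Or.inr h1⟩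
  have hB0 : Bad d α a0 B E0 a2 q2 := GDS.bad_mono hB1 ha2 hq2
  have hq2q : Tm.Le a2 q2 q := hq2.trans (hq1.mono ha2)
  have ha2a : a2 ≤ a := ha2.trans ha1
  -- a pair which is split
  obtain ⟨a3, ha3, hi3, r, r', hr, hr', hsb, hoff, γ, hγ, i, j, hij, hBi, hBj⟩ :
      ∃ a3 ≤ a2, a3.hi α = a0.hi α ∧ ∃ r r', Tm.Le a3 r q2 ∧ Tm.Le a3 r' q2 ∧
        SB d α a3 r r' ∧ Off d α a3 E r r' ∧ ∃ γ < α, ∃ i j, i ≠ j ∧ B γ i a3 r ∧
          B γ j a3 r' := by
    by_contra hno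
    refine hG a2 ha2a hi2 q2 hq2q ?_
    intro a3 h1 h2 r r' h3 h4 h5 h6 γ h7 i j h8 h9
    by_contra hij
    exact hno ⟨a3, h1, h2, r, r', h3, h4, h5, h6, γ, h7, i, j, hij, h8, h9⟩
  obtain ⟨hres, hT, hT', hC⟩ := hsb
  have hro : ro α a3 r = ro α a3 r' := GDS.ro_eq hres
  -- the mixed branch
  obtain ⟨β1, hβ1, hbd1⟩ := EE_bd hg r
  obtain ⟨β2, hβ2, hbd2⟩ := EE_bd hg r'
  set β' := max β (max β1 β2) with hβ'
  have hβ'α : β' < α := max_lt hβ (max_lt hβ1 hβ2)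
  have hle0 : β ≤ β' := le_max_left _ _
  have hle1 : β1 ≤ β' := (le_max_left _ _).trans (le_max_right _ _)
  have hle2 : β2 ≤ β' := (le_max_right _ _).trans (le_max_right _ _)
  have hE0 : ∀ k, E0 k → E0 (kres β' k) := fun k hk => E0.mono (GDS.kres_le hle0 k) (hb k hk)
  set x2 : Nm Ω := mixE E0 (EE d α r').x (EE d α r).x with hx2
  have hx2b : BdN β' x2 := mixE_bd hE0 (hbd2.mono hle2).x (hbd1.mono hle1).x
  have heb : Bd β' ((EE d α r).wx x2) := (hbd1.mono hle1).wx hx2b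
  have hmle : (⟨a3, r.res α⟩ : Mt Ω) ≤ ro α a3 r := ⟨Co.le_res _ _, Tm.Le.refl _ _⟩
  have hDV : DV (⟨a3, r.res α⟩ : Mt Ω) ((EE d α r).wx x2) := by
    refine ⟨?_, ?_⟩
    · have h1 := (EE_DV (d := d) (α := α) r ⟨a3, r.res α⟩).toTV
      exact ⟨h1.dn, h1.res, h1.rep, h1.flp⟩
    · have h1 : Brn (⟨a3, r.res α⟩ : Mt Ω) (EE d α r) (EE d α r).x := (EE_DV r _).br
      have h2 : Brn (⟨a3, r.res α⟩ : Mt Ω) (EE d α r) (EE d α r').x :=
        (hT'.mono hmle).brn (EE_DV r' _).br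
      exact mixE_brn (E := E0) h2 h1
  have hleD : LeD (⟨a3, r.res α⟩ : Mt Ω) ((EE d α r).wx x2) (EE d α q2) := by
    have h1 : LeD (⟨a3, r.res α⟩ : Mt Ω) (EE d α r) (EE d α q2) := EE_le hr le_rfl
    have h2 : LeD (⟨a3, r.res α⟩ : Mt Ω) (EE d α r') (EE d α q2) := EE_le hr' le_rfl
    refine ⟨h1.t, ?_⟩
    intro m' hm' γ' hH
    refine EqM.of_eqB fun k hk => ?_
    obtain ⟨k', hk', h3⟩ := E0.em k
    refine ⟨k', hk', ?_⟩
    rcases h3 with h3 | h3
    · exact (mixE_on h3 γ').trans ((h2.x m' hm' γ' hH).eqB (hk'.1.trans hk))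
    · exact (mixE_off h3 γ').trans ((h1.x m' hm' γ' hH).eqB (hk'.1.trans hk))
  obtain ⟨r2, hr2res, hr2le, hr2D, hr2D'⟩ := lift hg (a := a3) (q := q2) (u := r.res α)
    (Tm.res_res_of_le le_rfl) (Tm.res_mono hr) hβ'α heb hDV hleD
  have hr2q2 : Tm.Le a3 r2 q2 := hr2le a3 (Tm.res_mono hr)
  -- facts at `ro`
  have hmres : (⟨a3, r.res α⟩ : Mt Ω).res α = ro α a3 r := by
    show (⟨a3.res α, (r.res α).res α⟩ : Mt Ω) = ⟨a3.res α, r.res α⟩
    rw [Tm.res_res_of_le le_rfl]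
  have hebα : Bd α ((EE d α r).wx x2) := heb.mono hβ'α.le
  have hbr : Bd α (EE d α r) := GDS.bdE hg r
  have hbr2 : Bd α (EE d α r2) := GDS.bdE hg r2
  have hT2 : LeT (ro α a3 r) (EE d α r2) (EE d α r) := by
    have h1 : LeT (⟨a3, r.res α⟩ : Mt Ω) (EE d α r2) (EE d α r) := hr2D.t
    rw [← hmres]
    exact (LeT_res hbr hbr2).2 h1
  have hT2' : LeT (ro α a3 r) (EE d α r) (EE d α r2) := by
    have h1 : LeT (⟨a3, r.res α⟩ : Mt Ω) (EE d α r) (EE d α r2) := hr2D'.t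
    rw [← hmres]
    exact (LeT_res hbr2 hbr).2 h1
  have hX2 : LeX (ro α a3 r) (EE d α r) (EE d α r2).x x2 := by
    have h1 : LeX (⟨a3, r.res α⟩ : Mt Ω) (EE d α r) (EE d α r2).x x2 := hr2D.x
    rw [← hmres]
    exact (LeX_res hbr hebα.x hbr2.x).2 h1
  -- decide the value
  have hr2q0 : Tm.Le a3 r2 q0 := (hr2q2.trans (hq2q.mono ha3)).trans (hq.mono (ha3.trans ha2a))
  obtain ⟨a4, ha4, hi4, s, hs, ⟨δ, hδ⟩, i2, hBs⟩ := h.tot' (ha3.trans (ha2a.trans ha)) hi3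
    hr2q0 hγ
  have hsr : Tm.Le a4 (s.res α) (r.res α) := by
    rw [← hr2res]
    exact Tm.res_mono hs
  have hros : ro α a4 s ≤ ro α a3 r := GDS.ro_le ha4 hsr
  have hsT : LeT (ro α a4 s) (EE d α s) (EE d α r2) := by
    have h1 : LeT (⟨a4, s⟩ : Mt Ω) (EE d α s) (EE d α r2) := (EE_le hs le_rfl).t
    exact (LeT_res hbr2 (GDS.bdE hg s)).2 h1
  have hRs : RCl (ro α a4 s) (EE d α s) := Loc.pure fun m' hm' => ⟨δ, hδ.mono hm'⟩
  have hss : SB d α a4 s s := ⟨rfl, LeT.refl _ _, LeT.refl _ _, hRs⟩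
  have hC' : RCl (ro α a3 r) (EE d α r') := by
    have h1 := (SB.symm (d := d) (α := α) (a := a3) (r := r) (r' := r') ⟨hres, hT, hT', hC⟩).2.2.2
    rw [hro]
    exact h1
  -- the two companions
  obtain ⟨t, htS, htle, htG⟩ := up hg (a := a4) (r := r) (s := s) hsr
    (hsT.trans (hT2.mono hros)) (Loc.mono hC hros) hRs
  obtain ⟨t', htS', htle', htG'⟩ := up hg (a := a4) (r := r') (s := s) (by
      rw [← hres]
      exact hsr) ((hsT.trans (hT2.mono hros)).trans (hT.mono hros)) (Loc.mono hC' hros) hRs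
  have htr : Tm.Le a4 t r := htle a4 hsr
  have htr' : Tm.Le a4 t' r' := htle' a4 (by
    rw [← hres]
    exact hsr)
  have hrot : ro α a4 t ≤ ro α a3 r := by
    rw [GDS.ro_eq htS.1]
    exact hros
  have hrot' : ro α a4 t' ≤ ro α a3 r := by
    rw [GDS.ro_eq htS'.1]
    exact hros
  have hsq2 : Tm.Le a4 s q2 := hs.trans (hr2q2.mono ha4)
  -- `t` and `s` agree off `E0`
  have o0 : Off d α a4 E0 t s := by
    refine off_up htG (glx_self hs) htS hss htS (hT2'.mono hrot) (hT2.mono hrot) htr ?_ ?_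
    · intro k hk hneg γ' hH
      have hk' : k.1 ≤ ro α a3 r := hk.trans (GDS.ro_le ha4 (Tm.Le.refl _ _))
      exact ((hX2 k.1 hk' γ' hH).eqB le_rfl |>.trans (mixE_off hneg γ')).symm
    · intro k _ _ γ' _
      exact EqB.refl _ _ _
  have o1 : Off d α a4 E1 t' s := by
    refine off_up htG' (glx_self hs) htS' hss htS'
      ((hT'.trans hT2').mono hrot') ((hT2.trans hT).mono hrot') htr' ?_ ?_
    · intro k hk hneg γ' hH
      have hk' : k.1 ≤ ro α a3 r := by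
        rw [hro]
        exact hk.trans (GDS.ro_le ha4 (Tm.Le.refl _ _))
      have hHr : (EE d α r).H γ' k.1 := (hT k.1 hk' γ' hH).1
      have hx : EqB k γ' (EE d α r2).x x2 := (hX2 k.1 hk' γ' hHr).eqB le_rfl
      refine EqB.trans ?_ hx.symm
      refine EqB.dense fun k1 hk1 => ?_
      obtain ⟨k2, hk2, h3⟩ := E0.em k1
      refine ⟨k2, hk2, ?_⟩
      rcases h3 with h3 | h3
      · exact (mixE_on h3 γ').symm
      · have h4 : E.neg k2 := hE k2 h3 (E1.neg.mono (hk2.trans hk1) hneg)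
        have h5 : EqB k2 γ' (EE d α r).x (EE d α r').x :=
          hoff k2 ((hk2.trans hk1).1.trans hk') h4 γ'
            (((EE d α r).H γ').mono (hk2.trans hk1).1 hHr)
        exact ((mixE_off h3 γ').trans h5).symm
    · intro k _ _ γ' _
      exact EqB.refl _ _ _
  have e1 : i = i2 := hB0 a4 (ha4.trans ha3) hi4 t s (htr.trans (hr.mono ha4)) hsq2 htS o0 γ hγ
    i i2 (h.mono ha4 htr hBi) hBs
  have e2 : j = i2 := hB2 a4 (ha4.trans ha3) hi4 t' s (htr'.trans (hr'.mono ha4)) hsq2 htS' o1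
    γ hγ j i2 (h.mono ha4 htr' hBj) hBs
  exact hij (e1.trans e2.symm)

end

end Pool.Agent.T27

end

section

/-!
# Block ENS
-/

set_option linter.unusedSectionVars false

namespace Pool.Agent.T27

open Pool.Agent.Lib_helper27 Cardinal Cod

variable {Ω : Type} [LinearOrder Ω] [Cod Ω]

/-! ### Bits -/

/-- add a bit -/
def ENS_add (s : Cn) (n : ℕ) (b : Bool) (h : ∀ c, (n, c) ∉ s.1) : Cn :=
  ⟨insert (n, b) s.1, by
    intro m c c' h1 h2
    rcases Finset.mem_insert.1 h1 with h1 | h1 <;> rcases Finset.mem_insert.1 h2 with h2 | h2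
    · rw [Prod.mk.injEq] at h1 h2
      rw [h1.2, h2.2]
    · rw [Prod.mk.injEq] at h1
      rw [h1.1] at h2
      exact (h _ h2).elim
    · rw [Prod.mk.injEq] at h2
      rw [h2.1] at h1
      exact (h _ h1).elim
    · exact s.2 m c c' h1 h2⟩

theorem ENS_add_le {s : Cn} {n : ℕ} {b : Bool} (h : ∀ c, (n, c) ∉ s.1) :
    ENS_add s n b h ≤ s := Finset.subset_insert _ _

theorem ENS_mem_add {s : Cn} {n : ℕ} {b : Bool} (h : ∀ c, (n, c) ∉ s.1) :
    (n, b) ∈ (ENS_add s n b h).1 := Finset.mem_insert_self _ _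

/-- the `n`-th bit is `b` -/
def ENS_bit (n : ℕ) (b : Bool) : RP (K Ω) where
  s k := (n, b) ∈ k.2.1
  mono' := fun h hp => h.2 hp
  reg' := by
    intro k h
    by_contra hn
    by_cases h1 : ∃ c, (n, c) ∈ k.2.1
    · obtain ⟨c, hc⟩ := h1
      obtain ⟨k', hk', h2⟩ := h.exists
      have := k'.2.2 n b c h2 (hk'.2 hc)
      rw [this] at hn
      exact hn hc
    · push Not at h1
      obtain ⟨k', hk', h2⟩ := h (k.1, ENS_add k.2 n (!b) h1) ⟨le_rfl, ENS_add_le h1⟩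
      have := k'.2.2 n b (!b) h2 (hk'.2 (ENS_mem_add h1))
      cases b <;> simp at this

theorem ENS_bit_ne {n : ℕ} {k : K Ω} (h1 : ENS_bit n true k) (h2 : ENS_bit n false k) : False := by
  have := k.2.2 n true false h1 h2
  simp at this

/-- the `n`-th bit may be decided -/
theorem ENS_bit_dec (n : ℕ) (k : K Ω) : ∃ k' ≤ k, ENS_bit n true k' ∨ ENS_bit n false k' := by
  by_cases h1 : ∃ c, (n, c) ∈ k.2.1
  · obtain ⟨c, hc⟩ := h1
    refine ⟨k, le_rfl, ?_⟩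
    cases c
    · exact Or.inr hc
    · exact Or.inl hc
  · push Not at h1
    exact ⟨(k.1, ENS_add k.2 n true h1), ⟨le_rfl, ENS_add_le h1⟩, Or.inl (ENS_mem_add h1)⟩

/-! ### Predicates which depend only on the Cohen part -/

/-- a predicate of the Cohen part -/
def ENS_co (x : RP (Co Ω)) : RP (K Ω) where
  s k := x k.1.a
  mono' := fun h hp => x.mono h.1.1 hp
  reg' := by
    intro k h
    refine x.reg fun a ha => ?_
    obtain ⟨k', hk', h1⟩ := h (⟨a, k.1.q⟩, k.2) ⟨⟨ha, Tm.Le.refl _ _⟩, le_rfl⟩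
    exact ⟨k'.1.a, hk'.1.1, h1⟩

/-! ### Based predicates -/

theorem ENS_kres_le {β β' : Ω} (h : β ≤ β') (k : K Ω) : kres β' k ≤ kres β k := by
  have h1 : kres β (kres β' k) = kres β k := by
    show ((k.1.res β').res β, k.2) = (k.1.res β, k.2)
    rw [Mt.res_res_of_le h]
  rw [← h1]
  exact le_kres

theorem ENS_based_mono {x : RP (K Ω)} {β β' : Ω} (h : β ≤ β') (hx : ∀ k, x k → x (kres β k)) :
    ∀ k, x k → x (kres β' k) := fun k hk => x.mono (ENS_kres_le h k) (hx k hk)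

theorem ENS_based_iff {x : RP (K Ω)} {β : Ω} (hx : ∀ k, x k → x (kres β k)) (k : K Ω) :
    x k ↔ x (kres β k) := ⟨hx k, x.mono le_kres⟩

/-- gluing -/
theorem ENS_gl {β : Ω} {k l : K Ω} (h : l ≤ kres β k) :
    ((Mt.gl β l.1 k.1, l.2) : K Ω) ≤ k ∧ ((Mt.gl β l.1 k.1, l.2) : K Ω) ≤ kres β l := by
  refine ⟨⟨Mt.gl_le' ?_, h.2⟩, ⟨Mt.gl_le_left, le_rfl⟩⟩
  have := Mt.res_mono (α := β) h.1
  rwa [show (kres β k).1.res β = k.1.res β from Mt.res_res_of_le le_rfl] at this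

theorem ENS_rg_based {β : Ω} {Φ : K Ω → Prop} (hΦ : ∀ k, Φ k ↔ Φ (kres β k)) {k : K Ω}
    (h : Rg Φ k) : Rg Φ (kres β k) := by
  intro l hl
  obtain ⟨k2, hk2, h2⟩ := h (Mt.gl β l.1 k.1, l.2) (ENS_gl hl).1
  have h3 : k2 ≤ kres β l := hk2.trans (ENS_gl hl).2
  refine ⟨(Mt.gl β k2.1 l.1, k2.2), (ENS_gl h3).1, ?_⟩
  rw [hΦ]
  have h4 : kres β ((Mt.gl β k2.1 l.1, k2.2) : K Ω) = kres β k2 := by
    show ((Mt.gl β k2.1 l.1).res β, k2.2) = (k2.1.res β, k2.2)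
    rw [Mt.gl_res]
  rw [h4]
  exact (hΦ k2).1 h2

theorem ENS_neg_based {β : Ω} {x : RP (K Ω)} (hx : ∀ k, x k → x (kres β k)) :
    ∀ k, x.neg k → x.neg (kres β k) := by
  intro k hk l hl hxl
  exact hk _ (ENS_gl hl).1 (x.mono (ENS_gl hl).2 (hx l hxl))

section

variable [Inac Ω] {d : Ω → Dt Ω} {α : Ω} {a0 : Co Ω} {q0 : Tm Ω}
  {B : Ω → Om1 → Co Ω → Tm Ω → Prop}

/-- conditions which agree from `α` on and are compatible below `α` -/
theorem ENS_cp {a a' : Co Ω} (hi : a.hi α = a0.hi α) (hi' : a'.hi α = a0.hi α) {c : Co Ω}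
    (h : c ≤ a.res α) (h' : c ≤ a'.res α) : ∃ b, b ≤ a ∧ b ≤ a' ∧ b.hi α = a0.hi α := by
  refine ⟨Co.gl α c a0, ?_, ?_, Co.gl_hi⟩
  · conv_rhs => rw [← Co.gl_self (α := α) (a := a)]
    refine Co.gl_mono ?_ (by rw [hi])
    have := Co.res_mono (α := α) h
    rwa [Co.res_res_of_le le_rfl] at this
  · conv_rhs => rw [← Co.gl_self (α := α) (a := a')]
    refine Co.gl_mono ?_ (by rw [hi'])
    have := Co.res_mono (α := α) h'
    rwa [Co.res_res_of_le le_rfl] at this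

theorem ENS_bad {E E' : RP (K Ω)} {a c : Co Ω} {q : Tm Ω} (h : Bad d α a0 B E' a q) (hc : c ≤ a)
    (hE : ∀ k : K Ω, k.1.a ≤ c.res α → E'.neg k → E.neg k) : Bad d α a0 B E c q := by
  intro a' ha' hi r r' hr hr' hs ho
  refine h a' (ha'.trans hc) hi r r' hr hr' hs ?_
  intro k hk hn
  refine ho k hk (hE k ?_ hn)
  exact hk.1.trans (Co.res_mono ha')

/-- one step: the next bit -/
theorem exists_bit (h : BS d α a0 q0 B) {E : RP (K Ω)} {β : Ω} (hβ : β < α)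
    (hb : ∀ k, E k → E (kres β k)) {q : Tm Ω} (hq : Tm.Le a0 q q0) (hG : Gd d α a0 B E a0 q)
    (n : ℕ) : ∃ (E' : RP (K Ω)) (q' : Tm Ω), Tm.Le Co.emp q' q ∧ Gd d α a0 B E' a0 q' ∧
      (∀ k, E' k → E k) ∧ (∃ β' < α, ∀ k, E' k → E' (kres β' k)) ∧
      ∀ k : K Ω, (∀ b, (n, b) ∉ k.2.1) → ∃ k' ≤ k, E'.neg k' := by
  classical
  set E0 : RP (K Ω) := E.and (ENS_bit n true) with hE0
  set E1 : RP (K Ω) := E.and (ENS_bit n false) with hE1
  have hb0 : ∀ k, E0 k → E0 (kres β k) := fun k hk => ⟨hb k hk.1, hk.2⟩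
  have hb1 : ∀ k, E1 k → E1 (kres β k) := fun k hk => ⟨hb k hk.1, hk.2⟩
  have hE : ∀ k, E0.neg k → E1.neg k → E.neg k := by
    intro k h0 h1 k' hk' hEk
    obtain ⟨k'', hk'', h2⟩ := ENS_bit_dec n k'
    rcases h2 with h2 | h2
    · exact h0 k'' (hk''.trans hk') ⟨E.mono hk'' hEk, h2⟩
    · exact h1 k'' (hk''.trans hk') ⟨E.mono hk'' hEk, h2⟩
  -- the poset of terms below `q`
  let Q := {t : Tm Ω // Tm.Le Co.emp t q}
  let _ : Preorder Q :=
    { le := fun t t' => Tm.Le Co.emp t.1 t'.1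
      le_refl := fun t => Tm.Le.refl _ _
      le_trans := fun _ _ _ h1 h2 => Tm.Le.trans h1 h2 }
  have sig : ∀ (ι : Type) [Countable ι] [LinearOrder ι] [Nonempty ι] (t : ι → Q),
      (∀ i j, i ≤ j → t j ≤ t i) → ∃ r, ∀ i, r ≤ t i := by
    intro ι _ _ _ t ht
    have ht' : ∀ i j, i ≤ j → Tm.Le Co.emp (t j).1 (t i).1 := ht
    obtain ⟨j⟩ := ‹Nonempty ι›
    exact ⟨⟨Tm.lim (fun i => (t i).1) ht', (Tm.lim_le _ ht' j).trans (t j).2⟩,
      fun i => Tm.lim_le _ ht' i⟩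
  obtain ⟨⟨t, ht⟩, _, W, hW, hD⟩ := exA (α := α) (a0 := a0) sig
    (fun a t => Gd d α a0 B E0 a t.1 ∨ Gd d α a0 B E1 a t.1)
    (by
      rintro a a' t t' ha ht' (h1 | h1)
      · exact Or.inl (h1.mono ha (Tm.Le.of_emp ht'))
      · exact Or.inr (h1.mono ha (Tm.Le.of_emp ht')))
    (by
      intro a ha hi t
      obtain ⟨a', ha', hi', r, hr, hG'⟩ := gd_split h hβ hb0 hE ha hi
        ((t.2.of_emp (a := a)).trans (hq.mono ha)) (hG.mono ha t.2.of_emp)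
      refine ⟨a', ha', hi', ⟨Tm.mix a' r t.1, (Tm.mix_le hr).trans t.2⟩, Tm.mix_le hr, ?_⟩
      rcases hG' with hG' | hG'
      · exact Or.inl (hG'.mono le_rfl (Tm.mix_eq1 hr))
      · exact Or.inr (hG'.mono le_rfl (Tm.mix_eq1 hr)))
    ⟨q, Tm.Le.refl _ _⟩
  have ht2 : Tm.Le Co.emp t q := ht
  have hD' : ∀ w ∈ W, Gd d α a0 B E0 w t ∨ Gd d α a0 B E1 w t := hD
  clear hD
  -- the part on which `E0` is taken
  set bC : RP (Co Ω) := Rg fun a => ∃ w ∈ W, Gd d α a0 B E0 w t ∧ a ≤ w.res α with hbC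
  set bK : RP (K Ω) := ENS_co bC with hbK
  set E' : RP (K Ω) := Rg fun k => (bK k ∧ E0 k) ∨ (bK.neg k ∧ E1 k) with hE'
  have on : ∀ k, bK k → E'.neg k → E0.neg k := by
    intro k hk hn k' hk' h0
    exact hn k' hk' (Loc.pure fun l hl => Or.inl ⟨bK.mono (hl.trans hk') hk, E0.mono hl h0⟩)
  have off : ∀ k, bK.neg k → E'.neg k → E1.neg k := by
    intro k hk hn k' hk' h0
    exact hn k' hk' (Loc.pure fun l hl => Or.inr ⟨bK.neg.mono (hl.trans hk') hk, E1.mono hl h0⟩)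
  refine ⟨E', t, ht2, ?_, ?_, ?_, ?_⟩
  · -- goodness
    intro a1 ha1 hi1 q1 hq1 hbad
    by_cases hA : ∃ w ∈ W, Gd d α a0 B E0 w t ∧ ∃ c, c ≤ a1 ∧ c ≤ w ∧ c.hi α = a0.hi α
    · obtain ⟨w, hw, hGw, c, hc1, hcw, hci⟩ := hA
      refine hGw c hcw hci q1 (hq1.mono hc1) (ENS_bad hbad hc1 fun k hk hn => on k ?_ hn)
      exact Loc.pure fun b hb' => ⟨w, hw, hGw, (hb'.trans hk).trans (Co.res_mono hcw)⟩
    · obtain ⟨w, hw, c, hc1, hcw, hci⟩ := hW.pre a1 ha1 hi1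
      have hGw : Gd d α a0 B E1 w t := (hD' w hw).resolve_left fun h0 =>
        hA ⟨w, hw, h0, c, hc1, hcw, hci⟩
      refine hGw c hcw hci q1 (hq1.mono hc1) (ENS_bad hbad hc1 fun k hk hn => off k ?_ hn)
      intro k' hk' hbk
      obtain ⟨b, hb', w', hw', hGw', hbw⟩ := (show Loc k'.1.a _ from hbk).exists
      apply hA
      refine ⟨w', hw', hGw', ENS_cp hi1 (hW.le w' hw').2 (c := b) ?_ hbw⟩
      exact ((hb'.trans hk'.1.1).trans hk).trans (Co.res_mono hc1)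
  · -- it is below `E`
    intro k hk
    refine E.reg (Loc.imp hk ?_)
    rintro k' _ (⟨_, h1⟩ | ⟨_, h1⟩)
    · exact h1.1
    · exact h1.1
  · -- it is based
    have hne : ∃ γ, γ < α := ⟨β, hβ⟩
    have h1 : ∀ w : Co Ω, ∃ γ < α, w.res α = w.res γ := fun w =>
      Co.exists_res_eq h.good.act hne w
    choose g hg hg' using h1
    obtain ⟨γ, hγ, hγ'⟩ : ∃ γ < α, ∀ w ∈ W, g w < γ := by
      rcases W.eq_empty_or_nonempty with hW0 | hW0
      · exact ⟨β, hβ, fun w hw => by rw [hW0] at hw; exact hw.elim⟩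
      · obtain ⟨f, hf⟩ := hW.cnt.exists_eq_range hW0
        obtain ⟨γ, hγ, h2⟩ := h.good.act (fun i => g (f i)) fun i => hg _
        refine ⟨γ, hγ, fun w hw => ?_⟩
        rw [hf] at hw
        obtain ⟨i, rfl⟩ := hw
        exact h2 i
    refine ⟨max β γ, max_lt hβ hγ, ?_⟩
    set δ := max β γ with hδ
    have hbKb : ∀ k, bK k → bK (kres δ k) := by
      intro k hk
      show bC (k.1.a.res δ)
      refine Rg_based (fun a => ?_) (show Rg _ k.1.a from hk)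
      refine exists_congr fun w => and_congr_right fun hw => and_congr_right fun _ => ?_
      rw [hg' w]
      have hle : g w ≤ δ := (hγ' w hw).le.trans (le_max_right _ _)
      constructor
      · intro h2
        have := Co.res_mono (α := δ) h2
        rwa [Co.res_res_of_le' hle] at this
      · intro h2
        exact (Co.le_res δ a).trans h2
    have hb0' := ENS_based_iff (ENS_based_mono (le_max_left β γ) hb0)
    have hb1' := ENS_based_iff (ENS_based_mono (le_max_left β γ) hb1)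
    have hk1 := ENS_based_iff hbKb
    have hk2 := ENS_based_iff (ENS_neg_based hbKb)
    intro k hk
    refine ENS_rg_based (fun l => ?_) (show Rg _ k from hk)
    rw [← hb0' l, ← hb1' l, ← hk1 l, ← hk2 l]
  · -- the bit
    intro k hk
    obtain ⟨a1, ha1, h1⟩ := bC.em k.1.a
    rcases h1 with h1 | h1
    · refine ⟨(⟨a1, k.1.q⟩, ENS_add k.2 n false hk), ⟨⟨ha1, Tm.Le.refl _ _⟩, ENS_add_le hk⟩, ?_⟩
      intro k' hk' hE2
      obtain ⟨l, hl, h2⟩ := (show Loc k' _ from hE2).exists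
      rcases h2 with ⟨_, h2⟩ | ⟨h2, _⟩
      · exact ENS_bit_ne h2.2 ((ENS_bit n false).mono (hl.trans hk') (ENS_mem_add hk))
      · exact h2 l le_rfl (bC.mono (hl.trans hk').1.1 h1)
    · refine ⟨(⟨a1, k.1.q⟩, ENS_add k.2 n true hk), ⟨⟨ha1, Tm.Le.refl _ _⟩, ENS_add_le hk⟩, ?_⟩
      intro k' hk' hE2
      obtain ⟨l, hl, h2⟩ := (show Loc k' _ from hE2).exists
      rcases h2 with ⟨h2, _⟩ | ⟨_, h2⟩
      · exact h1 l.1.a (hl.trans hk').1.1 h2
      · exact ENS_bit_ne ((ENS_bit n true).mono (hl.trans hk') (ENS_mem_add hk)) h2.2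

theorem exists_en (h : BS d α a0 q0 B) : ∃ (e : ℕ → RP (K Ω)) (q : Tm Ω), Tm.Le a0 q q0 ∧
    (∀ n, Gd d α a0 B (e n) a0 q) ∧ (∀ n k, e (n + 1) k → e n k) ∧
      ∀ k, ∃ k' ≤ k, ∃ n, (e n).neg k' := by
  classical
  let S := {p : RP (K Ω) × Tm Ω // Tm.Le a0 p.2 q0 ∧ Gd d α a0 B p.1 a0 p.2 ∧
    ∃ β < α, ∀ k, p.1 k → p.1 (kres β k)}
  have step : ∀ (n : ℕ) (p : S), ∃ p' : S, Tm.Le Co.emp p'.1.2 p.1.2 ∧
      (∀ k, p'.1.1 k → p.1.1 k) ∧
        ∀ k : K Ω, (∀ b, (n, b) ∉ k.2.1) → ∃ k' ≤ k, p'.1.1.neg k' := by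
    rintro n ⟨⟨E, q⟩, h1, h2, β, hβ, h3⟩
    obtain ⟨E', q', g1, g2, g3, g4, g5⟩ := exists_bit h hβ h3 h1 h2 n
    exact ⟨⟨(E', q'), (g1.of_emp (a := a0)).trans h1, g2, g4⟩, g1, g3, g5⟩
  choose nx hx1 hx2 hx3 using step
  let p0 : S := ⟨(RP.top, q0), Tm.Le.refl _ _, gd_top h, b0, h.good.ne, fun _ _ => trivial⟩
  let sq : ℕ → S := fun n => Nat.rec p0 (fun n p => nx n p) n
  have hs : ∀ n, sq (n + 1) = nx n (sq n) := fun n => rfl
  have hle : ∀ n, Tm.Le Co.emp (sq (n + 1)).1.2 (sq n).1.2 := fun n => by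
    rw [hs]
    exact hx1 n (sq n)
  have hch : ∀ i j, i ≤ j → Tm.Le Co.emp (sq j).1.2 (sq i).1.2 := by
    intro i j hij
    induction j, hij using Nat.le_induction with
    | base => exact Tm.Le.refl _ _
    | succ k _ ih => exact (hle k).trans ih
  refine ⟨fun n => (sq n).1.1, Tm.lim (fun n => (sq n).1.2) hch, ?_, ?_, ?_, ?_⟩
  · exact (Tm.lim_le (fun n => (sq n).1.2) hch 0).of_emp
  · intro n
    exact (sq n).2.2.1.mono le_rfl (Tm.lim_le (fun n => (sq n).1.2) hch n).of_emp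
  · intro n k hk
    have : (nx n (sq n)).1.1 k := hk
    exact hx2 n (sq n) k this
  · intro k
    obtain ⟨n, hn⟩ : ∃ n : ℕ, ∀ b, (n, b) ∉ k.2.1 := by
      obtain ⟨n, hn⟩ := Infinite.exists_notMem_finset (k.2.1.image Prod.fst)
      exact ⟨n, fun b hb => hn (Finset.mem_image.2 ⟨(n, b), hb, rfl⟩)⟩
    obtain ⟨k', hk', h1⟩ := hx3 n (sq n) k hn
    exact ⟨k', hk', n + 1, h1⟩

end


end Pool.Agent.T27

end

section

/-!
# Block TUP (helper37): families of terms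
-/

set_option linter.unusedSectionVars false

namespace Pool.Agent.T27

open Pool.Agent.Lib_helper27 Cardinal Cod

variable {Ω : Type} [LinearOrder Ω] [Cod Ω]

theorem tup_Hts {m : Mt Ω} {e e' : Dt Ω} {δ : Ω} (h1 : LeT m e e') (h2 : LeT m e' e)
    (h : Hts m e δ) : Hts m e' δ := by
  intro γ
  refine ⟨fun hγ => (h2 m le_rfl γ ((h γ).1 hγ)).1, fun hγ m' hm' hH => ?_⟩
  exact (h γ).2 hγ m' hm' (h1 m' hm' γ hH).1

theorem tup_ofBits (n : ℕ) (f : ℕ → Bool) : ∃ k : ℕ, ∀ j < n, k.testBit j = f j :=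
  ⟨Nat.ofBits (fun i : Fin n => f i), fun j hj => Nat.testBit_ofBits_lt _ j hj⟩

/-- localization of a mixture -/
theorem tup_loc {d : Ω → Dt Ω} {α : Ω} {a0 a : Co Ω} {q r : (ℕ → Bool) → Tm Ω} (_ha : a ≤ a0)
    (hq : ∀ f g, (q f).res α = (q g).res α) (hr : ∀ f g, (r f).res α = (r g).res α)
    (hle : ∀ f, Tm.Le a (r f) (q f)) {f : ℕ → Bool} {m : Mt Ω}
    (hm : m ≤ ro α a0 (Tm.mix a (r f) (q f))) :
    ∃ c ≤ m.a, ∃ (b : Co Ω) (s : (ℕ → Bool) → Tm Ω), ((b = a ∧ s = r) ∨ (b = a0 ∧ s = q)) ∧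
      ∀ g, (⟨c, m.q⟩ : Mt Ω) ≤ ro α b (s g) ∧
        LeD (⟨c, m.q⟩ : Mt Ω) (EE d α (Tm.mix a (r g) (q g))) (EE d α (s g)) ∧
        LeD (⟨c, m.q⟩ : Mt Ω) (EE d α (s g)) (EE d α (Tm.mix a (r g) (q g))) := by
  obtain ⟨c, hc, h1⟩ := Co.on_off (a.res α) m.a
  have hmq : Tm.Le c m.q ((Tm.mix a (r f) (q f)).res α) := hm.2.mono hc
  have hma : m.a ≤ a0.res α := hm.1
  have hres : ∀ g, (Tm.mix a (r f) (q f)).res α = (Tm.mix a (r g) (q g)).res α := by
    intro g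
    rw [Tm.mix_res, Tm.mix_res, hr f g, hq f g]
  rcases h1 with h1 | h1
  · refine ⟨c, hc, a, r, Or.inl ⟨rfl, rfl⟩, fun g => ⟨⟨h1, ?_⟩, ?_, ?_⟩⟩
    · have h2 : Tm.Le a ((Tm.mix a (r g) (q g)).res α) ((r g).res α) :=
        Tm.res_mono (Tm.mix_eq1 (hle g))
      have h3 : Tm.Le (a.res α) ((Tm.mix a (r g) (q g)).res α) ((r g).res α) := h2.res_a
      rw [hres g] at hmq
      exact hmq.trans (h3.mono h1)
    · exact EE_congr (a := c) (fun j ξ a' ha' => Tm.mix_on (ha'.trans h1)) le_rfl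
    · exact EE_congr (a := c) (fun j ξ a' ha' => (Tm.mix_on (ha'.trans h1)).symm) le_rfl
  · refine ⟨c, hc, a0, q, Or.inr ⟨rfl, rfl⟩, fun g => ⟨⟨hc.trans hma, ?_⟩, ?_, ?_⟩⟩
    · have h2 : Tm.Le Co.emp ((Tm.mix a (r g) (q g)).res α) ((q g).res α) :=
        Tm.res_mono (Tm.mix_le (hle g))
      rw [hres g] at hmq
      exact hmq.trans h2.of_emp
    · exact EE_congr (a := c) (fun j ξ a' ha' => Tm.mix_off fun h2 => h1 (h2.mono ha' le_rfl)) le_rfl
    · exact EE_congr (a := c)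
        (fun j ξ a' ha' => (Tm.mix_off fun h2 => h1 (h2.mono ha' le_rfl)).symm) le_rfl

section

variable [Inac Ω] {d : Ω → Dt Ω} {α : Ω} {a0 : Co Ω} {q0 : Tm Ω}
  {B : Ω → Om1 → Co Ω → Tm Ω → Prop}

variable {e : ℕ → RP (K Ω)} {qr : Tm Ω} {n : ℕ}

/-! ### TUP -/

theorem TA.mono {a a' : Co Ω} {q : (ℕ → Bool) → Tm Ω} (h : TA d α e qr n a q) (ha : a' ≤ a) :
    TA d α e qr n a' q :=
  ⟨h.dep, fun f => (h.root f).mono ha, fun f g => (h.sb f g).mono ha,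
    fun f g m hm => (h.off f g m hm).mono ha⟩

theorem TA.succ {a : Co Ω} {q : (ℕ → Bool) → Tm Ω} (h : TA d α e qr n a q) :
    TA d α e qr (n + 1) a q :=
  ⟨fun f g hfg => h.dep f g fun j hj => hfg j (Nat.lt_succ_of_lt hj), h.root, h.sb, h.off⟩

/-- mixing families -/
theorem TA.mix {a : Co Ω} {q r : (ℕ → Bool) → Tm Ω} (h : TA d α e qr n a0 q) (ha : a ≤ a0)
    (hi : a.hi α = a0.hi α) (hr : TA d α e qr n a r) (hle : ∀ f, Tm.Le a (r f) (q f)) :
    TA d α e qr n a0 fun f => Tm.mix a (r f) (q f) := by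
  have hqres : ∀ f g, (q f).res α = (q g).res α := fun f g => (h.sb f g).1
  have hrres : ∀ f g, (r f).res α = (r g).res α := fun f g => (hr.sb f g).1
  have hres : ∀ f g, (Tm.mix a (r f) (q f)).res α = (Tm.mix a (r g) (q g)).res α := by
    intro f g
    rw [Tm.mix_res, Tm.mix_res, hrres f g, hqres f g]
  -- a property which holds for both families holds for the mixture
  have loc : ∀ (f : ℕ → Bool) (m : Mt Ω), m ≤ ro α a0 (Tm.mix a (r f) (q f)) →
      ∃ c ≤ m.a, ∃ (b : Co Ω) (s : (ℕ → Bool) → Tm Ω), TA d α e qr n b s ∧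
      ∀ g, (⟨c, m.q⟩ : Mt Ω) ≤ ro α b (s g) ∧
        LeD (⟨c, m.q⟩ : Mt Ω) (EE d α (Tm.mix a (r g) (q g))) (EE d α (s g)) ∧
        LeD (⟨c, m.q⟩ : Mt Ω) (EE d α (s g)) (EE d α (Tm.mix a (r g) (q g))) := by
    intro f m hm
    obtain ⟨c, hc, b, s, hbs, hg⟩ := tup_loc (d := d) ha hqres hrres hle hm
    refine ⟨c, hc, b, s, ?_, hg⟩
    rcases hbs with ⟨rfl, rfl⟩ | ⟨rfl, rfl⟩
    · exact hr
    · exact h
  have hT : ∀ f g, LeT (ro α a0 (Tm.mix a (r f) (q f))) (EE d α (Tm.mix a (r f) (q f)))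
      (EE d α (Tm.mix a (r g) (q g))) := by
    intro f g
    refine LeT.dense fun m hm => ?_
    obtain ⟨c, hc, b, s, hs, hg⟩ := loc f m hm
    refine ⟨⟨c, m.q⟩, Mt.mk_le' hc, ?_⟩
    exact ((hg f).2.1.t.trans ((hs.sb f g).2.1.mono (hg f).1)).trans (hg g).2.2.t
  refine ⟨?_, ?_, ?_, ?_⟩
  · intro f g hfg
    show Tm.mix a (r f) (q f) = Tm.mix a (r g) (q g)
    rw [h.dep f g hfg, hr.dep f g hfg]
  · intro f
    exact (Tm.mix_le (hle f)).of_emp.trans (h.root f)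
  · intro f g
    refine ⟨hres f g, hT f g, ?_, ?_⟩
    · have h1 := hT g f
      have h2 : ro α a0 (Tm.mix a (r g) (q g)) = ro α a0 (Tm.mix a (r f) (q f)) := by
        show (⟨a0.res α, (Tm.mix a (r g) (q g)).res α⟩ : Mt Ω) =
          ⟨a0.res α, (Tm.mix a (r f) (q f)).res α⟩
        rw [hres g f]
      rwa [h2] at h1
    · show Loc _ _
      intro m hm
      obtain ⟨c, hc, b, s, hs, hg⟩ := loc f m hm
      have h1 : RCl (ro α b (s f)) (EE d α (s f)) := (hs.sb f g).2.2.2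
      obtain ⟨m', hm', δ, hδ⟩ := h1 _ (hg f).1
      refine ⟨m', hm'.trans (Mt.mk_le' hc), δ, ?_⟩
      exact tup_Hts ((hg f).2.2.t.mono hm') ((hg f).2.1.t.mono hm') hδ
  · intro f g m hfg
    show Off d α a0 (e m) (Tm.mix a (r f) (q f)) (Tm.mix a (r g) (q g))
    intro k hk hE γ hH
    refine EqB.dense fun k' hk' => ?_
    obtain ⟨c, hc, b, s, hs, hg⟩ := loc f k'.1 (hk'.1.trans hk)
    have hkk : ((⟨c, k'.1.q⟩, k'.2) : K Ω) ≤ k' := ⟨Mt.mk_le' hc, le_rfl⟩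
    refine ⟨(⟨c, k'.1.q⟩, k'.2), hkk, ?_⟩
    have hHm : (EE d α (Tm.mix a (r f) (q f))).H γ (⟨c, k'.1.q⟩ : Mt Ω) :=
      ((EE d α (Tm.mix a (r f) (q f))).H γ).mono (hkk.1.trans hk'.1) hH
    have hHs : (EE d α (s f)).H γ (⟨c, k'.1.q⟩ : Mt Ω) := ((hg f).2.2.t _ le_rfl γ hHm).1
    have hHg : (EE d α (s g)).H γ (⟨c, k'.1.q⟩ : Mt Ω) :=
      ((hs.sb f g).2.2.1 _ (hg f).1 γ hHs).1
    have e1 : EqM (⟨c, k'.1.q⟩ : Mt Ω) γ (EE d α (Tm.mix a (r f) (q f))).x (EE d α (s f)).x :=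
      (hg f).2.1.x _ le_rfl γ hHs
    have e2 : EqM (⟨c, k'.1.q⟩ : Mt Ω) γ (EE d α (Tm.mix a (r g) (q g))).x (EE d α (s g)).x :=
      (hg g).2.1.x _ le_rfl γ hHg
    have e3 : EqB ((⟨c, k'.1.q⟩, k'.2) : K Ω) γ (EE d α (s f)).x (EE d α (s g)).x :=
      hs.off f g m hfg _ (hg f).1 ((e m).neg.mono (hkk.trans hk') hE) γ hHs
    exact ((e1.eqB le_rfl).trans e3).trans (e2.eqB le_rfl).symm

/-- a family which is not closed is closed -/
theorem ta_close (hg : Good d α) {q : (ℕ → Bool) → Tm Ω}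
    (dep : ∀ f g : ℕ → Bool, (∀ j < n, f j = g j) → q f = q g)
    (root : ∀ f, Tm.Le a0 (q f) qr)
    (base : ∀ f g, (q f).res α = (q g).res α)
    (tree : ∀ f g, LeT (ro α a0 (q f)) (EE d α (q f)) (EE d α (q g)))
    (off : ∀ (f g : ℕ → Bool) (m : ℕ), (∀ j < m, f j = g j) → Off d α a0 (e m) (q f) (q g)) :
    ∃ q', TA d α e qr n a0 q' ∧ ∀ f, Tm.Le Co.emp (q' f) (q f) := by
  have hro : ∀ f g, ro α a0 (q f) = ro α a0 (q g) := by
    intro f g
    show (⟨a0.res α, (q f).res α⟩ : Mt Ω) = ⟨a0.res α, (q g).res α⟩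
    rw [base f g]
  -- the branches
  set b : ℕ → Nm Ω := fun k => (EE d α (q fun j => k.testBit j)).x with hb
  have hbd : ∀ f, ∃ β < α, Bd β (EE d α (q f)) := fun f => EE_bd hg (q f)
  choose bd hbdα hbdB using hbd
  obtain ⟨β, hβ, hβb⟩ := hg.act (fun k => bd fun j => k.testBit j) fun k => hbdα _
  have hbb : ∀ k, BdN β (b k) := fun k => (hbdB _).x.mono (hβb k).le
  have hbr : ∀ f k, Brn (ro α a0 (q f)) (EE d α (q f)) (b k) := by
    intro f k
    have h1 : LeT (ro α a0 (q f)) (EE d α (q fun j => k.testBit j)) (EE d α (q f)) := by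
      have := tree (fun j => k.testBit j) f
      rwa [hro (fun j => k.testBit j) f] at this
    exact h1.brn (EE_DV _ _).br
  have hcl : ∀ f, ∃ q', q'.res α = (q f).res α ∧ Tm.Le Co.emp q' (q f) ∧
      RCl (ro α a0 (q f)) (EE d α q') ∧
      LeD (ro α a0 (q f)) (EE d α q') (cap (EE d α (q f)) b) ∧
      LeD (ro α a0 (q f)) (cap (EE d α (q f)) b) (EE d α q') := by
    intro f
    refine close hg (a := a0.res α) (q := q f) hβ hbb (hbr f) ?_
    intro k _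
    obtain ⟨N, hN⟩ := tup_ofBits n f
    refine ⟨k, le_rfl, N, fun γ _ _ => ?_⟩
    have h1 : q f = q fun j => N.testBit j := dep _ _ fun j hj => (hN j hj).symm
    show EqB k γ (EE d α (q f)).x (EE d α (q fun j => N.testBit j)).x
    rw [← h1]
    exact EqB.refl _ _ _
  choose G hG1 hG2 hG3 hG4 hG5 using hcl
  -- the canonical representative
  set cf : (ℕ → Bool) → ℕ → Bool := fun f j => if j < n then f j else false with hcf
  have hcfq : ∀ f, q (cf f) = q f := fun f => dep _ _ fun j hj => if_pos hj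
  have hcfe : ∀ f g : ℕ → Bool, (∀ j < n, f j = g j) → cf f = cf g := by
    intro f g hfg
    funext j
    simp only [hcf]
    split_ifs with hj
    · exact hfg j hj
    · rfl
  -- the tree of the closed terms
  have hcc : ∀ f g, LeT (ro α a0 (q f)) (cap (EE d α (q f)) b) (cap (EE d α (q g)) b) := by
    intro f g
    refine cap_congr (tree f g) ?_ b
    have := tree g f
    rwa [hro g f] at this
  have hres : ∀ f, (G (cf f)).res α = (q f).res α := by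
    intro f
    rw [hG1, hcfq]
  have hroG : ∀ f, ro α a0 (G (cf f)) = ro α a0 (q f) := by
    intro f
    show (⟨a0.res α, (G (cf f)).res α⟩ : Mt Ω) = ⟨a0.res α, (q f).res α⟩
    rw [hres]
  have hroc : ∀ f, ro α a0 (q (cf f)) = ro α a0 (q f) := fun f => hro _ _
  have g4 : ∀ f, LeD (ro α a0 (q f)) (EE d α (G (cf f))) (cap (EE d α (q f)) b) := by
    intro f
    have := hG4 (cf f)
    rwa [hcfq] at this
  have g5 : ∀ f, LeD (ro α a0 (q f)) (cap (EE d α (q f)) b) (EE d α (G (cf f))) := by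
    intro f
    have := hG5 (cf f)
    rwa [hcfq] at this
  have hT : ∀ f g, LeT (ro α a0 (q f)) (EE d α (G (cf f))) (EE d α (G (cf g))) := by
    intro f g
    have h3 := (g5 g).t
    rw [hro g f] at h3
    exact ((g4 f).t.trans (hcc f g)).trans h3
  refine ⟨fun f => G (cf f), ⟨?_, ?_, ?_, ?_⟩, ?_⟩
  · intro f g hfg
    show G (cf f) = G (cf g)
    rw [hcfe f g hfg]
  · intro f
    have h1 : Tm.Le a0 (G (cf f)) (q (cf f)) := (hG2 (cf f)).of_emp
    rw [hcfq] at h1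
    exact h1.trans (root f)
  · intro f g
    refine ⟨?_, ?_, ?_, ?_⟩
    · show (G (cf f)).res α = (G (cf g)).res α
      rw [hres, hres, base f g]
    · show LeT (ro α a0 (G (cf f))) _ _
      rw [hroG]
      exact hT f g
    · show LeT (ro α a0 (G (cf f))) _ _
      rw [hroG, hro f g]
      exact hT g f
    · show RCl (ro α a0 (G (cf f))) _
      rw [hroG, ← hroc f]
      exact hG3 (cf f)
  · intro f g m hfg
    show Off d α a0 (e m) (G (cf f)) (G (cf g))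
    intro k hk hE γ hH
    rw [hroG] at hk
    -- the height
    have hHc : (cap (EE d α (q f)) b).H γ k.1 := ((g5 f).t k.1 hk γ hH).1
    have hHc' : (cap (EE d α (q g)) b).H γ k.1 := by
      have h1 := hcc g f
      rw [hro g f] at h1
      exact (h1 k.1 hk γ hHc).1
    have e1 : EqM k.1 γ (EE d α (G (cf f))).x (EE d α (q f)).x := (g4 f).x k.1 hk γ hHc
    have e2 : EqM k.1 γ (EE d α (G (cf g))).x (EE d α (q g)).x :=
      (g4 g).x k.1 (by rw [← hro f g]; exact hk) γ hHc'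
    have e3 : EqB k γ (EE d α (q f)).x (EE d α (q g)).x := by
      refine EqB.dense fun k' hk' => ?_
      obtain ⟨m', hm', hor⟩ := hHc k'.1 hk'.1
      have hkk : ((m', k'.2) : K Ω) ≤ k' := ⟨hm', le_rfl⟩
      refine ⟨(m', k'.2), hkk, ?_⟩
      have hk1 : m' ≤ ro α a0 (q f) := hm'.trans (hk'.1.trans hk)
      have hE' : (e m).neg ((m', k'.2) : K Ω) := (e m).neg.mono (hkk.trans hk') hE
      rcases hor with h1 | ⟨hL, h1⟩
      · exact off f g m hfg _ hk1 hE' γ h1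
      · intro k'' hk'' ξ hξ
        obtain ⟨γ', h2, h3⟩ := hL ξ hξ
        exact off f g m hfg _ hk1 hE' γ' (h1 γ' h3) k'' hk'' ξ h2
    exact ((e1.eqB le_rfl).trans e3).trans (e2.eqB le_rfl).symm
  · intro f
    have h1 := hG2 (cf f)
    rw [hcfq] at h1
    exact h1

end

end Pool.Agent.T27

end

section

/-!
# Block TLM: limits of chains of families
-/

set_option linter.unusedSectionVars false

namespace Pool.Agent.T27

open Pool.Agent.Lib_helper27 Cardinal Cod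

variable {Ω : Type} [LinearOrder Ω] [Cod Ω]

section

variable [Inac Ω] {d : Ω → Dt Ω} {α : Ω} {a0 : Co Ω} {q0 : Tm Ω}
  {B : Ω → Om1 → Co Ω → Tm Ω → Prop}

variable {e : ℕ → RP (K Ω)} {qr : Tm Ω} {n : ℕ}

namespace TLM

theorem ww_q (α : Ω) (q : Tm Ω) : WW (fun j ξ (m : Mt Ω) => q.v α j ξ m.a) where
  mono := by
    intro j ξ m m' h h1
    exact (q.v α j ξ).mono h.1 h1
  uni := by
    intro j ξ ξ' m h1 h2
    exact q.uni h1 h2

theorem tlm_ro_mono {a : Co Ω} {r q : Tm Ω} (h : Tm.Le Co.emp r q) : ro α a r ≤ ro α a q :=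
  Mt.res_mono (Mt.mk_le h.of_emp)

theorem lim_congr {ι : Type} [Countable ι] [LinearOrder ι] [Nonempty ι] {q r : ι → Tm Ω}
    (hq : ∀ i j, i ≤ j → Tm.Le Co.emp (q j) (q i)) (hr : ∀ i j, i ≤ j → Tm.Le Co.emp (r j) (r i))
    (h : ∀ i, q i = r i) : Tm.lim q hq = Tm.lim r hr := by
  have : q = r := funext h
  subst this
  rfl

/-- a level of the tree coded by the limit belongs to the tree coded by a member, densely -/
theorem H_lim {ι : Type} [Countable ι] [LinearOrder ι] [Nonempty ι] {q : ι → Tm Ω}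
    (hq : ∀ i j, i ≤ j → Tm.Le Co.emp (q j) (q i)) {γ : Ω} {m : Mt Ω}
    (h : (EE d α (Tm.lim q hq)).H γ m) : Loc m fun m' => ∃ l, (EE d α (q l)).H γ m' := by
  refine Loc.imp (Dc_H h) ?_
  rintro m' _ ⟨j, ξ, h1, h2⟩
  have h3 : (Tm.lim q hq).v α j ξ m'.a := (acc_iff.1 h1).1
  obtain ⟨l, h4⟩ := (Tm.lim_v q hq).1 h3
  have h5 : j < (q l).len α := (q l).out h4
  have h6 := (acc_congr (d := d) (ww_q α (Tm.lim q hq)) (ww_q α (q l)) (i := (q l).len α)
    (m := m') (fun j hj ξ m'' _ =>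
      ((Tm.lim_le q hq l) α).2 j hj ξ m''.a (Co.le_emp _)) j h5 ξ m' le_rfl).1 h1
  exact ⟨l, ((Dc_le (ww_q α (q l)) h6).t m' le_rfl γ h2).1⟩

end TLM

open TLM

theorem ta_lim (hg : Good d α) {ι : Type} [Countable ι] [LinearOrder ι] [Nonempty ι]
    (q : ι → (ℕ → Bool) → Tm Ω) (h : ∀ i, TA d α e qr n a0 (q i))
    (hle : ∀ i j, i ≤ j → ∀ f, Tm.Le Co.emp (q j f) (q i f)) :
    ∃ q', TA d α e qr n a0 q' ∧ ∀ i f, Tm.Le Co.emp (q' f) (q i f) := by
  have hc : ∀ f, ∀ i j, i ≤ j → Tm.Le Co.emp (q j f) (q i f) := fun f i j hij => hle i j hij f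
  have hl : ∀ i f, Tm.Le Co.emp (Tm.lim (fun i => q i f) (hc f)) (q i f) := fun i f =>
    Tm.lim_le (fun i => q i f) (hc f) i
  obtain ⟨i0⟩ : Nonempty ι := inferInstance
  have hE : ∀ i f (m : Mt Ω), LeD m (EE d α (Tm.lim (fun i => q i f) (hc f))) (EE d α (q i f)) :=
    fun i f m => EE_le (hl i f) (Co.le_emp _)
  have key := ta_close (e := e) (qr := qr) (n := n) (a0 := a0) hg
    (q := fun f => Tm.lim (fun i => q i f) (hc f))
    (fun f g hfg => lim_congr (hc f) (hc g) fun i => (h i).dep f g hfg)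
    (fun f => (hl i0 f).of_emp.trans ((h i0).root f))
    (fun f g => Tm.lim_res (fun i => q i f) (hc f) (fun i => q i g) (hc g) fun i =>
      ((h i).sb f g).1)
    (fun f g => EE_glbT (fun i => q i g) fun i ξ m' hm' hv => by
      obtain ⟨l, h4⟩ := (Tm.lim_v (fun i => q i g) (hc g)).1 hv
      refine ⟨m', le_rfl, l, (q l g).out h4, fun j hj η a' _ =>
        ((hl l g) α).2 j hj η a' (Co.le_emp _), ?_⟩
      refine ((hE l f m').t).trans (((h l).sb f g).2.1.mono ?_)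
      exact hm'.trans (tlm_ro_mono (hl l f)))
    (fun f g m hfg k hk hneg γ hH => by
      refine EqB.dense ?_
      intro k1 hk1
      obtain ⟨m', hm', l, hl'⟩ := H_lim (hc f) hH k1.1 hk1.1
      have h1 : m' ≤ ro α a0 (q l f) := (hm'.trans (hk1.1.trans hk)).trans (tlm_ro_mono (hl l f))
      have hk' : (m', k1.2) ≤ k1 := ⟨hm', le_rfl⟩
      have hg' : (EE d α (q l g)).H γ m' := (((h l).sb f g).2.2.1 m' h1 γ hl').1
      refine ⟨(m', k1.2), hk', ?_⟩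
      have e1 : EqB (m', k1.2) γ (EE d α (Tm.lim (fun i => q i f) (hc f))).x
          (EE d α (q l f)).x := ((hE l f m').x m' le_rfl γ hl').eqB le_rfl
      have e2 : EqB (m', k1.2) γ (EE d α (q l f)).x (EE d α (q l g)).x :=
        (h l).off f g m hfg (m', k1.2) h1 ((e m).neg.mono (hk'.trans hk1) hneg) γ hl'
      have e3 : EqB (m', k1.2) γ (EE d α (Tm.lim (fun i => q i g) (hc g))).x
          (EE d α (q l g)).x := ((hE l g m').x m' le_rfl γ hg').eqB le_rfl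
      exact (e1.trans e2).trans e3.symm)
  obtain ⟨q', hq', hle'⟩ := key
  exact ⟨q', hq', fun i f => (hle' f).trans (hl i f)⟩

end

end Pool.Agent.T27

end

section

/-!
# Block ONE: one step of the fusion
-/

set_option linter.unusedSectionVars false

namespace Pool.Agent.T27

open Pool.Agent.Lib_helper27 Cardinal Cod

variable {Ω : Type} [LinearOrder Ω] [Cod Ω]

section

variable [Inac Ω] {d : Ω → Dt Ω} {α : Ω} {a0 : Co Ω} {q0 : Tm Ω}
  {B : Ω → Om1 → Co Ω → Tm Ω → Prop} {e : ℕ → RP (K Ω)} {qr : Tm Ω} {n : ℕ}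

namespace ONE

theorem ee_leR {a : Co Ω} {q' q : Tm Ω} (h : Tm.Le a q' q) {m : Mt Ω} (hm : m.a ≤ a.res α) :
    LeD m (EE d α q') (EE d α q) :=
  EE_le1 (a := a.res α) (fun _ hj _ _ ha' => h.at hj ha') hm

theorem ro_mono {a a' : Co Ω} {r q : Tm Ω} (ha : a' ≤ a) (h : Tm.Le a' r q) :
    ro α a' r ≤ ro α a q :=
  Mt.res_mono (⟨ha, h⟩ : (⟨a', r⟩ : Mt Ω) ≤ ⟨a, q⟩)

theorem ro_eq {a : Co Ω} {r q : Tm Ω} (h : r.res α = q.res α) : ro α a r = ro α a q := by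
  show (⟨a.res α, r.res α⟩ : Mt Ω) = ⟨a.res α, q.res α⟩
  rw [h]

theorem rcl_mono {m m' : Mt Ω} {t : Dt Ω} (h : RCl m t) (hm : m' ≤ m) : RCl m' t :=
  Loc.mono h hm

theorem sb_refl {a : Co Ω} {r : Tm Ω} (h : RCl (ro α a r) (EE d α r)) : SB d α a r r :=
  ⟨rfl, LeT.refl _ _, LeT.refl _ _, h⟩

theorem sb_refl' {a : Co Ω} {r r' : Tm Ω} (h : SB d α a r r') : SB d α a r r :=
  sb_refl h.2.2.2

theorem off_refl {a : Co Ω} {E : RP (K Ω)} {r : Tm Ω} : Off d α a E r r :=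
  fun _ _ _ _ _ => EqB.refl _ _ _

theorem off_trans {a : Co Ω} {E : RP (K Ω)} {r r' r'' : Tm Ω} (h : Off d α a E r r')
    (hs : SB d α a r r') (h' : Off d α a E r' r'') : Off d α a E r r'' := by
  intro k hk hE γ hH
  refine (h k hk hE γ hH).trans (h' k ?_ hE γ ?_)
  · rw [← ro_eq (a := a) hs.1]
    exact hk
  · exact (hs.2.2.1 k.1 hk γ hH).1

theorem pre_up (hg : Good d α) {a a2 : Co Ω} {w p' p : Tm Ω} (ha : a2 ≤ a)
    (h : SB d α a p' p) (hw : Tm.Le a2 w p') (hcw : RCl (ro α a2 w) (EE d α w)) :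
    ∃ t, SB d α a2 t w ∧ Tm.Le a2 t p ∧ GlX d α a2 t p w := by
  have hro : ro α a2 w ≤ ro α a p' := ro_mono ha hw
  have hb : Tm.Le a2 (w.res α) (p.res α) := by
    have := Tm.res_mono (α := α) hw
    rwa [h.1] at this
  have ht : LeT (ro α a2 w) (EE d α w) (EE d α p) :=
    (ee_leR (m := ro α a2 w) hw le_rfl).t.trans (h.2.1.mono hro)
  have hc : RCl (ro α a2 w) (EE d α p) := by
    refine rcl_mono h.symm.2.2.2 ?_
    rw [← ro_eq (a := a) h.1]
    exact hro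
  obtain ⟨t, h1, h2, h3⟩ := up hg hb ht hc hcw
  exact ⟨t, h1, h2 a2 hb, h3⟩

theorem off_up' {a : Co Ω} {E : RP (K Ω)} {t1 t2 r1 r2 s1 s2 : Tm Ω} {a' : Co Ω} (ha : a' ≤ a)
    (h1 : GlX d α a' t1 r1 s1) (h2 : GlX d α a' t2 r2 s2) (hs1 : SB d α a' t1 s1)
    (hs2 : SB d α a' t2 s2) (hs : SB d α a' s1 s2) (hr : SB d α a r1 r2)
    (hle : Tm.Le a' t1 r1) (o1 : Off d α a E r1 r2) (o2 : Off d α a' E s1 s2) :
    Off d α a' E t1 t2 := by
  have hro : ro α a' t1 ≤ ro α a r1 := ro_mono ha hle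
  refine off_up h1 h2 hs1 hs2 ((hs1.trans hs).trans hs2.symm) (hr.2.1.mono hro)
    (hr.2.2.1.mono hro) hle (o1.mono ha) o2

theorem e_mono (he : ∀ n k, e (n + 1) k → e n k) {m n : ℕ} (h : m ≤ n) : ∀ k, e n k → e m k := by
  induction n, h using Nat.le_induction with
  | base => exact fun _ h => h
  | succ j _ ih => exact fun k hk => ih k (he j k hk)

end ONE

open ONE in
theorem one_step (h : BS d α a0 q0 B) (hr : Tm.Le a0 qr q0) (hG : Gd d α a0 B (e n) a0 qr)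
    (he : ∀ n k, e (n + 1) k → e n k) {a : Co Ω} {q : (ℕ → Bool) → Tm Ω} (ha : a ≤ a0)
    (hi : a.hi α = a0.hi α) (hq : TA d α e qr n a q) (f g : ℕ → Bool)
    (hfg : ∃ m < n, f m ≠ g m) : ∃ a' ≤ a, a'.hi α = a0.hi α ∧ ∃ r, TA d α e qr n a' r ∧
      (∀ f, Tm.Le a' (r f) (q f)) ∧
        ∃ γ < α, ∃ i j, i ≠ j ∧ B γ i a' (r f) ∧ B γ j a' (r g) := by
  classical
  have hg : Good d α := h.good
  -- the first difference
  obtain ⟨m0, hm0, hne, hmin⟩ : ∃ m0 < n, f m0 ≠ g m0 ∧ ∀ j < m0, f j = g j := by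
    have hex : ∃ m, f m ≠ g m := ⟨_, hfg.choose_spec.2⟩
    refine ⟨Nat.find hex, ?_, Nat.find_spec hex, fun j hj => ?_⟩
    · exact lt_of_le_of_lt (Nat.find_min' hex hfg.choose_spec.2) hfg.choose_spec.1
    · exact not_not.1 (Nat.find_min hex hj)
  -- the splitting
  have hnb := hG a ha hi (q f) (hq.root f)
  unfold Bad at hnb
  push Not at hnb
  obtain ⟨a1, ha1, hi1, r0, r1, hr0, hr1, hs01, hoff, γ, hγ, i0, i1, hB0, hB1, hi01⟩ := hnb
  have hfgSB : SB d α a (q f) (q g) := hq.sb f g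
  -- the term at `g`
  obtain ⟨tg, hsg, htg, hxg⟩ := pre_up hg ha1 hfgSB hr0 hs01.2.2.2
  have htg0 : Tm.Le a1 tg q0 :=
    (htg.trans ((hq.root g).mono ha1)).trans (hr.mono (ha1.trans ha))
  obtain ⟨a2, ha2, hi2, s, hstg, ⟨δ, hδ⟩, j, hBj⟩ := h.tot' (ha1.trans ha) hi1 htg0 hγ
  have hcs : RCl (ro α a2 s) (EE d α s) := Loc.pure fun m' hm' => ⟨δ, hδ.mono hm'⟩
  -- the choice
  obtain ⟨rk, ik, hrk, hs0k, hoffk, hBk, hij⟩ : ∃ rk ik, Tm.Le a1 rk (q f) ∧ SB d α a1 r0 rk ∧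
      Off d α a1 (e n) r0 rk ∧ B γ ik a1 rk ∧ ik ≠ j := by
    by_cases hj : i0 = j
    · exact ⟨r1, i1, hr1, hs01, hoff, hB1, fun h' => hi01 (hj.trans h'.symm)⟩
    · exact ⟨r0, i0, hr0, sb_refl' hs01, off_refl, hB0, hj⟩
  have hsgk : SB d α a1 tg rk := hsg.trans hs0k
  obtain ⟨tf, hsf, htf, hxf⟩ := pre_up hg ha2 hsgk hstg hcs
  have htff : Tm.Le a2 tf (q f) := htf.trans (hrk.mono ha2)
  have hsqg : Tm.Le a2 s (q g) := hstg.trans (htg.mono ha2)
  have ha20 : a2 ≤ a := ha2.trans ha1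
  -- the branches of `tf` and `s`
  have hOff : ∀ m ≤ m0, Off d α a2 (e m) tf s := by
    intro m hm
    have o1 : Off d α a1 (e m) tg r0 := by
      refine off_up' (a := a) ha1 hxg (glx_self hr0) hsg (sb_refl' hs01) (sb_refl' hs01)
        hfgSB.symm htg ?_ off_refl
      exact hq.off g f m fun j hj => (hmin j (hj.trans_le hm)).symm
    have o2 : Off d α a1 (e m) r0 rk := hoffk.sub (e_mono he (hm.trans hm0.le))
    have o3 : Off d α a1 (e m) rk tg := (off_trans o1 hsg o2).symm hsgk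
    exact off_up' (a := a1) ha2 hxf (glx_self hstg) hsf (sb_refl hcs) (sb_refl hcs) hsgk.symm htf
      o3 off_refl
  have hsff : SB d α a2 tf tf := sb_refl' hsf
  -- the other terms
  let w : (ℕ → Bool) → Tm Ω := fun x => if ∀ j ≤ m0, x j = g j then s else tf
  have hT : ∀ x, ∃ t, SB d α a2 t (w x) ∧ Tm.Le a2 t (q x) ∧ GlX d α a2 t (q x) (w x) := by
    intro x
    by_cases hx : ∀ j ≤ m0, x j = g j
    · have hw : w x = s := if_pos hx
      rw [hw]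
      exact pre_up hg ha20 (hq.sb g x) hsqg hcs
    · have hw : w x = tf := if_neg hx
      rw [hw]
      exact pre_up hg ha20 (hq.sb f x) htff hsff.2.2.2
  have hT' : ∃ T : Tm Ω → Tm Ω → Tm Ω, ∀ x, SB d α a2 (T (q x) (w x)) (w x) ∧
      Tm.Le a2 (T (q x) (w x)) (q x) ∧ GlX d α a2 (T (q x) (w x)) (q x) (w x) := by
    refine ⟨fun p v => if hp : ∃ t, SB d α a2 t v ∧ Tm.Le a2 t p ∧ GlX d α a2 t p v then
      hp.choose else p, fun x => ?_⟩
    simp only [dif_pos (hT x)]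
    exact (hT x).choose_spec
  obtain ⟨T, hT⟩ := hT'
  let r : (ℕ → Bool) → Tm Ω := fun x => if ∀ j < n, x j = f j then tf else
    if ∀ j < n, x j = g j then s else T (q x) (w x)
  have hrf : r f = tf := if_pos fun _ _ => rfl
  have hgf : ¬ ∀ j < n, g j = f j := fun h' => hne (h' m0 hm0).symm
  have hrg : r g = s := by
    show (if ∀ j < n, g j = f j then tf else if ∀ j < n, g j = g j then s else T (q g) (w g)) = s
    rw [if_neg hgf, if_pos fun _ _ => rfl]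
  have key : ∀ x, SB d α a2 (r x) (w x) ∧ Tm.Le a2 (r x) (q x) ∧
      GlX d α a2 (r x) (q x) (w x) := by
    intro x
    by_cases hx : ∀ j < n, x j = f j
    · have h1 : r x = tf := if_pos hx
      have h2 : w x = tf := if_neg fun h' => hne ((hx m0 hm0).symm.trans (h' m0 le_rfl))
      have h3 : q x = q f := hq.dep x f hx
      rw [h1, h2, h3]
      exact ⟨hsff, htff, glx_self htff⟩
    · by_cases hx' : ∀ j < n, x j = g j
      · have h1 : r x = s := by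
          show (if ∀ j < n, x j = f j then tf else
            if ∀ j < n, x j = g j then s else T (q x) (w x)) = s
          rw [if_neg hx, if_pos hx']
        have h2 : w x = s := if_pos fun j hj => hx' j (hj.trans_lt hm0)
        have h3 : q x = q g := hq.dep x g hx'
        rw [h1, h2, h3]
        exact ⟨sb_refl hcs, hsqg, glx_self hsqg⟩
      · have h1 : r x = T (q x) (w x) := by
          show (if ∀ j < n, x j = f j then tf else
            if ∀ j < n, x j = g j then s else T (q x) (w x)) = _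
          rw [if_neg hx, if_neg hx']
        rw [h1]
        exact hT x
  have hww : ∀ x y, SB d α a2 (w x) (w y) := by
    intro x y
    by_cases hx : ∀ j ≤ m0, x j = g j <;> by_cases hy : ∀ j ≤ m0, y j = g j
    · rw [show w x = s from if_pos hx, show w y = s from if_pos hy]
      exact sb_refl hcs
    · rw [show w x = s from if_pos hx, show w y = tf from if_neg hy]
      exact hsf.symm
    · rw [show w x = tf from if_neg hx, show w y = s from if_pos hy]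
      exact hsf
    · rw [show w x = tf from if_neg hx, show w y = tf from if_neg hy]
      exact hsff
  refine ⟨a2, ha20, hi2, r, ⟨?_, ?_, ?_, ?_⟩, fun x => (key x).2.1, γ, hγ, ik, j, hij, ?_, ?_⟩
  · intro x y hxy
    have h1 : q x = q y := hq.dep x y hxy
    have h2 : w x = w y := by
      have : (∀ j ≤ m0, x j = g j) ↔ ∀ j ≤ m0, y j = g j :=
        forall₂_congr fun j hj => by rw [hxy j (hj.trans_lt hm0)]
      show (if ∀ j ≤ m0, x j = g j then s else tf) = if ∀ j ≤ m0, y j = g j then s else tf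
      simp only [this]
    have h3 : (∀ j < n, x j = f j) ↔ ∀ j < n, y j = f j :=
      forall₂_congr fun j hj => by rw [hxy j hj]
    have h4 : (∀ j < n, x j = g j) ↔ ∀ j < n, y j = g j :=
      forall₂_congr fun j hj => by rw [hxy j hj]
    show (if ∀ j < n, x j = f j then tf else
      if ∀ j < n, x j = g j then s else T (q x) (w x)) = (if ∀ j < n, y j = f j then tf else
      if ∀ j < n, y j = g j then s else T (q y) (w y))
    simp only [h1, h2, h3, h4]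
  · intro x
    exact (key x).2.1.trans ((hq.root x).mono ha20)
  · intro x y
    exact ((key x).1.trans (hww x y)).trans (key y).1.symm
  · intro x y m hxy
    refine off_up' (a := a) ha20 (key x).2.2 (key y).2.2 (key x).1 (key y).1 (hww x y)
      (hq.sb x y) (key x).2.1 (hq.off x y m hxy) ?_
    by_cases hx : ∀ j ≤ m0, x j = g j <;> by_cases hy : ∀ j ≤ m0, y j = g j
    · rw [show w x = s from if_pos hx, show w y = s from if_pos hy]
      exact off_refl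
    · rw [show w x = s from if_pos hx, show w y = tf from if_neg hy]
      have hm : m ≤ m0 := by
        by_contra hcon
        exact hy fun j hj => (hxy j (hj.trans_lt (not_le.1 hcon))).symm.trans (hx j hj)
      exact (hOff m hm).symm hsf
    · rw [show w x = tf from if_neg hx, show w y = s from if_pos hy]
      have hm : m ≤ m0 := by
        by_contra hcon
        exact hx fun j hj => (hxy j (hj.trans_lt (not_le.1 hcon))).trans (hy j hj)
      exact hOff m hm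
    · rw [show w x = tf from if_neg hx, show w y = tf from if_neg hy]
      exact off_refl
  · rw [hrf]
    exact h.mono ha2 htf hBk
  · rw [hrg]
    exact hBj

end

end Pool.Agent.T27

end

section

/-!
# Block STG: the fusion sequence
-/

set_option linter.unusedSectionVars false

namespace Pool.Agent.T27

open Pool.Agent.Lib_helper27 Cardinal Cod

variable {Ω : Type} [LinearOrder Ω] [Cod Ω]

section

variable [Inac Ω] {d : Ω → Dt Ω} {α : Ω} {a0 : Co Ω} {q0 : Tm Ω}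
  {B : Ω → Om1 → Co Ω → Tm Ω → Prop} {e : ℕ → RP (K Ω)} {qr : Tm Ω} {n : ℕ}

namespace STG

/-- extend a finite sequence by zeros -/
def xt (n : ℕ) (x : Fin n → Bool) : ℕ → Bool := fun j => if h : j < n then x ⟨j, h⟩ else false

/-- the restriction -/
def rs (n : ℕ) (f : ℕ → Bool) : Fin n → Bool := fun j => f j

theorem xt_rs (n : ℕ) (f : ℕ → Bool) : ∀ j < n, f j = xt n (rs n f) j := by
  intro j hj
  unfold xt rs
  rw [dif_pos hj]

theorem xt_ne {n : ℕ} {x y : Fin n → Bool} (h : x ≠ y) : ∃ m < n, xt n x m ≠ xt n y m := by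
  obtain ⟨i, hi⟩ := Function.ne_iff.1 h
  refine ⟨i, i.2, ?_⟩
  unfold xt
  rw [dif_pos i.2, dif_pos i.2]
  exact hi

theorem pairs (h : BS d α a0 q0 B) (hr : Tm.Le a0 qr q0) (hG : Gd d α a0 B (e n) a0 qr)
    (he : ∀ n k, e (n + 1) k → e n k) {a : Co Ω} {q : (ℕ → Bool) → Tm Ω} (ha : a ≤ a0)
    (hi : a.hi α = a0.hi α) (hq : TA d α e qr n a q) (S : Finset ((Fin n → Bool) × (Fin n → Bool))) :
    ∃ a' ≤ a, a'.hi α = a0.hi α ∧ ∃ r, TA d α e qr n a' r ∧ (∀ f, Tm.Le a' (r f) (q f)) ∧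
      ∀ p ∈ S, p.1 ≠ p.2 → ∃ γ < α, ∃ i j, i ≠ j ∧ B γ i a' (r (xt n p.1)) ∧
        B γ j a' (r (xt n p.2)) := by
  classical
  induction S using Finset.induction_on with
  | empty => exact ⟨a, le_rfl, hi, q, hq, fun f => Tm.Le.refl _ _, by simp⟩
  | insert p S _ ih =>
    obtain ⟨a1, ha1, hi1, r1, ht1, hle1, hS⟩ := ih
    by_cases hp : p.1 = p.2
    · refine ⟨a1, ha1, hi1, r1, ht1, hle1, ?_⟩
      intro x hx hne
      rcases Finset.mem_insert.1 hx with rfl | hx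
      · exact absurd hp hne
      · exact hS x hx hne
    · obtain ⟨a2, ha2, hi2, r2, ht2, hle2, γ, hγ, i, j, hij, h1, h2⟩ :=
        one_step h hr hG he (ha1.trans ha) hi1 ht1 _ _ (xt_ne hp)
      refine ⟨a2, ha2.trans ha1, hi2, r2, ht2, fun f => (hle2 f).trans ((hle1 f).mono ha2), ?_⟩
      intro x hx hne
      rcases Finset.mem_insert.1 hx with rfl | hx
      · exact ⟨γ, hγ, i, j, hij, h1, h2⟩
      · obtain ⟨γ', hγ', i', j', hij', h1', h2'⟩ := hS x hx hne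
        exact ⟨γ', hγ', i', j', hij', h.mono ha2 (hle2 _) h1', h.mono ha2 (hle2 _) h2'⟩

theorem spt_mono (h : BS d α a0 q0 B) {n : ℕ} {a a' : Co Ω} {q q' : (ℕ → Bool) → Tm Ω}
    (hs : SPT α B n a q) (ha : a' ≤ a) (hq : ∀ f, Tm.Le a' (q' f) (q f)) : SPT α B n a' q' := by
  intro f g hfg
  obtain ⟨γ, hγ, i, j, hij, h1, h2⟩ := hs f g hfg
  exact ⟨γ, hγ, i, j, hij, h.mono ha (hq f) h1, h.mono ha (hq g) h2⟩

end STG

open STG in
theorem all_pairs (h : BS d α a0 q0 B) (hr : Tm.Le a0 qr q0) (hG : Gd d α a0 B (e n) a0 qr)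
    (he : ∀ n k, e (n + 1) k → e n k) {a : Co Ω} {q : (ℕ → Bool) → Tm Ω} (ha : a ≤ a0)
    (hi : a.hi α = a0.hi α) (hq : TA d α e qr n a q) : ∃ a' ≤ a, a'.hi α = a0.hi α ∧
      ∃ r, TA d α e qr n a' r ∧ (∀ f, Tm.Le a' (r f) (q f)) ∧ SPT α B n a' r := by
  obtain ⟨a', ha', hi', r, ht, hle, hS⟩ := pairs h hr hG he ha hi hq Finset.univ
  refine ⟨a', ha', hi', r, ht, hle, ?_⟩
  rintro f g ⟨m, hm, hfg⟩
  have hne : rs n f ≠ rs n g := fun h' => hfg (congrFun h' ⟨m, hm⟩)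
  obtain ⟨γ, hγ, i, j, hij, h1, h2⟩ := hS (rs n f, rs n g) (Finset.mem_univ _) hne
  refine ⟨γ, hγ, i, j, hij, ?_, ?_⟩
  · rw [ht.dep f _ (xt_rs n f)]
    exact h1
  · rw [ht.dep g _ (xt_rs n g)]
    exact h2

open STG in
theorem stage (h : BS d α a0 q0 B) (hr : Tm.Le a0 qr q0) (hG : Gd d α a0 B (e n) a0 qr)
    (he : ∀ n k, e (n + 1) k → e n k) {q : (ℕ → Bool) → Tm Ω} (hq : TA d α e qr n a0 q) :
    ∃ r, TA d α e qr n a0 r ∧ (∀ f, Tm.Le Co.emp (r f) (q f)) ∧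
      ∃ W, PD α a0 W ∧ ∀ w ∈ W, SPT α B n w r := by
  let Q : Type := {q : (ℕ → Bool) → Tm Ω // TA d α e qr n a0 q}
  let _ : Preorder Q :=
    { le := fun x y => ∀ f, Tm.Le Co.emp (x.1 f) (y.1 f)
      le_refl := fun x f => Tm.Le.refl _ _
      le_trans := fun x y z h1 h2 f => (h1 f).trans (h2 f) }
  obtain ⟨q', hq', W, hW, hD⟩ := exA (α := α) (a0 := a0) (Q := Q)
    (fun ι _ _ _ p hp => by
      obtain ⟨r, h1, h2⟩ := ta_lim h.good (fun i => (p i).1) (fun i => (p i).2) hp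
      exact ⟨⟨r, h1⟩, h2⟩)
    (fun a x => SPT α B n a x.1)
    (fun a a' x x' ha hx hs => spt_mono h hs ha fun f => (hx f).of_emp)
    (fun a ha hi x => by
      obtain ⟨a', ha', hi', r, ht, hle, hs⟩ := all_pairs h hr hG he ha hi (x.2.mono ha)
      refine ⟨a', ha', hi', ⟨fun f => Tm.mix a' (r f) (x.1 f),
        TA.mix x.2 (ha'.trans ha) hi' ht hle⟩, fun f => Tm.mix_le (hle f), ?_⟩
      exact spt_mono h hs le_rfl fun f => Tm.mix_eq1 (hle f))
    ⟨q, hq⟩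
  exact ⟨q'.1, q'.2, hq', W, hW, hD⟩

open STG in
/-- the fusion sequence -/
theorem fusion (h : BS d α a0 q0 B) (hr : Tm.Le a0 qr q0) (hG : ∀ n, Gd d α a0 B (e n) a0 qr)
    (he : ∀ n k, e (n + 1) k → e n k) : ∃ q : ℕ → (ℕ → Bool) → Tm Ω,
      (∀ n, TA d α e qr n a0 (q n)) ∧ (∀ n f, Tm.Le Co.emp (q (n + 1) f) (q n f)) ∧
        ∀ n, ∃ W, PD α a0 W ∧ ∀ w ∈ W, SPT α B n w (q n) := by
  obtain ⟨p0, hp0, _⟩ := ta_close (d := d) (α := α) (a0 := a0) (e := e) (qr := qr) (n := 0) h.good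
    (q := fun _ => qr) (fun _ _ _ => rfl) (fun _ => Tm.Le.refl _ _) (fun _ _ => rfl)
    (fun _ _ => LeT.refl _ _) (fun _ _ _ _ _ _ _ _ _ => EqB.refl _ _ _)
  let S : ℕ → Type := fun n => {q : (ℕ → Bool) → Tm Ω // TA d α e qr n a0 q ∧
    ∃ W, PD α a0 W ∧ ∀ w ∈ W, SPT α B n w q}
  obtain ⟨s0, hs0, _, hs0'⟩ := stage h hr (hG 0) he hp0
  have hstep : ∀ n (x : S n), ∃ y : S (n + 1), ∀ f, Tm.Le Co.emp (y.1 f) (x.1 f) := by
    intro n x
    obtain ⟨r, h1, h2, h3⟩ := stage h hr (hG (n + 1)) he x.2.1.succ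
    exact ⟨⟨r, h1, h3⟩, h2⟩
  choose st hst using hstep
  let Q : (n : ℕ) → S n := fun n => Nat.rec (motive := S) ⟨s0, hs0, hs0'⟩ (fun n x => st n x) n
  exact ⟨fun n => (Q n).1, fun n => (Q n).2.1, fun n f => hst n (Q n) f, fun n => (Q n).2.2⟩

end

end Pool.Agent.T27

end

section

/-!
# The term along a real
-/

set_option linter.unusedSectionVars false

namespace Pool.Agent.T27

open Pool.Agent.Lib_helper27 Cardinal Cod

variable {Ω : Type} [LinearOrder Ω] [Cod Ω]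

namespace ALG

theorem exists_tb (g : ℕ → Bool) (n : ℕ) : ∃ k : ℕ, ∀ j < n, k.testBit j = g j := by
  refine ⟨Nat.ofBits fun i : Fin n => g i, fun j hj => ?_⟩
  rw [Nat.testBit_ofBits_lt _ _ hj]

section

variable [Inac Ω] {q : ℕ → (ℕ → Bool) → Tm Ω}
  (dep : ∀ n (f g : ℕ → Bool), (∀ j < n, f j = g j) → q n f = q n g)
  (hle : ∀ n f, Tm.Le Co.emp (q (n + 1) f) (q n f))

include dep hle in
/-- comparison of two matching members -/
theorem comp {c : ℕ → Ω} {β : Ω} {i : Om1} {ξ : Ω} {b : Co Ω} {m m' : ℕ} {g g' : ℕ → Bool}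
    (hg : ∀ j < m, b.f (c j) = some (g j)) (hg' : ∀ j < m', b.f (c j) = some (g' j))
    (h : (q m g).v β i ξ b) (hi : i < (q m' g').len β) : (q m' g').v β i ξ b := by
  rcases le_total m m' with hm | hm
  · have e1 : q m g = q m g' := by
      refine dep m _ _ fun j hj => ?_
      have h1 := hg j hj
      rw [hg' j (hj.trans_le hm)] at h1
      simpa using h1.symm
    rw [e1] at h
    exact (Tm.chain_iff (fun n => q n g') (chain_le hle g') (i := m) (j := m')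
      ((q m g').out h) hi).1 h
  · have e1 : q m' g' = q m' g := by
      refine dep m' _ _ fun j hj => ?_
      have h1 := hg' j hj
      rw [hg j (hj.trans_le hm)] at h1
      simpa using h1.symm
    rw [e1] at hi ⊢
    exact (Tm.chain_iff (fun n => q n g) (chain_le hle g) (i := m) (j := m')
      ((q m g).out h) hi).1 h

/-- the predicate of the mixture -/
def Ph (q : ℕ → (ℕ → Bool) → Tm Ω) (c : ℕ → Ω) (β : Ω) (i : Om1) (ξ : Ω) (a : Co Ω) : Prop :=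
  ∃ n g, (∀ j < n, a.f (c j) = some (g j)) ∧ (q n g).v β i ξ a

open Classical in
/-- the mixture at the coordinates from `α` on -/
noncomputable def MX {α : Ω} (c : ℕ → Ω) (hc : ∀ n, c n < α) : Tm Ω where
  len β := if β < α then bot1 else lub1 fun p : ℕ × ℕ => (q p.1 fun j => p.2.testBit j).len β
  v β i ξ := if β < α then RP.bot else Rg (Ph q c β i ξ)
  cnt := by
    refine (Set.countable_iUnion fun p : ℕ × ℕ => (q p.1 fun j => p.2.testBit j).cnt).mono ?_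
    rintro β ⟨i, hi⟩
    split_ifs at hi with h
    · exact absurd hi (not_lt.2 (bot1_le i))
    · obtain ⟨p, hp⟩ := lt_lub1 hi
      exact Set.mem_iUnion.2 ⟨p, i, hp⟩
  uni := by
    intro β i ξ ξ' a h1 h2
    split_ifs at h1 h2 with h
    · exact h1.elim
    · obtain ⟨b, hb, m, g, h3, h4⟩ := Loc.exists h1
      obtain ⟨b', hb', m', g', h5, h6⟩ := Loc.exists (Loc.mono h2 hb)
      have h7 : ∀ j < m, b'.f (c j) = some (g j) := fun j hj => hb' _ _ (h3 j hj)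
      have h8 := comp dep hle h5 h7 h6 ((q m g).out h4)
      exact (q m g).uni ((((q m g).v β i ξ).mono hb' h4)) h8
  out := by
    intro β i ξ a h1
    split_ifs at h1 ⊢ with h
    · exact h1.elim
    · obtain ⟨b, hb, m, g, h3, h4⟩ := Loc.exists h1
      obtain ⟨k, hk⟩ := exists_tb g m
      have e1 : q m g = q m fun j => k.testBit j := dep m _ _ fun j hj => (hk j hj).symm
      rw [e1] at h4
      exact ((q m _).out h4).trans_le
        (le_lub1 (fun p : ℕ × ℕ => (q p.1 fun j => p.2.testBit j).len β) (m, k))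
  bd := by
    rintro β ⟨i, hi⟩
    split_ifs at hi with hβ
    · exact absurd hi (not_lt.2 (bot1_le i))
    · obtain ⟨p, hp⟩ := lt_lub1 hi
      obtain ⟨hA, γ0, hγ0, _⟩ := (q p.1 _).bd ⟨i, hp⟩
      have h1 : ∀ p : ℕ × ℕ, ∃ β' < β, ∀ i ξ a, (q p.1 fun j => p.2.testBit j).v β i ξ a →
          ξ < β' ∧ (q p.1 fun j => p.2.testBit j).v β i ξ (a.res β') := by
        intro p
        by_cases hp : ∃ i, i < (q p.1 fun j => p.2.testBit j).len β
        · exact ((q p.1 _).bd hp).2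
        · exact ⟨γ0, hγ0, fun i ξ a h => (hp ⟨i, (q p.1 _).out h⟩).elim⟩
      choose G hG hG' using h1
      obtain ⟨δ, hδ, hδ'⟩ := hA (fun n => G (Nat.unpair n)) fun n => hG _
      obtain ⟨ε, hε, hε'⟩ := hA c fun n => (hc n).trans_le (not_lt.1 hβ)
      refine ⟨hA, max δ ε, max_lt hδ hε, ?_⟩
      have h2 : ∀ p, G p < max δ ε := by
        intro p
        have := hδ' (Nat.pair p.1 p.2)
        rw [Nat.unpair_pair] at this
        exact this.trans_le (le_max_left _ _)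
      have h3 : ∀ n, c n < max δ ε := fun n => (hε' n).trans_le (le_max_right _ _)
      have key : ∀ m g i ξ a, (q m g).v β i ξ a → ξ < max δ ε ∧ (q m g).v β i ξ (a.res (max δ ε)) := by
        intro m g i ξ a h
        obtain ⟨k, hk⟩ := exists_tb g m
        have e1 : q m g = q m fun j => k.testBit j := dep m _ _ fun j hj => (hk j hj).symm
        rw [e1] at h ⊢
        obtain ⟨h4, h5⟩ := hG' (m, k) _ _ _ h
        refine ⟨h4.trans (h2 _), ((q m _).v β i ξ).mono ?_ h5⟩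
        rw [← Co.res_res_of_le (h2 (m, k)).le]
        exact Co.le_res _ _
      intro x ξ a h4
      split_ifs at h4 ⊢
      constructor
      · obtain ⟨b, hb, m, g, h5, h6⟩ := Loc.exists h4
        exact (key _ _ _ _ _ h6).1
      · refine Rg_based (fun b => ?_) h4
        constructor
        · rintro ⟨m, g, h5, h6⟩
          exact ⟨m, g, fun j hj => Co.res_some.2 ⟨h3 j, h5 j hj⟩, (key _ _ _ _ _ h6).2⟩
        · rintro ⟨m, g, h5, h6⟩
          exact ⟨m, g, fun j hj => (Co.res_some.1 (h5 j hj)).2,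
            ((q m g).v β x ξ).mono (Co.le_res _ _) h6⟩

theorem MX_len {α β : Ω} {c : ℕ → Ω} {hc : ∀ n, c n < α} (h : ¬ β < α) :
    (MX dep hle c hc).len β = lub1 fun p : ℕ × ℕ => (q p.1 fun j => p.2.testBit j).len β :=
  if_neg h

theorem MX_v {α β : Ω} {c : ℕ → Ω} {hc : ∀ n, c n < α} (h : ¬ β < α) {i : Om1} {ξ : Ω} :
    (MX dep hle c hc).v β i ξ = Rg (Ph q c β i ξ) := if_neg h

end

end ALG

section

variable [Inac Ω] {d : Ω → Dt Ω} {α : Ω} {a0 : Co Ω} {q0 : Tm Ω}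
  {B : Ω → Om1 → Co Ω → Tm Ω → Prop}

variable {e : ℕ → RP (K Ω)} {qr : Tm Ω} {n : ℕ}

theorem exists_along {q : ℕ → (ℕ → Bool) → Tm Ω} (hq : ∀ n, TA d α e qr n a0 (q n))
    (hle : ∀ n f, Tm.Le Co.emp (q (n + 1) f) (q n f)) (hα : Act α) (hne : ∃ γ, γ < α) :
    ∃ R : (ℕ → Ω) → Tm Ω, ∀ c : ℕ → Ω, (∀ n, c n < α) → Function.Injective c →
      (∀ f, (R c).res α = (limq q hle f).res α) ∧
      (∀ n g a, (∀ j < n, a.f (c j) = some (g j)) → Tm.Le a (R c) (q n g)) ∧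
      ∀ i ξ a, (R c).v α i ξ a → ∃ a' ≤ a, ∃ n g, (∀ j < n, a'.f (c j) = some (g j)) ∧
        (q n g).v α i ξ a' := by
  classical
  have dep : ∀ n (f g : ℕ → Bool), (∀ j < n, f j = g j) → q n f = q n g := fun n => (hq n).dep
  set f0 : ℕ → Bool := fun _ => false with hf0
  have hres : ∀ f, (limq q hle f0).res α = (limq q hle f).res α := fun f =>
    Tm.lim_res _ _ _ _ fun j => ((hq j).sb f0 f).1
  refine ⟨fun c => if hc : ∀ n, c n < α then Tm.glu α (limq q hle f0) (ALG.MX dep hle c hc)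
    else Tm.one, ?_⟩
  intro c hc _
  dsimp only
  rw [dif_pos hc]
  refine ⟨fun f => ?_, ?_, ?_⟩
  · rw [Tm.glu_res, hres f]
  · intro n g a ha β
    rw [Tm.glu_len, Tm.glu_v]
    split_ifs with hβ
    · have h1 : Tm.Le a (limq q hle g) (q n g) := (Tm.lim_le (fun n => q n g) (chain_le hle g) n).of_emp
      have h2 := h1 β
      have e1 : (limq q hle f0).len β = (limq q hle g).len β := by
        rw [← Tm.res_len_lt hβ, hres g, Tm.res_len_lt hβ]
      have e2 : (limq q hle f0).v β = (limq q hle g).v β := by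
        rw [← Tm.res_v_lt hβ, hres g, Tm.res_v_lt hβ]
      rw [e1, e2]
      exact h2
    · rw [ALG.MX_len dep hle hβ]
      constructor
      · obtain ⟨k, hk⟩ := ALG.exists_tb g n
        have e1 : q n g = q n fun j => k.testBit j := dep n _ _ fun j hj => (hk j hj).symm
        rw [e1]
        exact le_lub1 (fun p : ℕ × ℕ => (q p.1 fun j => p.2.testBit j).len β) (n, k)
      · intro i hi ξ a' ha'
        rw [ALG.MX_v dep hle hβ]
        constructor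
        · intro h
          refine ((q n g).v β i ξ).reg (Loc.imp h ?_)
          rintro b hb ⟨m, g', h1, h2⟩
          exact ALG.comp dep hle h1 (fun j hj => (hb.trans ha') _ _ (ha j hj)) h2 hi
        · intro h
          refine rg_of fun b hb => ⟨n, g, fun j hj => (hb.trans ha') _ _ (ha j hj), ?_⟩
          exact ((q n g).v β i ξ).mono hb h
  · intro i ξ a h
    rw [Tm.glu_v, if_neg (lt_irrefl α), ALG.MX_v dep hle (lt_irrefl α)] at h
    obtain ⟨b, hb, m, g, h1, h2⟩ := Loc.exists h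
    exact ⟨b, hb, m, g, h1, h2⟩

end

end Pool.Agent.T27

end

section

/-!
# Block RLT: the closed terms along the reals
-/

set_option linter.unusedSectionVars false

namespace Pool.Agent.T27

open Pool.Agent.Lib_helper27 Cardinal Cod

variable {Ω : Type} [LinearOrder Ω] [Cod Ω]

section

variable [Inac Ω] {d : Ω → Dt Ω} {α : Ω} {a0 : Co Ω} {q0 : Tm Ω}
  {B : Ω → Om1 → Co Ω → Tm Ω → Prop}

variable {e : ℕ → RP (K Ω)} {qr : Tm Ω} {n : ℕ}

open Classical in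
/-- decide finitely many coordinates -/
theorem rlt_decide (c : ℕ → Ω) (n : ℕ) (a : Co Ω) :
    ∃ a' ≤ a, ∃ g : ℕ → Bool, ∀ j < n, a'.f (c j) = some (g j) := by
  have key : ∃ a' ≤ a, ∀ j < n, ∃ v, a'.f (c j) = some v := by
    induction n with
    | zero => exact ⟨a, le_rfl, fun j hj => absurd hj (by omega)⟩
    | succ n ih =>
      obtain ⟨a', ha', hg⟩ := ih
      cases hv : a'.f (c n) with
      | some v =>
        refine ⟨a', ha', fun j hj => ?_⟩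
        by_cases h : j = n
        · exact ⟨v, by rw [h, hv]⟩
        · exact hg j (by omega)
      | none =>
        let b : Co Ω := ⟨fun x => if x = c n then some false else a'.f x, by
          refine (a'.fin.insert (c n)).subset fun x hx => ?_
          by_cases h : x = c n
          · exact Or.inl h
          · right
            simpa [h] using hx⟩
        have hb : b ≤ a' := by
          intro x v h
          show (if x = c n then some false else a'.f x) = some v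
          rw [if_neg]
          · exact h
          · rintro rfl
            rw [hv] at h
            exact absurd h (by simp)
        refine ⟨b, hb.trans ha', fun j hj => ?_⟩
        by_cases h : j = n
        · refine ⟨false, ?_⟩
          show (if c j = c n then some false else a'.f (c j)) = some false
          rw [if_pos (by rw [h])]
        · obtain ⟨v, hv'⟩ := hg j (by omega)
          exact ⟨v, hb _ _ hv'⟩
  obtain ⟨a', ha', h⟩ := key
  refine ⟨a', ha', fun j => if hj : j < n then (h j hj).choose else false, fun j hj => ?_⟩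
  simp only [dif_pos hj]
  exact (h j hj).choose_spec

/-- a number with given first bits -/
theorem rlt_bits (n : ℕ) (g : ℕ → Bool) : ∃ N : ℕ, ∀ j < n, N.testBit j = g j := by
  refine ⟨(BitVec.ofFnLE fun i : Fin n => g i).toNat, fun j hj => ?_⟩
  rw [BitVec.testBit_toNat, BitVec.getLsbD_ofFnLE]
  simp [hj]

theorem exists_reals (h : BS d α a0 q0 B) {q : ℕ → (ℕ → Bool) → Tm Ω}
    (hq : ∀ n, TA d α e qr n a0 (q n)) (hle : ∀ n f, Tm.Le Co.emp (q (n + 1) f) (q n f))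
    (he : ∀ n k, e (n + 1) k → e n k) (he' : ∀ k, ∃ k' ≤ k, ∃ n, (e n).neg k') :
    ∃ Q : (ℕ → Ω) → Tm Ω, ∀ c : ℕ → Ω, (∀ n, c n < α) → Function.Injective c →
      (∀ c' : ℕ → Ω, (∀ n, c' n < α) → Function.Injective c' → SB d α a0 (Q c) (Q c')) ∧
        ∀ n g a, (∀ j < n, a.f (c j) = some (g j)) → Tm.Le a (Q c) (q n g) := by
  have hg := h.good
  obtain ⟨R, hR⟩ := exists_along hq hle hg.act ⟨b0, hg.ne⟩
  -- the limits extend the members
  have hlim : ∀ n f, Tm.Le Co.emp (limq q hle f) (q n f) := fun n f =>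
    Tm.lim_le (fun n => q n f) (chain_le hle f) n
  -- the base of `R c` extends the bases
  have hbase : ∀ c : ℕ → Ω, (∀ n, c n < α) → Function.Injective c → ∀ n f,
      (⟨a0.res α, (R c).res α⟩ : Mt Ω) ≤ ro α a0 (q n f) := by
    intro c hc hi n f
    refine ⟨le_rfl, ?_⟩
    show Tm.Le (a0.res α) ((R c).res α) ((q n f).res α)
    rw [(hR c hc hi).1 f]
    exact Tm.res_mono (hlim n f).of_emp
  -- the trees
  have hA : ∀ c : ℕ → Ω, (∀ n, c n < α) → Function.Injective c → ∀ f,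
      LeT ⟨a0.res α, (R c).res α⟩ (EE d α (limq q hle f)) (EE d α (R c)) := by
    intro c hc hi f
    refine EE_glbT (fun l : ℕ × (ℕ → Bool) => q l.1 l.2) fun i ξ m' hm' hv => ?_
    obtain ⟨a', ha', n, g, h1, h2⟩ := (hR c hc hi).2.2 i ξ m'.a hv
    have hm'' : (⟨a', m'.q⟩ : Mt Ω) ≤ m' := Mt.mk_le' (q := m'.q) ha'
    refine ⟨⟨a', m'.q⟩, hm'', (n, g), (q n g).out h2, fun j hj η b hb => ?_, ?_⟩
    · exact (((hR c hc hi).2.1 n g a' h1) α).2 j hj η b hb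
    · refine (EE_le (hlim n f).of_emp (m := ⟨a', m'.q⟩) le_rfl).t.trans ?_
      exact ((hq n).sb f g).2.1.mono ((hm''.trans hm').trans (hbase c hc hi n f))
  have hB : ∀ c : ℕ → Ω, (∀ n, c n < α) → Function.Injective c → ∀ f,
      LeT ⟨a0.res α, (R c).res α⟩ (EE d α (R c)) (EE d α (limq q hle f)) := by
    intro c hc hi f
    refine EE_glbT (fun n : ℕ => q n f) fun i ξ m' hm' hv => ?_
    obtain ⟨n, hn⟩ := hv
    obtain ⟨a', ha', g, h1⟩ := rlt_decide c n m'.a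
    have hm'' : (⟨a', m'.q⟩ : Mt Ω) ≤ m' := Mt.mk_le' (q := m'.q) ha'
    refine ⟨⟨a', m'.q⟩, hm'', n, (q n f).out hn, fun j hj η b _ => ?_, ?_⟩
    · exact ((hlim n f) α).2 j hj η b (Co.le_emp b)
    · refine (EE_le ((hR c hc hi).2.1 n g a' h1) (m := ⟨a', m'.q⟩) le_rfl).t.trans ?_
      exact ((hq n).sb g f).2.1.mono ((hm''.trans hm').trans (hbase c hc hi n g))
  -- the branches
  let b : ℕ → Nm Ω := fun k => (EE d α (limq q hle fun j => k.testBit j)).x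
  obtain ⟨β, hβ, hbb⟩ : ∃ β < α, ∀ k, BdN β (b k) := by
    have h1 : ∀ k, ∃ β < α, BdN β (b k) := by
      intro k
      obtain ⟨β, hβ, h2⟩ := EE_bd hg (limq q hle fun j => k.testBit j)
      exact ⟨β, hβ, h2.x⟩
    choose β hβ hb using h1
    obtain ⟨γ, hγ, h2⟩ := hg.act β hβ
    exact ⟨γ, hγ, fun k => (hb k).mono (h2 k).le⟩
  have hbr : ∀ c : ℕ → Ω, (∀ n, c n < α) → Function.Injective c → ∀ k,
      Brn ⟨a0.res α, (R c).res α⟩ (EE d α (R c)) (b k) := fun c hc hi k =>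
    (hA c hc hi _).brn (EE_DV _ _).br
  have hl : ∀ c : ℕ → Ω, (∀ n, c n < α) → Function.Injective c → ∀ k : K Ω,
      k.1 ≤ ⟨a0.res α, (R c).res α⟩ → ∃ k' ≤ k, ∃ N, ∀ γ, Lmt γ →
        (∀ γ' < γ, (EE d α (R c)).H γ' k'.1) → EqB k' γ (EE d α (R c)).x (b N) := by
    intro c hc hi k hk
    obtain ⟨k1, hk1, n, hn⟩ := he' k
    obtain ⟨a', ha', g, h1⟩ := rlt_decide c n k1.1.a
    obtain ⟨N, hN⟩ := rlt_bits n g
    set f : ℕ → Bool := fun j => N.testBit j with hf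
    have hfg : ∀ j < n, a'.f (c j) = some (f j) := fun j hj => by
      rw [h1 j hj, ← hN j hj]
    set k2 : K Ω := (⟨a', k1.1.q⟩, k1.2) with hk2
    have hk21 : k2 ≤ k1 := ⟨Mt.mk_le' (q := k1.1.q) ha', le_rfl⟩
    have hn2 : (e n).neg k2 := (e n).neg.mono hk21 hn
    set y : Nm Ω := mixE (e n) (EE d α (R c)).x (EE d α (limq q hle f)).x with hy
    have key : LeD k2.1 ((EE d α (R c)).wx y) (EE d α (R c)) := by
      refine EE_glb (fun l : ℕ × (ℕ → Bool) => q l.1 l.2) fun i ξ m' hm' hv => ?_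
      obtain ⟨a2, ha2, n', g', h3, h4⟩ := (hR c hc hi).2.2 i ξ m'.a hv
      have hm'' : (⟨a2, m'.q⟩ : Mt Ω) ≤ m' := Mt.mk_le' (q := m'.q) ha2
      have hRq := (hR c hc hi).2.1 n' g' a2 h3
      refine ⟨⟨a2, m'.q⟩, hm'', (n', g'), (q n' g').out h4, fun j hj η b hb => ?_, ?_⟩
      · exact (hRq α).2 j hj η b hb
      -- the real `g'` may be taken to agree with `f` below `n`
      set g2 : ℕ → Bool := fun j => if j < n' then g' j else f j with hg2
      have e1 : q n' g2 = q n' g' := (hq n').dep _ _ fun j hj => by rw [hg2]; simp [hj]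
      have e2 : ∀ j < n, g2 j = f j := by
        intro j hj
        rw [hg2]
        by_cases hj' : j < n'
        · simp only [hj', if_true]
          have h5 := h3 j hj'
          have h6 := (ha2.trans hm'.1) (c j) (f j) (hfg j hj)
          rw [h5] at h6
          exact Option.some.inj h6
        · simp [hj']
      have hoff : Off d α a0 (e n) (q n' g') (q n' f) := by
        rw [← e1]
        exact (hq n').off g2 f n e2
      have hm2 : (⟨a2, m'.q⟩ : Mt Ω) ≤ ⟨a0.res α, (R c).res α⟩ :=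
        hm''.trans (hm'.trans (hk21.1.trans (hk1.1.trans hk)))
      have hRe := EE_le (d := d) (α := α) hRq (m := ⟨a2, m'.q⟩) le_rfl
      have hLe := EE_le (d := d) (α := α) (hlim n' f).of_emp (m := ⟨a2, m'.q⟩) (a := a2) le_rfl
      refine ⟨fun m1 hm1 γ hH => hRe.t m1 hm1 γ hH, fun m1 hm1 γ hH => ?_⟩
      refine EqM.of_eqB fun k3 hk3 => ?_
      obtain ⟨k4, hk4, h5⟩ := (e n).em k3
      refine ⟨k4, hk4, ?_⟩
      have h41 : k4.1 ≤ m1 := hk4.1.trans hk3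
      rcases h5 with h5 | h5
      · exact (mixE_on h5 γ).trans ((hRe.x m1 hm1 γ hH).eqB h41)
      · refine (mixE_off h5 γ).trans ?_
        have h6 : (EE d α (q n' f)).H γ m1 :=
          (((hq n').sb f g').2.1 m1 ((hm1.trans hm2).trans (hbase c hc hi n' f)) γ hH).1
        refine ((hLe.x m1 hm1 γ h6).eqB h41).trans ?_
        exact (hoff k4 (h41.trans ((hm1.trans hm2).trans (hbase c hc hi n' g'))) h5 γ
          ((EE d α (q n' g')).H γ |>.mono h41 hH)).symm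
    refine ⟨k2, hk21.trans hk1, N, fun γ hγ hH => ?_⟩
    intro k3 hk3 ξ hξ
    obtain ⟨γ', h2, h3⟩ := hγ ξ hξ
    have h4 := key.x k2.1 le_rfl γ' (hH γ' h3) k3 hk3.1 ξ h2
    rw [← h4]
    exact mixE_off hn2 γ' k3 hk3 ξ h2
  -- the closed terms
  have hQ : ∀ c : ℕ → Ω, ∃ Q : Tm Ω, (∀ n, c n < α) → Function.Injective c →
      Q.res α = (R c).res α ∧ Tm.Le Co.emp Q (R c) ∧ RCl ⟨a0.res α, (R c).res α⟩ (EE d α Q) ∧
      LeD ⟨a0.res α, (R c).res α⟩ (EE d α Q) (cap (EE d α (R c)) b) ∧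
      LeD ⟨a0.res α, (R c).res α⟩ (cap (EE d α (R c)) b) (EE d α Q) := by
    intro c
    by_cases hc : (∀ n, c n < α) ∧ Function.Injective c
    · obtain ⟨Q, hQ⟩ := close hg hβ hbb (hbr c hc.1 hc.2) (hl c hc.1 hc.2)
      exact ⟨Q, fun _ _ => hQ⟩
    · exact ⟨R c, fun h1 h2 => (hc ⟨h1, h2⟩).elim⟩
  choose Q hQ using hQ
  refine ⟨Q, fun c hc hi => ⟨fun c' hc' hi' => ?_, fun n g a hga => ?_⟩⟩
  · obtain ⟨h1, h2, h3, h4, h5⟩ := hQ c hc hi
    obtain ⟨h1', h2', h3', h4', h5'⟩ := hQ c' hc' hi'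
    have hres : (R c).res α = (R c').res α := by
      rw [(hR c hc hi).1 fun _ => false, (hR c' hc' hi').1 fun _ => false]
    have hro : ro α a0 (Q c) = ⟨a0.res α, (R c).res α⟩ := by
      show (⟨a0.res α, (Q c).res α⟩ : Mt Ω) = _
      rw [h1]
    have t1 := hA c hc hi fun _ => false
    have t2 := hB c hc hi fun _ => false
    have t1' := hA c' hc' hi' fun _ => false
    have t2' := hB c' hc' hi' fun _ => false
    rw [← hres] at t1' t2' h4' h5'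
    have r1 := t2.trans t1'
    have r2 := t2'.trans t1
    refine ⟨by rw [h1, h1', hres], ?_, ?_, ?_⟩
    · rw [hro]
      exact (h4.t.trans (cap_congr r1 r2 b)).trans h5'.t
    · rw [hro]
      exact (h4'.t.trans (cap_congr r2 r1 b)).trans h5.t
    · rw [hro]
      exact h3
  · exact ((hQ c hc hi).2.1.of_emp).trans ((hR c hc hi).2.1 n g a hga)

end

end Pool.Agent.T27

end

section

/-!
# The end of the fusion argument
-/

set_option linter.unusedSectionVars false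

namespace Pool.Agent.T27

open Pool.Agent.Lib_helper27 Cardinal Cod

variable {Ω : Type} [LinearOrder Ω] [Cod Ω]

namespace FIN

/-- closed valid data which are bounded below `α` -/
def FS (α : Ω) (n : Mt Ω) : Type := {e : Dt Ω // DV n e ∧ (∃ δ, Hts n e δ) ∧ ∃ β < α, Bd β e}

instance (α : Ω) (n : Mt Ω) : Preorder (FS α n) where
  le e' e := LeD n e'.1 e.1
  le_refl _ := LeD.refl _ _
  le_trans _ _ _ h1 h2 := LeD.trans h1 h2

theorem fs_lim [WellFoundedLT Ω] {d : Ω → Dt Ω} {α : Ω} (hg : Good d α) {n : Mt Ω}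
    (x : {ξ : Ω // ξ < α}) (hx : Nonempty (Set.Iio x)) (f : Set.Iio x → FS α n)
    (hf : Antitone f) : ∃ q : FS α n, ∀ i, q ≤ f i := by
  choose b hb hb' using fun i => (f i).2.2.2
  obtain ⟨β, hβ, hβ'⟩ := hg.reg x.1 x.2 (fun y => b ⟨⟨y.1, lt_trans y.2 x.2⟩, y.2⟩)
    (fun y => hb _)
  obtain ⟨β1, hβ1, hβ2⟩ := hg.lm β hβ
  obtain ⟨e', h1, h2, h3, h4⟩ := dlim (m := n) (e := fun i => (f i).1) (fun i => (f i).2.1)
    (fun i => (f i).2.2.1) (β := β) (fun i => (hb' i).mono (hβ' ⟨i.1.1, i.2⟩).le)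
    (fun i j hij => hf hij)
  exact ⟨⟨e', h1, h2, β1, hβ2, h3 β1 hβ1⟩, h4⟩

theorem hts_congr {m : Mt Ω} {e e' : Dt Ω} {δ : Ω} (h : Hts m e δ) (h1 : LeT m e' e)
    (h2 : LeT m e e') : Hts m e' δ := by
  intro γ
  exact ⟨fun hγ => (h1 m le_rfl γ ((h γ).1 hγ)).1,
    fun hγ m' hm hH => (h γ).2 hγ m' hm (h2 m' hm γ hH).1⟩

theorem rcl_of_hts {m : Mt Ω} {e : Dt Ω} {δ : Ω} (h : Hts m e δ) : RCl m e :=
  Loc.pure fun _ hm => ⟨δ, h.mono hm⟩

theorem exists_tb (g : ℕ → Bool) (n : ℕ) : ∃ k : ℕ, ∀ j < n, k.testBit j = g j := by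
  refine ⟨Nat.ofBits fun i : Fin n => g i, fun j hj => ?_⟩
  rw [Nat.testBit_ofBits_lt _ _ hj]

theorem act_count {α : Ω} (hα : Act α) {γ0 : Ω} (h0 : γ0 < α) {ι : Type} [Countable ι]
    (f : ι → Ω) (hf : ∀ i, f i < α) : ∃ γ < α, ∀ i, f i < γ := by
  classical
  obtain ⟨e, he⟩ := Countable.exists_injective_nat ι
  obtain ⟨γ, hγ, h1⟩ := hα (fun n => if h : ∃ i, e i = n then f h.choose else γ0) (by
    intro n
    split_ifs with h
    · exact hf _
    · exact h0)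
  refine ⟨γ, hγ, fun i => ?_⟩
  have h2 := h1 (e i)
  have h3 : ∃ j, e j = e i := ⟨i, rfl⟩
  rw [dif_pos h3, he h3.choose_spec] at h2
  exact h2

/-- two reals are decided up to a difference -/
theorem exists_diff (a : Co Ω) {c c' : ℕ → Ω} (hc : Function.Injective c)
    (hc' : Function.Injective c') (hcc : ∀ i j, c i ≠ c' j) :
    ∃ a' ≤ a, ∃ (n : ℕ) (g g' : ℕ → Bool), (∀ j < n, a'.f (c j) = some (g j)) ∧
      (∀ j < n, a'.f (c' j) = some (g' j)) ∧ ∃ m < n, g m ≠ g' m := by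
  classical
  have h1 : {m | a.f (c m) ≠ none}.Finite := a.fin.preimage hc.injOn
  have h2 : {m | a.f (c' m) ≠ none}.Finite := a.fin.preimage hc'.injOn
  obtain ⟨m, hm⟩ := (h1.union h2).exists_notMem
  have h3 : a.f (c m) = none := by
    by_contra h
    exact hm (Or.inl h)
  have h4 : a.f (c' m) = none := by
    by_contra h
    exact hm (Or.inr h)
  let F : Ω → Option Bool := fun x => if x = c m then some true else
    if ∃ j ≤ m, x = c j ∨ x = c' j then some false else none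
  have hF : {x | F x ≠ none}.Finite := by
    refine (((Set.finite_Iic m).image c).union ((Set.finite_Iic m).image c')).subset ?_
    intro x hx
    change F x ≠ none at hx
    by_cases h5 : x = c m
    · exact Or.inl ⟨m, Set.mem_Iic.2 le_rfl, h5.symm⟩
    · by_cases h6 : ∃ j ≤ m, x = c j ∨ x = c' j
      · obtain ⟨j, hj, h7 | h7⟩ := h6
        · exact Or.inl ⟨j, hj, h7.symm⟩
        · exact Or.inr ⟨j, hj, h7.symm⟩
      · exact absurd (by simp only [F, if_neg h5, if_neg h6]) hx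
  let b : Co Ω := ⟨F, hF⟩
  have hun : ∀ x, (Co.un a b).f x = (a.f x).orElse fun _ => F x := fun _ => rfl
  have h5 : ∀ j ≤ m, (Co.un a b).f (c j) ≠ none := by
    intro j hj h
    rw [hun] at h
    cases ha : a.f (c j) with
    | some y => rw [ha] at h; cases h
    | none =>
      rw [ha] at h
      change F (c j) = none at h
      by_cases h6 : c j = c m
      · simp only [F, if_pos h6] at h
        cases h
      · have h7 : ∃ j' ≤ m, c j = c j' ∨ c j = c' j' := ⟨j, hj, Or.inl rfl⟩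
        simp only [F, if_neg h6, if_pos h7] at h
        cases h
  have h6 : ∀ j ≤ m, (Co.un a b).f (c' j) ≠ none := by
    intro j hj h
    rw [hun] at h
    cases ha : a.f (c' j) with
    | some y => rw [ha] at h; cases h
    | none =>
      rw [ha] at h
      change F (c' j) = none at h
      have h6 : c' j ≠ c m := fun h => hcc m j h.symm
      have h7 : ∃ j' ≤ m, c' j = c j' ∨ c' j = c' j' := ⟨j, hj, Or.inr rfl⟩
      simp only [F, if_neg h6, if_pos h7] at h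
      cases h
  have key : ∀ o : Option Bool, o ≠ none → o = some (o.getD false) := by
    intro o ho
    cases o with
    | none => exact absurd rfl ho
    | some y => rfl
  refine ⟨Co.un a b, Co.un_le_left a b, m + 1, fun j => ((Co.un a b).f (c j)).getD false,
    fun j => ((Co.un a b).f (c' j)).getD false, fun j hj => key _ (h5 j (Nat.lt_succ_iff.1 hj)),
    fun j hj => key _ (h6 j (Nat.lt_succ_iff.1 hj)), m, Nat.lt_succ_self m, ?_⟩
  have h7 : (Co.un a b).f (c m) = some true := by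
    rw [hun, h3]
    change F (c m) = some true
    simp only [F, if_pos]
  have h8 : (Co.un a b).f (c' m) = some false := by
    rw [hun, h4]
    change F (c' m) = some false
    have h6 : c' m ≠ c m := fun h => hcc m m h.symm
    have h7 : ∃ j' ≤ m, c' m = c j' ∨ c' m = c' j' := ⟨m, le_rfl, Or.inr rfl⟩
    simp only [F, if_neg h6, if_pos h7]
  dsimp only
  rw [h7, h8]
  decide

theorem ee_ro {d : Ω → Dt Ω} {α : Ω} {a : Co Ω} {q' q : Tm Ω} (h : Tm.Le a q' q) {m : Mt Ω}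
    (hm : m.a ≤ a.res α) : LeD m (EE d α q') (EE d α q) :=
  EE_le1 (a := a.res α) (fun _ hj _ _ ha' => h.at hj ha') hm

theorem res_eq {m : Mt Ω} {α β β' : Ω} (h : m.res α = m) (h1 : m.res α = m.res β)
    (h2 : β ≤ β') : m.res β' = m := by
  have h3 : m = m.res β := h.symm.trans h1
  calc m.res β' = (m.res β).res β' := by rw [← h3]
    _ = m.res β := Mt.res_res_of_le' h2
    _ = m := h3.symm

end FIN

open FIN in
theorem finish [Inac Ω] {d : Ω → Dt Ω} {α : Ω} {a0 : Co Ω} {q0 : Tm Ω}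
    {B : Ω → Om1 → Co Ω → Tm Ω → Prop} (h : BS d α a0 q0 B)
    (hcca : ∀ (f : Ω → Mt Ω) (g : Ω → Om1), (∀ ξ < α, (f ξ).res α = f ξ) →
      ∃ ξ η, ξ < η ∧ η < α ∧ g ξ = g η ∧ ∃ l, l ≤ f ξ ∧ l ≤ f η)
    {q : ℕ → (ℕ → Bool) → Tm Ω} (h0 : ∀ f, Tm.Le a0 (q 0 f) q0)
    (hdep : ∀ n (f g : ℕ → Bool), (∀ j < n, f j = g j) → q n f = q n g)
    (hW : ∀ n, ∃ W, PD α a0 W ∧ ∀ w ∈ W, SPT α B n w (q n))
    {Q : (ℕ → Ω) → Tm Ω} (hQ : ∀ c : ℕ → Ω, (∀ n, c n < α) → Function.Injective c →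
      (∀ c' : ℕ → Ω, (∀ n, c' n < α) → Function.Injective c' → SB d α a0 (Q c) (Q c')) ∧
        ∀ n g a, (∀ j < n, a.f (c j) = some (g j)) → Tm.Le a (Q c) (q n g)) : False := by
  classical
  have hg := h.good
  have hact := hg.act
  have hne : ∃ γ, γ < α := ⟨b0, hg.ne⟩
  -- the reals
  let c : Ω → ℕ → Ω := fun ξ n => tr ξ (nt n) b0
  have hcl : ∀ ξ < α, ∀ n, c ξ n < α := by
    intro ξ hξ n
    exact (tr_lt (lt_om ξ) (nt_lt n ξ) ((b0_le ξ).trans_lt (lt_om ξ))).trans (hg.om ξ hξ)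
  have hci : ∀ ξ, Function.Injective (c ξ) := by
    intro ξ n m hnm
    have h1 : t2 (c ξ n) = t2 (c ξ m) := congrArg t2 hnm
    rw [show t2 (c ξ n) = nt n from t2_tr _ _ _, show t2 (c ξ m) = nt m from t2_tr _ _ _] at h1
    have h2 : tn (nt n : Ω) = tn (nt m : Ω) := congrArg tn h1
    rwa [tn_nt, tn_nt] at h2
  have hcc : ∀ ξ η, ξ ≠ η → ∀ i j, c ξ i ≠ c η j := by
    intro ξ η hne i j he
    have h1 : t1 (c ξ i) = t1 (c η j) := congrArg t1 he
    rw [show t1 (c ξ i) = ξ from t1_tr _ _ _, show t1 (c η j) = η from t1_tr _ _ _] at h1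
    exact hne h1
  -- the level `γ'`
  choose W hWp hWs using hW
  have key : ∀ t : (Σ n, W n) × ℕ × ℕ, ∃ γ < α,
      (∃ m < t.1.1, t.2.1.testBit m ≠ t.2.2.testBit m) → ∃ i j, i ≠ j ∧
        B γ i t.1.2.1 (q t.1.1 fun m => t.2.1.testBit m) ∧
        B γ j t.1.2.1 (q t.1.1 fun m => t.2.2.testBit m) := by
    rintro ⟨⟨n, w⟩, k, k'⟩
    by_cases hd : ∃ m < n, k.testBit m ≠ k'.testBit m
    · obtain ⟨γ, hγ, i, j, h1, h2, h3⟩ := hWs n w.1 w.2 (fun m => k.testBit m)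
        (fun m => k'.testBit m) hd
      exact ⟨γ, hγ, fun _ => ⟨i, j, h1, h2, h3⟩⟩
    · exact ⟨b0, hg.ne, fun h => (hd h).elim⟩
  choose Γ hΓ hΓ' using key
  have hcnt : ∀ n, Countable (W n) := fun n => Set.countable_coe_iff.2 (hWp n).cnt
  obtain ⟨γ', hγ', hγ1⟩ := act_count hact hg.ne Γ hΓ
  have hsplit : ∀ n, ∀ w ∈ W n, ∀ g g' : ℕ → Bool, (∃ m < n, g m ≠ g' m) → ∃ γ < γ', ∃ i j,
      i ≠ j ∧ B γ i w (q n g) ∧ B γ j w (q n g') := by
    rintro n w hw g g' ⟨m, hm, hmg⟩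
    obtain ⟨k, hk⟩ := exists_tb g n
    obtain ⟨k', hk'⟩ := exists_tb g' n
    obtain ⟨i, j, h1, h2, h3⟩ := hΓ' (⟨n, w, hw⟩, k, k') ⟨m, hm, by
      dsimp only
      rw [hk m hm, hk' m hm]
      exact hmg⟩
    refine ⟨_, hγ1 (⟨n, w, hw⟩, k, k'), i, j, h1, ?_, ?_⟩
    · rw [hdep n g (fun m => k.testBit m) fun j hj => (hk j hj).symm]
      exact h2
    · rw [hdep n g' (fun m => k'.testBit m) fun j hj => (hk' j hj).symm]
      exact h3
  -- the starting point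
  have hQ0 := hQ (c b0) (hcl b0 hg.ne) (hci b0)
  obtain ⟨m', hm', δ, hδ⟩ := Loc.exists (hQ0.1 (c b0) (hcl b0 hg.ne) (hci b0)).2.2.2
  obtain ⟨β0, hβ0, hbd0⟩ := EE_bd hg (Q (c b0))
  set n1 : Mt Ω := m'.res α with hn1
  have hn1r : n1.res α = n1 := Mt.res_res_of_le le_rfl
  have hn1le : n1 ≤ ro α a0 (Q (c b0)) := by
    have h1 := Mt.res_mono (α := α) hm'
    have h2 : (ro α a0 (Q (c b0))).res α = ro α a0 (Q (c b0)) := Mt.res_res_of_le le_rfl
    rwa [h2] at h1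
  have hδ1 : Hts n1 (EE d α (Q (c b0))) δ := (Hts_res (hbd0.mono hβ0.le)).2 hδ
  let e0 : FS α n1 := ⟨EE d α (Q (c b0)), EE_DV _ _, ⟨δ, hδ1⟩, β0, hβ0, hbd0⟩
  let D : {ξ : Ω // ξ < α} → Set (FS α n1) := fun ξ => {e | ∃ a r i, a ≤ a0 ∧
    a.hi α = a0.hi α ∧ Tm.Le a r (Q (c ξ.1)) ∧ ro α a r ≤ n1 ∧ RCl (ro α a r) (EE d α r) ∧
      B γ' i a r ∧ LeT (ro α a r) e.1 (EE d α r)}
  have hQq0 : ∀ ξ < α, ∀ a ≤ a0, Tm.Le a (Q (c ξ)) q0 := by
    intro ξ hξ a ha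
    have h1 := (hQ (c ξ) (hcl ξ hξ) (hci ξ)).2 0 (fun _ => false) a
      fun j hj => absurd hj (Nat.not_lt_zero j)
    exact h1.trans ((h0 _).mono ha)
  have hD : ∀ ξ, ∀ e ≤ e0, ∃ e' ≤ e, e' ∈ D ξ := by
    rintro ⟨ξ, hξ⟩ e he
    have hs := (hQ (c ξ) (hcl ξ hξ) (hci ξ)).1 (c b0) (hcl b0 hg.ne) (hci b0)
    have hro : ro α a0 (Q (c ξ)) = ro α a0 (Q (c b0)) := by
      show (⟨a0.res α, (Q (c ξ)).res α⟩ : Mt Ω) = ⟨a0.res α, (Q (c b0)).res α⟩
      rw [hs.1]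
    have hn2 : n1 ≤ ro α a0 (Q (c ξ)) := by
      rw [hro]
      exact hn1le
    obtain ⟨hle1, q1, hq1, hr1, hT1, hT2⟩ := liftP hg (a := a0) (q := Q (c ξ)) hs.2.2.2
      (n := n1) (e := e.1) ⟨hn1r, e.2.1.toTV, e.2.2.1, e.2.2.2⟩ hn2
      (LeT.trans he.t (hs.2.2.1.mono hn2))
    obtain ⟨a', ha', hhi, q', hq', ⟨δ', hδ'⟩, i, hB⟩ := BS.tot' h hle1 Co.gl_hi
      (hq1.trans (hQq0 ξ hξ _ hle1)) hγ'
    set m : Mt Ω := ro α a' q' with hm
    have hmn : m ≤ n1 := by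
      have h1 : (⟨a', q'⟩ : Mt Ω) ≤ ⟨Co.gl α n1.a a0, q1⟩ := ⟨ha', hq'⟩
      have h2 := Mt.res_mono (α := α) h1
      rwa [hr1] at h2
    have hmr : m.res α = m := Mt.res_res_of_le le_rfl
    have hLT : LeT m (EE d α q') e.1 :=
      (ee_ro (m := m) hq' le_rfl).t.trans (hT1.mono hmn)
    obtain ⟨δe, hδe⟩ := e.2.2.1
    have hbr : Brn m (EE d α q') (glR e.1 e.1.x (EE d α q').x) :=
      glR_brn (EE_DV q' m).toTV hLT (rcl_of_hts (hδe.mono hmn)) (e.2.1.br.mono hmn)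
        (EE_DV q' m).br
    obtain ⟨β1, hβ1, hb1⟩ := e.2.2.2
    obtain ⟨β2, hβ2, hb2⟩ := EE_bd hg q'
    obtain ⟨β3, hβ3, hb3⟩ := Mt.res_below hact hne n1
    obtain ⟨β4, hβ4, hb4⟩ := Mt.res_below hact hne m
    set β := max (max β1 β2) (max β3 β4) with hβ
    have hβα : β < α := max_lt (max_lt hβ1 hβ2) (max_lt hβ3 hβ4)
    have hb1' : Bd β e.1 := hb1.mono ((le_max_left _ _).trans (le_max_left _ _))
    have hb2' : Bd β (EE d α q') := hb2.mono ((le_max_right _ _).trans (le_max_left _ _))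
    have hTV : TV m ((EE d α q').wx (glR e.1 e.1.x (EE d α q').x)) :=
      ⟨(EE_DV q' m).dn, (EE_DV q' m).res, (EE_DV q' m).rep, (EE_DV q' m).flp⟩
    obtain ⟨e2, h1, h2, h3, h4, h5⟩ := dmx hmn (e := e.1)
      (e1 := (EE d α q').wx (glR e.1 e.1.x (EE d α q').x)) (β := β)
      (res_eq hn1r hb3 ((le_max_left _ _).trans (le_max_right _ _)))
      (res_eq hmr hb4 ((le_max_right _ _).trans (le_max_right _ _))) e.2.1 e.2.2.1 hb1'
      ⟨hTV, hbr⟩ ⟨δ', hδ'⟩ (hb2'.wx (glR_bd hb1' hb2'.x hb1'.x))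
      ⟨hLT, glR_le _ _⟩
    exact ⟨⟨e2, h1, h2, β, hβα, h3⟩, h4, a', q', i, ha'.trans hle1, hhi,
      hq'.trans (hq1.mono ha'), hmn, rcl_of_hts hδ', hB, h5.t⟩
  obtain ⟨G, hG, hG'⟩ := seqD (fun x hx f hf => fs_lim hg x hx f hf) D e0 hD
  have hGD : ∀ ξ, ∃ a r i, a ≤ a0 ∧ a.hi α = a0.hi α ∧ Tm.Le a r (Q (c ξ.1)) ∧
      ro α a r ≤ n1 ∧ RCl (ro α a r) (EE d α r) ∧ B γ' i a r ∧
        LeT (ro α a r) (G ξ).1 (EE d α r) := fun ξ => (hG' ξ).2
  choose a r i ha hhi hr hrn hrc hB hLT using hGD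
  obtain ⟨ξ, η, hξη, hη, hi, l, hl1, hl2⟩ := hcca
    (fun ξ => if hξ : ξ < α then ro α (a ⟨ξ, hξ⟩) (r ⟨ξ, hξ⟩) else n1)
    (fun ξ => if hξ : ξ < α then i ⟨ξ, hξ⟩ else bot1) (by
      intro ξ hξ
      rw [dif_pos hξ]
      exact Mt.res_res_of_le le_rfl)
  have hξ : ξ < α := hξη.trans hη
  simp only [dif_pos hξ, dif_pos hη] at hi hl1 hl2
  set x : {ξ : Ω // ξ < α} := ⟨ξ, hξ⟩ with hx
  set y : {ξ : Ω // ξ < α} := ⟨η, hη⟩ with hy
  have hxy : x ≤ y := hξη.le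
  -- decide the reals
  obtain ⟨b1, hb1, n, g, g', hg1, hg2, hgg⟩ := exists_diff l.a (hci ξ) (hci η)
    (hcc ξ η hξη.ne)
  have hlr : l.a.res α ≤ a0.res α := by
    have h1 : l.a ≤ (a x).res α := hl1.1
    have h2 := Co.res_mono (α := α) h1
    rw [Co.res_res_of_le le_rfl] at h2
    exact h2.trans (Co.res_mono (ha x))
  have hb2 : b1.res α ≤ a0.res α := (Co.res_mono hb1).trans hlr
  obtain ⟨w, hw, a3, h31, h32, h33⟩ := (hWp n).pre (Co.gl α b1 a0) (Co.gl_le hb2) Co.gl_hi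
  have ha3 : a3 ≤ a0 := h31.trans (Co.gl_le hb2)
  have h3r : a3.res α ≤ l.a.res α := by
    have h1 := Co.res_mono (α := α) h31
    rw [Co.gl_res] at h1
    exact h1.trans (Co.res_mono hb1)
  set n3 : Mt Ω := (⟨a3, l.q⟩ : Mt Ω).res α with hn3
  have hn3l : n3 ≤ l.res α := Mt.mk_le' h3r
  have hn3r : n3.res α = n3 := Mt.res_res_of_le le_rfl
  have hn3x : n3 ≤ ro α (a x) (r x) := by
    have h1 := Mt.res_mono (α := α) hl1
    have h2 : (ro α (a x) (r x)).res α = ro α (a x) (r x) := Mt.res_res_of_le le_rfl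
    rw [h2] at h1
    exact le_trans hn3l h1
  have hn3y : n3 ≤ ro α (a y) (r y) := by
    have h1 := Mt.res_mono (α := α) hl2
    have h2 : (ro α (a y) (r y)).res α = ro α (a y) (r y) := Mt.res_res_of_le le_rfl
    rw [h2] at h1
    exact le_trans hn3l h1
  have hn31 : n3 ≤ n1 := le_trans hn3x (hrn x)
  have hGyx : LeD n1 (G y).1 (G x).1 := hG hxy
  have hgl : ∀ z : {ξ : Ω // ξ < α}, Co.gl α n3.a (a z) = a3 := by
    intro z
    have h1 : n3.a = a3.res α := rfl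
    rw [h1, Co.gl_res_left, ← Co.gl_hi_right, hhi z, ← h33, Co.gl_hi_right, Co.gl_self]
  have hCl : Cl α n3 (G y).1 := by
    obtain ⟨δy, hδy⟩ := (G y).2.2.1
    exact ⟨hn3r, (G y).2.1.toTV.mono hn31, ⟨δy, hδy.mono hn31⟩, (G y).2.2.2⟩
  obtain ⟨_, r1, hr1, hr1r, hr1T, hr1T'⟩ := liftP hg (a := a x) (q := r x) (hrc x) hCl hn3x
    ((hGyx.t.mono hn31).trans ((hLT x).mono hn3x))
  obtain ⟨_, r2, hr2, hr2r, hr2T, hr2T'⟩ := liftP hg (a := a y) (q := r y) (hrc y) hCl hn3y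
    ((hLT y).mono hn3y)
  rw [hgl] at hr1 hr1r hr2 hr2r
  have e1 : ro α a3 r1 = n3 := hr1r
  have e2 : ro α a3 r2 = n3 := hr2r
  have hres : r1.res α = r2.res α := by
    have h1 : (⟨a3.res α, r1.res α⟩ : Mt Ω) = ⟨a3.res α, r2.res α⟩ := e1.trans e2.symm
    exact congrArg Mt.q h1
  have hSB : SB d α a3 r1 r2 := by
    obtain ⟨δy, hδy⟩ := (G y).2.2.1
    refine ⟨hres, ?_, ?_, ?_⟩
    · rw [e1]
      exact hr1T.trans hr2T'
    · rw [e1]
      exact hr2T.trans hr1T'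
    · rw [e1]
      exact rcl_of_hts (hts_congr (hδy.mono hn31) hr1T hr1T')
  have hax : a3 ≤ a x := by
    rw [← hgl x]
    refine Co.gl_le ?_
    have h1 := hn3x.1
    have h2 : n3.a.res α = n3.a := Co.res_res_of_le le_rfl
    rw [h2]
    exact h1
  have hay : a3 ≤ a y := by
    rw [← hgl y]
    refine Co.gl_le ?_
    have h1 := hn3y.1
    have h2 : n3.a.res α = n3.a := Co.res_res_of_le le_rfl
    rw [h2]
    exact h1
  have hf1 : ∀ j < n, a3.f (c ξ j) = some (g j) := by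
    intro j hj
    refine h31 _ _ ?_
    rw [Co.gl_f, if_pos (hcl ξ hξ j)]
    exact hg1 j hj
  have hf2 : ∀ j < n, a3.f (c η j) = some (g' j) := by
    intro j hj
    refine h31 _ _ ?_
    rw [Co.gl_f, if_pos (hcl η hη j)]
    exact hg2 j hj
  have hq1 : Tm.Le a3 r1 (Q (c ξ)) := hr1.trans ((hr x).mono hax)
  have hq2 : Tm.Le a3 r2 (Q (c η)) := hr2.trans ((hr y).mono hay)
  obtain ⟨γ, hγ, i1, i2, hne', hB1, hB2⟩ := hsplit n w hw g g' hgg
  refine hne' (h.bc ha3 h33 (hq1.trans (hQq0 ξ hξ a3 ha3)) (hq2.trans (hQq0 η hη a3 ha3)) hSB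
    hγ.le hγ' (h.mono h32 (hq1.trans ((hQ (c ξ) (hcl ξ hξ) (hci ξ)).2 n g a3 hf1)) hB1)
    (h.mono h32 (hq2.trans ((hQ (c η) (hcl η hη) (hci η)).2 n g' a3 hf2)) hB2)
    (h.mono hax hr1 (hB x)) ?_)
  rw [hi]
  exact h.mono hay hr2 (hB y)

end Pool.Agent.T27

end

section

/-!
# There is no name of a branch which is split everywhere
-/

set_option linter.unusedSectionVars false

namespace Pool.Agent.T27

open Pool.Agent.Lib_helper27 Cardinal Cod

variable {Ω : Type} [LinearOrder Ω] [Cod Ω] [Inac Ω] {d : Ω → Dt Ω} {α : Ω} {a0 : Co Ω} {q0 : Tm Ω}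
  {B : Ω → Om1 → Co Ω → Tm Ω → Prop}

theorem not_BS (hcca : ∀ (f : Ω → Mt Ω) (g : Ω → Om1), (∀ ξ < α, (f ξ).res α = f ξ) →
      ∃ ξ η, ξ < η ∧ η < α ∧ g ξ = g η ∧ ∃ l, l ≤ f ξ ∧ l ≤ f η) : ¬ BS d α a0 q0 B := by
  intro h
  obtain ⟨e, qr, hr, hG, he, he'⟩ := exists_en h
  obtain ⟨q, hq, hle, hW⟩ := fusion h hr hG he
  obtain ⟨Q, hQ⟩ := exists_reals h hq hle he he'
  exact finish h hcca (fun f => ((hq 0).root f).trans hr) (fun n => (hq n).dep) hW hQ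

end Pool.Agent.T27

end
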