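import Pool.Agent.Lib_helper27.TM.D
import Pool.Agent.Lib_helper27.Q.CSys
import Pool.Agent.Lib_helper27.T.SysG
import Pool.Agent.Lib_helper27.Q.Int
import Pool.Agent.Lib_helper27.Exist

section

/-!
# Part E: the poset `Pc`
-/

set_option linter.unusedSectionVars false

namespace Pool.Agent.T27

open Pool.Agent.Lib_helper27 Cardinal Cod

variable {Ω : Type} [LinearOrder Ω] [Cod Ω]

/-! ### PCB -/

/-! ### DM2 -/

/-! ### FEW -/

/-- it is forced that `Λ` has no injection into `Γ` -/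
def Few (P Γ Λ : Type) [Preorder P] : Prop :=
  ∀ F : Λ → Γ → P → Prop, (∀ x i p q, q ≤ p → F x i p → F x i q) →
    ∀ p, (∀ x, Loc p fun q => ∃ i, F x i q) → ∃ q ≤ p, ∃ x y i, x ≠ y ∧ F x i q ∧ F y i q

/-! ### HGX, CHX: for an arbitrary poset -/

section gen

open Fml V Pool.Agent.Lib_helper27.Q

variable {P : Type} [Preorder P]

end gen

/-! ### ULM: names of branches -/

/-- an abstract name, over `Pc`, of a tree relation without branches below `p0` -/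
structure TR (R : Ω → Om1 → Ω → Om1 → Pc Ω → Prop) (p0 : Pc Ω) : Prop where
  mono : ∀ {γ i δ j p q}, q ≤ p → R γ i δ j p → R γ i δ j q
  reg : ∀ {γ i δ j p}, Loc p (R γ i δ j) → R γ i δ j p
  s3 : ∀ {γ i δ j ε k p}, p ≤ p0 → γ < δ → R γ i ε k p → R δ j ε k p → R γ i δ j p
  s4 : ∀ {γ i j ε k p}, p ≤ p0 → R γ i ε k p → R γ j ε k p → i = j
  s5 : ∀ δ, ∀ p ≤ p0, ∃ q ≤ p, ∃ j, ∀ γ < δ, Loc q fun s => ∃ i, R γ i δ j s
  nb : ∀ (Q : Ω → Om1 → Pc Ω → Prop), ∀ p ≤ p0, (∀ γ i q q', q' ≤ q → Q γ i q → Q γ i q') →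
    (∀ γ, Loc p fun q => ∃ i, Q γ i q) → (∀ q ≤ p, ∀ γ i j, Q γ i q → Q γ j q → i = j) →
      (∀ q ≤ p, ∀ γ i δ j, γ < δ → Q γ i q → Q δ j q → R γ i δ j q) → False

/-- a name of a branch over the conditions bounded below `α` -/
structure BNP (α : Ω) (R : Ω → Om1 → Ω → Om1 → Pc Ω → Prop) (r : Pc Ω)
    (Q : Ω → Om1 → Pc Ω → Prop) : Prop where
  mono : ∀ {γ i p p'}, Pin α p' → p' ≤ p → Q γ i p → Q γ i p'
  tot : ∀ γ < α, ∀ p, Pin α p → p ≤ r → ∃ p' ≤ p, Pin α p' ∧ ∃ i, Q γ i p'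
  uni : ∀ {γ i j p}, Pin α p → p ≤ r → Q γ i p → Q γ j p → i = j
  coh : ∀ {γ i δ j p}, γ < δ → δ < α → Pin α p → p ≤ r → Q γ i p → Q δ j p →
    ∃ p' ≤ p, Pin α p' ∧ R γ i δ j p'

/-! ### DCX -/

/-! ### MST -/


/-! ### ZTX: the nodes of the generic tree, indexed by `ω₁` -/

/-- the `i`-th node of the level `γ` -/
noncomputable def zt (cb : Ω → Ω) (e : Dt Ω) (γ : Ω) (i : Om1) : Nm Ω := fun ξ => Rg fun k =>
  (∃ η, k.1.q.v (cb γ) i η k.1.a ∧ e.z γ η ξ k) ∨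
    ((∀ m' ≤ k.1, ∀ η, ¬ m'.q.v (cb γ) i η m'.a) ∧ e.z γ b0 ξ k)

variable {cb : Ω → Ω}

/-! ### SSX: the tree relation -/

/-- it is forced by `p` and `s` that `(γ, i)` is below `(δ, j)`, and `i` is minimal -/
structure SSP (cb : Ω → Ω) (p : Pc Ω) (γ : Ω) (i : Om1) (δ : Ω) (j : Om1) (s : Cn) : Prop where
  ht : p.e.H δ p.m
  lt : γ < δ
  eq : EqB (p.m, s) γ (zt cb p.e γ i) (zt cb p.e δ j)
  min : ∀ i' < i, ∀ k ≤ ((p.m, s) : K Ω), ¬ EqB k γ (zt cb p.e γ i') (zt cb p.e δ j)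

/-! ### KIL: there is no branch -/

end Pool.Agent.T27

end

section

/-!
# Block PCB: basic facts on the poset `Pc`
-/

set_option linter.unusedSectionVars false

namespace Pool.Agent.T27

open Pool.Agent.Lib_helper27 Cardinal Cod

variable {Ω : Type} [LinearOrder Ω] [Cod Ω]

namespace PCB

theorem exists_gt [Inac Ω] (α : Ω) : ∃ β, α < β := by
  obtain ⟨b, hb⟩ := Inac.reg (Ω := Ω) Unit (fun _ => α) (by
    have h1 : (1 : Cardinal.{0}) < aleph 1 := by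
      refine lt_of_lt_of_le Cardinal.one_lt_aleph0 ?_
      exact Cardinal.aleph0_le_aleph 1
    rw [Cardinal.mk_unit]
    exact h1.trans Inac.unc)
  exact ⟨b, hb ()⟩

open Classical in
/-- the tree with one level -/
noncomputable def e1 : Dt Ω where
  H γ := if γ = b0 then RP.top else RP.bot
  z _ _ _ := RP.bot
  x _ := RP.bot

theorem e1_H {γ : Ω} {m : Mt Ω} : (e1 : Dt Ω).H γ m ↔ γ = b0 := by
  show (if γ = b0 then RP.top else RP.bot : RP (Mt Ω)) m ↔ _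
  split_ifs with h
  · exact ⟨fun _ => h, fun _ => trivial⟩
  · exact ⟨fun h' => h'.elim, fun h' => (h h').elim⟩

theorem not_lt_b0 {ξ : Ω} (h : ξ < b0) : False := absurd h (not_lt.2 (b0_le ξ))

end PCB

open PCB

theorem pc_nonempty [Inac Ω] : Nonempty (Pc Ω) := by
  obtain ⟨β, hβ⟩ := exists_gt (b0 : Ω)
  obtain ⟨m⟩ : Nonempty (Mt Ω) := inferInstance
  refine ⟨⟨m, e1, ⟨?_, ?_, ?_, ?_⟩, ⟨b0, fun γ => ⟨fun h => ?_, fun h m' _ hH => ?_⟩⟩, ⟨β, ?_⟩⟩⟩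
  · intro m' γ γ' _ hH hle
    rw [e1_H] at hH ⊢
    subst hH
    exact le_antisymm hle (b0_le _)
  · intro m' γ γ' _ hH hle i
    rw [e1_H] at hH
    subst hH
    exact fun k _ => ⟨k, le_rfl, i, fun k' _ ξ hξ => (not_lt_b0 (hξ.trans_le hle)).elim⟩
  · intro m' γ γ' _ hH hle i j
    rw [e1_H] at hH
    subst hH
    exact fun k _ => ⟨k, le_rfl, i, fun k' _ ξ hξ => (not_lt_b0 hξ).elim⟩
  · intro m' γ _ hH ξ hξ i
    rw [e1_H] at hH
    subst hH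
    exact (not_lt_b0 hξ).elim
  · rw [e1_H]
    exact le_antisymm h (b0_le _)
  · rw [e1_H] at hH
    rw [hH] at h
    exact lt_irrefl _ h
  · refine ⟨?_, ?_, ?_, ?_, ?_, ?_, ?_⟩
    · intro γ m h
      rw [e1_H] at h
      rw [h]
      exact hβ
    · intro γ m h
      rw [e1_H] at h ⊢
      exact h
    · intro γ i ξ k h
      exact h.elim
    · intro γ i ξ k h
      exact h.elim
    · intro γ i _
      rfl
    · intro ξ k h
      exact h.elim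
    · intro ξ k h
      exact h.elim

theorem pc_tall [Inac Ω] (p : Pc Ω) (ε : Ω) :
    ∃ p' ≤ p, p'.m = p.m ∧ p'.e.H ε p'.m := by
  obtain ⟨δ, hδ⟩ := p.cl
  rcases le_or_gt ε δ with h | h
  · exact ⟨p, le_rfl, rfl, (hδ ε).1 h⟩
  · obtain ⟨β, hb⟩ := p.bd
    obtain ⟨β', hβ'⟩ := exists_gt (max β (max δ ε))
    have h1 : β ≤ β' := ((le_max_left _ _).trans_lt hβ').le
    have h2 : δ < β' := ((le_max_left _ _).trans (le_max_right _ _)).trans_lt hβ'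
    have h3 : ε < β' := ((le_max_right _ _).trans (le_max_right _ _)).trans_lt hβ'
    refine ⟨⟨p.m, ext p.e δ ε, ext_TV hb p.tv hδ h.le, ⟨ε, ext_Hts hδ h.le⟩,
      ⟨β', ext_bd hb h1 h2 h3⟩⟩, ⟨le_rfl, (ext_le hδ).t⟩, rfl, ?_⟩
    exact (ext_Hts hδ h.le ε).1 le_rfl

theorem mk_pin [Inac Ω] (β : Ω) : #{p : Pc Ω // p.m.res β = p.m ∧ Bd β p.e} < #Ω := by
  have h0 : ℵ₀ ≤ #Ω := (Cardinal.aleph0_le_aleph 1).trans (Inac.unc (Ω := Ω)).le
  have h1 : #({m : Mt Ω // m.res β = m} × {e : Dt Ω // Bd β e}) < #Ω := by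
    rw [Cardinal.mk_prod, Cardinal.lift_id, Cardinal.lift_id]
    exact Cardinal.mul_lt_of_lt h0 (mk_res β) (mk_bd β)
  refine lt_of_le_of_lt (Cardinal.mk_le_of_injective
    (f := fun p : {p : Pc Ω // p.m.res β = p.m ∧ Bd β p.e} =>
      ((⟨p.1.m, p.2.1⟩, ⟨p.1.e, p.2.2⟩) : {m : Mt Ω // m.res β = m} × {e : Dt Ω // Bd β e})) ?_) h1
  rintro ⟨⟨m, e, _, _, _⟩, _⟩ ⟨⟨m', e', _, _, _⟩, _⟩ h
  simp only [Prod.mk.injEq, Subtype.mk.injEq] at h
  obtain ⟨h1, h2⟩ := h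
  subst h1
  subst h2
  rfl

theorem pin_ae [Inac Ω] {U : Ultrafilter Ω} (hU : NUlt U) (p : Pc Ω) :
    {α | Pin α p} ∈ U := by
  obtain ⟨β0, h0⟩ := Mt.exists_res p.m
  obtain ⟨β1, h1⟩ := p.bd
  refine Filter.mem_of_superset (hU.tail (max β0 β1)) fun α hα => ?_
  refine ⟨max β0 β1, hα, ?_, h1.mono (le_max_right _ _)⟩
  rw [← h0]
  exact Mt.res_res_of_le' (le_max_left _ _)

theorem exists_cb [Inac Ω] {U : Ultrafilter Ω} (hU : NUlt U) :
    ∃ cb : Ω → Ω, ∀ γ, Act (cb γ) ∧ om γ < cb γ := by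
  have h : ∀ γ : Ω, ∃ β, Act β ∧ om γ < β := by
    intro γ
    obtain ⟨β, h1, h2⟩ := Filter.nonempty_of_mem (Filter.inter_mem hU.act (hU.tail (om γ)))
    exact ⟨β, h1, h2⟩
  choose cb hcb using h
  exact ⟨cb, hcb⟩

end Pool.Agent.T27

end

section

/-!
# Block DM2: mixtures and limits
-/

set_option linter.unusedSectionVars false

namespace Pool.Agent.T27

open Pool.Agent.Lib_helper27 Cardinal Cod

variable {Ω : Type} [LinearOrder Ω]

/-- an element above a given one -/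
theorem DM2.exists_gt [Inac Ω] (b : Ω) : ∃ c, b < c := by
  have h1 : #Unit < #Ω := by
    rw [mk_unit]
    refine lt_trans ?_ (Inac.unc (Ω := Ω))
    exact one_lt_aleph0.trans_le (aleph0_le_aleph 1)
  obtain ⟨c, hc⟩ := Inac.reg Unit (fun _ => b) h1
  exact ⟨c, hc ()⟩

/-- a maximal antichain in a set which is dense below `m` -/
theorem DM2.antichain (D : Mt Ω → Prop) (m : Mt Ω) (hD : ∀ m' ≤ m, ∃ m'' ≤ m', D m'') :
    ∃ W : Set (Mt Ω), (∀ w ∈ W, D w) ∧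
      (∀ w ∈ W, ∀ w' ∈ W, (∃ l, l ≤ w ∧ l ≤ w') → w = w') ∧
      ∀ q ≤ m, ∃ r ≤ q, ∃ w ∈ W, r ≤ w := by
  obtain ⟨W, hW⟩ := zorn_subset
    {W : Set (Mt Ω) | (∀ w ∈ W, D w) ∧ ∀ w ∈ W, ∀ w' ∈ W, (∃ l, l ≤ w ∧ l ≤ w') → w = w'} (by
      intro c hc hch
      refine ⟨⋃₀ c, ⟨?_, ?_⟩, fun s hs => Set.subset_sUnion_of_mem hs⟩
      · rintro w ⟨s, hs, hw⟩
        exact (hc hs).1 w hw
      · rintro w ⟨s, hs, hw⟩ w' ⟨s', hs', hw'⟩ hl
        rcases hch.total hs hs' with h | h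
        · exact (hc hs').2 w (h hw) w' hw' hl
        · exact (hc hs).2 w hw w' (h hw') hl)
  refine ⟨W, hW.prop.1, hW.prop.2, fun q hq => ?_⟩
  by_contra hcon
  push Not at hcon
  obtain ⟨d, hd, hDd⟩ := hD q hq
  have hinc : ∀ w ∈ W, ¬ ∃ l, l ≤ d ∧ l ≤ w := by
    rintro w hw ⟨l, h1, h2⟩
    exact hcon l (h1.trans hd) w hw h2
  have hins : insert d W ∈
      {W : Set (Mt Ω) | (∀ w ∈ W, D w) ∧ ∀ w ∈ W, ∀ w' ∈ W, (∃ l, l ≤ w ∧ l ≤ w') → w = w'} := by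
    refine ⟨?_, ?_⟩
    · rintro w (rfl | hw)
      · exact hDd
      · exact hW.prop.1 w hw
    · rintro w (rfl | hw) w' (rfl | hw') ⟨l, h1, h2⟩
      · rfl
      · exact (hinc w' hw' ⟨l, h1, h2⟩).elim
      · exact (hinc w hw ⟨l, h2, h1⟩).elim
      · exact hW.prop.2 w hw w' hw' ⟨l, h1, h2⟩
  have hmem : d ∈ W := hW.le_of_ge hins (Set.subset_insert d W) (Set.mem_insert d W)
  exact hinc d hmem ⟨d, le_rfl, le_rfl⟩

variable [Cod Ω]

theorem dmixD [Inac Ω] {U : Ultrafilter Ω} (hU : NUlt U) {m : Mt Ω} {e : Dt Ω} (he : DV m e)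
    (hc : ∃ δ, Hts m e δ) (hb : ∃ β, Bd β e) (Φ : Mt Ω → Dt Ω → Prop)
    (hΦ : ∀ m' ≤ m, ∃ m'' ≤ m', ∃ e'', DV m'' e'' ∧ (∃ δ, Hts m'' e'' δ) ∧ (∃ β, Bd β e'') ∧
      LeD m'' e'' e ∧ Φ m'' e'')
    (mono : ∀ m' e' m'' e'', Φ m' e' → m'' ≤ m' → LeD m'' e'' e' → Φ m'' e'') :
    ∃ e', DV m e' ∧ (∃ δ, Hts m e' δ) ∧ (∃ β, Bd β e') ∧ LeD m e' e ∧
      Loc m fun m' => Φ m' e' := by
  classical
  obtain ⟨W, hW1, hW2, hW3⟩ := DM2.antichain (fun m'' => ∃ e'', DV m'' e'' ∧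
    (∃ δ, Hts m'' e'' δ) ∧ (∃ β, Bd β e'') ∧ LeD m'' e'' e ∧ Φ m'' e'') m hΦ
  have hcard : #W < #Ω := cc_card hU W hW2
  have hch : ∀ w : W, ∃ (e'' : Dt Ω) (δ β ρ : Ω), DV w.1 e'' ∧ Hts w.1 e'' δ ∧ Bd β e'' ∧
      LeD w.1 e'' e ∧ Φ w.1 e'' ∧ w.1.res ρ = w.1 := by
    intro w
    obtain ⟨e'', h1, ⟨δ, h2⟩, ⟨β, h3⟩, h4, h5⟩ := hW1 w.1 w.2
    obtain ⟨ρ, hρ⟩ := Mt.exists_res w.1
    exact ⟨e'', δ, β, ρ, h1, h2, h3, h4, h5, hρ⟩
  choose E δ β ρ h1 h2 h3 h4 h5 h6 using hch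
  obtain ⟨ε, hε⟩ := Inac.reg W (fun w => max (β w) (max (δ w) (ρ w))) hcard
  have hεβ : ∀ w, β w < ε := fun w => (le_max_left _ _).trans_lt (hε w)
  have hεδ : ∀ w, δ w < ε := fun w =>
    ((le_max_left _ _).trans (le_max_right _ _)).trans_lt (hε w)
  have hερ : ∀ w, ρ w < ε := fun w =>
    ((le_max_right _ _).trans (le_max_right _ _)).trans_lt (hε w)
  obtain ⟨β', hβ'⟩ := DM2.exists_gt ε
  -- the extended data
  set E' : W → Dt Ω := fun w => ext (E w) (δ w) ε with hE'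
  have g1 : ∀ w, DV w.1 (E' w) := fun w => ext_DV (h3 w) (h1 w) (h2 w) (hεδ w).le
  have g2 : ∀ w, Hts w.1 (E' w) ε := fun w => ext_Hts (h2 w) (hεδ w).le
  have g3 : ∀ w, LeD w.1 (E' w) (E w) := fun w => ext_le (h2 w)
  have g4 : ∀ w, Bd β' (E' w) := fun w =>
    ext_bd (h3 w) ((hεβ w).trans hβ').le ((hεδ w).trans hβ') hβ'
  have g5 : ∀ w : W, w.1.res β' = w.1 := by
    intro w
    conv_lhs => rw [← h6 w]
    rw [Mt.res_res_of_le' ((hερ w).trans hβ').le, h6 w]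
  set φ : W → Mt Ω → Prop := fun w m' => m' ≤ w.1 with hφdef
  have hφ : ∀ l m m', m' ≤ m → φ l m → φ l m' := fun l m m' h h' => h.trans h'
  have hcoh : Coh φ E' := by
    intro l l' m' hl hl'
    have : l = l' := Subtype.ext (hW2 l.1 l.2 l'.1 l'.2 ⟨m', hl, hl'⟩)
    subst this
    exact Loc.pure fun q _ => Or.inl (LeD.refl _ _)
  have hdv : ∀ l m', φ l m' → DV m' (E' l) := fun l m' h => (g1 l).mono h
  have hdn : ∀ l' m', φ l' m' → ∀ γ' γ'', γ' ≤ γ'' → (E' l').H γ'' m' → (E' l').H γ' m' :=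
    fun l' m' h γ' γ'' hle hH => (hdv l' m' h).dn le_rfl hH hle
  refine ⟨UN φ E', UN_DV hφ hcoh hdv m, ⟨ε, fun γ => ⟨fun hγ => ?_, fun hγ m' hm' hH => ?_⟩⟩,
    ⟨β', ?_⟩, ?_, ?_⟩
  · intro q hq
    obtain ⟨r, hr, w, hw, hrw⟩ := hW3 q hq
    exact ⟨r, hr, ⟨w, hw⟩, hrw, ((E' ⟨w, hw⟩).H γ).mono hrw ((g2 ⟨w, hw⟩ γ).1 hγ)⟩
  · obtain ⟨r, -, l, hl, hH'⟩ := Loc.exists hH
    exact (g2 l γ).2 hγ r hl hH'
  · refine UN_bd hφ ?_ fun l _ _ => g4 l
    intro l m' hl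
    have := Mt.res_mono (α := β') hl
    rw [g5 l] at this
    exact this
  · refine LeD.dense fun q hq => ?_
    obtain ⟨r, hr, w, hw, hrw⟩ := hW3 q hq
    refine ⟨r, hr, ?_⟩
    exact (UN_le (l := ⟨w, hw⟩) hφ hcoh hrw hdn).trans
      (((g3 ⟨w, hw⟩).trans (h4 ⟨w, hw⟩)).mono hrw)
  · intro q hq
    obtain ⟨r, hr, w, hw, hrw⟩ := hW3 q hq
    refine ⟨r, hr, mono _ _ _ _ (h5 ⟨w, hw⟩) hrw ?_⟩
    exact (UN_le (l := ⟨w, hw⟩) hφ hcoh hrw hdn).trans ((g3 ⟨w, hw⟩).mono hrw)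

theorem dlimT [Inac Ω] {m : Mt Ω} {e : ℕ → Dt Ω} {δ : ℕ → Ω} (hv : ∀ n, DV m (e n))
    (hc : ∀ n, Hts m (e n) (δ n)) (hb : ∀ n, ∃ β, Bd β (e n)) (hδ : ∀ n, δ n < δ (n + 1))
    (hle : ∀ n, LeD m (e (n + 1)) (e n)) : ∃ e' δ', DV m e' ∧ Hts m e' δ' ∧ (∃ β, Bd β e') ∧
      (∀ n, LeD m e' (e n)) ∧ (∀ n, δ n < δ') ∧ (∀ γ < δ', ∃ n, γ < δ n) ∧
      ∀ m' ≤ m, ∀ y, In m' δ' (e'.z δ') y → ∀ k : K Ω, k.1 ≤ m' → ∃ k' ≤ k, ∃ γ < δ',
        ∀ k'' ≤ k', ∀ ξ, γ ≤ ξ → ξ < δ' → (y ξ k'' ↔ e'.x ξ k'') := by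
  classical
  -- a common bound
  choose bb hbb using hb
  have hN : #ℕ < #Ω := by
    rw [mk_nat]
    exact (aleph0_le_aleph 1).trans_lt (Inac.unc (Ω := Ω))
  obtain ⟨β, hβ⟩ := Inac.reg ℕ bb hN
  have hb : ∀ i, Bd β (e i) := fun i => (hbb i).mono (hβ i).le
  have hle2 : ∀ i j, i ≤ j → LeD m (e j) (e i) := by
    intro i j hij
    induction j, hij using Nat.le_induction with
    | base => exact LeD.refl _ _
    | succ j _ ih => exact (hle j).trans ih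
  have hv' : ∀ i, DV (m.res β) (e i) := fun i => (DV_res (hb i)).2 (hv i)
  have hle' : ∀ i j, i ≤ j → LeD (m.res β) (e j) (e i) := fun i j hij =>
    (LeD_res (hb i) (hb j)).2 (hle2 i j hij)
  let φ : ℕ → Mt Ω → Prop := fun _ m' => m' ≤ m.res β
  have hφ : ∀ l m1 m', m' ≤ m1 → φ l m1 → φ l m' := fun l m1 m' h1 h2 => h1.trans h2
  have hcoh : Coh φ e := by
    intro l l' m' h1 _
    refine Loc.pure fun m'' hm'' => ?_
    rcases le_total l l' with h | h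
    · exact Or.inr ((hle' l l' h).mono (hm''.trans h1))
    · exact Or.inl ((hle' l' l h).mono (hm''.trans h1))
  have hdn : ∀ l' m', φ l' m' → ∀ γ' γ'', γ' ≤ γ'' → (e l').H γ'' m' → (e l').H γ' m' :=
    fun l' m' h1 γ' γ'' h2 h3 => (hv' l').dn h1 h3 h2
  have hφm : ∀ i, φ i m := fun _ => Mt.le_res _ _
  have huv : DV m (UN φ e) := UN_DV hφ hcoh (fun l m' h => (hv' l).mono h) m
  have hub : Bd β (UN φ e) := by
    refine UN_bd hφ (fun l m' h => ?_) fun l m' _ => hb l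
    have h1 := Mt.res_mono (α := β) h
    rwa [Mt.res_res_of_le le_rfl] at h1
  have hule : ∀ i, LeD m (UN φ e) (e i) := fun i => UN_le hφ hcoh (hφm i) hdn
  have hδβ : ∀ i, δ i < β := fun i => (hb i).H0 ((hc i (δ i)).1 le_rfl)
  have hup : ∀ (γ : Ω) (m' : Mt Ω), m' ≤ m → (UN φ e).H γ m' → ∃ i, γ ≤ δ i := by
    intro γ m' hm' hH
    obtain ⟨m'', hm'', l, _, h2⟩ := hH m' le_rfl
    exact ⟨l, (hc l).le_of_H (hm''.trans hm') h2⟩
  have hlow : ∀ (γ : Ω) (i : ℕ), γ ≤ δ i → (UN φ e).H γ m := fun γ i h =>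
    ((hule i).t m le_rfl γ ((hc i γ).1 h)).1
  have hne : {x : Ω | ∀ i, δ i < x}.Nonempty := ⟨β, hδβ⟩
  have hmem := (wellFounded_lt (α := Ω)).min_mem {x : Ω | ∀ i, δ i < x} hne
  set δ' := (wellFounded_lt (α := Ω)).min {x : Ω | ∀ i, δ i < x} hne with hδ'
  have hmin : ∀ x, x < δ' → ∃ i, x < δ i := by
    intro x hx
    by_contra hcon
    push Not at hcon
    refine (wellFounded_lt (α := Ω)).not_lt_min {x : Ω | ∀ i, δ i < x} (x := x) (fun i => ?_) hx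
    exact (hδ i).trans_le (hcon (i + 1))
  have hLmt : Lmt δ' := by
    intro γ' hγ'
    obtain ⟨i, hi⟩ := hmin γ' hγ'
    exact ⟨δ i, hi, hmem i⟩
  have hHop : Hop m (UN φ e) δ' := by
    intro γ
    refine ⟨fun h => ?_, fun h m' hm' hH => ?_⟩
    · obtain ⟨i, hi⟩ := hmin γ h
      exact hlow γ i hi.le
    · obtain ⟨i, hi⟩ := hup γ m' hm' hH
      exact absurd (h.trans hi) (not_le.2 (hmem i))
  have hbr : ∀ _ : ℕ, Brn m (UN φ e) (UN φ e).x := fun _ => huv.br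
  obtain ⟨β', hβ'⟩ := DM2.exists_gt β
  refine ⟨cap (UN φ e) fun _ => (UN φ e).x, δ', ⟨cap_TV hub huv.toTV hbr, ?_⟩,
    cap_Hts_lim _ hHop hLmt, ⟨β', cap_bd hub (fun _ => hub.x) hβ'⟩, ?_, hmem, hmin, ?_⟩
  · exact cap_brn hub huv.toTV hbr huv.br fun k _ => ⟨k, le_rfl, 0, fun γ _ _ => EqB.refl _ _ _⟩
  · intro i
    exact (cap_le _).trans (hule i)
  · intro m' hm' y hy k hk
    obtain ⟨k', hk', n, γ, hγ, h⟩ := cap_top (hHop.mono hm') hLmt ((b0_le _).trans_lt (hmem 0))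
      hy hk
    exact ⟨k', hk', γ, hγ, h⟩

end Pool.Agent.T27

end

section

set_option linter.unusedSectionVars false

namespace Pool.Agent.T27

open Pool.Agent.Lib_helper27 Cardinal Cod

variable {Ω : Type} [LinearOrder Ω] [Cod Ω]

/-- the terms, ordered by `Tm.Le Co.emp` -/
structure FW1_T (Ω : Type) [LinearOrder Ω] : Type where
  /-- the term -/
  t : Tm Ω

instance : Preorder (FW1_T Ω) where
  le r q := Tm.Le Co.emp r.t q.t
  le_refl q := Tm.Le.refl _ _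
  le_trans _ _ _ h1 h2 := h1.trans h2

theorem few1 [Inac Ω] {U : Ultrafilter Ω} (hU : NUlt U) : Few (Pc Ω) ℕ Om1 := by
  classical
  intro F mono p hp
  have hI : #Om1 < #Ω := by
    have : #Om1 = aleph 1 := Q.mk_om1
    rw [this]
    exact Inac.unc
  obtain ⟨p', hp', _, hD⟩ := exP hU p hI (fun x r => ∃ i, F x i r)
    (fun x r r' hr ⟨i, hi⟩ => ⟨i, mono x i r r' hr hi⟩) (fun x r hr => hp x r hr)
  have hrs : ∀ {m m' : Mt Ω} (h : m ≤ p'.m) (h' : m' ≤ p'.m), m' ≤ m →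
      p'.rs m' h' ≤ p'.rs m h := fun h h' hm => ⟨hm, LeT.refl _ _⟩
  obtain ⟨g, hg, hg'⟩ := seqD (S := FW1_T Ω) (I := Om1)
    (by
      intro x hx f hf
      have : Countable (Set.Iio x) := Set.countable_coe_iff.2 (countable_iio1 x)
      have := hx
      refine ⟨⟨Tm.lim (fun j => (f j).t) fun i j hij => hf hij⟩, fun i => ?_⟩
      exact Tm.lim_le (fun j => (f j).t) (fun i j hij => hf hij) i)
    (fun x => {q : FW1_T Ω | ∃ a : Co Ω, ∃ i : ℕ, ∃ h : (⟨a, q.t⟩ : Mt Ω) ≤ p'.m,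
      F x i (p'.rs ⟨a, q.t⟩ h)})
    ⟨p'.m.q⟩
    (by
      intro x q hq
      have h1 : (⟨p'.m.a, q.t⟩ : Mt Ω) ≤ p'.m := ⟨le_rfl, Tm.Le.of_emp hq⟩
      obtain ⟨m', hm', h2, i, hi⟩ := hD x ⟨p'.m.a, q.t⟩ h1
      have h3 : Tm.Le m'.a m'.q q.t := hm'.2
      refine ⟨⟨Tm.mix m'.a m'.q q.t⟩, Tm.mix_le h3, m'.a, i, ?_⟩
      have h4 : (⟨m'.a, Tm.mix m'.a m'.q q.t⟩ : Mt Ω) ≤ m' := ⟨le_rfl, Tm.mix_eq1 h3⟩
      exact ⟨h4.trans h2, mono x i _ _ (hrs h2 (h4.trans h2) h4) hi⟩)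
  have hg2 : ∀ x, ∃ a : Co Ω, ∃ i : ℕ, ∃ h : (⟨a, (g x).t⟩ : Mt Ω) ≤ p'.m,
      F x i (p'.rs ⟨a, (g x).t⟩ h) := fun x => (hg' x).2
  choose a n ha hF using hg2
  have hunc : Uncountable Om1 := by
    rw [← Cardinal.aleph0_lt_mk_iff]
    have : #Om1 = aleph 1 := Q.mk_om1
    rw [this]
    exact aleph0_lt_aleph_one
  obtain ⟨k, hk⟩ : ∃ k, ¬ (n ⁻¹' {k}).Countable := by
    by_contra hcon
    push Not at hcon
    have h1 : (Set.univ : Set Om1).Countable := by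
      have h2 : (Set.univ : Set Om1) = ⋃ k, n ⁻¹' {k} := by
        ext x
        simp
      rw [h2]
      exact Set.countable_iUnion hcon
    exact Set.not_countable_univ h1
  have : Uncountable (n ⁻¹' {k}) := by
    rw [← not_countable_iff]
    intro hc
    exact hk (Set.countable_coe_iff.1 hc)
  obtain ⟨x, y, hxy, hcp, _⟩ := ccc2 (fun x : (n ⁻¹' {k} : Set Om1) => a x.1)
    (fun x : (n ⁻¹' {k} : Set Om1) => a x.1)
  have hx : n x.1 = k := x.2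
  have hy : n y.1 = k := y.2
  have hne : x.1 ≠ y.1 := fun he => hxy (Subtype.ext he)
  set z := max x.1 y.1 with hz
  have h1 : (⟨Co.un (a x.1) (a y.1), (g z).t⟩ : Mt Ω) ≤ ⟨a x.1, (g x.1).t⟩ :=
    ⟨Co.un_le_left _ _, Tm.Le.of_emp (hg (le_max_left x.1 y.1))⟩
  have h2 : (⟨Co.un (a x.1) (a y.1), (g z).t⟩ : Mt Ω) ≤ ⟨a y.1, (g y.1).t⟩ :=
    ⟨Co.un_le_right hcp, Tm.Le.of_emp (hg (le_max_right x.1 y.1))⟩
  refine ⟨p'.rs _ (h1.trans (ha x.1)), le_trans ?_ hp', x.1, y.1, k, hne, ?_, ?_⟩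
  · exact ⟨h1.trans (ha x.1), LeT.refl _ _⟩
  · have h3 := hF x.1
    rw [hx] at h3
    exact mono _ _ _ _ (hrs (ha x.1) (h1.trans (ha x.1)) h1) h3
  · have h3 := hF y.1
    rw [hy] at h3
    exact mono _ _ _ _ (hrs (ha y.1) (h1.trans (ha x.1)) h2) h3

end Pool.Agent.T27

end

section

/-!
# There is no injection of `Ω` into `ω₁`, and the elements of `Ω` are collapsed
-/

set_option linter.unusedSectionVars false

namespace Pool.Agent.T27

open Pool.Agent.Lib_helper27 Cardinal Cod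

variable {Ω : Type} [LinearOrder Ω] [Cod Ω]

/-- the closed valid bounded data over `m`, with a branch -/
structure FW2_T {Ω : Type} [LinearOrder Ω] [Cod Ω] (m : Mt Ω) : Type where
  /-- the data -/
  e : Dt Ω
  dv : DV m e
  cl : ∃ δ, Hts m e δ
  bd : ∃ β, Bd β e

instance (m : Mt Ω) : Preorder (FW2_T m) where
  le e' e := LeD m e'.e e.e
  le_refl e := LeD.refl _ _
  le_trans _ _ _ h1 h2 := h1.trans h2

/-- the node `b0` of the last level is a branch -/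
theorem FW2_brn {m : Mt Ω} {e : Dt Ω} (hv : TV m e) {δ : Ω} (hδ : Hts m e δ) :
    Brn m e (e.z δ b0) := fun _ _ hm hH =>
  hv.res hm ((hδ.mono hm δ).1 le_rfl) (hδ.le_of_H hm hH) b0

theorem FW2_bdN {β : Ω} {e : Dt Ω} (h : Bd β e) (δ : Ω) : BdN β (e.z δ b0) :=
  ⟨fun h1 => (h.z0 h1).2.trans (h.z0 h1).1, fun h1 => h.zb h1⟩

theorem FW2_gt [Inac Ω] (x : Ω) : ∃ y, x < y := by
  obtain ⟨b, hb⟩ := Inac.reg (Ω := Ω) Unit (fun _ => x) (by
    refine lt_of_le_of_lt (b := aleph 1) ?_ Inac.unc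
    rw [mk_unit]
    exact one_le_aleph0.trans aleph0_lt_aleph_one.le)
  exact ⟨b, hb ()⟩

theorem few2 [Inac Ω] {U : Ultrafilter Ω} (hU : NUlt U) : Few (Pc Ω) Om1 Ω := by
  intro F mono p hp
  obtain ⟨β0, hβ0⟩ := Mt.exists_res p.m
  obtain ⟨δ0, hδ0⟩ := p.cl
  have hbw : ∀ (e : Dt Ω) (y : Nm Ω) {m : Mt Ω} {δ : Ω}, Hts m e δ → Hts m (e.wx y) δ :=
    fun e y m δ h => h
  -- the chain
  obtain ⟨g, hg, hg'⟩ := seqD (S := FW2_T p.m) (I := Ω)
    (by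
      intro x hx f hf
      have h1 : ∀ i, ∃ β, Bd β (f i).e := fun i => (f i).bd
      choose β hβ using h1
      obtain ⟨b, hb⟩ := Inac.reg (Set.Iio x) β (Inac.init x)
      obtain ⟨e', h2, h3, h4, h5⟩ := dlim (m := p.m) (I := Set.Iio x) (e := fun i => (f i).e)
        (fun i => (f i).dv) (fun i => (f i).cl) (β := b) (fun i => (hβ i).mono (hb i).le)
        (fun i j hij => hf hij)
      obtain ⟨b', hb'⟩ := FW2_gt b
      exact ⟨⟨e', h2, h3, b', h4 b' hb'⟩, h5⟩)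
    (fun x => {e : FW2_T p.m | LeT p.m e.e p.e → ∃ m : Mt Ω, ∃ i : Om1, ∃ r : Pc Ω, r.m = m ∧
      m ≤ p.m ∧ F x i r ∧ LeT m e.e r.e})
    ⟨p.e.wx (p.e.z δ0 b0), ⟨⟨p.tv.dn, p.tv.res, p.tv.rep, p.tv.flp⟩, FW2_brn p.tv hδ0⟩,
      ⟨δ0, hδ0⟩, p.bd.imp fun β h => h.wx (FW2_bdN h δ0)⟩
    (by
      intro x e _
      by_cases hle : LeT p.m e.e p.e
      · let pe : Pc Ω := ⟨p.m, e.e, e.dv.toTV, e.cl, e.bd⟩
        obtain ⟨r, hr, i, hi⟩ := hp x pe ⟨le_rfl, hle⟩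
        obtain ⟨δ, hδ⟩ := r.cl
        obtain ⟨β1, hβ1⟩ := r.bd
        obtain ⟨β2, hβ2⟩ := e.bd
        obtain ⟨β3, hβ3⟩ := Mt.exists_res r.m
        let β := max (max β0 β1) (max β2 β3)
        have l0 : β0 ≤ β := (le_max_left _ _).trans (le_max_left _ _)
        have l1 : β1 ≤ β := (le_max_right _ _).trans (le_max_left _ _)
        have l2 : β2 ≤ β := (le_max_left _ _).trans (le_max_right _ _)
        have l3 : β3 ≤ β := (le_max_right _ _).trans (le_max_right _ _)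
        have hn : p.m.res β = p.m := by
          conv_lhs => rw [← hβ0, Mt.res_res_of_le' l0, hβ0]
        have hm : r.m.res β = r.m := by
          conv_lhs => rw [← hβ3, Mt.res_res_of_le' l3, hβ3]
        have hcl : RCl r.m e.e := fun m' hm' => by
          obtain ⟨δ', hδ'⟩ := e.cl
          exact ⟨m', le_rfl, δ', hδ'.mono (hm'.trans hr.1)⟩
        have hbr : Brn r.m r.e (glR e.e e.e.x (r.e.z δ b0)) :=
          glR_brn r.tv hr.2 hcl (e.dv.br.mono hr.1) (FW2_brn r.tv hδ)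
        obtain ⟨e', h1, h2, h3, h4, h5⟩ := dmx (n := p.m) (m := r.m) hr.1 (e := e.e)
          (e1 := r.e.wx (glR e.e e.e.x (r.e.z δ b0))) (β := β) hn hm e.dv e.cl (hβ2.mono l2)
          ⟨⟨r.tv.dn, r.tv.res, r.tv.rep, r.tv.flp⟩, hbr⟩ ⟨δ, hδ⟩
          ((hβ1.mono l1).wx (glR_bd (hβ2.mono l2) (FW2_bdN (hβ1.mono l1) δ)
            (hβ2.mono l2).x)) ⟨hr.2, glR_le _ _⟩
        exact ⟨⟨e', h1, h2, β, h3⟩, h4, fun _ => ⟨r.m, i, r, rfl, hr.1, hi, h5.t⟩⟩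
      · exact ⟨e, le_rfl, fun h => (hle h).elim⟩)
  have hle : ∀ x, LeT p.m (g x).e p.e := fun x => (hg' x).1.t
  have hg2 : ∀ x, ∃ m : Mt Ω, ∃ i : Om1, ∃ r : Pc Ω, r.m = m ∧ m ≤ p.m ∧ F x i r ∧
      LeT m (g x).e r.e := fun x => (hg' x).2 (hle x)
  choose m i r hrm hm hF hT using hg2
  obtain ⟨x, y, hxy, hi, l, hl1, hl2⟩ := cck hU m i
  have hlp : l ≤ p.m := hl1.trans (hm x)
  let q : Pc Ω := ⟨l, (g y).e, (g y).dv.toTV.mono hlp, (g y).cl.imp fun _ h => h.mono hlp, (g y).bd⟩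
  have hgxy : LeT p.m (g y).e (g x).e := LeD.t (hg hxy.le)
  refine ⟨q, ⟨hlp, (hle y).mono hlp⟩, x, y, i x, hxy.ne, ?_, ?_⟩
  · refine mono x (i x) (r x) q ⟨?_, ?_⟩ (hF x)
    · rw [hrm x]
      exact hl1
    · exact (hgxy.mono hlp).trans ((hT x).mono hl1)
  · rw [hi]
    refine mono y (i y) (r y) q ⟨?_, (hT y).mono hl2⟩ (hF y)
    rw [hrm y]
    exact hl2

theorem exists_coll [Inac Ω] {U : Ultrafilter Ω} (hU : NUlt U) (x : Ω) :
    ∃ Q : {y : Ω // y < x} → Om1 → Pc Ω → Prop, (∀ y i p q, q ≤ p → Q y i p → Q y i q) ∧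
      (∀ y p, Loc p fun q => ∃ i, Q y i q) ∧ (∀ y i j p, Q y i p → Q y j p → i = j) ∧
        ∀ y y' i p, Q y i p → Q y' i p → y = y' := by
  obtain ⟨cb, hcb⟩ := exists_cb hU
  obtain ⟨hα, h1⟩ := hcb x
  have hx : x < cb x := (lt_om x).trans h1
  set α := cb x with hαd
  refine ⟨fun y i p => p.m.q.v α i y.1 p.m.a ∧ ∀ j < i, ∀ m' ≤ p.m, ¬ m'.q.v α j y.1 m'.a,
    ?_, ?_, ?_, ?_⟩
  · rintro y i p q hq ⟨h2, h3⟩
    refine ⟨?_, fun j hj m' hm' => h3 j hj m' (hm'.trans hq.1)⟩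
    exact ((hq.1.2 α).2 i (p.m.q.out h2) y.1 q.m.a le_rfl).2
      ((p.m.q.v α i y.1).mono hq.1.1 h2)
  · intro y p q _
    let S : Set Om1 := {i | ∃ m' ≤ q.m, m'.q.v α i y.1 m'.a}
    have hS : S.Nonempty := by
      have hy : y.1 < α := y.2.trans hx
      refine ⟨q.m.q.len α, ⟨q.m.a, Tm.snoc hα q.m.q hy⟩,
        ⟨le_rfl, Tm.Le.of_emp (Tm.snoc_le hα q.m.q hy)⟩, ?_⟩
      exact (Tm.snoc_v_last hα q.m.q hy).2 rfl
    obtain ⟨m', hm', h2⟩ := (wellFounded_lt (α := Om1)).min_mem S hS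
    refine ⟨q.rs m' hm', ⟨hm', LeT.refl _ _⟩, (wellFounded_lt (α := Om1)).min S hS, h2, ?_⟩
    intro j hj m'' hm'' h3
    exact (wellFounded_lt (α := Om1)).not_lt_min S (x := j) ⟨m'', hm''.trans hm', h3⟩ hj
  · rintro y i j p ⟨h2, h3⟩ ⟨h4, h5⟩
    rcases lt_trichotomy i j with h | h | h
    · exact (h5 i h p.m le_rfl h2).elim
    · exact h
    · exact (h3 j h p.m le_rfl h4).elim
  · rintro y y' i p ⟨h2, _⟩ ⟨h3, _⟩
    exact Subtype.ext (p.m.q.uni h2 h3)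

end Pool.Agent.T27

end

section

/-!
# Block HGX: Hartogs numbers in a forcing extension
-/

set_option linter.unusedSectionVars false

namespace Pool.Agent.T27

open Pool.Agent.Lib_helper27 Cardinal Cod

section gen

open Fml V Pool.Agent.Lib_helper27.Q

variable {P : Type} [Preorder P]

theorem fc_hart {Γ Λ : Type} [LinearOrder Γ] [WellFoundedLT Γ] [LinearOrder Λ] [WellFoundedLT Λ]
    (hfew : Few P Γ Λ)
    (hseg : ∀ x : Λ, ∃ F : {y : Λ // y < x} → Γ → P → Prop,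
      (∀ y i p q, q ≤ p → F y i p → F y i q) ∧ (∀ y p, Loc p fun q => ∃ i, F y i q) ∧
      (∀ y i j p, F y i p → F y j p → i = j) ∧ ∀ y y' i p, F y i p → F y' i p → y = y')
    (p : P) : Fc p (isHartogs (oall P Γ) (oall P Λ)) := by
  classical
  refine ⟨oall_ord p, ?_, ?_⟩
  · intro q hq hex
    obtain ⟨q', hq', f, hf⟩ := (forces_ex.1 hex).exists
    obtain ⟨r, hr, x, y, i, hxy, h1, h2⟩ := hfew
      (fun x i r => Fc r (app f (onm P x) (onm P i)))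
      (fun x i r s hs h => Forces.mono nf_basic hs h) q' (fun x => by
        refine (func_total hf.1 (onm_mem_oall x q')).bind ?_
        rintro s _ ⟨y, hy, hy'⟩
        refine (fmem_oall.1 hy).imp ?_
        rintro t ht ⟨i, hi⟩
        exact ⟨i, app_congr' (feq_refl _ _) hi (Forces.mono nf_basic ht hy')⟩)
    exact hxy (onm_inj (inj_single (Forces.mono nf_basic hr hf) h1 h2))
  · refine (forces_ball nf_basic).2 fun c q hq hc => ?_
    refine forces_ex.2 ?_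
    refine (fmem_oall.1 hc).imp ?_
    rintro r hr ⟨x, hx⟩
    obtain ⟨F, hF1, hF2, hF3, hF4⟩ := hseg x
    have hQ : Down (P := P) (fun (z : {y : Λ // y < x} × Γ) r => F z.1 z.2 r) :=
      fun z s t hst h => hF1 z.1 z.2 s t hst h
    have hfun : Fc r (isFunc (mkFn ({y : Λ // y < x} × Γ) (fun z => onm P z.1.1)
        (fun z => onm P z.2) fun z r => F z.1 z.2 r) (onm P x) (oall P Γ)) := by
      refine fc_isFunc hQ ?_ ?_ ?_
      · intro z s _ _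
        exact ⟨onm_mem z.1.2 s, onm_mem_oall _ s⟩
      · intro w s hs hw
        refine (fmem_onm.1 hw).bind ?_
        rintro t _ ⟨y, hy, he'⟩
        refine (hF2 ⟨y, hy⟩ t).imp ?_
        rintro u hu ⟨i, hi⟩
        exact ⟨(⟨y, hy⟩, i), hi, feq_mono hu he'⟩
      · intro z z' s _ h1 h2 h
        have h3 : z.1 = z'.1 := Subtype.ext (onm_inj h)
        rw [h3] at h1
        rw [hF3 _ _ _ _ h1 h2]
        exact feq_refl _ _
    refine ⟨mkFn ({y : Λ // y < x} × Γ) (fun z => onm P z.1.1)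
        (fun z => onm P z.2) fun z r => F z.1 z.2 r, ?_⟩
    have hinj := fc_isInj hQ hfun (by
      intro z z' s _ h1 h2 h
      have h3 : z.2 = z'.2 := onm_inj h
      rw [h3] at h1
      rw [hF4 _ _ _ _ h1 h2]
      exact feq_refl _ _)
    exact (fc_uni (cv (Fml.isInj 0 1 2) 3) 3
      (l := [mkFn ({y : Λ // y < x} × Γ) (fun z => onm P z.1.1)
        (fun z => onm P z.2) fun z r => F z.1 z.2 r, onm P x])
      (l' := [mkFn ({y : Λ // y < x} × Γ) (fun z => onm P z.1.1)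
        (fun z => onm P z.2) fun z r => F z.1 z.2 r, c])
      (.cons (feq_refl _ _) (.cons (feq_symm hx) .nil)) (feq_refl (oall P Γ) r) le_rfl).1 hinj

end gen

end Pool.Agent.T27

end

section

/-!
# Block CHX: the name of the Cohen poset, for an arbitrary forcing
-/

set_option linter.unusedSectionVars false

namespace Pool.Agent.T27

open Pool.Agent.Lib_helper27 Cardinal Cod

section gen

open Fml V Pool.Agent.Lib_helper27.Q

variable {P : Type} [Preorder P]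

namespace CHX

theorem decide_g {f g : Name P} {n : ℕ} {p3 : P} (hg : Fc p3 (isInj g f (onm P n)))
    (s : Finset (ℕ × Bool)) : ∀ r ≤ p3, (∀ x ∈ s, fmem (pnm P x) f r) →
      ∃ r' ≤ r, ∃ e : ℕ × Bool → ℕ, ∀ x ∈ s, e x < n ∧ Fc r' (app g (pnm P x) (onm P (e x))) := by
  classical
  induction s using Finset.induction_on with
  | empty => exact fun r _ _ => ⟨r, le_rfl, fun _ => 0, fun x hx => absurd hx (Finset.notMem_empty x)⟩
  | insert a s ha ih =>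
    intro r hr h
    obtain ⟨r1, hr1, e, he⟩ := ih r hr fun x hx => h x (Finset.mem_insert_of_mem hx)
    have h1 := fmem_mono hr1 (h a (Finset.mem_insert_self a s))
    obtain ⟨r2, hr2, y, hy, hy'⟩ :=
      (func_total (Forces.mono nf_basic (hr1.trans hr) hg).1 h1).exists
    obtain ⟨r3, hr3, l, hl, hle⟩ := (fmem_onm.1 hy).exists
    have h2 : Fc r3 (app g (pnm P a) (onm P l)) :=
      app_congr' (feq_refl _ _) hle (Forces.mono nf_basic hr3 hy')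
    refine ⟨r3, hr3.trans (hr2.trans hr1), Function.update e a l, fun x hx => ?_⟩
    by_cases hxa : x = a
    · subst hxa
      rw [Function.update_self]
      exact ⟨hl, h2⟩
    · rw [Function.update_of_ne hxa]
      have h3 := he x ((Finset.mem_insert.1 hx).resolve_left hxa)
      exact ⟨h3.1, Forces.mono nf_basic (hr3.trans hr2) h3.2⟩

theorem card_le {f g : Name P} {n : ℕ} {p3 : P} (hg : Fc p3 (isInj g f (onm P n)))
    (s : Finset (ℕ × Bool)) {r : P} (hr : r ≤ p3) (h : ∀ x ∈ s, fmem (pnm P x) f r) :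
    s.card ≤ n := by
  obtain ⟨r', hr', e, he⟩ := decide_g hg s r hr h
  have h1 : s.card ≤ (Finset.range n).card := by
    refine Finset.card_le_card_of_injOn e (fun x hx => ?_) ?_
    · rw [Finset.mem_coe, Finset.mem_range]
      exact (he x hx).1
    · intro x hx y hy hxy
      have h2 := (he x hx).2
      have h3 := (he y hy).2
      rw [← hxy] at h3
      exact pnm_inj (inj_single (Forces.mono nf_basic (hr'.trans hr) hg) h2 h3)
  rwa [Finset.card_range] at h1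

/-- every finite partial function in the extension is densely a check name -/
theorem conv {f : Name P} {p : P}
    (hf : Fc p (isFinPartFun (oall P ℕ) (mkPair (bnm P false) (bnm P true)) f)) :
    Loc p fun r => ∃ s : Fn, feq f (cnm P s) r := by
  classical
  intro p0 hp0
  obtain ⟨h1, h2, h3⟩ := Forces.mono nf_basic hp0 hf
  obtain ⟨p1, hp1, k, hk, h4⟩ := (forces_bex.1 h3).exists
  obtain ⟨p2, hp2, g, hg⟩ := (forces_ex.1 h4).exists
  obtain ⟨p3, hp3, n, hn⟩ := (fmem_oall.1 (fmem_mono hp2 hk)).exists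
  have hg3 : Fc p3 (isInj g f (onm P n)) :=
    (fc_congr (Fml.Rel.isInj (fun x => feq_refl x p3) (feq_refl _ _) (feq_refl _ _) hn) le_rfl).1
      (Forces.mono nf_basic hp3 hg)
  let T : ℕ → Prop := fun c => ∃ r ≤ p3, ∃ s : Finset (ℕ × Bool),
    (∀ x ∈ s, fmem (pnm P x) f r) ∧ s.card = c
  have hT0 : T 0 := ⟨p3, le_rfl, ∅, fun x hx => absurd hx (Finset.notMem_empty x), rfl⟩
  have hTle : ∀ c, T c → c ≤ n := by
    rintro c ⟨r, hr, s, hs, rfl⟩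
    exact card_le hg3 s hr hs
  obtain ⟨p5, hp5, s, hs, hc⟩ : T (Nat.findGreatest T n) := Nat.findGreatest_spec (Nat.zero_le n) hT0
  -- the set is everything
  have hall : ∀ q ≤ p5, ∀ x, fmem (pnm P x) f q → x ∈ s := by
    intro q hq x hx
    by_contra hxs
    have h5 : T (s.card + 1) := by
      refine ⟨q, hq.trans hp5, insert x s, fun y hy => ?_, Finset.card_insert_of_notMem hxs⟩
      rcases Finset.mem_insert.1 hy with rfl | hy
      · exact hx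
      · exact fmem_mono hq (hs y hy)
    exact Nat.findGreatest_is_greatest (by rw [← hc]; exact Nat.lt_succ_self _) (hTle _ h5) h5
  have happ : ∀ x ∈ s, Fc p5 (app f (onm P x.1) (bnm P x.2)) := by
    intro x hx
    exact forces_bex.2 (Loc.pure fun q hq => ⟨_, fmem_mono hq (hs x hx),
      fc_opair_iff.2 (feq_refl _ _)⟩)
  have hle0 : p5 ≤ p0 := hp5.trans (hp3.trans (hp2.trans hp1))
  refine ⟨p5, hle0, ⟨s, ?_⟩, feq_ext fun z q hq => ?_⟩
  · intro m b b' hb hb'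
    have h8 := happ _ hb
    have h9 := happ _ hb'
    exact bnm_inj ((forces_imp nf_basic).1 (h2 (onm P m) (bnm P b) (bnm P b')) p5 hle0 ⟨h8, h9⟩)
  · refine Iff.trans ?_ fmem_snm'.symm
    constructor
    · intro hz
      refine (forces_bex.1 ((forces_ball nf_basic).1 h1 z q (hq.trans hle0) hz)).bind ?_
      rintro r hr ⟨a, ha, h8⟩
      refine (forces_bex.1 h8).bind ?_
      rintro u hu ⟨c, hc, h9⟩
      refine ((fmem_oall.1 (fmem_mono hu ha)).bind ?_)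
      rintro v hv ⟨m, hm⟩
      refine (fmem_two.1 (fmem_mono hv hc)).imp ?_
      rintro w hw ⟨b, hb⟩
      have hzp : feq z (pnm P (m, b)) w :=
        feq_trans (feq_mono (hw.trans hv) (fc_opair_iff.1 h9)) (feq_opair_congr (feq_mono hw hm) hb)
      have hwq : w ≤ q := hw.trans (hv.trans (hu.trans hr))
      have hin : fmem (pnm P (m, b)) f w := fmem_congr_left hzp (fmem_mono hwq hz)
      exact ⟨(m, b), hall w (hwq.trans hq) _ hin, hzp⟩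
    · intro hz
      refine fmem_dense (hz.imp ?_)
      rintro r hr ⟨x, hx, he⟩
      exact fmem_congr_left (feq_symm he) (fmem_mono (hr.trans hq) (hs x hx))

end CHX

theorem fc_cohenP (p : P) : Fc p (isCohenPoset (call P)) := by
  refine forces_ex.2 (Loc.pure fun q _ => ⟨oall P ℕ, ?_⟩)
  refine forces_ex.2 (Loc.pure fun r _ => ⟨mkPair (bnm P false) (bnm P true), omega_isOmega r,
    isTwo_name r, ?_⟩)
  intro f
  refine (forces_iff nf_basic).2 fun u hu => ?_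
  constructor
  · intro h
    refine Forces.dense nf_basic ((fmem_mkAll.1 h).imp ?_)
    rintro v hv ⟨s, hs⟩
    exact (fc_uni (cv (isFinPartFun 0 1 2) 3) 3
      (l := [oall P ℕ, mkPair (bnm P false) (bnm P true)])
      (l' := [oall P ℕ, mkPair (bnm P false) (bnm P true)])
      (.cons (feq_refl _ _) (.cons (feq_refl _ _) .nil)) hs le_rfl).2 (fc_finPart s v)
  · intro h
    refine fmem_mkAll.2 (CHX.conv h)

end gen

end Pool.Agent.T27

end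

section

set_option linter.unusedSectionVars false

namespace Pool.Agent.T27

open Pool.Agent.Lib_helper27 Cardinal Cod

variable {Ω : Type} [LinearOrder Ω] [Cod Ω]

theorem ULM_card [Inac Ω] (β : Ω) :
    #({x : Pc Ω × Om1 | x.1.m.res β = x.1.m ∧ Bd β x.1.e} : Set (Pc Ω × Om1)) < #Ω := by
  have h1 := mk_pin (Ω := Ω) β
  have h2 : #Om1 < #Ω := by
    have : #Om1 = aleph 1 := Q.mk_om1
    rw [this]
    exact Inac.unc
  have h3 : ℵ₀ ≤ #Ω := by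
    refine le_trans ?_ (Inac.unc (Ω := Ω)).le
    exact aleph0_le_aleph 1
  refine lt_of_le_of_lt ?_ (Cardinal.mul_lt_of_lt h3 h1 h2)
  rw [Cardinal.mul_def]
  refine Cardinal.mk_le_of_injective (f := fun x => (⟨x.1.1, x.2⟩, x.1.2)) ?_
  rintro ⟨⟨p, i⟩, hx⟩ ⟨⟨p', i'⟩, hx'⟩ h
  simp only [Prod.mk.injEq, Subtype.mk.injEq] at h
  obtain ⟨h4, h5⟩ := h
  subst h4
  subst h5
  rfl

theorem nb_ae [Inac Ω] {U : Ultrafilter Ω} (hU : NUlt U) {R : Ω → Om1 → Ω → Om1 → Pc Ω → Prop}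
    {p0 : Pc Ω} (h : TR R p0) : {α | ∀ r, Pin α r → r ≤ p0 → ∀ Q, ¬ BNP α R r Q} ∈ U := by
  classical
  by_contra hcon
  have hA : {α | ∀ r, Pin α r → r ≤ p0 → ∀ Q, ¬ BNP α R r Q}ᶜ ∈ U :=
    Ultrafilter.compl_mem_iff_notMem.2 hcon
  have hA' : {α | ∃ r, Pin α r ∧ r ≤ p0 ∧ ∃ Q, BNP α R r Q} ∈ U := by
    refine Filter.mem_of_superset hA ?_
    intro α hα
    have : ¬ ∀ r, Pin α r → r ≤ p0 → ∀ Q, ¬ BNP α R r Q := hα
    push Not at this
    obtain ⟨r, h1, h2, Q, h3⟩ := this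
    exact ⟨r, h1, h2, Q, h3⟩
  have hch : ∀ α, ∃ r : Pc Ω, ∃ Q : Ω → Om1 → Pc Ω → Prop,
      (∃ r, Pin α r ∧ r ≤ p0 ∧ ∃ Q, BNP α R r Q) → Pin α r ∧ r ≤ p0 ∧ BNP α R r Q := by
    intro α
    by_cases hx : ∃ r, Pin α r ∧ r ≤ p0 ∧ ∃ Q, BNP α R r Q
    · obtain ⟨r, h1, h2, Q, h3⟩ := hx
      exact ⟨r, Q, fun _ => ⟨h1, h2, h3⟩⟩
    · exact ⟨p0, fun _ _ _ => False, fun hx' => (hx hx').elim⟩
  choose r Q hrQ using hch
  obtain ⟨r0, hr0⟩ := NUlt.press hU (fun β => {p : Pc Ω | p.m.res β = p.m ∧ Bd β p.e})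
    (fun β => mk_pin β) r (Filter.mem_of_superset hA' fun α hα => (hrQ α hα).1)
  have hC : {α | Pin α r0 ∧ r0 ≤ p0 ∧ BNP α R r0 (Q α)} ∈ U := by
    refine Filter.mem_of_superset (Filter.inter_mem hA' hr0) ?_
    rintro α ⟨h1, h2⟩
    have h3 := hrQ α h1
    have h4 : r α = r0 := h2
    rw [h4] at h3
    exact h3
  have hr0p : r0 ≤ p0 := by
    obtain ⟨α, hα⟩ := Filter.nonempty_of_mem hC
    exact hα.2.1
  refine h.nb (fun γ i p => {α | Q α γ i p} ∈ U) r0 hr0p ?_ ?_ ?_ ?_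
  · intro γ i q q' hq hQ
    refine Filter.mem_of_superset (Filter.inter_mem (Filter.inter_mem hQ hC) (pin_ae hU q')) ?_
    rintro α ⟨⟨h1, h2⟩, h3⟩
    exact h2.2.2.mono h3 hq h1
  · intro γ q hq
    have h1 : {α | ∃ p' ≤ q, Pin α p' ∧ ∃ i, Q α γ i p'} ∈ U := by
      refine Filter.mem_of_superset (Filter.inter_mem (Filter.inter_mem hC (pin_ae hU q))
        (hU.tail γ)) ?_
      rintro α ⟨⟨h2, h3⟩, h4⟩
      exact h2.2.2.tot γ h4 q h3 hq
    have hch2 : ∀ α, ∃ p' : Pc Ω, ∃ i : Om1, (∃ p' ≤ q, Pin α p' ∧ ∃ i, Q α γ i p') →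
        p' ≤ q ∧ Pin α p' ∧ Q α γ i p' := by
      intro α
      by_cases hx : ∃ p' ≤ q, Pin α p' ∧ ∃ i, Q α γ i p'
      · obtain ⟨p', h2, h3, i, h4⟩ := hx
        exact ⟨p', i, fun _ => ⟨h2, h3, h4⟩⟩
      · exact ⟨p0, Classical.arbitrary Om1, fun hx' => (hx hx').elim⟩
    choose p' i hp' using hch2
    obtain ⟨⟨p1, i1⟩, hx⟩ := NUlt.press hU
      (fun β => ({x : Pc Ω × Om1 | x.1.m.res β = x.1.m ∧ Bd β x.1.e} : Set (Pc Ω × Om1)))
      (fun β => ULM_card β) (fun α => (p' α, i α)) (Filter.mem_of_superset h1 fun α hα => by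
        obtain ⟨β, hβ, h2, h3⟩ := (hp' α hα).2.1
        exact ⟨β, hβ, h2, h3⟩)
    have h2 : {α | p1 ≤ q ∧ Q α γ i1 p1} ∈ U := by
      refine Filter.mem_of_superset (Filter.inter_mem h1 hx) ?_
      rintro α ⟨h3, h4⟩
      have h5 := hp' α h3
      have h6 : (p' α, i α) = (p1, i1) := h4
      simp only [Prod.mk.injEq] at h6
      rw [h6.1, h6.2] at h5
      exact ⟨h5.1, h5.2.2⟩
    obtain ⟨α, hα⟩ := Filter.nonempty_of_mem h2
    exact ⟨p1, hα.1, i1, Filter.mem_of_superset h2 fun α hα => hα.2⟩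
  · intro q hq γ i j hi hj
    obtain ⟨α, ⟨⟨h1, h2⟩, h3⟩, h4⟩ := Filter.nonempty_of_mem
      (Filter.inter_mem (Filter.inter_mem (Filter.inter_mem hi hj) hC) (pin_ae hU q))
    exact h3.2.2.uni h4 hq h1 h2
  · intro q hq γ i δ j hγ hi hj
    refine h.reg fun q' hq' => ?_
    obtain ⟨α, ⟨⟨⟨⟨h1, h2⟩, h3⟩, h4⟩, h5⟩, h6⟩ := Filter.nonempty_of_mem
      (Filter.inter_mem (Filter.inter_mem (Filter.inter_mem (Filter.inter_mem
        (Filter.inter_mem hi hj) hC) (pin_ae hU q)) (pin_ae hU q')) (hU.tail δ))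
    obtain ⟨p', h7, _, h8⟩ := h3.2.2.coh hγ h6 h5 (hq'.trans hq) (h3.2.2.mono h5 hq' h1)
      (h3.2.2.mono h5 hq' h2)
    exact ⟨p', h7, h8⟩

end Pool.Agent.T27

end

section

/-! Block DCX: deciding the tree relation below many coordinates. -/

set_option linter.unusedSectionVars false

namespace Pool.Agent.T27

open Pool.Agent.Lib_helper27 Cardinal Cod

variable {Ω : Type} [LinearOrder Ω] [Cod Ω]

theorem dec_ae [Inac Ω] {U : Ultrafilter Ω} (hU : NUlt U) (R : Ω → Om1 → Ω → Om1 → Pc Ω → Prop) :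
    {α | ∀ p, Pin α p → ∀ γ < α, ∀ δ < α, ∀ i j, ∃ p' ≤ p, Pin α p' ∧
      (R γ i δ j p' ∨ ∀ p'' ≤ p', ¬ R γ i δ j p'')} ∈ U := by
  classical
  -- one quadruple
  have h1 : ∀ (γ : Ω) (i : Om1) (δ : Ω) (j : Om1), {α | ∀ p, Pin α p → ∃ p' ≤ p, Pin α p' ∧
      (R γ i δ j p' ∨ ∀ p'' ≤ p', ¬ R γ i δ j p'')} ∈ U := by
    intro γ i δ j
    have hF : ∀ p : Pc Ω, ∃ p' ≤ p, R γ i δ j p' ∨ ∀ p'' ≤ p', ¬ R γ i δ j p'' := by
      intro p
      by_cases h : ∃ p' ≤ p, R γ i δ j p'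
      · obtain ⟨p', hp', hR⟩ := h
        exact ⟨p', hp', Or.inl hR⟩
      · exact ⟨p, le_rfl, Or.inr fun p'' hp'' hR => h ⟨p'', hp'', hR⟩⟩
    choose F hF1 hF2 using hF
    have hg : ∀ p : Pc Ω, ∃ β : Ω, (F p).m.res β = (F p).m ∧ Bd β (F p).e := by
      intro p
      obtain ⟨α, β, _, hβ⟩ := Filter.nonempty_of_mem (pin_ae hU (F p))
      exact ⟨β, hβ⟩
    choose g hg using hg
    refine Filter.mem_of_superset (NUlt.clo hU
      (fun β : Ω => {p : Pc Ω | p.m.res β = p.m ∧ Bd β p.e}) (fun β => mk_pin β) g) ?_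
    intro α hα p hp
    obtain ⟨β, hβα, hβ⟩ := hp
    exact ⟨F p, hF1 p, ⟨g p, hα β hβα p hβ, hg p⟩, hF2 p⟩
  have hOm : #Om1 < #Ω := by
    have h : #Om1 = aleph 1 := Q.mk_om1
    rw [h]
    exact Inac.unc
  have h2 : ∀ γ δ : Ω, (⋂ i : Om1, ⋂ j : Om1, {α | ∀ p, Pin α p → ∃ p' ≤ p, Pin α p' ∧
      (R γ i δ j p' ∨ ∀ p'' ≤ p', ¬ R γ i δ j p'')}) ∈ U := fun γ δ =>
    hU.comp _ _ hOm fun i => hU.comp _ _ hOm fun j => h1 γ i δ j
  refine Filter.mem_of_superset (hU.norm _ fun γ => hU.norm _ fun δ => h2 γ δ) ?_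
  intro α hα p hp γ hγ δ hδ i j
  have h3 := hα γ hγ δ hδ
  exact Set.mem_iInter.1 (Set.mem_iInter.1 h3 i) j p hp

end Pool.Agent.T27

end

section

/-!
# Below the master condition
-/

set_option linter.unusedSectionVars false

namespace Pool.Agent.T27

open Pool.Agent.Lib_helper27 Cardinal Cod

variable {Ω : Type} [LinearOrder Ω] [Cod Ω]

theorem MST.pin_of_cl {d : Ω → Dt Ω} {α : Ω} (hg : Good d α) {p : Pc Ω} (h : Cl α p.m p.e) :
    Pin α p := by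
  obtain ⟨h1, h2, h3, β, hβ, h4⟩ := h
  obtain ⟨β', hβ', h5⟩ := Mt.res_below hg.act ⟨_, hg.ne⟩ p.m
  refine ⟨max β β', max_lt hβ hβ', ?_, h4.mono (le_max_left _ _)⟩
  rw [h1] at h5
  conv_lhs => rw [h5, Mt.res_res_of_le' (le_max_right β β'), ← h5]

theorem MST.cl_of_pin {α : Ω} {p : Pc Ω} (h : Pin α p) : Cl α p.m p.e := by
  obtain ⟨β, hβ, h1, h2⟩ := h
  refine ⟨?_, p.tv, p.cl, β, hβ, h2⟩
  conv_lhs => rw [← h1, Mt.res_res_of_le' hβ.le, h1]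

/-- the condition given by a closed tree -/
def MST.mk {α : Ω} {n : Mt Ω} {e : Dt Ω} (h : Cl α n e) : Pc Ω :=
  ⟨n, e, h.2.1, h.2.2.1, h.2.2.2.imp fun _ h' => h'.2⟩

theorem MST.ext {p p' : Pc Ω} (h1 : p.m = p'.m) (h2 : p.e = p'.e) : p = p' := by
  cases p
  cases p'
  cases h1
  cases h2
  rfl

/-- `m1 ≤ m0` codes `t0` -/
theorem MST.code {d : Ω → Dt Ω} {α : Ω} (hg : Good d α) {p0 : Pc Ω} (hp : Pin α p0) :
    ∃ m1 ≤ p0.m, LeT m1 (EE d α m1.q) p0.e := by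
  have hcl := MST.cl_of_pin hp
  obtain ⟨y, hy, β, hβ, hyb⟩ := cl_brn hg hcl
  obtain ⟨hr, htv, hc, β', hβ', hb⟩ := hcl
  have hq : p0.m.q.res α = p0.m.q := congrArg Mt.q hr
  have hemp : ∀ j ξ (a : Co Ω), ¬ p0.m.q.v α j ξ a := by
    intro j ξ a h
    rw [← hq] at h
    have h2 : (p0.m.q.res α).v α = fun _ _ => RP.bot := if_neg (lt_irrefl α)
    rw [h2] at h
    exact h
  have hle : LeD p0.m (p0.e.wx y) (EE d α p0.m.q) :=
    Dc_glb ⟨fun h h' => (hemp _ _ _ h').elim, fun h _ => (hemp _ _ _ h).elim⟩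
      fun j ξ m' _ hacc => (hemp _ _ _ (acc_iff.1 hacc).1).elim
  have hv : DV p0.m (p0.e.wx y) := ⟨⟨htv.dn, htv.res, htv.rep, htv.flp⟩, hy⟩
  obtain ⟨q', h1, h2, h3, -⟩ := lift (d := d) hg (a := p0.m.a) (q := p0.m.q) (u := p0.m.q)
    (e' := p0.e.wx y) hq (by rw [hq]; exact Tm.Le.refl _ _) (max_lt hβ hβ')
    ((hb.mono (le_max_right β β')).wx (hyb.mono (le_max_left β β'))) hv hle
  have h4 : Tm.Le p0.m.a q' p0.m.q := h2 _ (by rw [hq]; exact Tm.Le.refl _ _)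
  exact ⟨⟨p0.m.a, q'⟩, ⟨le_rfl, h4⟩, fun m' hm' γ hH =>
    (h3.mono (⟨le_rfl, h4⟩ : (⟨p0.m.a, q'⟩ : Mt Ω) ≤ p0.m)).t m' hm' γ hH⟩

theorem exists_RS [Inac Ω] {U : Ultrafilter Ω} (hU : NUlt U)
    {R : Ω → Om1 → Ω → Om1 → Pc Ω → Prop} {p0 : Pc Ω} (h : TR R p0) {d : Ω → Dt Ω} {α : Ω}
    (hg : Good d α) (hp : Pin α p0) (hnb : ∀ r, Pin α r → r ≤ p0 → ∀ Q, ¬ BNP α R r Q)
    (hdec : ∀ p, Pin α p → ∀ γ < α, ∀ δ < α, ∀ i j, ∃ p' ≤ p, Pin α p' ∧
      (R γ i δ j p' ∨ ∀ p'' ≤ p', ¬ R γ i δ j p'')) :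
    ∃ m2 B Rl, RS d α m2 B Rl := by
  obtain ⟨m1, hm1, hT1⟩ := MST.code hg hp
  have hstar : LeT m1 (star d α) (EE d α m1.q) := star_le m1
  let p1 : Pc Ω := ⟨m1, star d α, star_TV hg m1, ⟨α, star_hts hg m1⟩, star_bd hg⟩
  have hp1 : p1 ≤ p0 := ⟨hm1, hstar.trans hT1⟩
  obtain ⟨p2, hp2, i1, hi1⟩ := h.s5 α p1 hp1
  obtain ⟨p3, hp3, hm3, hD⟩ := exP hU p2 (I := Set.Iio α) (Inac.init α)
    (fun γ r => ∃ i, R γ.1 i α i1 r) (fun γ r r' hr ⟨i, hi⟩ => ⟨i, h.mono hr hi⟩)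
    (fun γ r hr => hi1 γ.1 γ.2 r hr)
  have hp31 : p3 ≤ p1 := hp3.trans hp2
  have hp30 : p3 ≤ p0 := hp31.trans hp1
  -- restrictions
  have rs_le : ∀ {m m' : Mt Ω} (hm : m ≤ p3.m) (hm' : m' ≤ m), p3.rs m' (hm'.trans hm) ≤
      p3.rs m hm := fun hm hm' => ⟨hm', LeT.refl _ _⟩
  have rs_le3 : ∀ {m : Mt Ω} (hm : m ≤ p3.m), p3.rs m hm ≤ p3 := fun hm => ⟨hm, LeT.refl _ _⟩
  -- conditions below `α`
  have hb0 : Bd α p0.e := by
    obtain ⟨β, hβ, _, h2⟩ := hp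
    exact h2.mono hβ.le
  have hbE : ∀ q, Bd α (EE d α q) := by
    intro q
    obtain ⟨β, hβ, h1⟩ := EE_bd hg q
    exact h1.mono hβ.le
  have hr0 : p0.m.res α = p0.m := (MST.cl_of_pin hp).1
  have below : ∀ {m : Mt Ω}, m ≤ p3.m → ∀ {n e}, n ≤ m.res α → LeT n e (EE d α m.q) →
      n ≤ p0.m ∧ LeT n e p0.e := by
    intro m hm n e hn he
    have hmm1 : m ≤ m1 := hm.trans hp31.1
    have h1 : LeT m (EE d α m.q) p0.e :=
      (EE_le hmm1.2 le_rfl).t.trans (hT1.mono hmm1)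
    have h2 : LeT (m.res α) (EE d α m.q) p0.e := (LeT_res hb0 (hbE _)).2 h1
    refine ⟨hn.trans ((Mt.res_mono (hmm1.trans hm1)).trans (le_of_eq hr0)), ?_⟩
    exact he.trans (h2.mono hn)
  let Rl : Ω → Om1 → Ω → Om1 → Mt Ω → Dt Ω → Prop := fun γ i δ j n e =>
    ∃ p : Pc Ω, p.m = n ∧ p.e = e ∧ p ≤ p0 ∧ R γ i δ j p
  have rl_mono : ∀ {γ i δ j n e n' e'}, Rl γ i δ j n e → Cl α n' e' → n' ≤ n → LeT n' e' e →
      Rl γ i δ j n' e' := by
    rintro γ i δ j n e n' e' ⟨p, rfl, rfl, hp', hR⟩ hcl hn he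
    have h1 : MST.mk hcl ≤ p := ⟨hn, he⟩
    exact ⟨MST.mk hcl, rfl, rfl, h1.trans hp', h.mono h1 hR⟩
  refine ⟨p3.m, fun γ i m => ∃ hm : m ≤ p3.m, R γ i α i1 (p3.rs m hm), Rl, ?_⟩
  refine
    { good := hg, mono := ?_, reg := ?_, tot := ?_, uni := ?_, coh := ?_, rl_mono := rl_mono,
      rl_uni := ?_, nb := ?_ }
  · rintro γ i m m' hm ⟨h1, h2⟩
    exact ⟨hm.trans h1, h.mono (rs_le h1 hm) h2⟩
  · intro γ i m hm hL
    refine ⟨hm, h.reg fun q hq => ?_⟩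
    obtain ⟨n', hn', h1, h2⟩ := hL q.m hq.1
    refine ⟨q.rs n' hn', ⟨hn', LeT.refl _ _⟩, h.mono ?_ h2⟩
    exact ⟨le_rfl, hq.2.mono hn'⟩
  · intro γ hγ m hm
    obtain ⟨m', hm', h1, i, h2⟩ := hD ⟨γ, hγ⟩ m hm
    exact ⟨m', hm', i, h1, h2⟩
  · rintro γ i j m ⟨h1, h2⟩ ⟨_, h3⟩
    exact h.s4 ((rs_le3 h1).trans hp30) h2 h3
  · intro γ δ i j a q hm hγδ hδ hBi hBj
    let D : Mt Ω → Dt Ω → Prop := fun n e => Rl γ i δ j n e ∨
      ∀ p'' : Pc Ω, p''.m ≤ n → LeT p''.m p''.e e → ¬ R γ i δ j p''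
    have hmono : ∀ n e n' e', D n e → Cl α n' e' → n' ≤ n → LeT n' e' e → D n' e' := by
      rintro n e n' e' (h1 | h1) hcl hn he
      · exact Or.inl (rl_mono h1 hcl hn he)
      · exact Or.inr fun p'' h2 h3 => h1 p'' (h2.trans hn) (h3.trans (he.mono h2))
    have hdns : ∀ n e, Cl α n e → n ≤ (⟨a, q⟩ : Mt Ω).res α → LeT n e (EE d α q) →
        ∃ n' ≤ n, ∃ e', Cl α n' e' ∧ LeT n' e' e ∧ D n' e' := by
      intro n e hcl hn he
      have hpin : Pin α (MST.mk hcl) := MST.pin_of_cl hg hcl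
      obtain ⟨p', hp', hpin', h1⟩ := hdec (MST.mk hcl) hpin γ (hγδ.trans hδ) δ hδ i j
      refine ⟨p'.m, hp'.1, p'.e, MST.cl_of_pin hpin', hp'.2, ?_⟩
      rcases h1 with h1 | h1
      · refine Or.inl ⟨p', rfl, rfl, ?_, h1⟩
        have h2 := below hm hn he
        exact hp'.trans (⟨h2.1, h2.2⟩ : MST.mk hcl ≤ p0)
      · exact Or.inr fun p'' h2 h3 => h1 p'' ⟨h2, h3⟩
    obtain ⟨a', ha', hhi, q', hq', hcl, hDD⟩ := gen hg a q D hmono hdns
    · refine ⟨a', ha', hhi, q', hq', hcl, ?_⟩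
      rcases hDD with hDD | hDD
      · exact hDD
      · exfalso
        have hm' : (⟨a', q'⟩ : Mt Ω) ≤ ⟨a, q⟩ := ⟨ha', hq'⟩
        obtain ⟨h1, h2⟩ := hBi
        obtain ⟨_, h3⟩ := hBj
        have h4 : (⟨a', q'⟩ : Mt Ω) ≤ p3.m := hm'.trans h1
        have h5 := h.mono (rs_le h1 hm') h2
        have h6 := h.mono (rs_le h1 hm') h3
        refine hDD (p3.rs _ h4) (Mt.le_res _ _) ?_ (h.s3 ((rs_le3 h4).trans hp30) hγδ h5 h6)
        exact (hp31.2.mono h4).trans (star_le (⟨a', q'⟩ : Mt Ω))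
  · rintro γ i j δ k n e ⟨p, rfl, rfl, hp', hR⟩ ⟨p', h1, h2, _, hR'⟩
    obtain rfl := MST.ext h1 h2
    exact h.s4 hp' hR hR'
  · intro n0 e0 Q hcl hn0 he0 hbn
    have hb := below le_rfl hn0 he0
    refine hnb (MST.mk hcl) (MST.pin_of_cl hg hcl) ⟨hb.1, hb.2⟩ (fun γ i p => Q γ i p.m p.e) ?_
    refine ⟨?_, ?_, ?_, ?_⟩
    · intro γ i p p' hpin hle hQ
      exact hbn.mono (MST.cl_of_pin hpin) hle.1 hle.2 hQ
    · intro γ hγ p hpin hle
      obtain ⟨n', hn', e', hcl', he', i, hi⟩ := hbn.tot γ hγ p.m p.e (MST.cl_of_pin hpin) hle.1 hle.2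
      exact ⟨MST.mk hcl', ⟨hn', he'⟩, MST.pin_of_cl hg hcl', i, hi⟩
    · intro γ i j p hpin hle h1 h2
      exact hbn.uni (MST.cl_of_pin hpin) hle.1 hle.2 h1 h2
    · intro γ i δ j p hγδ hδ hpin hle h1 h2
      obtain ⟨n', hn', e', hcl', he', p', rfl, rfl, hp', hR⟩ :=
        hbn.coh hγδ hδ (MST.cl_of_pin hpin) hle.1 hle.2 h1 h2
      exact ⟨p', ⟨hn', he'⟩, MST.pin_of_cl hg hcl', hR⟩

end Pool.Agent.T27

end

section

/-!
# There is no tree relation without branches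
-/

set_option linter.unusedSectionVars false

namespace Pool.Agent.T27

open Pool.Agent.Lib_helper27 Cardinal Cod

variable {Ω : Type} [LinearOrder Ω] [Cod Ω]

/-- there is no tree relation without branches -/
theorem not_TR [Inac Ω] {U : Ultrafilter Ω} (hU : NUlt U)
    (R : Ω → Om1 → Ω → Om1 → Pc Ω → Prop) (p0 : Pc Ω) : ¬ TR R p0 := by
  intro h
  obtain ⟨d, _, hd⟩ := exists_good hU
  have hmem : ({α | Good d α} ∩ {α | Pin α p0} ∩
      {α | ∀ r, Pin α r → r ≤ p0 → ∀ Q, ¬ BNP α R r Q} ∩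
      {α | ∀ p, Pin α p → ∀ γ < α, ∀ δ < α, ∀ i j, ∃ p' ≤ p, Pin α p' ∧
        (R γ i δ j p' ∨ ∀ p'' ≤ p', ¬ R γ i δ j p'')} ∩
      {α : Ω | ∀ (f : Ω → Mt Ω) (g : Ω → Om1), (∀ ξ < α, (f ξ).res α = f ξ) →
        ∃ ξ η, ξ < η ∧ η < α ∧ g ξ = g η ∧ ∃ l, l ≤ f ξ ∧ l ≤ f η}) ∈ U :=
    Filter.inter_mem (Filter.inter_mem (Filter.inter_mem (Filter.inter_mem hd (pin_ae hU p0))
      (nb_ae hU h)) (dec_ae hU R)) (cca hU)
  obtain ⟨α, ⟨⟨⟨h1, h2⟩, h3⟩, h4⟩, h5⟩ := Filter.nonempty_of_mem hmem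
  obtain ⟨m2, B, Rl, hRS⟩ := exists_RS hU h h1 h2 h3 h4
  obtain ⟨a0, q0, hBS⟩ := exists_BS hRS
  exact not_BS h5 hBS

end Pool.Agent.T27

end

section

/-!
# Block ZTX: the nodes of the generic tree, indexed by `ω₁`
-/

set_option linter.unusedSectionVars false

namespace Pool.Agent.T27

open Pool.Agent.Lib_helper27 Cardinal Cod

variable {Ω : Type} [LinearOrder Ω] [Cod Ω]

theorem ZTX.v_mono {m m' : Mt Ω} (h : m' ≤ m) {β : Ω} {i : Om1} {ξ : Ω}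
    (hv : m.q.v β i ξ m.a) : m'.q.v β i ξ m'.a :=
  ((h.2 β).2 i (m.q.out hv) ξ m'.a le_rfl).2 ((m.q.v β i ξ).mono h.1 hv)

theorem ZTX.v_res {m : Mt Ω} {β c : Ω} (hc : c < β) {i : Om1} {ξ : Ω} :
    (m.res β).q.v c i ξ (m.res β).a ↔ m.q.v c i ξ m.a := by
  show (m.q.res β).v c i ξ (m.a.res β) ↔ m.q.v c i ξ m.a
  rw [Tm.res_v_lt hc, ← Tm.based (a := m.a.res β), Co.res_res_of_le hc.le, Tm.based]

variable {cb : Ω → Ω}

/-- where the `i`-th value is `η` the node is `e.z γ η` -/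
theorem ZTX.eq_of {e : Dt Ω} {γ : Ω} {i : Om1} {η : Ω} {k : K Ω}
    (h : k.1.q.v (cb γ) i η k.1.a) : EqB k γ (zt cb e γ i) (e.z γ η) := by
  intro k' hk ξ _
  constructor
  · intro h1
    refine (e.z γ η ξ).reg (Loc.imp h1 ?_)
    rintro k'' hk'' (⟨η', h2, h3⟩ | ⟨h2, _⟩)
    · have h4 := ZTX.v_mono (hk''.1.trans hk.1) h
      rw [k''.1.q.uni h4 h2]
      exact h3
    · exact (h2 k''.1 le_rfl η (ZTX.v_mono (hk''.1.trans hk.1) h)).elim
  · intro h1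
    exact Loc.pure fun k'' hk'' => Or.inl ⟨η, ZTX.v_mono (hk''.1.trans hk.1) h,
      (e.z γ η ξ).mono hk'' h1⟩

/-- where there is no `i`-th value the node is `e.z γ b0` -/
theorem ZTX.eq_of_not {e : Dt Ω} {γ : Ω} {i : Om1} {k : K Ω}
    (h : ∀ m' ≤ k.1, ∀ η, ¬ m'.q.v (cb γ) i η m'.a) : EqB k γ (zt cb e γ i) (e.z γ b0) := by
  intro k' hk ξ _
  constructor
  · intro h1
    refine (e.z γ b0 ξ).reg (Loc.imp h1 ?_)
    rintro k'' hk'' (⟨η', h2, h3⟩ | ⟨_, h2⟩)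
    · exact (h k''.1 (hk''.1.trans hk.1) η' h2).elim
    · exact h2
  · intro h1
    exact Loc.pure fun k'' hk'' => Or.inr ⟨fun m' hm' => h m' (hm'.trans (hk''.1.trans hk.1)),
      (e.z γ b0 ξ).mono hk'' h1⟩

theorem zt_in {m : Mt Ω} {e : Dt Ω} {γ : Ω} (i : Om1) : In m γ (e.z γ) (zt cb e γ i) := by
  intro k _
  by_cases h : ∃ m' ≤ k.1, ∃ η, m'.q.v (cb γ) i η m'.a
  · obtain ⟨m', hm', η, h1⟩ := h
    exact ⟨(m', k.2), ⟨hm', le_rfl⟩, η, ZTX.eq_of h1⟩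
  · push Not at h
    exact ⟨k, le_rfl, b0, ZTX.eq_of_not h⟩

theorem zt_congr {m : Mt Ω} {e e' : Dt Ω} {γ : Ω} (h : ∀ η, EqM m γ (e'.z γ η) (e.z γ η))
    (i : Om1) : EqM m γ (zt cb e' γ i) (zt cb e γ i) := by
  intro k hk ξ hξ
  constructor
  · intro h1
    refine Loc.imp h1 ?_
    rintro k' hk' (⟨η, h2, h3⟩ | ⟨h2, h3⟩)
    · exact Or.inl ⟨η, h2, (h η k' (hk'.1.trans hk) ξ hξ).1 h3⟩
    · exact Or.inr ⟨h2, (h b0 k' (hk'.1.trans hk) ξ hξ).1 h3⟩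
  · intro h1
    refine Loc.imp h1 ?_
    rintro k' hk' (⟨η, h2, h3⟩ | ⟨h2, h3⟩)
    · exact Or.inl ⟨η, h2, (h η k' (hk'.1.trans hk) ξ hξ).2 h3⟩
    · exact Or.inr ⟨h2, (h b0 k' (hk'.1.trans hk) ξ hξ).2 h3⟩

/-- a predicate which depends only on the part below `β` -/
theorem ZTX.loc_res {β : Ω} {Φ : K Ω → Prop} (hΦ : ∀ k, Φ k ↔ Φ (kres β k)) {k : K Ω}
    (h : Loc k Φ) : Loc (kres β k) Φ := by
  intro l hl
  have h1 : Mt.gl β l.1 k.1 ≤ k.1 := Mt.gl_le hl.1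
  obtain ⟨r, hr, hΦr⟩ := h (Mt.gl β l.1 k.1, l.2) ⟨h1, hl.2⟩
  have h2 : r.1.res β ≤ l.1.res β := by
    have := Mt.res_mono (α := β) hr.1
    rwa [Mt.gl_res] at this
  refine ⟨(Mt.gl β r.1 l.1, r.2), ⟨Mt.gl_le' h2, hr.2⟩, ?_⟩
  rw [hΦ]
  rw [hΦ] at hΦr
  have h3 : kres β (Mt.gl β r.1 l.1, r.2) = kres β r := by
    show ((Mt.gl β r.1 l.1).res β, r.2) = (r.1.res β, r.2)
    rw [Mt.gl_res]
  rw [h3]
  exact hΦr

theorem zt_bd {β : Ω} {e : Dt Ω} (he : Bd β e) {γ : Ω} (hγ : cb γ < β) (i : Om1) :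
    BdN β (zt cb e γ i) := by
  refine ⟨fun {ξ k} h => ?_, fun {ξ k} h => ?_⟩
  · obtain ⟨k', _, h1⟩ := h.exists
    rcases h1 with ⟨η, _, h1⟩ | ⟨_, h1⟩
    · exact (he.z0 h1).2.trans (he.z0 h1).1
    · exact (he.z0 h1).2.trans (he.z0 h1).1
  · refine ZTX.loc_res (fun k => ?_) h
    have hz : ∀ η, e.z γ η ξ k ↔ e.z γ η ξ (kres β k) := fun η =>
      ⟨fun h => he.zb h, fun h => (e.z γ η ξ).mono le_kres h⟩
    have hv : ∀ η, k.1.q.v (cb γ) i η k.1.a ↔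
        (kres β k).1.q.v (cb γ) i η (kres β k).1.a := fun η => (ZTX.v_res hγ).symm
    refine or_congr (exists_congr fun η => and_congr (hv η) (hz η)) (and_congr ?_ (hz b0))
    constructor
    · intro h1 m' hm' η h2
      have h3 : Mt.gl β m' k.1 ≤ k.1 := Mt.gl_le hm'
      refine h1 _ h3 η ?_
      rw [← ZTX.v_res hγ, Mt.gl_res, ZTX.v_res hγ]
      exact h2
    · intro h1 m' hm' η h2
      refine h1 (m'.res β) (Mt.res_mono hm') η ?_
      rw [ZTX.v_res hγ]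
      exact h2

/-- every member of the level is a node -/
theorem zt_surj (hcb : ∀ γ, Act (cb γ) ∧ om γ < cb γ) {β : Ω} {e : Dt Ω} (he : Bd β e)
    (γ η : Ω) (k : K Ω) : ∃ k' ≤ k, k'.2 = k.2 ∧ ∃ i, EqB k' γ (zt cb e γ i) (e.z γ η) := by
  have h1 : ix γ η < cb γ := (ix_lt γ η).trans (hcb γ).2
  have h2 : e.z γ (ix γ η) = e.z γ η := by
    by_cases h : η < om γ
    · rw [ix_eq h]
    · rw [ix_ge (not_lt.1 h), he.zw (not_lt.1 h)]
  refine ⟨(⟨k.1.a, Tm.snoc (hcb γ).1 k.1.q h1⟩, k.2),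
    ⟨⟨le_rfl, (Tm.snoc_le (hcb γ).1 k.1.q h1).of_emp⟩, le_rfl⟩, rfl, k.1.q.len (cb γ), ?_⟩
  rw [← h2]
  exact ZTX.eq_of ((Tm.snoc_v_last (hcb γ).1 k.1.q h1).2 rfl)

end Pool.Agent.T27

end

section

/-!
# The tree relation (block SSX)
-/

set_option linter.unusedSectionVars false

namespace Pool.Agent.T27

open Pool.Agent.Lib_helper27 Cardinal Cod

variable {Ω : Type} [LinearOrder Ω] [Cod Ω] {cb : Ω → Ω}

namespace SSX

/-- the nodes of the levels of `p.e` are the same for all stronger conditions -/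
theorem cgr {p p' : Pc Ω} (hp : p' ≤ p) {δ : Ω} (ht : p.e.H δ p.m) {γ : Ω} (hγ : γ ≤ δ)
    (i : Om1) : EqM p'.m γ (zt cb p'.e γ i) (zt cb p.e γ i) := by
  have hH : p.e.H γ p'.m := (p.e.H γ).mono hp.1 (p.tv.dn le_rfl ht hγ)
  exact zt_congr (fun η => (hp.2 p'.m le_rfl γ hH).2 η) i

theorem htm {p p' : Pc Ω} (hp : p' ≤ p) {δ : Ω} (ht : p.e.H δ p.m) : p'.e.H δ p'.m :=
  (hp.2 p'.m le_rfl δ ((p.e.H δ).mono hp.1 ht)).1

/-- transfer of equalities -/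
theorem eqb {p p' : Pc Ω} (hp : p' ≤ p) {δ : Ω} (ht : p.e.H δ p.m) {γ : Ω} (hγ : γ ≤ δ)
    {i j : Om1} {k : K Ω} (hk : k.1 ≤ p'.m) :
    EqB k γ (zt cb p'.e γ i) (zt cb p'.e δ j) ↔ EqB k γ (zt cb p.e γ i) (zt cb p.e δ j) := by
  have h1 : EqB k γ (zt cb p'.e γ i) (zt cb p.e γ i) := (cgr hp ht hγ i).eqB hk
  have h2 : EqB k γ (zt cb p'.e δ j) (zt cb p.e δ j) :=
    ((cgr hp ht le_rfl j).eqB hk).mono le_rfl hγ
  exact ⟨fun h => (h1.symm.trans h).trans h2, fun h => (h1.trans h).trans h2.symm⟩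

theorem rs_le (p : Pc Ω) (m : Mt Ω) (h : m ≤ p.m) : p.rs m h ≤ p := ⟨h, LeT.refl _ _⟩

end SSX

open SSX

theorem SSP.mono {p p' : Pc Ω} {γ δ : Ω} {i j : Om1} {s s' : Cn} (h : SSP cb p γ i δ j s)
    (hp : p' ≤ p) (hs : s' ≤ s) : SSP cb p' γ i δ j s' := by
  refine ⟨htm hp h.ht, h.lt, ?_, ?_⟩
  · refine (eqb hp h.ht h.lt.le (k := (p'.m, s')) le_rfl).2 ?_
    exact h.eq.mono ⟨hp.1, hs⟩ le_rfl
  · intro i' hi' k hk hE
    have hk' : k ≤ ((p.m, s) : K Ω) := hk.trans ⟨hp.1, hs⟩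
    exact h.min i' hi' k hk' ((eqb hp h.ht h.lt.le hk.1).1 hE)

theorem SSP.trans {p : Pc Ω} {γ δ ε : Ω} {i j k : Om1} {s : Cn} (h : SSP cb p γ i δ j s)
    (h' : SSP cb p δ j ε k s) : SSP cb p γ i ε k s := by
  refine ⟨h'.ht, h.lt.trans h'.lt, h.eq.trans (h'.eq.mono le_rfl h.lt.le), ?_⟩
  intro i' hi' k0 hk0 hE
  exact h.min i' hi' k0 hk0 (hE.trans (h'.eq.mono hk0 h.lt.le).symm)

theorem SSP.cmp {p : Pc Ω} {γ δ ε : Ω} {i j k : Om1} {s : Cn} (hγ : γ < δ)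
    (h : SSP cb p γ i ε k s) (h' : SSP cb p δ j ε k s) : SSP cb p γ i δ j s := by
  refine ⟨p.tv.dn le_rfl h'.ht h'.lt.le, hγ, h.eq.trans (h'.eq.mono le_rfl hγ.le).symm, ?_⟩
  intro i' hi' k0 hk0 hE
  exact h.min i' hi' k0 hk0 (hE.trans (h'.eq.mono hk0 hγ.le))

theorem SSP.uniq {p : Pc Ω} {γ ε : Ω} {i j k : Om1} {s : Cn} (h : SSP cb p γ i ε k s)
    (h' : SSP cb p γ j ε k s) : i = j := by
  rcases lt_trichotomy i j with h1 | h1 | h1
  · exact absurd h.eq (h'.min i h1 _ le_rfl)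
  · exact h1
  · exact absurd h'.eq (h.min j h1 _ le_rfl)

theorem SSP.reg {p : Pc Ω} {γ δ : Ω} {i j : Om1} {s : Cn} (ht : p.e.H δ p.m)
    (h : ∀ p' ≤ p, ∀ s' ≤ s, ∃ p'' ≤ p', ∃ s'' ≤ s', SSP cb p'' γ i δ j s'') :
    SSP cb p γ i δ j s := by
  have hlt : γ < δ := by
    obtain ⟨p'', _, s'', _, h1⟩ := h p le_rfl s le_rfl
    exact h1.lt
  refine ⟨ht, hlt, ?_, ?_⟩
  · refine EqB.dense fun k hk => ?_
    obtain ⟨p'', hp'', s'', hs'', h1⟩ := h (p.rs k.1 hk.1) (rs_le _ _ _) k.2 hk.2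
    have hpp : p'' ≤ p := hp''.trans (rs_le _ _ _)
    exact ⟨(p''.m, s''), ⟨hp''.1, hs''⟩, (eqb hpp ht hlt.le (k := (p''.m, s'')) le_rfl).1 h1.eq⟩
  · intro i' hi' k hk hE
    obtain ⟨p'', hp'', s'', hs'', h1⟩ := h (p.rs k.1 hk.1) (rs_le _ _ _) k.2 hk.2
    have hpp : p'' ≤ p := hp''.trans (rs_le _ _ _)
    refine h1.min i' hi' (p''.m, s'') le_rfl ?_
    refine (eqb hpp ht hlt.le (k := (p''.m, s'')) le_rfl).2 ?_
    exact hE.mono ⟨hp''.1, hs''⟩ le_rfl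

theorem SSP.exists_pred (hcb : ∀ γ, Act (cb γ) ∧ om γ < cb γ) {p : Pc Ω} {γ δ : Ω} (j : Om1)
    (s : Cn) (ht : p.e.H δ p.m) (hγ : γ < δ) :
    ∃ p' ≤ p, ∃ s' ≤ s, ∃ i, SSP cb p' γ i δ j s' := by
  have hex : ∃ i : Om1, ∃ k ≤ ((p.m, s) : K Ω), EqB k γ (zt cb p.e γ i) (zt cb p.e δ j) := by
    have h1 : In p.m γ (p.e.z γ) (zt cb p.e δ j) := p.tv.res' le_rfl ht hγ.le (zt_in j)
    obtain ⟨k1, hk1, η, hη⟩ := h1 (p.m, s) le_rfl
    obtain ⟨β, hβ⟩ := p.bd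
    obtain ⟨k2, hk2, _, i, hi⟩ := zt_surj hcb hβ γ η k1
    exact ⟨i, k2, hk2.trans hk1, hi.trans (hη.mono hk2 le_rfl).symm⟩
  obtain ⟨i, ⟨k, hk, hE⟩, hmin⟩ := WellFounded.has_min (wellFounded_lt (α := Om1))
    {i : Om1 | ∃ k ≤ ((p.m, s) : K Ω), EqB k γ (zt cb p.e γ i) (zt cb p.e δ j)} hex
  refine ⟨p.rs k.1 hk.1, rs_le _ _ _, k.2, hk.2, i, (p.e.H δ).mono hk.1 ht, hγ, hE, ?_⟩
  intro i' hi' k' hk' hE'
  exact hmin i' ⟨k', hk'.trans hk, hE'⟩ hi'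

end Pool.Agent.T27

end

section

/-!
# There is no branch (block KIL)
-/

set_option linter.unusedSectionVars false

namespace Pool.Agent.T27

open Pool.Agent.Lib_helper27 Cardinal Cod

variable {Ω : Type} [LinearOrder Ω] [Cod Ω] {cb : Ω → Ω}

namespace KIL

theorem rs_le (p : Pc Ω) (m : Mt Ω) (h : m ≤ p.m) : p.rs m h ≤ p := ⟨h, LeT.refl _ _⟩

theorem tv_wx {m : Mt Ω} {e : Dt Ω} (h : TV m e) (x : Nm Ω) : TV m (e.wx x) :=
  ⟨fun h1 h2 h3 => h.dn h1 h2 h3, fun h1 h2 h3 i => h.res h1 h2 h3 i,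
    fun h1 h2 h3 i j => h.rep h1 h2 h3 i j, fun h1 h2 ξ hξ i => h.flp h1 h2 ξ hξ i⟩

theorem bdn_mono {β β' : Ω} {x : Nm Ω} (h : BdN β x) (hβ : β ≤ β') : BdN β' x :=
  BdN.mono h hβ

theorem bdn_glue {β γ : Ω} {x y : Nm Ω} (hx : BdN β x) (hy : BdN β y) : BdN β (glue γ y x) := by
  constructor
  · intro ξ k h
    rcases lt_or_ge ξ γ with h1 | h1
    · rw [glue_lt h1] at h
      exact hy.x0 h
    · rw [glue_ge h1] at h
      exact hx.x0 h
  · intro ξ k h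
    rcases lt_or_ge ξ γ with h1 | h1
    · rw [glue_lt h1] at h ⊢
      exact hy.xb h
    · rw [glue_ge h1] at h ⊢
      exact hx.xb h

theorem bdn_flip {β ξ : Ω} {x : Nm Ω} (hx : BdN β x) (hξ : ξ < β) : BdN β (flipAt ξ x) := by
  constructor
  · intro η k h
    by_cases he : η = ξ
    · rw [he]
      exact hξ
    · rw [flipAt_ne he] at h
      exact hx.x0 h
  · intro η k h
    by_cases he : η = ξ
    · subst he
      rw [flipAt_self] at h ⊢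
      intro k' hk' hx'
      -- glue `k'` below `β` with `k`
      have h1 : k'.1.res β ≤ k.1.res β := by
        have h2 : k'.1.res β ≤ (k.1.res β).res β := Mt.res_mono hk'.1
        rwa [Mt.res_res_of_le le_rfl] at h2
      set k'' : K Ω := (Mt.gl β k'.1 k.1, k'.2) with hk''
      have h3 : k'' ≤ k := ⟨Mt.gl_le' h1, hk'.2⟩
      have h4 : k'' ≤ kres β k' := ⟨Mt.gl_le_left, le_rfl⟩
      exact h k'' h3 ((x η).mono h4 (hx.xb hx'))
    · rw [flipAt_ne he] at h ⊢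
      exact hx.xb h

/-- `x` and its negation are not equivalent -/
theorem not_iff_neg {x : RP (K Ω)} {k : K Ω} (h : ∀ k' ≤ k, (x k' ↔ x.neg k')) : False := by
  obtain ⟨q, hq, h1⟩ := x.em k
  rcases h1 with h1 | h1
  · exact (h q hq).1 h1 q le_rfl h1
  · exact h1 q le_rfl ((h q hq).2 h1)

/-- the node `(γ, i)` with `γ` above `δ` is decided and the branch `x` of `e` differs from it
at `δ` -/
def Ph (cb : Ω → Ω) (p0 : Pc Ω) (Br : Ω → Om1 → Pc Ω → Prop) (δ : Ω) (m : Mt Ω) (e : Dt Ω) :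
    Prop :=
  ∃ (p : Pc Ω) (γ : Ω) (i : Om1), p ≤ p0 ∧ m ≤ p.m ∧ LeT m e p.e ∧ δ < γ ∧ Br γ i p ∧
    p.e.H γ p.m ∧ ∀ k : K Ω, k.1 ≤ m → (e.x δ k ↔ (zt cb p.e γ i δ).neg k)

theorem Ph.mono {p0 : Pc Ω} {Br : Ω → Om1 → Pc Ω → Prop} {δ : Ω} {m m' : Mt Ω} {e e' : Dt Ω}
    (h : Ph cb p0 Br δ m e) (hm : m' ≤ m) (he : LeD m' e' e) : Ph cb p0 Br δ m' e' := by
  obtain ⟨p, γ, i, h1, h2, h3, h4, h5, h6, h7⟩ := h
  refine ⟨p, γ, i, h1, hm.trans h2, he.t.trans (h3.mono hm), h4, h5, h6, fun k hk => ?_⟩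
  have hH : e.H γ m' := ((h3.mono hm) m' le_rfl γ ((p.e.H γ).mono (hm.trans h2) h6)).1
  rw [← h7 k (hk.trans hm)]
  exact he.x m' le_rfl γ hH k hk δ h4

variable [Inac Ω] {U : Ultrafilter Ω}

/-- the step of the construction -/
theorem step (hU : NUlt U) {p0 : Pc Ω} {Br : Ω → Om1 → Pc Ω → Prop}
    (mono : ∀ γ i p p', p' ≤ p → Br γ i p → Br γ i p')
    (unb : ∀ p ≤ p0, ∀ ε, ∃ p' ≤ p, ∃ γ, ε ≤ γ ∧ ∃ i, Br γ i p') {e : Dt Ω} {δ : Ω}
    (hv : DV p0.m e) (hδ : Hts p0.m e δ) (hb : ∃ β, Bd β e) (hle : LeT p0.m e p0.e) :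
    ∃ (e' : Dt Ω) (δ' : Ω), DV p0.m e' ∧ Hts p0.m e' δ' ∧ (∃ β, Bd β e') ∧ LeD p0.m e' e ∧
      δ < δ' ∧ Loc p0.m fun m' => Ph cb p0 Br δ m' e' := by
  obtain ⟨e', h1, ⟨δ', h2⟩, h3, h4, h5⟩ := dmixD hU hv ⟨δ, hδ⟩ hb (Ph cb p0 Br δ) (by
    intro m' hm'
    -- decide a node above `δ`
    set p : Pc Ω := ⟨m', e, (hv.toTV).mono hm', ⟨δ, hδ.mono hm'⟩, hb⟩ with hp
    have hpp : p ≤ p0 := ⟨hm', hle.mono hm'⟩
    obtain ⟨p1, hp1, γ, hγ, i, hBr⟩ := unb p hpp (om δ)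
    obtain ⟨p2, hp2, hm2, hH⟩ := pc_tall p1 γ
    have hδγ : δ < γ := (lt_om δ).trans_le hγ
    have hp2p : p2 ≤ p := hp2.trans hp1
    have hBr2 : Br γ i p2 := mono γ i p1 p2 hp2 hBr
    obtain ⟨ε, hε⟩ := p2.cl
    have hγε : γ ≤ ε := hε.le_of_H le_rfl hH
    have hHε : p2.e.H ε p2.m := (hε ε).1 le_rfl
    have hle2 : LeT p2.m p2.e e := hp2p.2
    have hm2' : p2.m ≤ m' := hp2p.1
    have hvm : DV p2.m e := hv.mono (hm2'.trans hm')
    have hδm : e.H δ p2.m := (e.H δ).mono (hm2'.trans hm') ((hδ δ).1 le_rfl)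
    -- the new branch
    set y : Nm Ω := zt cb p2.e γ i with hy
    set w0 : Nm Ω := glue γ y (p2.e.z ε b0) with hw0
    set w1 : Nm Ω := flipAt δ w0 with hw1
    set x : Nm Ω := glue δ e.x w1 with hx
    have hyIn : In p2.m γ (p2.e.z γ) y := zt_in i
    have h0 : In p2.m ε (p2.e.z ε) w0 :=
      p2.tv.rep' le_rfl hHε hγε hyIn (in_self _ _ _ _)
    have h1 : In p2.m ε (p2.e.z ε) w1 := p2.tv.flp' le_rfl hHε (hδγ.trans_le hγε) h0
    have hex : In p2.m δ (p2.e.z δ) e.x :=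
      (hle2.in_iff le_rfl hδm).2 (hvm.br p2.m δ le_rfl hδm)
    have h2 : In p2.m ε (p2.e.z ε) x :=
      p2.tv.rep' le_rfl hHε (hδγ.le.trans hγε) hex h1
    have hbrn : Brn p2.m (p2.e.wx x) x := by
      intro m3 γ' hm3 hH3
      have hγ' : γ' ≤ ε := hε.le_of_H hm3 hH3
      exact p2.tv.res' hm3 ((p2.e.H ε).mono hm3 hHε) hγ' (h2.mono hm3)
    refine ⟨p2.m, hm2', p2.e.wx x, ⟨tv_wx p2.tv x, hbrn⟩, ⟨ε, hε⟩, ?_, ?_, ?_⟩
    · -- bounds
      obtain ⟨β1, hβ1⟩ := hb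
      obtain ⟨β2, hβ2⟩ := p2.bd
      have hγβ : γ < β2 := hβ2.H0 hH
      set β : Ω := max (max β1 β2) (om (cb γ)) with hβ
      have hb2 : β2 ≤ β := (le_max_right _ _).trans (le_max_left _ _)
      have hb1 : β1 ≤ β := (le_max_left _ _).trans (le_max_left _ _)
      have hb3 : cb γ < β := (lt_om _).trans_le (le_max_right _ _)
      have hBd : Bd β p2.e := hβ2.mono hb2
      refine ⟨β, hBd.wx ?_⟩
      have hyb : BdN β y := zt_bd hBd hb3 i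
      have hzb : BdN β (p2.e.z ε b0) := by
        constructor
        · intro ξ k h
          obtain ⟨h3, h4⟩ := hBd.z0 h
          exact h4.trans h3
        · intro ξ k h
          exact hBd.zb h
      have hw0b : BdN β w0 := bdn_glue hzb hyb
      have hw1b : BdN β w1 := bdn_flip hw0b (hδγ.trans (hγβ.trans_le hb2))
      exact bdn_glue hw1b (bdn_mono hβ1.x hb1)
    · -- it extends `e`
      refine ⟨hle2, fun m3 hm3 γ' hH3 => ?_⟩
      have hγ' : γ' ≤ δ := (hδ.mono (hm2'.trans hm')).le_of_H hm3 hH3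
      intro k hk ξ hξ
      show x ξ k ↔ e.x ξ k
      rw [hx, glue_lt (hξ.trans_le hγ')]
    · refine ⟨p2, γ, i, hp2p.trans hpp, le_rfl, LeT.refl _ _, hδγ, hBr2, hH, fun k _ => ?_⟩
      show x δ k ↔ (y δ).neg k
      rw [hx, glue_ge le_rfl, hw1, flipAt_self, hw0, glue_lt hδγ])
    (fun m' e' m'' e'' h hm he => Ph.mono h hm he)
  refine ⟨e', δ', h1, h2, h3, h4, ?_, h5⟩
  obtain ⟨m', hm', p, γ, i, _, g2, g3, g4, _, g6, _⟩ := h5.exists
  have hH : e'.H γ m' := (g3 m' le_rfl γ ((p.e.H γ).mono g2 g6)).1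
  exact g4.trans_le (h2.le_of_H hm' hH)

end KIL

open KIL

theorem kill [Inac Ω] {U : Ultrafilter Ω} (hU : NUlt U) (p0 : Pc Ω) (s0 : Cn)
    (Br : Ω → Om1 → Pc Ω → Prop) (mono : ∀ γ i p p', p' ≤ p → Br γ i p → Br γ i p')
    (unb : ∀ p ≤ p0, ∀ ε, ∃ p' ≤ p, ∃ γ, ε ≤ γ ∧ ∃ i, Br γ i p')
    (coh : ∀ p ≤ p0, ∀ γ δ i j, γ < δ → p.e.H δ p.m → Br γ i p → Br δ j p →
      EqB (p.m, s0) γ (zt cb p.e γ i) (zt cb p.e δ j)) : False := by
  -- the sequence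
  let S : Type := {q : Dt Ω × Ω // DV p0.m q.1 ∧ Hts p0.m q.1 q.2 ∧ (∃ β, Bd β q.1) ∧
    LeT p0.m q.1 p0.e}
  have hstart : Nonempty S := by
    obtain ⟨δ, hδ⟩ := p0.cl
    obtain ⟨β, hβ⟩ := p0.bd
    have hH : p0.e.H δ p0.m := (hδ δ).1 le_rfl
    refine ⟨⟨(p0.e.wx (p0.e.z δ b0), δ), ⟨tv_wx p0.tv _, ?_⟩, hδ, ⟨β, hβ.wx ?_⟩, LeT.refl _ _⟩⟩
    · intro m3 γ' hm3 hH3
      have hγ' : γ' ≤ δ := hδ.le_of_H hm3 hH3
      exact p0.tv.res' hm3 ((p0.e.H δ).mono hm3 hH) hγ' (in_self _ _ _ _)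
    · constructor
      · intro ξ k h
        obtain ⟨h3, h4⟩ := hβ.z0 h
        exact h4.trans h3
      · intro ξ k h
        exact hβ.zb h
  have hstep : ∀ q : S, ∃ q' : S, LeD p0.m q'.1.1 q.1.1 ∧ q.1.2 < q'.1.2 ∧
      Loc p0.m fun m' => Ph cb p0 Br q.1.2 m' q'.1.1 := by
    rintro ⟨⟨e, δ⟩, h1, h2, h3, h4⟩
    obtain ⟨e', δ', g1, g2, g3, g4, g5, g6⟩ := step (cb := cb) hU mono unb h1 h2 h3 h4
    exact ⟨⟨(e', δ'), g1, g2, g3, g4.t.trans h4⟩, g4, g5, g6⟩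
  choose nx hnx using hstep
  obtain ⟨q0⟩ := hstart
  let sq : ℕ → S := fun n => Nat.rec q0 (fun _ q => nx q) n
  have hsq : ∀ n, sq (n + 1) = nx (sq n) := fun n => rfl
  obtain ⟨e', δ', f1, f2, f3, f4, f5, f6, f7⟩ := dlimT (m := p0.m) (e := fun n => (sq n).1.1)
    (δ := fun n => (sq n).1.2) (fun n => (sq n).2.1) (fun n => (sq n).2.2.1)
    (fun n => (sq n).2.2.2.1) (fun n => (hnx (sq n)).2.1) (fun n => (hnx (sq n)).1)
  have hle0 : LeT p0.m e' p0.e := (f4 0).t.trans (sq 0).2.2.2.2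
  set p1 : Pc Ω := ⟨p0.m, e', f1.toTV, ⟨δ', f2⟩, f3⟩ with hp1
  have hp10 : p1 ≤ p0 := ⟨le_rfl, hle0⟩
  -- decide a node above `δ'`
  obtain ⟨p2, hp2, γ, hγ, i, hBr⟩ := unb p1 hp10 δ'
  obtain ⟨p3, hp3, _, hH3⟩ := pc_tall p2 γ
  have hBr3 : Br γ i p3 := mono γ i p2 p3 hp3 hBr
  have hp31 : p3 ≤ p1 := hp3.trans hp2
  have hp30 : p3 ≤ p0 := hp31.trans hp10
  set y : Nm Ω := zt cb p3.e γ i with hy
  have hHδ : e'.H δ' p3.m := (e'.H δ').mono hp31.1 ((f2 δ').1 le_rfl)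
  have hyIn : In p3.m δ' (e'.z δ') y := by
    have h1 : In p3.m γ (p3.e.z γ) y := zt_in i
    have h2 : In p3.m δ' (p3.e.z δ') y := p3.tv.res' le_rfl hH3 hγ h1
    exact (hp31.2.in_iff le_rfl hHδ).1 h2
  obtain ⟨k', hk', γ1, hγ1, hyx⟩ := f7 p3.m hp31.1 y hyIn (p3.m, s0) le_rfl
  obtain ⟨n, hn⟩ := f6 γ1 hγ1
  -- the node at the stage `n`
  obtain ⟨m4, hm4, p, γn, j, g1, g2, g3, g4, g5, g6, g7⟩ :=
    (hnx (sq n)).2.2 k'.1 (hk'.1.trans hp31.1)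
  rw [← hsq n] at g3 g7
  have hm43 : m4 ≤ p3.m := hm4.trans hk'.1
  have hLe : LeT m4 p3.e p.e := by
    refine LeT.trans (hp31.2.mono hm43) (LeT.trans ((f4 (n + 1)).t.mono ?_) g3)
    exact hm43.trans hp31.1
  set p4 : Pc Ω := p3.rs m4 hm43 with hp4
  have hp43 : p4 ≤ p3 := rs_le _ _ _
  have hp4p : p4 ≤ p := ⟨g2, hLe⟩
  have hBrn : Br γn j p4 := mono γn j p p4 hp4p g5
  have hBrγ : Br γ i p4 := mono γ i p3 p4 hp43 hBr3
  have hHn : (sq (n + 1)).1.1.H γn m4 := (g3 m4 le_rfl γn ((p.e.H γn).mono g2 g6)).1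
  have hγn : γn ≤ (sq (n + 1)).1.2 :=
    ((sq (n + 1)).2.2.1).le_of_H (hm43.trans hp31.1) hHn
  have hγnδ : γn < δ' := hγn.trans_lt (f5 (n + 1))
  have hγnγ : γn < γ := hγnδ.trans_le hγ
  have hcoh := coh p4 (hp43.trans hp30) γn γ j i hγnγ ((p3.e.H γ).mono hm43 hH3) hBrn hBrγ
  have hδn : (sq n).1.2 < γn := g4
  -- the contradiction
  refine not_iff_neg (x := zt cb p3.e γn j (sq n).1.2) (k := (m4, k'.2)) fun k'' hk'' => ?_
  have hk4 : k'' ≤ ((m4, s0) : K Ω) := hk''.trans ⟨le_rfl, hk'.2⟩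
  have hkk : k'' ≤ k' := hk''.trans ⟨hm4, le_rfl⟩
  have e1 : zt cb p3.e γn j (sq n).1.2 k'' ↔ y (sq n).1.2 k'' := hcoh k'' hk4 _ hδn
  have e2 : y (sq n).1.2 k'' ↔ e'.x (sq n).1.2 k'' := hyx k'' hkk _ hn.le (f5 n)
  have e3 : e'.x (sq n).1.2 k'' ↔ (sq (n + 1)).1.1.x (sq n).1.2 k'' :=
    (f4 (n + 1)).x m4 (hm43.trans hp31.1) γn hHn k'' hk''.1 _ hδn
  have e4 : (sq (n + 1)).1.1.x (sq n).1.2 k'' ↔ (zt cb p.e γn j (sq n).1.2).neg k'' :=
    g7 k'' hk''.1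
  have e5 : (zt cb p.e γn j (sq n).1.2).neg k'' ↔ (zt cb p3.e γn j (sq n).1.2).neg k'' := by
    have hHp : p.e.H γn m4 := (p.e.H γn).mono g2 g6
    have hc : EqM m4 γn (zt cb p3.e γn j) (zt cb p.e γn j) :=
      zt_congr (fun η => (hLe m4 le_rfl γn hHp).2 η) j
    exact forall_congr' fun k3 => imp_congr_right fun hk3 =>
      not_congr (hc k3 (hk3.1.trans hk''.1) _ hδn).symm
  exact e1.trans (e2.trans (e3.trans (e4.trans e5)))

end Pool.Agent.T27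

end

section

/-!
# The extension by `Pc` satisfies the tree property
-/

set_option linter.unusedSectionVars false

namespace Pool.Agent.T27

open Pool.Agent.Lib_helper27
open Fml V Cardinal Q Pool.Agent.Lib_helper27.ST Cod

section ext

variable {P : Type} [Preorder P] [Nonempty P] {Λ : Type} [LinearOrder Λ] [WellFoundedLT Λ]

theorem hart_g1 (h1 : ∀ p : P, Fc p (isHartogs (oall P ℕ) (oall P Om1))) :
    Hart (omega : Ext P) (π (oall P Om1)) := by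
  have h : Holds (extE P) (isHartogs (π (oall P ℕ)) (π (oall P Om1))) :=
    (los (Lk.isHartogs _ _)).2 (T_of_forces h1)
  rw [← Q.omega_eq] at h
  exact holds_isHartogs.1 h

theorem hart_g2 (h2 : ∀ p : P, Fc p (isHartogs (oall P Om1) (oall P Λ))) :
    Hart (π (oall P Om1) : Ext P) (π (oall P Λ)) := by
  have h : Holds (extE P) (isHartogs (π (oall P Om1)) (π (oall P Λ))) :=
    (los (Lk.isHartogs _ _)).2 (T_of_forces h2)
  exact holds_isHartogs.1 h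

/-- If the tree property fails in the extension, some condition forces a name to be a tree relation
without branches. -/
theorem exists_counter (h1 : ∀ p : P, Fc p (isHartogs (oall P ℕ) (oall P Om1)))
    (h2 : ∀ p : P, Fc p (isHartogs (oall P Om1) (oall P Λ)))
    (hTP : ¬ Holds (extE P) (TP2 : Fml (Ext P))) :
    ∃ (p : P) (S : Name P), SysF Λ S p ∧
      ∀ q ≤ p, ∀ b, ¬ Fc q (isBr S (oall P Om1) (oall P Λ) b) := by
  rw [TP2, holds_neg, not_not] at hTP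
  obtain ⟨K, L, hK, hL, T, R, h, hA⟩ := holds_aronszajn.1 hTP
  obtain ⟨S, hS, hS'⟩ := norm_sys hK.infOrd hL hA
  obtain rfl := hK.unique (hart_g1 h1)
  obtain rfl := hL.unique (hart_g2 h2)
  obtain ⟨S, rfl⟩ := π_surj S
  have h1 := (los (Q.lk_isSys _ _ _)).1 hS
  have h2 : Holds (extE P) (neg (ex fun b => isBr (π S) (π (oall P Om1)) (π (oall P Λ)) b)) := by
    rw [holds_neg, holds_ex]
    exact hS'
  have h3 := (los (Q.lk_exBr _ _ _)).1 h2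
  obtain ⟨p, hp, hp'⟩ := Filter.Eventually.exists (T_and.2 ⟨h1, h3⟩)
  refine ⟨p, S, fc_isSys.1 hp, fun q hq b hb => ?_⟩
  exact hp' q hq (forces_ex.2 (Loc.pure fun r hr => ⟨b, Forces.mono nf_basic hr hb⟩))

end ext

section main

variable {Ω : Type} [LinearOrder Ω] [Cod Ω] [Inac Ω] {U : Ultrafilter Ω} (hU : NUlt U)

include hU

theorem pc_hart1 (p : Pc Ω) : Fc p (isHartogs (oall (Pc Ω) ℕ) (oall (Pc Ω) Om1)) := by
  refine fc_hart (few1 hU) (fun x => ?_) p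
  have h := mk_Iio_lt (α := Om1) x (by simp)
  have e1 : #Om1 = aleph 1 := mk_om1
  rw [e1] at h
  have h1 : (aleph 1 : Cardinal.{0}) = Order.succ ℵ₀ := by simp
  have h2 : #{y : Om1 // y < x} ≤ #ℕ := by
    rw [mk_nat]
    exact Order.lt_succ_iff.1 (h.trans_eq h1)
  rw [Cardinal.le_def] at h2
  obtain ⟨e⟩ := h2
  refine ⟨fun y i _ => e y = i, fun _ _ _ _ _ h => h, fun y p => Loc.pure fun _ _ => ⟨e y, rfl⟩,
    fun y i j _ h h' => h.symm.trans h', fun y y' i _ h h' => e.injective (h.trans h'.symm)⟩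

theorem pc_hart2 (p : Pc Ω) : Fc p (isHartogs (oall (Pc Ω) Om1) (oall (Pc Ω) Ω)) :=
  fc_hart (few2 hU) (exists_coll hU) p

/-- The extension has the tree property. -/
theorem holds_tp2 [Nonempty (Pc Ω)] : Holds (extE (Pc Ω)) (TP2 : Fml (Ext (Pc Ω))) := by
  by_contra hcon
  obtain ⟨p0, S, hS, hno⟩ := exists_counter (Λ := Ω) (pc_hart1 hU) (pc_hart2 hU) hcon
  refine not_TR hU (RR S) p0 ⟨?_, ?_, ?_, ?_, ?_, ?_⟩
  · exact fun h h' => Forces.mono nf_basic h h'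
  · exact fun h => Forces.dense nf_basic h
  · exact fun hp hγ h h' => hS.s3 _ hp _ _ _ _ _ _ hγ h h'
  · exact fun hp h h' => hS.s4 _ hp _ _ _ _ _ h h'
  · exact fun δ p hp => hS.s5 δ p hp
  · intro Q p hp hmono htot huni hcoh
    refine hno p hp (brName fun x q => Q x.1 x.2 q) (fc_isBr_of ?_ htot huni hcoh)
    exact fun x q q' hq h => hmono _ _ _ _ hq h

end main

end Pool.Agent.T27

end

section

/-!
# The system of tree relations added by `Pc`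
-/

set_option linter.unusedSectionVars false
set_option linter.unusedTactic false
set_option linter.unreachableTactic false

namespace Pool.Agent.T27

open Pool.Agent.Lib_helper27
open Fml V Cardinal Q Cod

variable {Ω : Type} [LinearOrder Ω] [Cod Ω]

/-- the index set -/
abbrev Jx5 (Ω : Type) : Type := ((Ω × Om1) × (Ω × Om1)) × Q.Fn

/-- the condition `p` decides that the relation holds -/
def QSP (cb : Ω → Ω) (x : Jx5 Ω) (p : Pc Ω) : Prop :=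
  SSP cb p x.1.1.1 x.1.1.2 x.1.2.1 x.1.2.2 x.2

theorem down_QSP (cb : Ω → Ω) : Down (QSP cb) := by
  rintro ⟨⟨⟨γ, i⟩, δ, j⟩, s⟩ p p' hp h
  exact SSP.mono h hp le_rfl

section names

variable (P : Type) [Preorder P]

/-- the name of the pair `((γ, i), (δ, j))` -/
noncomputable def qnm [WellFoundedLT Ω] (x : (Ω × Om1) × (Ω × Om1)) : Name P :=
  mkOPair (mkOPair (onm _ x.1.1) (onm _ x.1.2)) (mkOPair (onm _ x.2.1) (onm _ x.2.2))

end names

section cnm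

variable {P : Type} [Preorder P]

theorem cnm_inj {s s' : Q.Fn} {t : P} (h : feq (cnm P s) (cnm P s') t) : s = s' := by
  have key : ∀ {s s' : Q.Fn}, feq (cnm P s) (cnm P s') t → s.1 ⊆ s'.1 := by
    intro s s' h x hx
    have h1 : fmem (pnm P x) (cnm P s) t := fmem_snm.2 hx
    exact fmem_snm.1 (fmem_congr_right h h1)
  exact Subtype.ext (Finset.Subset.antisymm (key h) (key (feq_symm h)))

theorem cnm_sub {s s' : Q.Fn} {t : P} : Fc t (isSubset (cnm P s) (cnm P s')) ↔ s.1 ⊆ s'.1 :=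
  snm_sub

end cnm

variable [Inac Ω]

/-- the name of the system -/
noncomputable def SN (cb : Ω → Ω) : Name (Pc Ω) :=
  mkFn (Jx5 Ω) (fun x => qnm (Pc Ω) x.1) (fun x => cnm (Pc Ω) x.2) (QSP cb)

variable {cb : Ω → Ω}

/-- the forced relation -/
def RS' (cb : Ω → Ω) (γ : Ω) (i : Om1) (δ : Ω) (j : Om1) (s : Q.Fn) (t : Pc Ω) : Prop :=
  Fc t (app5 (SN cb) (onm _ γ) (onm _ i) (onm _ δ) (onm _ j) (cnm _ s))

theorem rs_loc {γ i δ j s t} : RS' cb γ i δ j s t ↔ Loc t (QSP cb (((γ, i), (δ, j)), s)) := by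
  constructor
  · intro h
    refine (forces_ex.1 h).bind ?_
    rintro e _ ⟨x, hx⟩
    refine (forces_ex.1 hx).bind ?_
    rintro f hf ⟨y, hy⟩
    refine (forces_ex.1 hy).bind ?_
    rintro g hg ⟨z, h1, h2, h3, h4⟩
    refine ((fc_app (down_QSP cb)).1 h4).imp ?_
    rintro u hu ⟨⟨⟨⟨γ', i'⟩, δ', j'⟩, s'⟩, h5, h6, h7⟩
    have h8 := opair_inj (feq_trans (feq_symm (feq_mono hu (fc_opair_iff.1 h3))) h6)
    have h9 := opair_inj (feq_trans (feq_symm (feq_mono hu (fc_opair_iff.1 h1))) h8.1)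
    have h10 := opair_inj (feq_trans (feq_symm (feq_mono hu (fc_opair_iff.1 h2))) h8.2)
    obtain rfl := onm_inj h9.1
    obtain rfl := onm_inj h9.2
    obtain rfl := onm_inj h10.1
    obtain rfl := onm_inj h10.2
    obtain rfl := cnm_inj h7
    exact h5
  · intro h
    refine forces_ex.2 (Loc.pure fun e he => ⟨mkOPair (onm _ γ) (onm _ i), ?_⟩)
    refine forces_ex.2 (Loc.pure fun f hf => ⟨mkOPair (onm _ δ) (onm _ j), ?_⟩)
    refine forces_ex.2 (Loc.pure fun g hg => ⟨qnm (Pc Ω) ((γ, i), (δ, j)), ?_⟩)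
    refine ⟨fc_opair_iff.2 (feq_refl _ _), fc_opair_iff.2 (feq_refl _ _),
      fc_opair_iff.2 (feq_refl _ _), ?_⟩
    refine (fc_app (down_QSP cb)).2 ((h.mono (hg.trans (hf.trans he))).imp fun u _ hu => ?_)
    exact ⟨_, hu, feq_refl _ _, feq_refl _ _⟩

theorem pc_H {p p' : Pc Ω} (h : p' ≤ p) {δ : Ω} (hH : p.e.H δ p.m) : p'.e.H δ p'.m :=
  (h.2 p'.m le_rfl δ ((p.e.H δ).mono h.1 hH)).1

theorem rs_iff {γ i δ j s} {t : Pc Ω} (h : t.e.H δ t.m) :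
    RS' cb γ i δ j s t ↔ SSP cb t γ i δ j s := by
  rw [rs_loc]
  constructor
  · intro h1
    refine SSP.reg h fun t' ht' s' hs' => ?_
    obtain ⟨u, hu, h2⟩ := h1 t' ht'
    exact ⟨u, hu, s', le_rfl, SSP.mono h2 le_rfl hs'⟩
  · intro h1
    exact Loc.pure fun u hu => SSP.mono h1 hu le_rfl

theorem rs_mono {γ i δ j s} {t t' : Pc Ω} (h : RS' cb γ i δ j s t) (ht : t' ≤ t) :
    RS' cb γ i δ j s t' := Forces.mono nf_basic ht h

/-- to prove that a relation is forced, one may extend the condition -/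
theorem rs_of {γ i δ j s} {t : Pc Ω} (ε : Ω)
    (h : ∀ t' ≤ t, t'.e.H ε t'.m → RS' cb γ i δ j s t') : RS' cb γ i δ j s t := by
  refine Forces.dense nf_basic fun u hu => ?_
  obtain ⟨v, hv, _, h1⟩ := pc_tall u ε
  exact ⟨v, hv, h v (hv.trans hu) h1⟩

theorem fc_csA (t : Pc Ω) : Fc t (csA (SN cb) (oall (Pc Ω) Om1) (oall (Pc Ω) Ω) (call (Pc Ω))) := by
  refine (fc_ball_oall ?_).2 fun γ => (fc_ball_oall ?_).2 fun i => (fc_ball_oall ?_).2 fun δ =>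
    (fc_ball_oall ?_).2 fun j => (fc_ball_mkAll ?_).2 fun s => ?main
  case main =>
    refine (forces_imp nf_basic).2 fun u _ h => ?_
    obtain ⟨v, _, h1⟩ := (rs_loc.1 h).exists
    exact onm_mem (SSP.lt h1) u
  all_goals
    intro _ _ _ _
    repeat' first
      | assumption
      | exact feq_refl _ _
      | with_reducible refine rl_app5 (fun x => feq_refl x _) ?_ ?_ ?_ ?_ ?_ ?_
      | with_reducible refine Fml.Rel.app (fun x => feq_refl x _) ?_ ?_ ?_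
      | with_reducible refine Fml.Rel.isSubset (fun x => feq_refl x _) ?_ ?_
      | with_reducible refine Fml.Rel.ball (fun x => feq_refl x _) ?_ (fun _ => ?_)
      | with_reducible refine Fml.Rel.bex (fun x => feq_refl x _) ?_ (fun _ => ?_)
      | with_reducible refine Fml.Rel.imp ?_ ?_
      | with_reducible refine Fml.Rel.and ?_ ?_
      | with_reducible refine Fml.Rel.neg ?_
      | with_reducible refine Fml.Rel.mem ?_ ?_
      | with_reducible refine Fml.Rel.eq ?_ ?_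

theorem fc_csB (t : Pc Ω) : Fc t (csB (SN cb) (oall (Pc Ω) Om1) (oall (Pc Ω) Ω) (call (Pc Ω))) := by
  refine (fc_ball_oall ?_).2 fun γ => (fc_ball_oall ?_).2 fun i => (fc_ball_oall ?_).2 fun δ =>
    (fc_ball_oall ?_).2 fun j => (fc_ball_oall ?_).2 fun ε => (fc_ball_oall ?_).2 fun k =>
    (fc_ball_mkAll ?_).2 fun s => ?main
  case main =>
    refine (forces_imp nf_basic).2 fun u _ h => ?_
    refine rs_of (max δ ε) fun v hv hε => ?_
    have h1 := (rs_iff (v.tv.dn le_rfl hε (le_max_left _ _))).1 (rs_mono h.1 hv)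
    have h2 := (rs_iff (v.tv.dn le_rfl hε (le_max_right _ _))).1 (rs_mono h.2 hv)
    exact (rs_iff (v.tv.dn le_rfl hε (le_max_right _ _))).2 (h1.trans h2)
  all_goals
    intro _ _ _ _
    repeat' first
      | assumption
      | exact feq_refl _ _
      | with_reducible refine rl_app5 (fun x => feq_refl x _) ?_ ?_ ?_ ?_ ?_ ?_
      | with_reducible refine Fml.Rel.app (fun x => feq_refl x _) ?_ ?_ ?_
      | with_reducible refine Fml.Rel.isSubset (fun x => feq_refl x _) ?_ ?_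
      | with_reducible refine Fml.Rel.ball (fun x => feq_refl x _) ?_ (fun _ => ?_)
      | with_reducible refine Fml.Rel.bex (fun x => feq_refl x _) ?_ (fun _ => ?_)
      | with_reducible refine Fml.Rel.imp ?_ ?_
      | with_reducible refine Fml.Rel.and ?_ ?_
      | with_reducible refine Fml.Rel.neg ?_
      | with_reducible refine Fml.Rel.mem ?_ ?_
      | with_reducible refine Fml.Rel.eq ?_ ?_

theorem fc_csC (t : Pc Ω) : Fc t (csC (SN cb) (oall (Pc Ω) Om1) (oall (Pc Ω) Ω) (call (Pc Ω))) := by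
  refine (fc_ball_oall ?_).2 fun γ => (fc_ball_oall ?_).2 fun i => (fc_ball_oall ?_).2 fun δ =>
    (fc_ball_oall ?_).2 fun j => (fc_ball_oall ?_).2 fun ε => (fc_ball_oall ?_).2 fun k =>
    (fc_ball_mkAll ?_).2 fun s => ?main
  case main =>
    refine (forces_imp nf_basic).2 fun u _ h => ?_
    refine rs_of (max δ ε) fun v hv hε => ?_
    have h1 := (rs_iff (v.tv.dn le_rfl hε (le_max_right _ _))).1 (rs_mono h.2.1 hv)
    have h2 := (rs_iff (v.tv.dn le_rfl hε (le_max_right _ _))).1 (rs_mono h.2.2 hv)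
    exact (rs_iff (v.tv.dn le_rfl hε (le_max_left _ _))).2 (h1.cmp (onm_mem_iff.1 h.1) h2)
  all_goals
    intro _ _ _ _
    repeat' first
      | assumption
      | exact feq_refl _ _
      | with_reducible refine rl_app5 (fun x => feq_refl x _) ?_ ?_ ?_ ?_ ?_ ?_
      | with_reducible refine Fml.Rel.app (fun x => feq_refl x _) ?_ ?_ ?_
      | with_reducible refine Fml.Rel.isSubset (fun x => feq_refl x _) ?_ ?_
      | with_reducible refine Fml.Rel.ball (fun x => feq_refl x _) ?_ (fun _ => ?_)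
      | with_reducible refine Fml.Rel.bex (fun x => feq_refl x _) ?_ (fun _ => ?_)
      | with_reducible refine Fml.Rel.imp ?_ ?_
      | with_reducible refine Fml.Rel.and ?_ ?_
      | with_reducible refine Fml.Rel.neg ?_
      | with_reducible refine Fml.Rel.mem ?_ ?_
      | with_reducible refine Fml.Rel.eq ?_ ?_

theorem fc_csD (t : Pc Ω) : Fc t (csD (SN cb) (oall (Pc Ω) Om1) (oall (Pc Ω) Ω) (call (Pc Ω))) := by
  refine (fc_ball_oall ?_).2 fun γ => (fc_ball_oall ?_).2 fun i => (fc_ball_oall ?_).2 fun j =>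
    (fc_ball_oall ?_).2 fun ε => (fc_ball_oall ?_).2 fun k =>
    (fc_ball_mkAll ?_).2 fun s => ?main
  case main =>
    refine (forces_imp nf_basic).2 fun u _ h => ?_
    obtain ⟨v, hv, _, hε⟩ := pc_tall u ε
    have h1 := (rs_iff hε).1 (rs_mono h.1 hv)
    have h2 := (rs_iff hε).1 (rs_mono h.2 hv)
    rw [h1.uniq h2]
    exact feq_refl _ _
  all_goals
    intro _ _ _ _
    repeat' first
      | assumption
      | exact feq_refl _ _
      | with_reducible refine rl_app5 (fun x => feq_refl x _) ?_ ?_ ?_ ?_ ?_ ?_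
      | with_reducible refine Fml.Rel.app (fun x => feq_refl x _) ?_ ?_ ?_
      | with_reducible refine Fml.Rel.isSubset (fun x => feq_refl x _) ?_ ?_
      | with_reducible refine Fml.Rel.ball (fun x => feq_refl x _) ?_ (fun _ => ?_)
      | with_reducible refine Fml.Rel.bex (fun x => feq_refl x _) ?_ (fun _ => ?_)
      | with_reducible refine Fml.Rel.imp ?_ ?_
      | with_reducible refine Fml.Rel.and ?_ ?_
      | with_reducible refine Fml.Rel.neg ?_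
      | with_reducible refine Fml.Rel.mem ?_ ?_
      | with_reducible refine Fml.Rel.eq ?_ ?_

theorem fc_csE (hcb : ∀ γ, Act (cb γ) ∧ om γ < cb γ) (t : Pc Ω) : Fc t (csE (SN cb) (oall (Pc Ω) Om1) (oall (Pc Ω) Ω) (call (Pc Ω))) := by
  refine (fc_ball_oall ?_).2 fun δ => (fc_ball_oall ?_).2 fun j => (fc_ball_onm ?_).2 fun γ hγ =>
    (fc_ball_mkAll ?_).2 fun s => (fc_bex_mkAll ?_).2 ?main
  case main =>
    intro u _
    obtain ⟨v0, hv0, _, hδ0⟩ := pc_tall u δ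
    obtain ⟨v, hv, s', hs', i, hi⟩ := SSP.exists_pred hcb j s hδ0 hγ
    refine ⟨v, hv.trans hv0, s', cnm_sub.2 hs', ?_⟩
    exact forces_bex.2 (Loc.pure fun w hw => ⟨_, onm_mem_oall i w,
      rs_mono ((rs_iff hi.ht).2 hi) hw⟩)
  all_goals
    intro _ _ _ _
    repeat' first
      | assumption
      | exact feq_refl _ _
      | with_reducible refine rl_app5 (fun x => feq_refl x _) ?_ ?_ ?_ ?_ ?_ ?_
      | with_reducible refine Fml.Rel.app (fun x => feq_refl x _) ?_ ?_ ?_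
      | with_reducible refine Fml.Rel.isSubset (fun x => feq_refl x _) ?_ ?_
      | with_reducible refine Fml.Rel.ball (fun x => feq_refl x _) ?_ (fun _ => ?_)
      | with_reducible refine Fml.Rel.bex (fun x => feq_refl x _) ?_ (fun _ => ?_)
      | with_reducible refine Fml.Rel.imp ?_ ?_
      | with_reducible refine Fml.Rel.and ?_ ?_
      | with_reducible refine Fml.Rel.neg ?_
      | with_reducible refine Fml.Rel.mem ?_ ?_
      | with_reducible refine Fml.Rel.eq ?_ ?_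

theorem fc_csF (t : Pc Ω) : Fc t (csF (SN cb) (oall (Pc Ω) Om1) (oall (Pc Ω) Ω) (call (Pc Ω))) := by
  refine (fc_ball_oall ?_).2 fun γ => (fc_ball_oall ?_).2 fun i => (fc_ball_oall ?_).2 fun δ =>
    (fc_ball_oall ?_).2 fun j => (fc_ball_mkAll ?_).2 fun s => (fc_ball_mkAll ?_).2 fun s' => ?main
  case main =>
    refine (forces_imp nf_basic).2 fun u _ h => ?_
    refine rs_of δ fun v hv hδ => ?_
    exact (rs_iff hδ).2 (((rs_iff hδ).1 (rs_mono h.2 hv)).mono le_rfl (cnm_sub.1 h.1))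
  all_goals
    intro _ _ _ _
    repeat' first
      | assumption
      | exact feq_refl _ _
      | with_reducible refine rl_app5 (fun x => feq_refl x _) ?_ ?_ ?_ ?_ ?_ ?_
      | with_reducible refine Fml.Rel.app (fun x => feq_refl x _) ?_ ?_ ?_
      | with_reducible refine Fml.Rel.isSubset (fun x => feq_refl x _) ?_ ?_
      | with_reducible refine Fml.Rel.ball (fun x => feq_refl x _) ?_ (fun _ => ?_)
      | with_reducible refine Fml.Rel.bex (fun x => feq_refl x _) ?_ (fun _ => ?_)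
      | with_reducible refine Fml.Rel.imp ?_ ?_
      | with_reducible refine Fml.Rel.and ?_ ?_
      | with_reducible refine Fml.Rel.neg ?_
      | with_reducible refine Fml.Rel.mem ?_ ?_
      | with_reducible refine Fml.Rel.eq ?_ ?_

theorem fc_csG (t : Pc Ω) : Fc t (csG (SN cb) (oall (Pc Ω) Om1) (oall (Pc Ω) Ω) (call (Pc Ω))) := by
  refine (fc_ball_oall ?_).2 fun γ => (fc_ball_oall ?_).2 fun i => (fc_ball_oall ?_).2 fun δ =>
    (fc_ball_oall ?_).2 fun j => (fc_ball_mkAll ?_).2 fun s => ?main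
  case main =>
    refine (forces_imp nf_basic).2 fun u _ h => ?_
    refine rs_of δ fun v hv hδ => (rs_iff hδ).2 (SSP.reg hδ fun v' hv' s' hs' => ?_)
    have h1 := (forces_ball nf_basic).1 h (cnm _ s') v' (hv'.trans hv) (fmem_mkAll_of s')
    have h2 := (forces_imp nf_basic).1 h1 v' le_rfl (cnm_sub.2 hs')
    obtain ⟨w, hw, x, hx, h3⟩ := (forces_bex.1 h2).exists
    obtain ⟨w', hw', s'', he⟩ := (fmem_mkAll.1 hx).exists
    have h4 : Fc w' (and (isSubset (cnm _ s') (cnm _ s''))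
        (app5 (SN cb) (onm _ γ) (onm _ i) (onm _ δ) (onm _ j) (cnm _ s''))) := by
      refine (fc_congr (.and (Fml.Rel.isSubset (fun x => feq_refl x w') (feq_refl _ _) he)
        (rl_app5 (fun x => feq_refl x w') (feq_refl _ _) (feq_refl _ _) (feq_refl _ _)
          (feq_refl _ _) (feq_refl _ _) he)) le_rfl).1 (Forces.mono nf_basic hw' h3)
    have hle : w' ≤ v' := hw'.trans hw
    refine ⟨w', hle, s'', cnm_sub.1 h4.1, ?_⟩
    exact (rs_iff (pc_H (hle.trans hv') hδ)).1 h4.2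
  all_goals
    intro _ _ _ _
    repeat' first
      | assumption
      | exact feq_refl _ _
      | with_reducible refine rl_app5 (fun x => feq_refl x _) ?_ ?_ ?_ ?_ ?_ ?_
      | with_reducible refine Fml.Rel.app (fun x => feq_refl x _) ?_ ?_ ?_
      | with_reducible refine Fml.Rel.isSubset (fun x => feq_refl x _) ?_ ?_
      | with_reducible refine Fml.Rel.ball (fun x => feq_refl x _) ?_ (fun _ => ?_)
      | with_reducible refine Fml.Rel.bex (fun x => feq_refl x _) ?_ (fun _ => ?_)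
      | with_reducible refine Fml.Rel.imp ?_ ?_
      | with_reducible refine Fml.Rel.and ?_ ?_
      | with_reducible refine Fml.Rel.neg ?_
      | with_reducible refine Fml.Rel.mem ?_ ?_
      | with_reducible refine Fml.Rel.eq ?_ ?_

theorem fc_csH {U : Ultrafilter Ω} (hU : NUlt U) (t : Pc Ω) : Fc t (csH (SN cb) (oall (Pc Ω) Om1) (oall (Pc Ω) Ω) (call (Pc Ω))) := by
  intro u _ hcon
  obtain ⟨v0, _, x, hx, h0⟩ := (forces_bex.1 hcon).exists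
  obtain ⟨v1, hv1, s, he⟩ := (fmem_mkAll.1 hx).exists
  obtain ⟨v2, hv2, b, hb0⟩ := (forces_ex.1 (Forces.mono nf_basic hv1 h0)).exists
  have hb : Fc v2 (csHb (SN cb) (oall (Pc Ω) Om1) (oall (Pc Ω) Ω) (cnm _ s) b) :=
    (fc_uni (cv (csHb 0 1 2 3 4) 5) 5 (l := [SN cb, oall (Pc Ω) Om1, oall (Pc Ω) Ω, x])
      (l' := [SN cb, oall (Pc Ω) Om1, oall (Pc Ω) Ω, cnm _ s])
      (.cons (feq_refl _ _) (.cons (feq_refl _ _) (.cons (feq_refl _ _)
        (.cons (feq_mono hv2 he) .nil)))) (feq_refl b v2) le_rfl).1 hb0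
  obtain ⟨hb1, hb2⟩ := hb
  refine kill (cb := cb) hU v2 s (fun γ i t => Fc t (app b (onm _ γ) (onm _ i)))
    (fun γ i t t' ht h => Forces.mono nf_basic ht h) ?_ ?_
  · intro w hw ε
    have h1 := (forces_ball nf_basic).1 hb1 (onm _ ε) w hw (onm_mem_oall ε w)
    obtain ⟨w1, hw1, y, hy, h2, h3⟩ := (forces_bex.1 h1).exists
    obtain ⟨w2, hw2, γ, hγ⟩ := (fmem_oall.1 hy).exists
    obtain ⟨w3, hw3, i', hi', h4⟩ := (forces_bex.1 (Forces.mono nf_basic hw2 h3)).exists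
    obtain ⟨w4, hw4, i, hi⟩ := (fmem_oall.1 hi').exists
    refine ⟨w4, hw4.trans (hw3.trans (hw2.trans hw1)), γ, ?_, i, ?_⟩
    · by_contra hlt
      rw [not_le] at hlt
      exact h2 w2 hw2 (fmem_congr_left (feq_symm hγ) (onm_mem hlt w2))
    · exact app_congr' (feq_mono (hw4.trans hw3) hγ) hi (Forces.mono nf_basic hw4 h4)
  · intro w hw γ δ i j hγ hδ hi hj
    have h3 := (forces_ball nf_basic).1 hb2 _ w hw (onm_mem_oall γ w)
    have h4 := (forces_ball nf_basic).1 h3 _ w le_rfl (onm_mem_oall δ w)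
    have h5 := (forces_ball nf_basic).1 h4 _ w le_rfl (onm_mem_oall i w)
    have h6 := (forces_ball nf_basic).1 h5 _ w le_rfl (onm_mem_oall j w)
    have h7 := (forces_imp nf_basic).1 h6 w le_rfl ⟨onm_mem hγ w, hi, hj⟩
    exact ((rs_iff hδ).1 h7).eq

theorem fc_isCSys {U : Ultrafilter Ω} (hU : NUlt U) (hcb : ∀ γ, Act (cb γ) ∧ om γ < cb γ)
    (t : Pc Ω) : Fc t (isCSys (SN cb) (oall (Pc Ω) Om1) (oall (Pc Ω) Ω) (call (Pc Ω))) :=
  ⟨fc_csA t, fc_csB t, fc_csC t, fc_csD t, fc_csE hcb t, fc_csF t, fc_csG t, fc_csH hU t⟩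

/-- In the extension there is a system of tree relations indexed by Cohen conditions. -/
theorem holds_isCSys [Nonempty (Pc Ω)] {U : Ultrafilter Ω} (hU : NUlt U)
    (hcb : ∀ γ, Act (cb γ) ∧ om γ < cb γ) : Holds (extE (Pc Ω))
    (isCSys (π (SN cb)) (π (oall (Pc Ω) Om1)) (π (oall (Pc Ω) Ω)) (π (call (Pc Ω)))) :=
  (los (lk_env4 (cv (isCSys 0 1 2 3) 4) _ _ _ _)).2 (T_of_forces (fc_isCSys hU hcb))

theorem holds_cohen [Nonempty (Pc Ω)] : Holds (extE (Pc Ω)) (isCohenPoset (π (call (Pc Ω)))) :=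
  (los (lk_env1 (cv (isCohenPoset 0) 1) _)).2 (T_of_forces fc_cohenP)

end Pool.Agent.T27

end

section

/-!
# The main theorem
-/

namespace Pool.Agent.T27

open Pool.Agent.Lib_helper27
open Fml V Cardinal Q Pool.Agent.Lib_helper27.ST

theorem main {κ : Cardinal.{0}} (hκ : MeasC κ) :
    ∃ (M : Type 1) (E : M → M → Prop), IsModelOfZFC E ∧ Holds E TP2 ∧
      (∃! C : M, Holds E (isCohenPoset C)) ∧
      ∀ C : M, Holds E (isCohenPoset C) →
        (∃! A : AtomForce (Cond E C) M, IsForcingRelation E C A) ∧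
        ∀ A : AtomForce (Cond E C) M, IsForcingRelation E C A →
          ∀ p : Cond E C, Forces A p aronszajn := by
  haveI : Inac κ.ord.ToType := meas_inac hκ
  obtain ⟨U, hU⟩ := meas_nult hκ
  obtain ⟨hcod⟩ := exists_cod hU
  haveI : Cod κ.ord.ToType := hcod
  haveI : Nonempty (Pc κ.ord.ToType) := pc_nonempty
  obtain ⟨cb, hcb⟩ := exists_cb hU
  obtain ⟨hC, hA⟩ := Pool.Agent.Lib_helper27.main (extE (Pc κ.ord.ToType)) ext_zfc
  refine ⟨Ext (Pc κ.ord.ToType), extE (Pc κ.ord.ToType), ext_zfc, holds_tp2 hU, hC, fun C hC' =>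
    ⟨(hA C hC').1, fun A hA' p => ?_⟩⟩
  obtain rfl := hC.unique hC' holds_cohen
  have hK : Hart (omega : Ext (Pc κ.ord.ToType)) (π (oall (Pc κ.ord.ToType) Om1)) :=
    hart_g1 (pc_hart1 hU)
  have hL : Hart (π (oall (Pc κ.ord.ToType) Om1) : Ext (Pc κ.ord.ToType))
      (π (oall (Pc κ.ord.ToType) κ.ord.ToType)) := hart_g2 (pc_hart2 hU)
  have hc : CSysM (π (SN cb) : Ext (Pc κ.ord.ToType)) (π (oall (Pc κ.ord.ToType) Om1))
      (π (oall (Pc κ.ord.ToType) κ.ord.ToType)) (π (call (Pc κ.ord.ToType))) :=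
    ST.holds_isCSys (T27.holds_isCSys hU hcb)
  exact fc_aronszajn hA' (fun p => ST.holds_isCohenPoset.1 hC' p) (hc.nsys hL.1) hK hL p

end Pool.Agent.T27

end
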